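import Pool.Agent.MB.Defs

/-! MB B1: the units `T n`. -/

set_option autoImplicit false

namespace Pool.Agent.MB

open PowerSeries Finset

variable (p : ℕ) [hpf : Fact p.Prime]

theorem TU_zero : TU p 0 = 1 := by simp [TU]

theorem TU_add (m n : E) : TU p (m + n) = TU p m * TU p n := by
  simp only [TU, Pi.add_apply, zpow_add, Finset.prod_mul_distrib]

theorem TU_neg (n : E) : TU p (-n) = (TU p n)⁻¹ := by
  simp [TU]

theorem T_zero : T p 0 = 1 := by simp [T, TU_zero]

theorem T_add (m n : E) : T p (m + n) = T p m * T p n := by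
  simp [T, TU_add]

theorem T_neg_mul (n : E) : T p (-n) * T p n = 1 := by
  rw [← T_add, neg_add_cancel, T_zero]

theorem T_mul_neg (n : E) : T p n * T p (-n) = 1 := by
  rw [← T_add, add_neg_cancel, T_zero]

theorem isUnit_T (n : E) : IsUnit (T p n) := (TU p n).isUnit

theorem T_ne_zero (n : E) : T p n ≠ 0 := (isUnit_T p n).ne_zero

theorem T_nsmul (k : ℕ) (n : E) : T p (k • n) = T p n ^ k := by
  induction k with
  | zero => simp [T_zero]
  | succ k ih => rw [succ_nsmul, T_add, ih, pow_succ]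

theorem T_psmul (n : E) : T p ((p : ℤ) • n) = T p n ^ p := by
  rw [← T_nsmul, natCast_zsmul]

theorem T_e (j : Fin 4) : T p (e j) = ((U p j : Polynomial (ZMod p)) : P p) := by
  unfold T TU e
  rw [Finset.prod_eq_single j]
  · simp [uu]
  · intro i _ hi
    simp [Pi.single_eq_of_ne hi]
  · simp

theorem T_nonneg (n : Fin 4 → ℕ) : T p (fun j => (n j : ℤ)) =
    ((∏ j, U p j ^ n j : Polynomial (ZMod p)) : P p) := by
  unfold T TU
  simp only [zpow_natCast]
  rw [← Polynomial.coeToPowerSeries.ringHom_apply, map_prod, Units.coe_prod]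
  refine Finset.prod_congr rfl fun j _ => ?_
  rw [map_pow, Units.val_pow_eq_pow_val, Polynomial.coeToPowerSeries.ringHom_apply]
  simp [uu]

theorem T_th (l : ℕ) : T p (th l) = ((U p 1 ^ l * Q p : Polynomial (ZMod p)) : P p) := by
  have : th l = fun j => (((![0, l + 1, 1, 1] : Fin 4 → ℕ) j : ℕ) : ℤ) := by
    funext j
    fin_cases j <;> simp [th]
  rw [this, T_nonneg]
  congr 1
  simp only [Fin.prod_univ_four, Q]
  simp
  ring

theorem constantCoeff_T (n : E) : PowerSeries.constantCoeff (T p n) = 1 := by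
  have h1 : ∀ j, Units.map (PowerSeries.constantCoeff (R := ZMod p)).toMonoidHom (uu p j) = 1 := by
    intro j
    ext
    simp [uu, U]
  have : Units.map (PowerSeries.constantCoeff (R := ZMod p)).toMonoidHom (TU p n) = 1 := by
    unfold TU
    rw [map_prod]
    refine Finset.prod_eq_one fun j _ => ?_
    rw [map_zpow, h1, one_zpow]
  have h2 := congrArg Units.val this
  simpa [T] using h2

theorem Dvd.exists_smul {n : E} (h : Dvd p n) : ∃ n' : E, n = (p : ℤ) • n' := by
  choose n' hn' using h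
  exact ⟨n', by funext j; simp [hn' j]⟩

theorem Dvd.smul (n : E) : Dvd p ((p : ℤ) • n) := fun j => ⟨n j, by simp⟩

theorem dvd_iff (n : E) : Dvd p n ↔ ∃ n' : E, n = (p : ℤ) • n' :=
  ⟨Dvd.exists_smul p, by rintro ⟨n', rfl⟩; exact Dvd.smul p n'⟩

theorem Dvd.add {m n : E} (hm : Dvd p m) (hn : Dvd p n) : Dvd p (m + n) :=
  fun j => (hm j).add (hn j)

theorem Dvd.neg {n : E} (hn : Dvd p n) : Dvd p (-n) := fun j => (hn j).neg_right

theorem dvd_iff_cast (n : E) : Dvd p n ↔ ∀ j, (n j : ZMod p) = 0 := by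
  unfold Dvd
  refine forall_congr' fun j => ?_
  rw [ZMod.intCast_zmod_eq_zero_iff_dvd]

end Pool.Agent.MB
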