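import Pool.Agent.MB.B4

/-! MB B8: ratios of polynomials. -/

set_option autoImplicit false

namespace Pool.Agent.MB

open PowerSeries Finset

variable (p : ℕ) [hpf : Fact p.Prime]

theorem poly_eq_zero_of_dvd (f : Polynomial (ZMod p)) (a : ℕ) (hf : f.natDegree < a)
    (h : (X : P p) ^ a ∣ (f : P p)) : f = 0 := by
  rw [PowerSeries.X_pow_dvd_iff] at h
  ext n
  by_cases hn : n < a
  · have := h n hn
    rwa [Polynomial.coeff_coe] at this
  · rw [Polynomial.coeff_eq_zero_of_natDegree_lt (by omega), Polynomial.coeff_zero]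

private theorem cne (hp : 5 ≤ p) (k : ℕ) (hk : 0 < k) (hk4 : k ≤ 4) : ((k : ℕ) : ZMod p) ≠ 0 := by
  intro h
  rw [ZMod.natCast_eq_zero_iff] at h
  exact absurd (Nat.le_of_dvd hk h) (by omega)

private theorem U_natDegree (hp : 5 ≤ p) (j : Fin 4) : (U p j).natDegree = 1 := by
  have h : (((j : ℕ) + 1 : ℕ) : ZMod p) ≠ 0 := cne p hp _ (by omega) (by omega)
  unfold U
  rw [add_comm]
  exact Polynomial.natDegree_linear h

private theorem U_ne_zero (hp : 5 ≤ p) (j : Fin 4) : U p j ≠ 0 := by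
  intro h
  have := U_natDegree p hp j
  rw [h] at this
  simp at this

private theorem U_irreducible (hp : 5 ≤ p) (j : Fin 4) : Irreducible (U p j) :=
  Polynomial.irreducible_of_degree_eq_one
    (by rw [Polynomial.degree_eq_natDegree (U_ne_zero p hp j), U_natDegree p hp j]; rfl)

private theorem PI_natDegree (hp : 5 ≤ p) : (PI p).natDegree = 4 := by
  have h := U_ne_zero p hp
  have h' := U_natDegree p hp
  unfold PI
  rw [Polynomial.natDegree_mul (mul_ne_zero (mul_ne_zero (h _) (h _)) (h _)) (h _),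
    Polynomial.natDegree_mul (mul_ne_zero (h _) (h _)) (h _),
    Polynomial.natDegree_mul (h _) (h _), h', h', h', h']

private theorem PI_ne_zero (hp : 5 ≤ p) : PI p ≠ 0 := by
  intro h
  have := PI_natDegree p hp
  rw [h] at this
  simp at this

/-- extraction of the powers of the `U j`. -/
private theorem extract (hp : 5 ≤ p) (f : Polynomial (ZMod p)) (hf : f ≠ 0) :
    ∃ (ζ : Fin 4 → ℕ) (w : Polynomial (ZMod p)), f = (∏ j, U p j ^ ζ j) * w ∧ ∀ j, ¬ U p j ∣ w := by
  have key : ∀ (j : Fin 4) (g : Polynomial (ZMod p)), g ≠ 0 → ∃ (n : ℕ) (w : Polynomial (ZMod p)),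
      g = U p j ^ n * w ∧ ¬ U p j ∣ w := by
    intro j g hg
    have hfin : FiniteMultiplicity (U p j) g :=
      FiniteMultiplicity.of_prime_left (U_irreducible p hp j).prime hg
    obtain ⟨w, hw, hw'⟩ := hfin.exists_eq_pow_mul_and_not_dvd
    exact ⟨_, w, hw, hw'⟩
  obtain ⟨n0, w0, h0, h0'⟩ := key 0 f hf
  have w0n : w0 ≠ 0 := by rintro rfl; exact h0' (dvd_zero _)
  obtain ⟨n1, w1, h1, h1'⟩ := key 1 w0 w0n
  have w1n : w1 ≠ 0 := by rintro rfl; exact h1' (dvd_zero _)
  obtain ⟨n2, w2, h2, h2'⟩ := key 2 w1 w1n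
  have w2n : w2 ≠ 0 := by rintro rfl; exact h2' (dvd_zero _)
  obtain ⟨n3, w3, h3, h3'⟩ := key 3 w2 w2n
  refine ⟨![n0, n1, n2, n3], w3, ?_, ?_⟩
  · rw [h0, h1, h2, h3, Fin.prod_univ_four]
    simp
    ring
  · intro j
    fin_cases j
    · intro h
      apply h0'
      rw [h1, h2, h3]
      exact ((h.mul_left _).mul_left _).mul_left _
    · intro h
      apply h1'
      rw [h2, h3]
      exact (h.mul_left _).mul_left _
    · intro h
      apply h2'
      rw [h3]
      exact h.mul_left _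
    · exact h3'

private theorem coprime_PI (hp : 5 ≤ p) (w : Polynomial (ZMod p)) (hw : ∀ j, ¬ U p j ∣ w) :
    IsCoprime (PI p) w := by
  have h : ∀ j, IsCoprime (U p j) w := fun j =>
    ((U_irreducible p hp j).coprime_iff_not_dvd).2 (hw j)
  unfold PI
  exact IsCoprime.mul_left (IsCoprime.mul_left (IsCoprime.mul_left (h 0) (h 1)) (h 2)) (h 3)

private theorem const_of_deriv (f : Polynomial (ZMod p)) (hf : f.natDegree < p)
    (h : Polynomial.derivative f = 0) : ∃ c, f = Polynomial.C c := by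
  refine ⟨f.coeff 0, Polynomial.eq_C_of_natDegree_eq_zero ?_⟩
  by_contra hn
  obtain ⟨n, hn'⟩ := Nat.exists_eq_succ_of_ne_zero hn
  have h1 := congrArg (fun g => Polynomial.coeff g n) h
  simp only [Polynomial.coeff_derivative, Polynomial.coeff_zero] at h1
  have hne : ((n : ZMod p) + 1) ≠ 0 := by
    intro h2
    have h3 : (((n + 1 : ℕ)) : ZMod p) = 0 := by push_cast; exact h2
    rw [ZMod.natCast_eq_zero_iff] at h3
    have := Nat.le_of_dvd (by omega) h3
    omega
  rcases mul_eq_zero.1 h1 with h2 | h2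
  · have hl : f.leadingCoeff = 0 := by
      rw [Polynomial.leadingCoeff, hn']
      exact h2
    rw [Polynomial.leadingCoeff_eq_zero] at hl
    rw [hl] at hn
    simp at hn
  · exact hne h2

private theorem const_ratio (f g : Polynomial (ZMod p)) (hf : f.natDegree < p) (hg : g.natDegree < p)
    (hf0 : f ≠ 0) (hg0 : g ≠ 0)
    (h : Polynomial.derivative f * g = f * Polynomial.derivative g) :
    ∃ l : ZMod p, l ≠ 0 ∧ f = Polynomial.C l * g := by
  classical
  obtain ⟨a, b, hab, ha, hb⟩ : ∃ a b : Polynomial (ZMod p), IsCoprime a b ∧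
      f = EuclideanDomain.gcd f g * a ∧ g = EuclideanDomain.gcd f g * b := by
    obtain ⟨a, ha⟩ := EuclideanDomain.gcd_dvd_left f g
    obtain ⟨b, hb⟩ := EuclideanDomain.gcd_dvd_right f g
    refine ⟨a, b, ?_, ha, hb⟩
    have hG : EuclideanDomain.gcd f g ≠ 0 := by
      intro h0
      rw [h0, zero_mul] at ha
      exact hf0 ha
    have hbez := EuclideanDomain.gcd_eq_gcd_ab f g
    refine ⟨EuclideanDomain.gcdA f g, EuclideanDomain.gcdB f g, ?_⟩
    apply mul_left_cancel₀ hG
    rw [mul_one]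
    calc _ = (EuclideanDomain.gcd f g * a) * EuclideanDomain.gcdA f g +
          (EuclideanDomain.gcd f g * b) * EuclideanDomain.gcdB f g := by ring
      _ = f * EuclideanDomain.gcdA f g + g * EuclideanDomain.gcdB f g := by rw [← ha, ← hb]
      _ = _ := hbez.symm
  set G := EuclideanDomain.gcd f g with hGdef
  have hG : G ≠ 0 := by
    intro h0
    rw [h0, zero_mul] at ha
    exact hf0 ha
  have ha0 : a ≠ 0 := by rintro rfl; exact hf0 (by rw [ha, mul_zero])
  have hb0 : b ≠ 0 := by rintro rfl; exact hg0 (by rw [hb, mul_zero])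
  have hw : Polynomial.wronskian a b = 0 := by
    rw [Polynomial.wronskian]
    have h2 : G ^ 2 * (a * Polynomial.derivative b - Polynomial.derivative a * b) = 0 := by
      have h3 := h
      rw [ha, hb] at h3
      simp only [Polynomial.derivative_mul] at h3
      linear_combination -h3
    exact (mul_eq_zero.1 h2).resolve_left (pow_ne_zero 2 hG)
  obtain ⟨h1, h2⟩ := (IsCoprime.wronskian_eq_zero_iff hab).1 hw
  have hda : a.natDegree < p := by
    have : f.natDegree = G.natDegree + a.natDegree := by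
      conv_lhs => rw [ha]
      exact Polynomial.natDegree_mul hG ha0
    omega
  have hdb : b.natDegree < p := by
    have : g.natDegree = G.natDegree + b.natDegree := by
      conv_lhs => rw [hb]
      exact Polynomial.natDegree_mul hG hb0
    omega
  obtain ⟨α, hα⟩ := const_of_deriv p a hda h1
  obtain ⟨β, hβ⟩ := const_of_deriv p b hdb h2
  have hα0 : α ≠ 0 := by rintro rfl; exact ha0 (by rw [hα]; simp)
  have hβ0 : β ≠ 0 := by rintro rfl; exact hb0 (by rw [hβ]; simp)
  refine ⟨α / β, div_ne_zero hα0 hβ0, ?_⟩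
  have : Polynomial.C (α / β) * g = f := by
    rw [ha]
    conv_lhs => rw [hb, hβ]
    rw [hα, mul_comm G, ← mul_assoc, ← Polynomial.C_mul, div_mul_cancel₀ _ hβ0, mul_comm]
  exact this.symm

private theorem PI_deriv_prod (n : Fin 4 → ℕ) :
    PI p * Polynomial.derivative (∏ j, U p j ^ n j) =
      rho p (fun j => (n j : ℤ)) * ∏ j, U p j ^ n j := by
  have h := PI_mul_deriv_T p (fun j => (n j : ℤ))
  rw [T_nonneg] at h
  have h2 : dd p ((∏ j, U p j ^ n j : Polynomial (ZMod p)) : P p) =
      ((Polynomial.derivative (∏ j, U p j ^ n j) : Polynomial (ZMod p)) : P p) := by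
    exact PowerSeries.derivative_coe _
  rw [h2] at h
  apply Polynomial.coe_injective
  rw [Polynomial.coe_mul, Polynomial.coe_mul]
  exact h

theorem ratio (hp : 5 ≤ p) (c : ℕ) (hc : c < p) (n : E) (P1 P2 : Polynomial (ZMod p)) (h1 : P1 ≠ 0) (h2 : P2 ≠ 0)
    (hd1 : P1.natDegree ≤ c) (hd2 : P2.natDegree ≤ c)
    (h : PI p * (Polynomial.derivative P2 * P1 - P2 * Polynomial.derivative P1) = rho p n * P1 * P2) :
    ∃ (η ζ : Fin 4 → ℕ) (l : ZMod p), l ≠ 0 ∧ (∑ j, η j ≤ c) ∧ (∑ j, ζ j ≤ c) ∧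
      (∀ j, ((η j : ZMod p) - ζ j) = n j) ∧
      P2 * ∏ j, U p j ^ ζ j = Polynomial.C l * P1 * ∏ j, U p j ^ η j := by
  obtain ⟨ζ, w1, hw1, hw1'⟩ := extract p hp P1 h1
  obtain ⟨η, w2, hw2, hw2'⟩ := extract p hp P2 h2
  have hw10 : w1 ≠ 0 := by rintro rfl; exact h1 (by rw [hw1, mul_zero])
  have hw20 : w2 ≠ 0 := by rintro rfl; exact h2 (by rw [hw2, mul_zero])
  have hprod : ∀ ζ : Fin 4 → ℕ, (∏ j, U p j ^ ζ j) ≠ 0 ∧ (∏ j, U p j ^ ζ j).natDegree = ∑ j, ζ j := by
    intro ζ
    have hne : (∏ j, U p j ^ ζ j) ≠ 0 :=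
      Finset.prod_ne_zero_iff.2 fun j _ => pow_ne_zero _ (U_ne_zero p hp j)
    refine ⟨hne, ?_⟩
    rw [Polynomial.natDegree_prod _ _ fun j _ => pow_ne_zero _ (U_ne_zero p hp j)]
    refine Finset.sum_congr rfl fun j _ => ?_
    rw [Polynomial.natDegree_pow, U_natDegree p hp, mul_one]
  have hdeg1 : P1.natDegree = ∑ j, ζ j + w1.natDegree := by
    conv_lhs => rw [hw1]
    rw [Polynomial.natDegree_mul (hprod ζ).1 hw10, (hprod ζ).2]
  have hdeg2 : P2.natDegree = ∑ j, η j + w2.natDegree := by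
    conv_lhs => rw [hw2]
    rw [Polynomial.natDegree_mul (hprod η).1 hw20, (hprod η).2]
  have hz := PI_deriv_prod p ζ
  have hh := PI_deriv_prod p η
  set A1 := ∏ j, U p j ^ ζ j with hA1
  set A2 := ∏ j, U p j ^ η j with hA2
  have hA10 : A1 ≠ 0 := (hprod ζ).1
  have hA20 : A2 ≠ 0 := (hprod η).1
  -- the equation for `w1, w2`
  have heq : PI p * (Polynomial.derivative w2 * w1 - w2 * Polynomial.derivative w1) =
      (rho p n - rho p (fun j => (η j : ℤ)) + rho p (fun j => (ζ j : ℤ))) * (w1 * w2) := by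
    have h3 := h
    rw [hw1, hw2] at h3
    simp only [Polynomial.derivative_mul] at h3
    apply mul_left_cancel₀ (mul_ne_zero hA10 hA20)
    linear_combination h3 - A1 * w1 * w2 * hh + A2 * w1 * w2 * hz
  set R := rho p n - rho p (fun j => (η j : ℤ)) + rho p (fun j => (ζ j : ℤ)) with hR
  have hRrho : R = rho p (n + -(fun j => (η j : ℤ)) + (fun j => (ζ j : ℤ))) := by
    rw [rho_add, rho_add, rho_neg, hR]
    ring
  have hR0 : R = 0 := by
    have hdvd : PI p ∣ R := by
      have hcop : IsCoprime (PI p) (w1 * w2) :=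
        IsCoprime.mul_right (coprime_PI p hp w1 hw1') (coprime_PI p hp w2 hw2')
      exact hcop.dvd_of_dvd_mul_right ⟨_, heq.symm⟩
    by_contra hne
    have := Polynomial.natDegree_le_of_dvd hdvd hne
    rw [PI_natDegree p hp, hRrho] at this
    have := natDegree_rho p (n + -(fun j => (η j : ℤ)) + (fun j => (ζ j : ℤ)))
    omega
  have hcong : Dvd p (n + -(fun j => (η j : ℤ)) + (fun j => (ζ j : ℤ))) := by
    rw [← rho_eq_zero_iff p hp, ← hRrho, hR0]
  rw [dvd_iff_cast] at hcong
  rw [hR0, zero_mul] at heq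
  have heq2 : Polynomial.derivative w2 * w1 = w2 * Polynomial.derivative w1 := by
    have := (mul_eq_zero.1 heq).resolve_left (PI_ne_zero p hp)
    exact sub_eq_zero.1 this
  obtain ⟨l, hl0, hl⟩ := const_ratio p w2 w1 (by omega) (by omega) hw20 hw10 heq2
  refine ⟨η, ζ, l, hl0, by omega, by omega, ?_, ?_⟩
  · intro j
    have := hcong j
    simp only [Pi.add_apply, Pi.neg_apply, Int.cast_add, Int.cast_neg, Int.cast_natCast] at this
    linear_combination -this
  · rw [hw2, hw1, hl]
    ring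

theorem ratio_of_dvd (hp : 5 ≤ p) (c a : ℕ) (hc : c < p) (ha : 2 * c + 5 < a) (n : E) (P1 P2 : Polynomial (ZMod p)) (h1 : P1 ≠ 0)
    (hd1 : P1.natDegree ≤ c) (hd2 : P2.natDegree ≤ c) (h : (X : P p) ^ a ∣ T p n * (P1 : P p) - P2) :
    ∃ (η ζ : Fin 4 → ℕ) (l : ZMod p), l ≠ 0 ∧ (∑ j, η j ≤ c) ∧ (∑ j, ζ j ≤ c) ∧
      (∀ j, ((η j : ZMod p) - ζ j) = n j) ∧
      P2 * ∏ j, U p j ^ ζ j = Polynomial.C l * P1 * ∏ j, U p j ^ η j ∧
      (X : P p) ^ (a - c) ∣ T p n - PowerSeries.C l * T p (fun j => (η j : ℤ) - ζ j) := by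
  have h2 : P2 ≠ 0 := by
    rintro rfl
    apply h1
    apply poly_eq_zero_of_dvd p P1 a (by omega)
    rw [Polynomial.coe_zero, sub_zero] at h
    exact ((isUnit_T p n).dvd_mul_left).1 h
  -- the differential equation
  have hdiff : (X : P p) ^ (a - 1) ∣ dd p (T p n * (P1 : P p) - P2) := by
    obtain ⟨r, hr⟩ := h
    rw [hr]
    obtain ⟨a', rfl⟩ : ∃ a', a = a' + 1 := ⟨a - 1, by omega⟩
    rw [dd, Derivation.leibniz, Derivation.leibniz_pow]
    simp only [add_tsub_cancel_right, smul_eq_mul, nsmul_eq_mul]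
    refine dvd_add ?_ ?_
    · rw [pow_succ, mul_assoc]
      exact dvd_mul_right _ _
    · refine Dvd.dvd.mul_left (Dvd.dvd.mul_left (dvd_mul_right _ _) _) _
  have hcoeP1 : dd p (P1 : P p) = ((Polynomial.derivative P1 : Polynomial (ZMod p)) : P p) :=
    PowerSeries.derivative_coe _
  have hcoeP2 : dd p (P2 : P p) = ((Polynomial.derivative P2 : Polynomial (ZMod p)) : P p) :=
    PowerSeries.derivative_coe _
  have hT := PI_mul_deriv_T p n
  have hexp : dd p (T p n * (P1 : P p) - P2) = T p n * ((Polynomial.derivative P1 : Polynomial (ZMod p)) : P p) +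
      dd p (T p n) * (P1 : P p) - ((Polynomial.derivative P2 : Polynomial (ZMod p)) : P p) := by
    rw [← hcoeP1, ← hcoeP2]
    show PowerSeries.derivative (ZMod p) (T p n * (P1 : P p) - P2) = _
    rw [map_sub, Derivation.leibniz]
    simp only [smul_eq_mul]
    ring
  have hpoly : (X : P p) ^ (a - 1) ∣
      ((PI p * (Polynomial.derivative P2 * P1 - P2 * Polynomial.derivative P1) - rho p n * P1 * P2 :
        Polynomial (ZMod p)) : P p) := by
    have hsum : ((PI p * (Polynomial.derivative P2 * P1 - P2 * Polynomial.derivative P1) - rho p n * P1 * P2 :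
        Polynomial (ZMod p)) : P p) =
        (T p n * (P1 : P p) - P2) * ((PI p * Polynomial.derivative P1 + rho p n * P1 : Polynomial (ZMod p)) : P p)
        - (PI p : P p) * P1 * dd p (T p n * (P1 : P p) - P2) := by
      rw [hexp]
      simp only [Polynomial.coe_sub, Polynomial.coe_mul, Polynomial.coe_add]
      linear_combination (P1 : P p) ^ 2 * hT
    rw [hsum]
    refine dvd_sub ?_ ?_
    · exact Dvd.dvd.mul_right ((pow_dvd_pow _ (by omega)).trans h) _
    · exact Dvd.dvd.mul_left hdiff _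
  have hzero := poly_eq_zero_of_dvd p _ (a - 1) (by
    have e1 : (Polynomial.derivative P2 * P1).natDegree ≤ 2 * c - 1 ∨ Polynomial.derivative P2 * P1 = 0 := by
      by_cases h0 : Polynomial.derivative P2 = 0
      · right; rw [h0, zero_mul]
      · left
        have hnd : P2.natDegree ≠ 0 := by
          intro h3
          exact h0 (Polynomial.derivative_of_natDegree_zero h3)
        have := Polynomial.natDegree_derivative_lt hnd
        refine Polynomial.natDegree_mul_le.trans ?_
        omega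
    have e2 : (P2 * Polynomial.derivative P1).natDegree ≤ 2 * c - 1 ∨ P2 * Polynomial.derivative P1 = 0 := by
      by_cases h0 : Polynomial.derivative P1 = 0
      · right; rw [h0, mul_zero]
      · left
        have hnd : P1.natDegree ≠ 0 := by
          intro h3
          exact h0 (Polynomial.derivative_of_natDegree_zero h3)
        have := Polynomial.natDegree_derivative_lt hnd
        refine Polynomial.natDegree_mul_le.trans ?_
        omega
    have e3 : (Polynomial.derivative P2 * P1 - P2 * Polynomial.derivative P1).natDegree ≤ 2 * c := by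
      refine (Polynomial.natDegree_sub_le _ _).trans (max_le ?_ ?_)
      · rcases e1 with e1 | e1
        · omega
        · rw [e1]; simp
      · rcases e2 with e2 | e2
        · omega
        · rw [e2]; simp
    have e4 : (PI p * (Polynomial.derivative P2 * P1 - P2 * Polynomial.derivative P1)).natDegree ≤ 4 + 2 * c :=
      Polynomial.natDegree_mul_le.trans (by rw [PI_natDegree p hp]; omega)
    have e5 : (rho p n * P1 * P2).natDegree ≤ 3 + c + c := by
      refine Polynomial.natDegree_mul_le.trans (add_le_add ?_ hd2)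
      exact Polynomial.natDegree_mul_le.trans (add_le_add (natDegree_rho p n) hd1)
    refine lt_of_le_of_lt (Polynomial.natDegree_sub_le _ _) (max_lt ?_ ?_) <;> omega) hpoly
  obtain ⟨η, ζ, l, hl, hη, hζ, hcong, hrat⟩ := ratio p hp c hc n P1 P2 h1 h2 hd1 hd2 (sub_eq_zero.1 hzero)
  refine ⟨η, ζ, l, hl, hη, hζ, hcong, hrat, ?_⟩
  -- `P2 = l P1 T(η - ζ)` in the power series ring
  have hTT : T p (fun j => (η j : ℤ) - ζ j) * T p (fun j => (ζ j : ℤ)) = T p (fun j => (η j : ℤ)) := by
    rw [← T_add]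
    congr 1
    funext j
    simp
  have hP2 : (P2 : P p) = PowerSeries.C l * P1 * T p (fun j => (η j : ℤ) - ζ j) := by
    have h3 : (P2 : P p) * T p (fun j => (ζ j : ℤ)) = PowerSeries.C l * P1 * T p (fun j => (η j : ℤ)) := by
      rw [T_nonneg, T_nonneg, ← Polynomial.coe_mul, hrat, Polynomial.coe_mul, Polynomial.coe_mul,
        Polynomial.coe_C]
    rw [← hTT, ← mul_assoc] at h3
    exact (isUnit_T p _).mul_right_cancel h3
  have h4 : (X : P p) ^ a ∣ (P1 : P p) * (T p n - PowerSeries.C l * T p (fun j => (η j : ℤ) - ζ j)) := by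
    rw [hP2] at h
    have : (P1 : P p) * (T p n - PowerSeries.C l * T p (fun j => (η j : ℤ) - ζ j)) =
        T p n * (P1 : P p) - PowerSeries.C l * P1 * T p (fun j => (η j : ℤ) - ζ j) := by ring
    rw [this]
    exact h
  -- cancel `P1`
  have hP1c : (P1 : P p) ≠ 0 := by
    intro h0
    exact h1 (Polynomial.coe_injective _ (by rw [h0, Polynomial.coe_zero]))
  have hord : ∃ k ≤ c, ∃ v : P p, (P1 : P p) = X ^ k * v ∧ ¬ (X : P p) ∣ v := by
    have hfin : FiniteMultiplicity (X : P p) (P1 : P p) :=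
      FiniteMultiplicity.of_prime_left PowerSeries.X_prime hP1c
    obtain ⟨v, hv, hv'⟩ := hfin.exists_eq_pow_mul_and_not_dvd
    refine ⟨_, ?_, v, hv, hv'⟩
    by_contra hlt
    push Not at hlt
    apply h1
    refine poly_eq_zero_of_dvd p P1 (c + 1) (by omega) ?_
    rw [hv]
    exact Dvd.dvd.mul_right (pow_dvd_pow _ hlt) _
  obtain ⟨k, hk, v, hv, hv'⟩ := hord
  have h5 : (X : P p) ^ (a - k) ∣ v * (T p n - PowerSeries.C l * T p (fun j => (η j : ℤ) - ζ j)) := by
    rw [hv, mul_assoc] at h4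
    have h6 : (X : P p) ^ a = X ^ k * X ^ (a - k) := by rw [← pow_add]; congr 1; omega
    rw [h6] at h4
    exact (mul_dvd_mul_iff_left (pow_ne_zero k PowerSeries.X_ne_zero)).1 h4
  have h6 : IsUnit v := by
    rw [PowerSeries.isUnit_iff_constantCoeff]
    rw [PowerSeries.X_dvd_iff] at hv'
    exact isUnit_iff_ne_zero.2 hv'
  have h7 := (h6.dvd_mul_left).1 h5
  exact (pow_dvd_pow _ (by omega)).trans h7

end Pool.Agent.MB
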