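import Pool.Agent.MB.B4
import Pool.Agent.MB.B8

/-! MB B10a: cluster lemmas, first part. -/

set_option autoImplicit false

namespace Pool.Agent.MB

open PowerSeries Finset

variable (p : ℕ) [hpf : Fact p.Prime]

private theorem b10a_two_ne (hp : 5 ≤ p) : (2 : ZMod p) ≠ 0 := by
  have h : ((2 : ℕ) : ZMod p) ≠ 0 := by
    rw [Ne, ZMod.natCast_eq_zero_iff]
    intro hd
    have := Nat.le_of_dvd (by norm_num) hd
    omega
  simpa using h

private theorem b10a_U_one : U p 1 = 1 + Polynomial.C (2 : ZMod p) * Polynomial.X := by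
  unfold U
  norm_num

private theorem b10a_deg_U (hp : 5 ≤ p) : (U p 1).natDegree = 1 := by
  rw [b10a_U_one, add_comm, ← Polynomial.C_1]
  exact Polynomial.natDegree_linear (b10a_two_ne p hp)

private theorem b10a_U_ne (hp : 5 ≤ p) : U p 1 ≠ 0 := by
  intro h
  have := b10a_deg_U p hp
  rw [h, Polynomial.natDegree_zero] at this
  omega

private theorem b10a_irr (hp : 5 ≤ p) : Irreducible (U p 1) := by
  apply Polynomial.irreducible_of_degree_eq_one
  rw [Polynomial.degree_eq_natDegree (b10a_U_ne p hp), b10a_deg_U p hp]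
  rfl

private theorem b10a_deriv_U : Polynomial.derivative (U p 1) = Polynomial.C (2 : ZMod p) := by
  rw [b10a_U_one]
  simp

theorem cluster_zero (hp : 5 ≤ p) (M : ℕ) (hM : 100 ≤ M) (A1 A2 : Polynomial (ZMod p)) (d1 : A1.natDegree ≤ 63) (d2 : A2.natDegree ≤ 63)
    (i j : ℕ) (a1 a2 : Polynomial (ZMod p)) (hij : i < j) (e1 : A1 = U p 1 ^ (16 * i) * a1) (e2 : A2 = U p 1 ^ (16 * j) * a2)
    (n1 : a1 ≠ 0) (s1 : a1.natDegree ≤ 15) (h : (X : P p) ^ M ∣ (A1 : P p) - A2) : False := by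
  have hU := b10a_U_ne p hp
  have h0 : A1 - A2 = 0 := by
    refine poly_eq_zero_of_dvd p _ M ?_ ?_
    · have := Polynomial.natDegree_sub_le A1 A2
      omega
    · rw [Polynomial.coe_sub]; exact h
  obtain ⟨k, rfl⟩ := Nat.exists_eq_add_of_lt hij
  have h1 : U p 1 ^ (16 * i) * a1 = U p 1 ^ (16 * i) * (U p 1 ^ (16 * (k + 1)) * a2) := by
    rw [← e1, ← mul_assoc, ← pow_add]
    have : 16 * i + 16 * (k + 1) = 16 * (i + k + 1) := by ring
    rw [this, ← e2]
    exact sub_eq_zero.1 h0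
  have h2 : a1 = U p 1 ^ (16 * (k + 1)) * a2 := mul_left_cancel₀ (pow_ne_zero _ hU) h1
  have ha2 : a2 ≠ 0 := by
    rintro rfl
    rw [mul_zero] at h2
    exact n1 h2
  rw [h2, Polynomial.natDegree_mul (pow_ne_zero _ hU) ha2, Polynomial.natDegree_pow,
    b10a_deg_U p hp] at s1
  omega

theorem PI_deriv_GG (n : E) (g : Polynomial (ZMod p)) : ((PI p : Polynomial (ZMod p)) : P p) * dd p (T p n * g) = T p n * (GG p n g : P p) := by
  have h1 : dd p (T p n * (g : P p)) = T p n * (Polynomial.derivative g : P p) +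
      (g : P p) * dd p (T p n) := by
    unfold dd
    rw [Derivation.leibniz, PowerSeries.derivative_coe]
    rfl
  have h2 := PI_mul_deriv_T p n
  rw [h1, GG, Polynomial.coe_add, Polynomial.coe_mul, Polynomial.coe_mul, mul_add, mul_add]
  linear_combination (g : P p) * h2

private theorem b10a_dvd_dd (M : ℕ) (f : P p) (h : (X : P p) ^ (M + 1) ∣ f) :
    (X : P p) ^ M ∣ dd p f := by
  obtain ⟨s, rfl⟩ := h
  unfold dd
  rw [Derivation.leibniz, Derivation.leibniz_pow]
  refine dvd_add ?_ ?_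
  · rw [smul_eq_mul]
    exact (pow_dvd_pow X (Nat.le_succ M)).mul_right _
  · rw [smul_eq_mul, Nat.add_sub_cancel, smul_eq_mul, nsmul_eq_mul]
    exact Dvd.dvd.mul_left (Dvd.dvd.mul_left (dvd_mul_right _ _) _) _

private theorem b10a_deg_U' (j : Fin 4) : (U p j).natDegree ≤ 1 := by
  unfold U
  refine (Polynomial.natDegree_add_le _ _).trans (max_le ?_ ?_)
  · simp
  · exact (Polynomial.natDegree_C_mul_le _ _).trans Polynomial.natDegree_X_le

private theorem b10a_deg_PI : (PI p).natDegree ≤ 4 := by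
  have h0 := b10a_deg_U' p 0
  have h1 := b10a_deg_U' p 1
  have h2 := b10a_deg_U' p 2
  have h3 := b10a_deg_U' p 3
  have a1 := Polynomial.natDegree_mul_le (p := U p 0) (q := U p 1)
  have a2 := Polynomial.natDegree_mul_le (p := U p 0 * U p 1) (q := U p 2)
  have a3 := Polynomial.natDegree_mul_le (p := U p 0 * U p 1 * U p 2) (q := U p 3)
  unfold PI
  omega

private theorem b10a_deg_deriv (f : Polynomial (ZMod p)) :
    (Polynomial.derivative f).natDegree ≤ f.natDegree :=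
  (Polynomial.natDegree_derivative_le f).trans (Nat.sub_le _ _)

private theorem b10a_deg_GG (n : E) (g : Polynomial (ZMod p)) (hg : g.natDegree ≤ 15) :
    (GG p n g).natDegree ≤ 19 := by
  have h1 := natDegree_rho p n
  have h2 := b10a_deg_PI p
  have h3 := b10a_deg_deriv p g
  have a1 := Polynomial.natDegree_mul_le (p := rho p n) (q := g)
  have a2 := Polynomial.natDegree_mul_le (p := PI p) (q := Polynomial.derivative g)
  unfold GG
  refine (Polynomial.natDegree_add_le _ _).trans (max_le ?_ ?_) <;> omega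

private theorem b10a_PI_ne (hp : 5 ≤ p) : PI p ≠ 0 := by
  intro h
  have h1 : (PI p).eval 0 = 1 := by
    unfold PI U
    simp
  rw [h, Polynomial.eval_zero] at h1
  exact zero_ne_one h1

theorem cluster_exact (hp : 5 ≤ p) (M : ℕ) (hM : 200 ≤ M) (A1 A2 g1 g2 : Polynomial (ZMod p)) (n1 n2 : E)
    (d1 : A1.natDegree ≤ 63) (d2 : A2.natDegree ≤ 63) (dg1 : g1.natDegree ≤ 15) (dg2 : g2.natDegree ≤ 15) (hg1 : g1 ≠ 0) (hg2 : g2 ≠ 0)
    (hG : g2 * GG p n1 g1 = g1 * GG p n2 g2)
    (h : (X : P p) ^ M ∣ ((A1 : P p) - T p n1 * g1) - (A2 - T p n2 * g2)) :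
    PI p * g1 * Polynomial.derivative (A1 - A2) = GG p n1 g1 * (A1 - A2) := by
  rw [← sub_eq_zero]
  refine poly_eq_zero_of_dvd p _ (M - 1) ?_ ?_
  · have hR : (A1 - A2).natDegree ≤ 63 := by
      have := Polynomial.natDegree_sub_le A1 A2
      omega
    have h1 := b10a_deg_PI p
    have h2 := b10a_deg_deriv p (A1 - A2)
    have h3 := b10a_deg_GG p n1 g1 dg1
    have a1 := Polynomial.natDegree_mul_le (p := PI p) (q := g1)
    have a2 := Polynomial.natDegree_mul_le (p := PI p * g1) (q := Polynomial.derivative (A1 - A2))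
    have a3 := Polynomial.natDegree_mul_le (p := GG p n1 g1) (q := A1 - A2)
    have a4 := Polynomial.natDegree_sub_le (PI p * g1 * Polynomial.derivative (A1 - A2))
      (GG p n1 g1 * (A1 - A2))
    omega
  · obtain ⟨m, rfl⟩ : ∃ m, M = m + 1 := ⟨M - 1, by omega⟩
    rw [Nat.add_sub_cancel]
    have h1 := b10a_dvd_dd p m _ h
    have h2 := PI_deriv_GG p n1 g1
    have h3 := PI_deriv_GG p n2 g2
    have hG' : (g2 : P p) * (GG p n1 g1 : P p) = g1 * (GG p n2 g2 : P p) := by
      rw [← Polynomial.coe_mul, ← Polynomial.coe_mul, hG]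
    have h4 : dd p (((A1 : P p) - T p n1 * g1) - (A2 - T p n2 * g2)) =
        (Polynomial.derivative (A1 - A2) : P p) - (dd p (T p n1 * g1) - dd p (T p n2 * g2)) := by
      unfold dd
      rw [map_sub, map_sub, map_sub, PowerSeries.derivative_coe, PowerSeries.derivative_coe,
        Polynomial.derivative_sub, Polynomial.coe_sub]
      ring
    have h5 : ((PI p * g1 * Polynomial.derivative (A1 - A2) - GG p n1 g1 * (A1 - A2) :
        Polynomial (ZMod p)) : P p) =
        (PI p : P p) * g1 * dd p (((A1 : P p) - T p n1 * g1) - (A2 - T p n2 * g2)) -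
        (GG p n1 g1 : P p) * (((A1 : P p) - T p n1 * g1) - (A2 - T p n2 * g2)) := by
      rw [h4, Polynomial.coe_sub, Polynomial.coe_mul, Polynomial.coe_mul, Polynomial.coe_mul,
        Polynomial.coe_sub]
      linear_combination (g1 : P p) * h2 - (g1 : P p) * h3 + T p n2 * hG'
    rw [h5]
    refine dvd_sub (Dvd.dvd.mul_left h1 _) (Dvd.dvd.mul_left ?_ _)
    exact (pow_dvd_pow X (Nat.le_succ m)).trans h

private theorem b10a_U_deriv (a : ℕ) (r : Polynomial (ZMod p)) :
    U p 1 * Polynomial.derivative (U p 1 ^ a * r) =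
      U p 1 ^ a * (Polynomial.C (a : ZMod p) * Polynomial.C 2 * r +
        U p 1 * Polynomial.derivative r) := by
  rw [Polynomial.derivative_mul, Polynomial.derivative_pow, b10a_deriv_U]
  cases a with
  | zero => simp
  | succ a =>
    rw [Nat.add_sub_cancel, pow_succ]
    ring

theorem cluster_order (hp : 1000 ≤ p) (R R' r r' : Polynomial (ZMod p)) (a b : ℕ) (hR : R = U p 1 ^ a * r) (hR' : R' = U p 1 ^ b * r')
    (hr : ¬ U p 1 ∣ r) (hr' : ¬ U p 1 ∣ r') (hab : a < b) (hb : b < a + p)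
    (h : Polynomial.derivative R * R' = R * Polynomial.derivative R') : False := by
  have hp5 : 5 ≤ p := by omega
  have hU := b10a_U_ne p hp5
  have hprime : Prime (U p 1) := (b10a_irr p hp5).prime
  have h1 := b10a_U_deriv p a r
  have h2 := b10a_U_deriv p b r'
  rw [← hR] at h1
  rw [← hR'] at h2
  have h3 : U p 1 ^ a * U p 1 ^ b * ((Polynomial.C (a : ZMod p) * Polynomial.C 2 * r +
        U p 1 * Polynomial.derivative r) * r') =
      U p 1 ^ a * U p 1 ^ b * (r * (Polynomial.C (b : ZMod p) * Polynomial.C 2 * r' +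
        U p 1 * Polynomial.derivative r')) := by
    calc U p 1 ^ a * U p 1 ^ b * ((Polynomial.C (a : ZMod p) * Polynomial.C 2 * r +
          U p 1 * Polynomial.derivative r) * r')
        = (U p 1 ^ a * (Polynomial.C (a : ZMod p) * Polynomial.C 2 * r +
          U p 1 * Polynomial.derivative r)) * (U p 1 ^ b * r') := by ring
      _ = U p 1 * Polynomial.derivative R * R' := by rw [← h1, ← hR']
      _ = U p 1 * (R * Polynomial.derivative R') := by rw [mul_assoc, h]
      _ = R * (U p 1 * Polynomial.derivative R') := by ring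
      _ = (U p 1 ^ a * r) * (U p 1 ^ b * (Polynomial.C (b : ZMod p) * Polynomial.C 2 * r' +
          U p 1 * Polynomial.derivative r')) := by rw [h2, ← hR]
      _ = _ := by ring
  have h4 := mul_left_cancel₀ (mul_ne_zero (pow_ne_zero a hU) (pow_ne_zero b hU)) h3
  have h5 : U p 1 ∣ Polynomial.C (((b : ZMod p) - a) * 2) * (r * r') := by
    refine ⟨Polynomial.derivative r * r' - r * Polynomial.derivative r', ?_⟩
    rw [Polynomial.C_mul, Polynomial.C_sub]
    linear_combination -h4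
  have h6 : ((b : ZMod p) - a) * 2 ≠ 0 := by
    refine mul_ne_zero ?_ (b10a_two_ne p hp5)
    intro h7
    obtain ⟨k, rfl⟩ := Nat.exists_eq_add_of_lt hab
    have h8 : ((k + 1 : ℕ) : ZMod p) = 0 := by
      rw [← h7]
      push_cast
      ring
    rw [ZMod.natCast_eq_zero_iff] at h8
    have := Nat.le_of_dvd (Nat.succ_pos k) h8
    omega
  rcases hprime.dvd_or_dvd h5 with h7 | h7
  · exact hprime.not_unit (isUnit_of_dvd_unit h7
      (Polynomial.isUnit_C.2 (isUnit_iff_ne_zero.2 h6)))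
  · rcases hprime.dvd_or_dvd h7 with h8 | h8
    · exact hr h8
    · exact hr' h8

private theorem b10a_factor (hp : 5 ≤ p) (f : Polynomial (ZMod p)) (hf : f ≠ 0)
    (hd : f.natDegree ≤ 15) : ∃ (k : ℕ) (b : Polynomial (ZMod p)), k ≤ 15 ∧
      f = U p 1 ^ k * b ∧ ¬ U p 1 ∣ b := by
  obtain ⟨k, b, hb, hfb⟩ := WfDvdMonoid.max_power_factor hf (b10a_irr p hp)
  refine ⟨k, b, ?_, hfb, hb⟩
  have hb0 : b ≠ 0 := by
    rintro rfl
    exact hb (dvd_zero _)
  rw [hfb, Polynomial.natDegree_mul (pow_ne_zero _ (b10a_U_ne p hp)) hb0,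
    Polynomial.natDegree_pow, b10a_deg_U p hp] at hd
  omega

/-- among three windows with nonzero `g` not all log derivatives agree -/
theorem cluster_three (hp : 1000 ≤ p) (M : ℕ) (hM : 200 ≤ M) (a g : Fin 3 → Polynomial (ZMod p)) (n : Fin 3 → E) (w : Fin 3 → ℕ)
    (hw : w 0 < w 1 ∧ w 1 < w 2 ∧ w 2 ≤ 3) (ha : ∀ i, a i ≠ 0) (da : ∀ i, (a i).natDegree ≤ 15)
    (hg : ∀ i, g i ≠ 0) (dg : ∀ i, (g i).natDegree ≤ 15) (H : P p)
    (h : ∀ i, (X : P p) ^ M ∣ (((U p 1 ^ (16 * w i) * a i : Polynomial (ZMod p)) : P p) - T p (n i) * g i) - H)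
    (hG : ∀ i j, g j * GG p (n i) (g i) = g i * GG p (n j) (g j)) : False := by
  have hp5 : 5 ≤ p := by omega
  have hU := b10a_U_ne p hp5
  obtain ⟨hw1, hw2, hw3⟩ := hw
  have hwle : ∀ i, w i ≤ 3 := by
    intro i
    fin_cases i
    · show w 0 ≤ 3; omega
    · show w 1 ≤ 3; omega
    · show w 2 ≤ 3; omega
  have hdA : ∀ i, (U p 1 ^ (16 * w i) * a i).natDegree ≤ 63 := by
    intro i
    have h1 := Polynomial.natDegree_mul_le (p := U p 1 ^ (16 * w i)) (q := a i)
    rw [Polynomial.natDegree_pow, b10a_deg_U p hp5] at h1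
    have h2 := hwle i
    have h3 := da i
    omega
  have hdiff : ∀ i j, (X : P p) ^ M ∣
      (((U p 1 ^ (16 * w i) * a i : Polynomial (ZMod p)) : P p) - T p (n i) * g i) -
      (((U p 1 ^ (16 * w j) * a j : Polynomial (ZMod p)) : P p) - T p (n j) * g j) := by
    intro i j
    have h1 := dvd_sub (h i) (h j)
    have h2 : (((U p 1 ^ (16 * w i) * a i : Polynomial (ZMod p)) : P p) - T p (n i) * g i) - H -
      ((((U p 1 ^ (16 * w j) * a j : Polynomial (ZMod p)) : P p) - T p (n j) * g j) - H) =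
      (((U p 1 ^ (16 * w i) * a i : Polynomial (ZMod p)) : P p) - T p (n i) * g i) -
      (((U p 1 ^ (16 * w j) * a j : Polynomial (ZMod p)) : P p) - T p (n j) * g j) := by ring
    rwa [h2] at h1
  have e01 := cluster_exact p hp5 M hM _ _ (g 0) (g 1) (n 0) (n 1) (hdA 0) (hdA 1) (dg 0) (dg 1)
    (hg 0) (hg 1) (hG 0 1) (hdiff 0 1)
  have e12 := cluster_exact p hp5 M hM _ _ (g 1) (g 2) (n 1) (n 2) (hdA 1) (hdA 2) (dg 1) (dg 2)
    (hg 1) (hg 2) (hG 1 2) (hdiff 1 2)
  obtain ⟨k0, b0, hk0, hb0, hnb0⟩ := b10a_factor p hp5 (a 0) (ha 0) (da 0)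
  obtain ⟨k1, b1, hk1, hb1, hnb1⟩ := b10a_factor p hp5 (a 1) (ha 1) (da 1)
  have hform : ∀ (v v' k : ℕ) (b c : Polynomial (ZMod p)), v < v' → k ≤ 15 → ¬ U p 1 ∣ b →
      ∃ r, ¬ U p 1 ∣ r ∧ U p 1 ^ (16 * v) * (U p 1 ^ k * b) - U p 1 ^ (16 * v') * c =
        U p 1 ^ (16 * v + k) * r := by
    intro v v' k b c hv hk hb
    obtain ⟨e, he⟩ := Nat.exists_eq_add_of_lt (show 16 * v + k < 16 * v' by omega)
    refine ⟨b - U p 1 ^ (e + 1) * c, ?_, ?_⟩
    · intro hdvd
      apply hb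
      have h1 : U p 1 ∣ U p 1 ^ (e + 1) * c :=
        (dvd_pow_self _ (Nat.succ_ne_zero e)).mul_right _
      have h2 := dvd_add hdvd h1
      rwa [sub_add_cancel] at h2
    · rw [he, mul_sub, ← mul_assoc, ← mul_assoc, ← pow_add, ← pow_add]
      rfl
  obtain ⟨r, hr, hr'⟩ := hform (w 0) (w 1) k0 b0 (a 1) hw1 hk0 hnb0
  obtain ⟨s, hs, hs'⟩ := hform (w 1) (w 2) k1 b1 (a 2) hw2 hk1 hnb1
  rw [← hb0] at hr'
  rw [← hb1] at hs'
  refine cluster_order p hp _ _ r s (16 * w 0 + k0) (16 * w 1 + k1) hr' hs' hr hs (by omega)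
    (by omega) ?_
  have hcan : PI p * g 0 * g 1 ≠ 0 :=
    mul_ne_zero (mul_ne_zero (b10a_PI_ne p hp5) (hg 0)) (hg 1)
  refine mul_left_cancel₀ hcan ?_
  generalize U p 1 ^ (16 * w 0) * a 0 - U p 1 ^ (16 * w 1) * a 1 = R at e01 ⊢
  generalize U p 1 ^ (16 * w 1) * a 1 - U p 1 ^ (16 * w 2) * a 2 = R' at e12 ⊢
  linear_combination (g 1 * R') * e01 - (g 0 * R) * e12 + (R * R') * hG 0 1

end Pool.Agent.MB
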