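import Pool.Agent.MB.B9
import Pool.Agent.MB.B10a

/-! # MB B10b: clusters of windows, case two of the main lemma -/

set_option autoImplicit false

namespace Pool.Agent.MB

open PowerSeries Finset

variable (p : ℕ) [hpf : Fact p.Prime]

theorem b10b_dvd_dd (f : P p) (n : ℕ) (h : (X : P p) ^ n ∣ f) : (X : P p) ^ (n - 1) ∣ dd p f := by
  obtain ⟨g, rfl⟩ := h
  change _ ∣ PowerSeries.derivative (ZMod p) (X ^ n * g)
  rw [Derivation.leibniz, Derivation.leibniz_pow]
  refine dvd_add ?_ ?_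
  · exact (pow_dvd_pow _ (Nat.sub_le n 1)).mul_right _
  · simp only [smul_eq_mul, nsmul_eq_mul]
    refine Dvd.dvd.mul_left ?_ _
    refine Dvd.dvd.mul_left ?_ _
    exact Dvd.intro _ rfl

theorem b10b_dd_coe (f : Polynomial (ZMod p)) : dd p (f : P p)
    = ((Polynomial.derivative f : Polynomial (ZMod p)) : P p) := by
  change PowerSeries.derivative (ZMod p) (f : P p) = _
  exact PowerSeries.derivative_coe f

theorem b10b_natDegree_U (j : Fin 4) : (U p j).natDegree ≤ 1 := by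
  unfold U
  refine (Polynomial.natDegree_add_le _ _).trans (max_le (by simp) ?_)
  exact (Polynomial.natDegree_C_mul_le _ _).trans Polynomial.natDegree_X_le

theorem b10b_natDegree_prod (n : Fin 4 → ℕ) : (∏ j, U p j ^ n j).natDegree ≤ ∑ j, n j := by
  refine (Polynomial.natDegree_prod_le _ _).trans (Finset.sum_le_sum fun j _ => ?_)
  refine Polynomial.natDegree_pow_le.trans ?_
  have := b10b_natDegree_U p j
  calc n j * (U p j).natDegree ≤ n j * 1 := Nat.mul_le_mul_left _ this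
    _ = n j := by ring

theorem b10b_natDegree_PI : (PI p).natDegree ≤ 4 := by
  have h0 := b10b_natDegree_U p 0
  have h1 := b10b_natDegree_U p 1
  have h2 := b10b_natDegree_U p 2
  have h3 := b10b_natDegree_U p 3
  unfold PI
  refine Polynomial.natDegree_mul_le.trans ?_
  have := (Polynomial.natDegree_mul_le (p := U p 0 * U p 1) (q := U p 2))
  have := (Polynomial.natDegree_mul_le (p := U p 0) (q := U p 1))
  omega

theorem b10b_U_ne_zero (j : Fin 4) : U p j ≠ 0 := by
  intro h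
  have := congrArg (Polynomial.eval 0) h
  simp [U] at this

theorem b10b_prod_ne_zero (n : Fin 4 → ℕ) : (∏ j, U p j ^ n j : Polynomial (ZMod p)) ≠ 0 :=
  Finset.prod_ne_zero_iff.mpr fun j _ => pow_ne_zero _ (b10b_U_ne_zero p j)

theorem b10b_natDegree_GG (n : E) (g : Polynomial (ZMod p)) (c : ℕ) (hg : g.natDegree ≤ c) :
    (GG p n g).natDegree ≤ c + 3 := by
  unfold GG
  refine (Polynomial.natDegree_add_le _ _).trans (max_le ?_ ?_)
  · refine Polynomial.natDegree_mul_le.trans ?_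
    have := natDegree_rho p n
    omega
  · by_cases h0 : g.natDegree = 0
    · rw [Polynomial.derivative_of_natDegree_zero h0, mul_zero]; simp
    · refine Polynomial.natDegree_mul_le.trans ?_
      have := b10b_natDegree_PI p
      have := Polynomial.natDegree_derivative_lt h0
      omega

theorem b10b_T_add_smul (ε : E) (k : ℕ) : T p (ε + k • e 1)
    = T p ε * ((U p 1 ^ k : Polynomial (ZMod p)) : P p) := by
  rw [T_add, T_nsmul, T_e, Polynomial.coe_pow]

/-- different log derivatives: `T n1` is close to a small unit -/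
theorem cluster_pair (hp : 1000 ≤ p) (M : ℕ) (hM : 400 ≤ M) (A1 A2 g1 g2 : Polynomial (ZMod p)) (ε : E) (k : ℕ) (hk : k ≤ 48) (n2 : E)
    (d1 : A1.natDegree ≤ 63) (d2 : A2.natDegree ≤ 63) (dg1 : g1.natDegree ≤ 15) (dg2 : g2.natDegree ≤ 15) (hg1 : g1 ≠ 0)
    (hG : g2 * GG p (ε + k • e 1) g1 ≠ g1 * GG p n2 g2)
    (h : (X : P p) ^ M ∣ ((A1 : P p) - T p (ε + k • e 1) * g1) - (A2 - T p n2 * g2)) :
    ∃ (η ζ : Fin 4 → ℕ) (l : ZMod p), l ≠ 0 ∧ (∑ j, η j ≤ 96) ∧ (∑ j, ζ j ≤ 96) ∧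
      (∀ j, ((η j : ZMod p) - ζ j) = ε j) ∧
      (X : P p) ^ (M - 97) ∣ T p ε - PowerSeries.C l * T p (fun j => (η j : ℤ) - ζ j) := by
  set n1 : E := ε + k • e 1 with hn1
  set R : Polynomial (ZMod p) := A1 - A2 with hR
  have hdR : R.natDegree ≤ 63 := (Polynomial.natDegree_sub_le _ _).trans (max_le d1 d2)
  have hD := b10b_dvd_dd p _ _ h
  have hG1 := PI_deriv_GG p n1 g1
  have hG2 := PI_deriv_GG p n2 g2
  have hRc : dd p (R : P p) = dd p (A1 : P p) - dd p (A2 : P p) := by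
    rw [hR, Polynomial.coe_sub]; exact map_sub _ _ _
  have hRd := b10b_dd_coe p R
  have hDeq : dd p (((A1 : P p) - T p n1 * g1) - (A2 - T p n2 * g2))
      = dd p (R : P p) - dd p (T p n1 * g1) + dd p (T p n2 * g2) := by
    rw [hRc]
    change PowerSeries.derivative (ZMod p) _ = PowerSeries.derivative (ZMod p) _
      - PowerSeries.derivative (ZMod p) _ - PowerSeries.derivative (ZMod p) _
      + PowerSeries.derivative (ZMod p) _
    rw [map_sub, map_sub, map_sub]; ring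
  rw [hDeq] at hD
  set P1 : Polynomial (ZMod p) := U p 1 ^ k * (g2 * GG p n1 g1 - g1 * GG p n2 g2) with hP1
  set P2 : Polynomial (ZMod p) := g2 * (PI p * Polynomial.derivative R) - GG p n2 g2 * R with hP2
  have hP10 : P1 ≠ 0 := mul_ne_zero (pow_ne_zero _ (b10b_U_ne_zero p 1)) (sub_ne_zero.mpr hG)
  have hGG1 := b10b_natDegree_GG p n1 g1 15 dg1
  have hGG2 := b10b_natDegree_GG p n2 g2 15 dg2
  have hdP1 : P1.natDegree ≤ 96 := by
    rw [hP1]
    refine Polynomial.natDegree_mul_le.trans ?_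
    have e1 : (U p 1 ^ k).natDegree ≤ 48 := by
      refine Polynomial.natDegree_pow_le.trans ?_
      have := b10b_natDegree_U p 1
      calc k * (U p 1).natDegree ≤ k * 1 := Nat.mul_le_mul_left _ this
        _ ≤ 48 := by omega
    have e2 : (g2 * GG p n1 g1 - g1 * GG p n2 g2).natDegree ≤ 33 := by
      refine (Polynomial.natDegree_sub_le _ _).trans (max_le ?_ ?_)
      · exact Polynomial.natDegree_mul_le.trans (by omega)
      · exact Polynomial.natDegree_mul_le.trans (by omega)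
    omega
  have hdP2 : P2.natDegree ≤ 96 := by
    rw [hP2]
    refine (Polynomial.natDegree_sub_le _ _).trans (max_le ?_ ?_)
    · refine Polynomial.natDegree_mul_le.trans ?_
      have := (Polynomial.natDegree_mul_le (p := PI p) (q := Polynomial.derivative R))
      have := b10b_natDegree_PI p
      have := Polynomial.natDegree_derivative_le R
      omega
    · exact Polynomial.natDegree_mul_le.trans (by omega)
  have hdvd : (X : P p) ^ (M - 1) ∣ T p ε * (P1 : P p) - P2 := by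
    have e : T p ε * (P1 : P p) - P2
        = -((g2 : P p) * (((PI p : Polynomial (ZMod p)) : P p) *
            (dd p (R : P p) - dd p (T p n1 * g1) + dd p (T p n2 * g2))))
          + (GG p n2 g2 : P p) * (((A1 : P p) - T p n1 * g1) - (A2 - T p n2 * g2)) := by
      have hT : T p n1 = T p ε * ((U p 1 ^ k : Polynomial (ZMod p)) : P p) :=
        b10b_T_add_smul p ε k
      have hRR : (R : P p) = (A1 : P p) - A2 := by rw [hR, Polynomial.coe_sub]
      rw [hP1, hP2]
      simp only [Polynomial.coe_mul, Polynomial.coe_sub]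
      rw [← hRd]
      linear_combination (-((g2 : P p) * (GG p n1 g1 : P p) - (g1 : P p) * (GG p n2 g2 : P p))) * hT
        - (g2 : P p) * hG1 + (g2 : P p) * hG2 + (GG p n2 g2 : P p) * hRR
    rw [e]
    refine dvd_add ?_ ?_
    · rw [dvd_neg]
      exact (hD.mul_left _).mul_left _
    · exact ((pow_dvd_pow _ (Nat.sub_le M 1)).trans h).mul_left _
  obtain ⟨η, ζ, l, hl, hη, hζ, hc, _, hX⟩ := ratio_of_dvd p (by omega) 96 (M - 1) (by omega)
    (by omega) ε P1 P2 hP10 hdP1 hdP2 hdvd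
  refine ⟨η, ζ, l, hl, hη, hζ, hc, ?_⟩
  have : M - 97 = M - 1 - 96 := by omega
  rw [this]
  exact hX

theorem b10b_three : ∀ z : Fin 4 → Bool, (∀ i j : Fin 4, i < j → ¬ (z i = true ∧ z j = true)) →
    ∃ w0 w1 w2 : Fin 4, w0 < w1 ∧ w1 < w2 ∧ z w0 = false ∧ z w1 = false ∧ z w2 = false := by
  decide

theorem b10b_isUnit_U1pow (l : ℕ) : IsUnit ((U p 1 ^ l : Polynomial (ZMod p)) : P p) := by
  rw [PowerSeries.isUnit_iff_constantCoeff]
  simp [U]

theorem cluster (hp : 1000 ≤ p) (l0 : ℕ) (h1 : 99 ≤ l0) (h2 : l0 + 48 + 101 ≤ p) (q : Fin 4 → Polynomial (ZMod p))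
    (hq : ∀ i, q i ≠ 0) (dq : ∀ i, (q i).natDegree ≤ 3) (ε : Fin 4 → E) (H : P p) (M : ℕ) (hM : 400 ≤ M)
    (h : ∀ i : Fin 4, (X : P p) ^ M ∣ ((U p 1 ^ (l0 + 16 * (i : ℕ)) : Polynomial (ZMod p)) : P p) *
      ((qt p (l0 + 16 * (i : ℕ)) (q i) : P p) - T p (ε i) * (gt p (l0 + 16 * (i : ℕ)) (ε i) (q i) : P p)) - H) :
    ∃ i : Fin 4, ∃ (η ζ : Fin 4 → ℕ) (l : ZMod p), l ≠ 0 ∧ (∑ j, η j ≤ 96) ∧ (∑ j, ζ j ≤ 96) ∧
      (∀ j, ((η j : ZMod p) - ζ j) = ε i j) ∧
      (X : P p) ^ (M - 97) ∣ T p (ε i) - PowerSeries.C l * T p (fun j => (η j : ℤ) - ζ j) := by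
  classical
  obtain ⟨u, hu⟩ := b10b_isUnit_U1pow p l0
  set H' : P p := ((u⁻¹ : (P p)ˣ) : P p) * H with hH'
  have hHH : H = (u : P p) * H' := by rw [hH', ← mul_assoc, Units.mul_inv, one_mul]
  obtain ⟨a, hadef⟩ : ∃ a : Fin 4 → Polynomial (ZMod p),
      ∀ i : Fin 4, a i = qt p (l0 + 16 * (i : ℕ)) (q i) := ⟨_, fun _ => rfl⟩
  obtain ⟨g, hgdef⟩ : ∃ g : Fin 4 → Polynomial (ZMod p),
      ∀ i : Fin 4, g i = gt p (l0 + 16 * (i : ℕ)) (ε i) (q i) := ⟨_, fun _ => rfl⟩
  have ha : ∀ i, a i ≠ 0 := fun i => by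
    rw [hadef]
    exact qt_ne_zero p hp _ (by omega) (by have := i.isLt; omega) (q i) (hq i) (dq i)
  have da : ∀ i, (a i).natDegree ≤ 15 := fun i => by rw [hadef]; exact natDegree_qt p _ _ (dq i)
  have dg : ∀ i, (g i).natDegree ≤ 15 := fun i => by rw [hgdef]; exact natDegree_gt p _ _ _ (dq i)
  have h' : ∀ i : Fin 4, (X : P p) ^ M ∣ (((U p 1 ^ (16 * (i : ℕ)) * a i : Polynomial (ZMod p)) : P p)
      - T p (ε i + (16 * (i : ℕ)) • e 1) * g i) - H' := by
    intro i
    have h3 := h i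
    have e1 : ((U p 1 ^ (l0 + 16 * (i : ℕ)) : Polynomial (ZMod p)) : P p) *
      ((qt p (l0 + 16 * (i : ℕ)) (q i) : P p) - T p (ε i) * (gt p (l0 + 16 * (i : ℕ)) (ε i) (q i) : P p)) - H
      = (u : P p) * ((((U p 1 ^ (16 * (i : ℕ)) * a i : Polynomial (ZMod p)) : P p)
      - T p (ε i + (16 * (i : ℕ)) • e 1) * g i) - H') := by
      rw [hHH, pow_add, b10b_T_add_smul, Polynomial.coe_mul, Polynomial.coe_mul, ← hu, hadef, hgdef]
      ring
    rw [e1] at h3
    exact (u.isUnit.dvd_mul_left).mp h3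
  have hdA : ∀ i : Fin 4, (U p 1 ^ (16 * (i : ℕ)) * a i).natDegree ≤ 63 := by
    intro i
    refine Polynomial.natDegree_mul_le.trans ?_
    have e1 : (U p 1 ^ (16 * (i : ℕ))).natDegree ≤ 48 := by
      refine Polynomial.natDegree_pow_le.trans ?_
      have := b10b_natDegree_U p 1
      have hi := i.isLt
      calc (16 * (i : ℕ)) * (U p 1).natDegree ≤ (16 * (i : ℕ)) * 1 := Nat.mul_le_mul_left _ this
        _ ≤ 48 := by omega
    have := da i
    omega
  have hdiff : ∀ i j : Fin 4, (X : P p) ^ M ∣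
      ((((U p 1 ^ (16 * (i : ℕ)) * a i : Polynomial (ZMod p)) : P p)
        - T p (ε i + (16 * (i : ℕ)) • e 1) * g i))
      - (((U p 1 ^ (16 * (j : ℕ)) * a j : Polynomial (ZMod p)) : P p)
        - T p (ε j + (16 * (j : ℕ)) • e 1) * g j) := by
    intro i j
    have := dvd_sub (h' i) (h' j)
    rwa [sub_sub_sub_cancel_right] at this
  -- at most one `g i` vanishes
  have hone : ∀ i j : Fin 4, i < j → ¬ (decide (g i = 0) = true ∧ decide (g j = 0) = true) := by
    rintro i j hij ⟨hi, hj⟩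
    rw [decide_eq_true_eq] at hi hj
    have h3 := hdiff i j
    rw [hi, hj] at h3
    simp only [Polynomial.coe_zero, mul_zero, sub_zero] at h3
    exact cluster_zero p (by omega) M (by omega) _ _ (hdA i) (hdA j) (i : ℕ) (j : ℕ) (a i) (a j)
      hij rfl rfl (ha i) (da i) h3
  obtain ⟨w0, w1, w2, h01, h12, z0, z1, z2⟩ := b10b_three (fun i => decide (g i = 0)) hone
  rw [decide_eq_false_iff_not] at z0 z1 z2
  let w : Fin 3 → Fin 4 := ![w0, w1, w2]
  have hgw : ∀ i, g (w i) ≠ 0 := by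
    intro i; fin_cases i
    · exact z0
    · exact z1
    · exact z2
  by_cases hall : ∀ i j : Fin 3, g (w j) * GG p (ε (w i) + (16 * ((w i : Fin 4) : ℕ)) • e 1) (g (w i))
      = g (w i) * GG p (ε (w j) + (16 * ((w j : Fin 4) : ℕ)) • e 1) (g (w j))
  · exfalso
    refine cluster_three p hp M (by omega) (fun i => a (w i)) (fun i => g (w i))
      (fun i => ε (w i) + (16 * ((w i : Fin 4) : ℕ)) • e 1) (fun i => ((w i : Fin 4) : ℕ)) ?_
      (fun i => ha _) (fun i => da _) hgw (fun i => dg _) H' (fun i => h' (w i)) hall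
    refine ⟨?_, ?_, ?_⟩
    · exact h01
    · exact h12
    · have := w2.isLt
      change (w2 : ℕ) ≤ 3
      omega
  · push Not at hall
    obtain ⟨i, j, hij⟩ := hall
    obtain ⟨η, ζ, l, hl, hη, hζ, hc, hX⟩ := cluster_pair p hp M hM _ _ (g (w i)) (g (w j))
      (ε (w i)) (16 * ((w i : Fin 4) : ℕ)) (by have := (w i).isLt; omega)
      (ε (w j) + (16 * ((w j : Fin 4) : ℕ)) • e 1) (hdA (w i)) (hdA (w j)) (dg _) (dg _) (hgw i)
      hij (hdiff (w i) (w j))
    exact ⟨w i, η, ζ, l, hl, hη, hζ, hc, hX⟩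

theorem b10b_T_sub (η ζ : Fin 4 → ℕ) : T p (fun j => (η j : ℤ) - ζ j)
    * ((∏ j, U p j ^ ζ j : Polynomial (ZMod p)) : P p)
      = ((∏ j, U p j ^ η j : Polynomial (ZMod p)) : P p) := by
  rw [← T_nonneg, ← T_nonneg, ← T_add]
  congr 1
  funext j
  simp

/-- two far apart windows with small units -/
theorem two_far (hp : 5 ≤ p) (M : ℕ) (l l' : ℕ) (hl : l + 496 ≤ l') (hM : l' + 600 ≤ M) (q q' g g' : Polynomial (ZMod p))
    (dq : q.natDegree ≤ 15) (dq' : q'.natDegree ≤ 15) (dg : g.natDegree ≤ 15) (dg' : g'.natDegree ≤ 15)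
    (η ζ η' ζ' : Fin 4 → ℕ) (lam lam' : ZMod p) (hη : ∑ j, η j ≤ 96) (hζ : ∑ j, ζ j ≤ 96) (hη' : ∑ j, η' j ≤ 96) (hζ' : ∑ j, ζ' j ≤ 96)
    (h : (X : P p) ^ M ∣ ((U p 1 ^ l : Polynomial (ZMod p)) : P p) * ((q : P p) - PowerSeries.C lam * T p (fun j => (η j : ℤ) - ζ j) * g) -
      ((U p 1 ^ l' : Polynomial (ZMod p)) : P p) * ((q' : P p) - PowerSeries.C lam' * T p (fun j => (η' j : ℤ) - ζ' j) * g')) :
    q * ∏ j, U p j ^ ζ j = Polynomial.C lam * g * ∏ j, U p j ^ η j := by
  have hU1 : (U p 1).natDegree = 1 := by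
    refine le_antisymm (b10b_natDegree_U p 1) ?_
    have h2 : ((((1 : Fin 4) : ℕ) + 1 : ℕ) : ZMod p) ≠ 0 := by
      intro h
      rw [ZMod.natCast_eq_zero_iff] at h
      have := Nat.le_of_dvd (by simp) h
      simp at this
      omega
    unfold U
    rw [add_comm, show (1 : Polynomial (ZMod p)) = Polynomial.C 1 by simp,
      Polynomial.natDegree_linear h2]
  set Zp : Polynomial (ZMod p) := ∏ j, U p j ^ ζ j with hZp
  set Hp : Polynomial (ZMod p) := ∏ j, U p j ^ η j with hHp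
  set Zq : Polynomial (ZMod p) := ∏ j, U p j ^ ζ' j with hZq
  set Hq : Polynomial (ZMod p) := ∏ j, U p j ^ η' j with hHq
  have dZp : Zp.natDegree ≤ 96 := (b10b_natDegree_prod p ζ).trans hζ
  have dHp : Hp.natDegree ≤ 96 := (b10b_natDegree_prod p η).trans hη
  have dZq : Zq.natDegree ≤ 96 := (b10b_natDegree_prod p ζ').trans hζ'
  have dHq : Hq.natDegree ≤ 96 := (b10b_natDegree_prod p η').trans hη'
  have t1 := b10b_T_sub p η ζ
  have t2 := b10b_T_sub p η' ζ'
  set W : Polynomial (ZMod p) := q * Zp - Polynomial.C lam * g * Hp with hW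
  set W' : Polynomial (ZMod p) := q' * Zq - Polynomial.C lam' * g' * Hq with hW'
  have dW : W.natDegree ≤ 111 := by
    refine (Polynomial.natDegree_sub_le _ _).trans (max_le ?_ ?_)
    · exact Polynomial.natDegree_mul_le.trans (by omega)
    · refine Polynomial.natDegree_mul_le.trans ?_
      have := (Polynomial.natDegree_C_mul_le lam g)
      omega
  have dW' : W'.natDegree ≤ 111 := by
    refine (Polynomial.natDegree_sub_le _ _).trans (max_le ?_ ?_)
    · exact Polynomial.natDegree_mul_le.trans (by omega)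
    · refine Polynomial.natDegree_mul_le.trans ?_
      have := (Polynomial.natDegree_C_mul_le lam' g')
      omega
  have hpoly : U p 1 ^ l * (Zq * W) - U p 1 ^ l' * (Zp * W') = 0 := by
    apply poly_eq_zero_of_dvd p _ M
    · refine lt_of_le_of_lt (Polynomial.natDegree_sub_le _ _) (max_lt ?_ ?_)
      · refine lt_of_le_of_lt Polynomial.natDegree_mul_le ?_
        rw [Polynomial.natDegree_pow, hU1, mul_one]
        have := (Polynomial.natDegree_mul_le (p := Zq) (q := W))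
        omega
      · refine lt_of_le_of_lt Polynomial.natDegree_mul_le ?_
        rw [Polynomial.natDegree_pow, hU1, mul_one]
        have := (Polynomial.natDegree_mul_le (p := Zp) (q := W'))
        omega
    · have e : (((U p 1 ^ l * (Zq * W) - U p 1 ^ l' * (Zp * W') : Polynomial (ZMod p))) : P p)
          = ((Zp : P p) * (Zq : P p)) * (((U p 1 ^ l : Polynomial (ZMod p)) : P p) *
            ((q : P p) - PowerSeries.C lam * T p (fun j => (η j : ℤ) - ζ j) * g) -
            ((U p 1 ^ l' : Polynomial (ZMod p)) : P p) *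
            ((q' : P p) - PowerSeries.C lam' * T p (fun j => (η' j : ℤ) - ζ' j) * g')) := by
        rw [hW, hW']
        simp only [Polynomial.coe_mul, Polynomial.coe_sub, Polynomial.coe_C]
        linear_combination ((U p 1 ^ l : Polynomial (ZMod p)) : P p) * (Zq : P p)
            * PowerSeries.C lam * (g : P p) * t1
          - ((U p 1 ^ l' : Polynomial (ZMod p)) : P p) * (Zp : P p)
            * PowerSeries.C lam' * (g' : P p) * t2
      rw [e]
      exact h.mul_left _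
  have hZqW : Zq * W = 0 := by
    have hUl : (U p 1 ^ l : Polynomial (ZMod p)) ≠ 0 := pow_ne_zero _ (b10b_U_ne_zero p 1)
    have hUU : U p 1 ^ l * U p 1 ^ (l' - l) = U p 1 ^ l' := by
      rw [← pow_add, show l + (l' - l) = l' by omega]
    have h3 : Zq * W = U p 1 ^ (l' - l) * (Zp * W') := by
      apply mul_left_cancel₀ hUl
      linear_combination hpoly - (Zp * W') * hUU
    by_contra hne
    have h4 := Polynomial.natDegree_le_of_dvd (Dvd.intro _ h3.symm) hne
    rw [Polynomial.natDegree_pow, hU1, mul_one] at h4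
    have := (Polynomial.natDegree_mul_le (p := Zq) (q := W))
    omega
  have hW0 : W = 0 := (mul_eq_zero.mp hZqW).resolve_left (b10b_prod_ne_zero p ζ')
  exact sub_eq_zero.mp hW0

theorem b10b_mem1 (i : Fin 4) : 100 + 16 * (i : ℕ) ∈ FF := by fin_cases i <;> decide

theorem b10b_mem2 (i : Fin 4) : 700 + 16 * (i : ℕ) ∈ FF := by fin_cases i <;> decide

/-- CASE 2 -/
theorem case_two (hp : 1000 ≤ p) (q : ℕ → Polynomial (ZMod p)) (ε : ℕ → E) (hq : ∀ l ∈ FF, q l ≠ 0)
    (dq : ∀ l ∈ FF, (q l).natDegree ≤ 3)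
    (h : ∀ l ∈ FF, ∀ l' ∈ FF, JN p ((U p 1 ^ l * q l : Polynomial (ZMod p)) - T p (ε l) * (U p 1 ^ l * q l : Polynomial (ZMod p))) =
      JN p ((U p 1 ^ l' * q l' : Polynomial (ZMod p)) - T p (ε l') * (U p 1 ^ l' * q l' : Polynomial (ZMod p)))) :
    ∃ l ∈ FF, Dvd p (ε l) := by
  have hNN : 1348 + 97 + 4 ≤ p * NN p := by unfold NN; nlinarith
  set M := p * NN p - 4 with hMdef
  set H : P p := ((U p 1 ^ 100 : Polynomial (ZMod p)) : P p) * ((qt p 100 (q 100) : P p)
    - T p (ε 100) * (gt p 100 (ε 100) (q 100) : P p)) with hH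
  have hk : ∀ l ∈ FF, (X : P p) ^ M ∣ ((U p 1 ^ l : Polynomial (ZMod p)) : P p) *
      ((qt p l (q l) : P p) - T p (ε l) * (gt p l (ε l) (q l) : P p)) - H := by
    intro l hl
    exact key p (by omega) l 100 (q l) (q 100) (ε l) (ε 100) (h l hl 100 (by decide))
  obtain ⟨i, η, ζ, lam, hlam, hη, hζ, hc, hX⟩ := cluster p hp 100 (by norm_num) (by omega)
    (fun i => q (100 + 16 * (i : ℕ))) (fun i => hq _ (b10b_mem1 i)) (fun i => dq _ (b10b_mem1 i))
    (fun i => ε (100 + 16 * (i : ℕ))) H M (by omega) (fun i => hk _ (b10b_mem1 i))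
  obtain ⟨i', η', ζ', lam', hlam', hη', hζ', hc', hX'⟩ := cluster p hp 700 (by norm_num) (by omega)
    (fun i => q (700 + 16 * (i : ℕ))) (fun i => hq _ (b10b_mem2 i)) (fun i => dq _ (b10b_mem2 i))
    (fun i => ε (700 + 16 * (i : ℕ))) H M (by omega) (fun i => hk _ (b10b_mem2 i))
  have hi := i.isLt
  have hi' := i'.isLt
  set l := 100 + 16 * (i : ℕ) with hl
  set l' := 700 + 16 * (i' : ℕ) with hl'
  have hlF : l ∈ FF := b10b_mem1 i
  have hlF' : l' ∈ FF := b10b_mem2 i'
  have hX1 : (X : P p) ^ (M - 97) ∣ T p (ε l) - PowerSeries.C lam * T p (fun j => (η j : ℤ) - ζ j) := hX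
  have hX2 : (X : P p) ^ (M - 97) ∣ T p (ε l') - PowerSeries.C lam' * T p (fun j => (η' j : ℤ) - ζ' j) := hX'
  have hrel := two_far p (by omega) (M - 97) l l' (by omega) (by omega) (qt p l (q l))
    (qt p l' (q l')) (gt p l (ε l) (q l)) (gt p l' (ε l') (q l'))
    (natDegree_qt p _ _ (dq l hlF)) (natDegree_qt p _ _ (dq l' hlF'))
    (natDegree_gt p _ _ _ (dq l hlF)) (natDegree_gt p _ _ _ (dq l' hlF'))
    η ζ η' ζ' lam lam' hη hζ hη' hζ' (by
      have h1 := (pow_dvd_pow (X : P p) (Nat.sub_le M 97)).trans (hk l hlF)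
      have h2 := (pow_dvd_pow (X : P p) (Nat.sub_le M 97)).trans (hk l' hlF')
      have h3 := hX1.mul_left (((U p 1 ^ l : Polynomial (ZMod p)) : P p) * (gt p l (ε l) (q l) : P p))
      have h4 := hX2.mul_left (((U p 1 ^ l' : Polynomial (ZMod p)) : P p) * (gt p l' (ε l') (q l') : P p))
      have h5 := dvd_add (dvd_sub h1 h2) (dvd_sub h3 h4)
      convert h5 using 1
      ring)
  obtain ⟨hηζ, _⟩ := unit_one p hp l (by omega) (by omega) (q l) (hq l hlF) (dq l hlF) (ε l) η ζ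
    lam hlam hη hζ hc hrel
  refine ⟨l, hlF, ?_⟩
  rw [dvd_iff_cast]
  intro j
  have := hc j
  rw [hηζ, sub_self] at this
  exact this.symm

end Pool.Agent.MB
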