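import Pool.Agent.MB.B2b

/-! MB B6: a nonzero window function with vanishing site value. -/

set_option autoImplicit false

namespace Pool.Agent.MB

open PowerSeries Finset

variable (p : ℕ) [hpf : Fact p.Prime]

private theorem b6_natDegree_U (j : Fin 4) : (U p j).natDegree ≤ 1 := by
  unfold U
  refine (Polynomial.natDegree_add_le _ _).trans (max_le (by simp) ?_)
  refine (Polynomial.natDegree_C_mul_le _ _).trans ?_
  exact Polynomial.natDegree_X_le

private theorem b6_eval_U : (U p 0).eval (-1) = 0 := by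
  simp [U]

private theorem b6_natDegree_pow (j : Fin 4) (k : ℕ) : (U p j ^ k).natDegree ≤ k := by
  refine Polynomial.natDegree_pow_le.trans ?_
  have := b6_natDegree_U p j
  nlinarith

theorem exists_kernel (hp : 5 ≤ p) (ϑ : E) (h : ¬ Dvd p ϑ) :
    ∃ g ∈ L p, g ≠ 0 ∧ cart p (T p ϑ * g) = 0 := by
  have hp0 : (0 : ℤ) < p := by omega
  obtain ⟨k, hk⟩ : ∃ k : Fin 4 → ℕ, ∀ j, (k j : ℤ) = (ϑ j - 1) % p :=
    ⟨fun j => ((ϑ j - 1) % p).toNat, fun j => Int.toNat_of_nonneg (Int.emod_nonneg _ hp0.ne')⟩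
  have hkp : ∀ j, k j < p := by
    intro j
    have h1 := Int.emod_lt_of_pos (ϑ j - 1) hp0
    have h2 := hk j
    omega
  obtain ⟨m, hm⟩ : ∃ m : E, ∀ j, m j = (ϑ j - 1) / p := ⟨fun j => (ϑ j - 1) / p, fun _ => rfl⟩
  have hjj : ∀ j, ϑ j = (p : ℤ) * m j + (((k j + 1 : ℕ)) : ℤ) := by
    intro j
    have h1 := Int.emod_add_mul_ediv (ϑ j - 1) p
    rw [← hk j, ← hm j] at h1
    push_cast
    linarith
  have hϑ : ϑ = (p : ℤ) • m + fun j => (((k j + 1 : ℕ)) : ℤ) := by
    funext j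
    rw [Pi.add_apply, Pi.smul_apply, smul_eq_mul]
    exact hjj j
  -- not all residues are `p - 1`
  have hsum : k 0 + k 1 + k 2 + k 3 + 4 < 4 * p := by
    by_contra hcon
    have h0 := hkp 0
    have h1 := hkp 1
    have h2 := hkp 2
    have h3 := hkp 3
    apply h
    intro j
    have h5 : k j + 1 = p := by
      fin_cases j
      · simp only [Fin.zero_eta, Fin.isValue]; omega
      · simp only [Fin.mk_one, Fin.isValue]; omega
      · simp only [Fin.reduceFinMk, Fin.isValue]; omega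
      · simp only [Fin.reduceFinMk, Fin.isValue]; omega
    rw [hjj j, h5]
    exact ⟨m j + 1, by ring⟩
  -- the value at the window function `g`
  have key : ∀ g ∈ L p, ∃ r : Polynomial (ZMod p),
      cart p (T p (fun j => (((k j + 1 : ℕ)) : ℤ)) * g) = r ∧ r.natDegree ≤ 3 ∧
        r.eval (-1) = 0 := by
    rintro g ⟨q, hq, hg⟩
    have e0 : (∏ j, U p j ^ (k j + 1) : Polynomial (ZMod p)) =
        (U p 0 ^ (k 0 + 1) * U p 1 ^ k 1 * U p 2 ^ k 2 * U p 3 ^ k 3) * Q p := by
      rw [Fin.prod_univ_four]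
      unfold Q
      ring
    have e1 : T p (fun j => (((k j + 1 : ℕ)) : ℤ)) * g =
        ((U p 0 ^ (k 0 + 1) * U p 1 ^ k 1 * U p 2 ^ k 2 * U p 3 ^ k 3 * q :
          Polynomial (ZMod p)) : P p) := by
      rw [T_nonneg, e0, Polynomial.coe_mul _ (Q p), mul_assoc, hg, ← Polynomial.coe_mul]
    obtain ⟨r, hr1, hr2, hr3⟩ := cart_poly p (by omega)
      (U p 0 ^ (k 0 + 1) * U p 1 ^ k 1 * U p 2 ^ k 2 * U p 3 ^ k 3 * q)
    refine ⟨r, by rw [e1]; exact hr1, hr2.trans ?_, ?_⟩
    · have hdeg : (U p 0 ^ (k 0 + 1) * U p 1 ^ k 1 * U p 2 ^ k 2 * U p 3 ^ k 3 * q).natDegree ≤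
          (k 0 + 1) + k 1 + k 2 + k 3 + 3 :=
        Polynomial.natDegree_mul_le_of_le (Polynomial.natDegree_mul_le_of_le
          (Polynomial.natDegree_mul_le_of_le (Polynomial.natDegree_mul_le_of_le
            (b6_natDegree_pow p 0 _) (b6_natDegree_pow p 1 _)) (b6_natDegree_pow p 2 _))
              (b6_natDegree_pow p 3 _)) hq
      refine Nat.le_of_lt_succ (Nat.div_lt_of_lt_mul ?_)
      omega
    · rw [hr3]
      simp [b6_eval_U]
  -- the linear map to the coefficients `1, 2, 3`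
  let ψ : L p →ₗ[ZMod p] (Fin 3 → ZMod p) :=
    { toFun := fun g i => PowerSeries.coeff ((i : ℕ) + 1)
        (cart p (T p (fun j => (((k j + 1 : ℕ)) : ℤ)) * (g : P p)))
      map_add' := by
        intro a b
        funext i
        simp only [Submodule.coe_add, mul_add, map_add, Pi.add_apply]
      map_smul' := by
        intro c a
        funext i
        simp only [Submodule.coe_smul, mul_smul_comm, map_smul, Pi.smul_apply, RingHom.id_apply] }
  have hfin : FiniteDimensional (ZMod p) (L p) :=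
    Module.finite_of_finrank_pos (by rw [L_finrank p]; norm_num)
  have hker : LinearMap.ker ψ ≠ ⊥ := by
    refine LinearMap.ker_ne_bot_of_finrank_lt ?_
    rw [L_finrank p, Module.finrank_fintype_fun_eq_card, Fintype.card_fin]
    norm_num
  obtain ⟨g, hgk, hg0⟩ := (Submodule.ne_bot_iff _).1 hker
  refine ⟨g, g.2, fun h0 => hg0 (Subtype.ext h0), ?_⟩
  obtain ⟨r, hr1, hr2, hr3⟩ := key g g.2
  have hψ : ∀ i : Fin 3, r.coeff ((i : ℕ) + 1) = 0 := by
    intro i
    have h1 : ψ g = 0 := hgk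
    have h2 := congrFun h1 i
    have h3 : PowerSeries.coeff ((i : ℕ) + 1)
        (cart p (T p (fun j => (((k j + 1 : ℕ)) : ℤ)) * (g : P p))) = 0 := h2
    rw [hr1, Polynomial.coeff_coe] at h3
    exact h3
  have hr : r = Polynomial.C (r.coeff 0) := by
    ext n
    rw [Polynomial.coeff_C]
    split_ifs with hn
    · rw [hn]
    · by_cases h4 : n ≤ 3
      · obtain ⟨i, rfl⟩ : ∃ i : Fin 3, (i : ℕ) + 1 = n := ⟨⟨n - 1, by omega⟩, by
          show n - 1 + 1 = n
          omega⟩
        exact hψ i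
      · exact Polynomial.coeff_eq_zero_of_natDegree_lt (by omega)
  have hr0 : r = 0 := by
    rw [hr, Polynomial.eval_C] at hr3
    rw [hr, hr3, Polynomial.C_0]
  rw [hϑ, T_add, mul_assoc, cart_T_psmul_mul, hr1, hr0]
  simp

end Pool.Agent.MB
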