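import Pool.Agent.MB.Defs2

/-! MB B4: the derivative formula. -/

set_option autoImplicit false

namespace Pool.Agent.MB

open PowerSeries Finset

variable (p : ℕ) [hpf : Fact p.Prime]

/-- `PI * u' = ρ * u`. -/
def b4_Hol (u : (P p)ˣ) (ρ : Polynomial (ZMod p)) : Prop :=
  ((PI p : Polynomial (ZMod p)) : P p) * dd p (u : P p) = (ρ : P p) * (u : P p)

theorem b4_Hol_one : b4_Hol p 1 0 := by
  unfold b4_Hol
  simp [dd]

theorem b4_Hol_mul {u v : (P p)ˣ} {ρ σ : Polynomial (ZMod p)} (hu : b4_Hol p u ρ)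
    (hv : b4_Hol p v σ) : b4_Hol p (u * v) (ρ + σ) := by
  unfold b4_Hol at *
  rw [Units.val_mul, dd, Derivation.leibniz, smul_eq_mul, smul_eq_mul, Polynomial.coe_add]
  unfold dd at hu hv
  linear_combination (u : P p) * hv + (v : P p) * hu

theorem b4_Hol_inv {u : (P p)ˣ} {ρ : Polynomial (ZMod p)} (hu : b4_Hol p u ρ) :
    b4_Hol p u⁻¹ (-ρ) := by
  unfold b4_Hol at *
  have h1 : (u : P p) * ((u⁻¹ : (P p)ˣ) : P p) = 1 := by simp
  have h2 := congrArg (dd p) h1
  unfold dd at h2 hu ⊢
  rw [Derivation.leibniz, smul_eq_mul, smul_eq_mul, PowerSeries.derivative_one] at h2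
  refine u.isUnit.mul_left_cancel ?_
  have h3 : ((-ρ : Polynomial (ZMod p)) : P p) = - (ρ : P p) := by
    have := Polynomial.coe_sub (R := ZMod p) 0 ρ
    simpa using this
  rw [h3]
  linear_combination ((PI p : Polynomial (ZMod p)) : P p) * h2 - ((u⁻¹ : (P p)ˣ) : P p) * hu

theorem b4_Hol_pow {u : (P p)ˣ} {ρ : Polynomial (ZMod p)} (hu : b4_Hol p u ρ) (k : ℕ) :
    b4_Hol p (u ^ k) ((k : Polynomial (ZMod p)) * ρ) := by
  induction k with
  | zero => simpa using b4_Hol_one p
  | succ k ih =>
    have := b4_Hol_mul p ih hu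
    rw [pow_succ]
    convert this using 1
    push_cast
    ring

theorem b4_Hol_zpow {u : (P p)ˣ} {ρ : Polynomial (ZMod p)} (hu : b4_Hol p u ρ) (k : ℤ) :
    b4_Hol p (u ^ k) (Polynomial.C (k : ZMod p) * ρ) := by
  rcases Int.eq_nat_or_neg k with ⟨m, rfl | rfl⟩
  · have := b4_Hol_pow p hu m
    rw [zpow_natCast]
    simpa using this
  · have := b4_Hol_inv p (b4_Hol_pow p hu m)
    rw [zpow_neg, zpow_natCast]
    simpa using this

theorem b4_Hol_uu (j : Fin 4) : b4_Hol p (uu p j)
    (Polynomial.C ((((j : ℕ) + 1 : ℕ) : ZMod p)) * ∏ i ∈ univ.erase j, U p i) := by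
  unfold b4_Hol dd
  have h1 : ((uu p j : (P p)ˣ) : P p) = ((U p j : Polynomial (ZMod p)) : P p) := by simp [uu]
  rw [h1, PowerSeries.derivative_coe]
  have h2 : Polynomial.derivative (U p j) = Polynomial.C ((((j : ℕ) + 1 : ℕ) : ZMod p)) := by
    unfold U
    simp
  have h3 : PI p = U p j * ∏ i ∈ univ.erase j, U p i := by
    rw [Finset.mul_prod_erase _ _ (Finset.mem_univ j), Fin.prod_univ_four]
    rfl
  rw [h2, ← Polynomial.coe_mul, ← Polynomial.coe_mul, h3]
  congr 1
  ring

theorem b4_Hol_prod (n : E) (s : Finset (Fin 4)) : b4_Hol p (∏ j ∈ s, uu p j ^ n j)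
    (∑ j ∈ s, Polynomial.C ((n j : ZMod p) * (((j : ℕ) + 1 : ℕ) : ZMod p)) *
      ∏ i ∈ univ.erase j, U p i) := by
  induction s using Finset.induction_on with
  | empty => simpa using b4_Hol_one p
  | insert j s hj ih =>
    rw [Finset.prod_insert hj, Finset.sum_insert hj]
    refine b4_Hol_mul p ?_ ih
    have := b4_Hol_zpow p (b4_Hol_uu p j) (n j)
    rw [← mul_assoc, ← Polynomial.C_mul] at this
    exact this

theorem b4_Hol_TU (n : E) : b4_Hol p (TU p n) (rho p n) := b4_Hol_prod p n univ

theorem PI_mul_deriv_T (n : E) : ((PI p : Polynomial (ZMod p)) : P p) * dd p (T p n) =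
    ((rho p n : Polynomial (ZMod p)) : P p) * T p n := b4_Hol_TU p n

theorem iter_deriv (u : P p) (ρ : Polynomial (ZMod p))
    (hu : ((PI p : Polynomial (ZMod p)) : P p) * dd p u = (ρ : P p) * u) (i : ℕ) (r : Polynomial (ZMod p)) :
    ((PI p : Polynomial (ZMod p)) : P p) ^ i * (dd p)^[i] (u * r) = u * (rr p ρ i r : P p) := by
  induction i with
  | zero => simp [rr]
  | succ i ih =>
    rw [Function.iterate_succ_apply']
    set g := (dd p)^[i] (u * r) with hg
    have h2 := congrArg (dd p) ih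
    unfold dd at h2 hu ⊢
    rw [Derivation.leibniz, Derivation.leibniz, Derivation.leibniz_pow, PowerSeries.derivative_coe,
      PowerSeries.derivative_coe] at h2
    simp only [smul_eq_mul, nsmul_eq_mul] at h2
    have h4 : (rr p ρ (i + 1) r : P p) = ((ρ : P p) - (i : P p) *
        ((Polynomial.derivative (PI p) : Polynomial (ZMod p)) : P p)) * (rr p ρ i r : P p) +
        ((PI p : Polynomial (ZMod p)) : P p) *
          ((Polynomial.derivative (rr p ρ i r) : Polynomial (ZMod p)) : P p) := by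
      rw [rr]
      have h5 : ((i : Polynomial (ZMod p)) : P p) = (i : P p) := by
        exact map_natCast (Polynomial.coeToPowerSeries.ringHom (R := ZMod p)) i
      push_cast
      rw [h5]
    rw [h4]
    rcases Nat.eq_zero_or_pos i with rfl | hi
    · simp only [pow_zero, Nat.cast_zero, zero_mul, mul_zero, zero_add, pow_one, one_mul] at *
      linear_combination ((PI p : Polynomial (ZMod p)) : P p) * h2 + (rr p ρ 0 r : P p) * hu
    · obtain ⟨k, rfl⟩ : ∃ k, i = k + 1 := ⟨i - 1, by omega⟩
      simp only [Nat.add_sub_cancel] at h2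
      have e1 : ((PI p : Polynomial (ZMod p)) : P p) ^ (k + 1 + 1) =
        ((PI p : Polynomial (ZMod p)) : P p) * ((PI p : Polynomial (ZMod p)) : P p) ^ (k + 1) := by
        ring
      linear_combination ((PI p : Polynomial (ZMod p)) : P p) * h2 + (rr p ρ (k + 1) r : P p) * hu -
        ((k + 1 : ℕ) : P p) * ((Polynomial.derivative (PI p) : Polynomial (ZMod p)) : P p) * ih

theorem b4_natDegree_U (j : Fin 4) : (U p j).natDegree ≤ 1 := by
  unfold U
  refine (Polynomial.natDegree_add_le _ _).trans (max_le (by simp) ?_)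
  exact (Polynomial.natDegree_C_mul_le _ _).trans Polynomial.natDegree_X_le

theorem b4_natDegree_PI : (PI p).natDegree ≤ 4 := by
  have : PI p = ∏ j, U p j := by rw [Fin.prod_univ_four]; rfl
  rw [this]
  refine (Polynomial.natDegree_prod_le _ _).trans ?_
  refine (Finset.sum_le_card_nsmul _ _ 1 fun j _ => b4_natDegree_U p j).trans ?_
  simp

theorem natDegree_rr (ρ : Polynomial (ZMod p)) (hρ : ρ.natDegree ≤ 3) (i : ℕ) (r : Polynomial (ZMod p)) :
    (rr p ρ i r).natDegree ≤ r.natDegree + 3 * i := by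
  have hPI := b4_natDegree_PI p
  induction i with
  | zero => simp [rr]
  | succ i ih =>
    rw [rr]
    refine (Polynomial.natDegree_add_le _ _).trans (max_le ?_ ?_)
    · refine Polynomial.natDegree_mul_le.trans ?_
      have h1 : (ρ - (i : Polynomial (ZMod p)) * Polynomial.derivative (PI p)).natDegree ≤ 3 := by
        refine (Polynomial.natDegree_sub_le _ _).trans (max_le hρ ?_)
        refine Polynomial.natDegree_mul_le.trans ?_
        rw [Polynomial.natDegree_natCast]
        have := Polynomial.natDegree_derivative_le (PI p)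
        omega
      omega
    · by_cases h0 : (rr p ρ i r).natDegree = 0
      · rw [Polynomial.derivative_of_natDegree_zero h0, mul_zero]
        simp
      · refine Polynomial.natDegree_mul_le.trans ?_
        have := Polynomial.natDegree_derivative_le (rr p ρ i r)
        omega

theorem natDegree_rho (n : E) : (rho p n).natDegree ≤ 3 := by
  unfold rho
  refine Polynomial.natDegree_sum_le_of_forall_le _ _ fun j _ => ?_
  refine (Polynomial.natDegree_C_mul_le _ _).trans ?_
  refine (Polynomial.natDegree_prod_le _ _).trans ?_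
  refine (Finset.sum_le_card_nsmul _ _ 1 fun j _ => b4_natDegree_U p j).trans ?_
  rw [Finset.card_erase_of_mem (Finset.mem_univ j)]
  simp

theorem rho_add (m n : E) : rho p (m + n) = rho p m + rho p n := by
  unfold rho
  rw [← Finset.sum_add_distrib]
  refine Finset.sum_congr rfl fun j _ => ?_
  rw [← add_mul, ← Polynomial.C_add]
  congr 2
  push_cast [Pi.add_apply]
  ring

theorem rho_neg (n : E) : rho p (-n) = - rho p n := by
  unfold rho
  rw [← Finset.sum_neg_distrib]
  refine Finset.sum_congr rfl fun j _ => ?_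
  rw [← neg_mul, ← Polynomial.C_neg]
  congr 2
  push_cast [Pi.neg_apply]
  ring

theorem rho_congr (m n : E) (h : ∀ j, (m j : ZMod p) = n j) : rho p m = rho p n := by
  unfold rho
  refine Finset.sum_congr rfl fun j _ => ?_
  rw [h j]

theorem b4_cast_ne (hp : 5 ≤ p) (k : ℕ) (h0 : 0 < k) (hk : k < 5) : ((k : ℕ) : ZMod p) ≠ 0 := by
  intro h
  rw [ZMod.natCast_eq_zero_iff] at h
  have := Nat.le_of_dvd h0 h
  omega

theorem b4_cast_ne_int (hp : 5 ≤ p) (k : ℤ) (h0 : k ≠ 0) (hk : |k| < 5) : ((k : ℤ) : ZMod p) ≠ 0 := by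
  intro h
  rw [ZMod.intCast_zmod_eq_zero_iff_dvd] at h
  have := Int.eq_zero_of_abs_lt_dvd h (by omega)
  exact h0 this

theorem b4_eval_U (hp : 5 ≤ p) (i j : Fin 4) :
    (((j : ℕ) + 1 : ℕ) : ZMod p) * (U p i).eval (-((((j : ℕ) + 1 : ℕ) : ZMod p)⁻¹)) =
      (((j : ℤ) - (i : ℤ) : ℤ) : ZMod p) := by
  have h := b4_cast_ne p hp ((j : ℕ) + 1) (by omega) (by omega)
  unfold U
  rw [Polynomial.eval_add, Polynomial.eval_one, Polynomial.eval_mul, Polynomial.eval_C,
    Polynomial.eval_X, mul_add, mul_one, mul_left_comm, mul_neg, mul_inv_cancel₀ h]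
  push_cast
  ring

theorem rho_eq_zero_iff (hp : 5 ≤ p) (n : E) : rho p n = 0 ↔ Dvd p n := by
  rw [dvd_iff_cast]
  constructor
  · intro h j
    have hj := b4_cast_ne p hp ((j : ℕ) + 1) (by omega) (by omega)
    set x := -((((j : ℕ) + 1 : ℕ) : ZMod p)⁻¹) with hx
    have h1 := congrArg (Polynomial.eval x) h
    unfold rho at h1
    rw [Polynomial.eval_finsetSum, Finset.sum_eq_single j, Polynomial.eval_mul, Polynomial.eval_C,
      Polynomial.eval_prod, Polynomial.eval_zero] at h1
    · rcases mul_eq_zero.1 h1 with h2 | h2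
      · exact (mul_eq_zero.1 h2).resolve_right hj
      · exfalso
        obtain ⟨i, hi, hi0⟩ := Finset.prod_eq_zero_iff.1 h2
        have h3 := b4_eval_U p hp i j
        rw [← hx, hi0, mul_zero] at h3
        have hij : i ≠ j := (Finset.mem_erase.1 hi).1
        refine b4_cast_ne_int p hp ((j : ℤ) - (i : ℤ)) ?_ ?_ h3.symm
        · intro h4
          apply hij
          ext
          omega
        · rw [abs_lt]
          omega
    · intro b _ hb
      rw [Polynomial.eval_mul, Polynomial.eval_prod]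
      refine mul_eq_zero_of_right _ (Finset.prod_eq_zero (i := j) ?_ ?_)
      · exact Finset.mem_erase.2 ⟨fun h => hb h.symm, Finset.mem_univ _⟩
      · have h3 := b4_eval_U p hp j j
        rw [sub_self, Int.cast_zero, ← hx] at h3
        exact (mul_eq_zero.1 h3).resolve_left hj
    · intro h5
      exact absurd (Finset.mem_univ j) h5
  · intro h
    unfold rho
    refine Finset.sum_eq_zero fun j _ => ?_
    rw [h j]
    simp

theorem rr_sub (ρ : Polynomial (ZMod p)) (i : ℕ) (r s : Polynomial (ZMod p)) :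
    rr p ρ i (r - s) = rr p ρ i r - rr p ρ i s := by
  induction i with
  | zero => simp [rr]
  | succ i ih =>
    rw [rr, rr, rr, ih, Polynomial.derivative_sub]
    ring

theorem rr_zero (ρ : Polynomial (ZMod p)) (i : ℕ) : rr p ρ i 0 = 0 := by
  have := rr_sub p ρ i 0 0
  simpa using this

end Pool.Agent.MB
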