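import Pool.Agent.MB.Defs2

/-! MB B5. -/

set_option autoImplicit false

namespace Pool.Agent.MB

open PowerSeries Finset

variable (p : ℕ) [hpf : Fact p.Prime]

private lemma b5_two (hp : 5 ≤ p) : (2 : ZMod p) ≠ 0 := by
  intro h
  have h1 : ((2 : ℕ) : ZMod p) = 0 := by exact_mod_cast h
  rw [ZMod.natCast_eq_zero_iff] at h1
  have := Nat.le_of_dvd (by norm_num) h1
  omega

private lemma b5_U1 : U p 1 = 1 + Polynomial.C 2 * Polynomial.X := by
  unfold U
  have : ((((1 : Fin 4) : ℕ) + 1 : ℕ) : ZMod p) = 2 := by norm_num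
  rw [this]

private lemma b5_evU0 (hp : 5 ≤ p) : (U p 0).eval (-(2 : ZMod p)⁻¹) = (2 : ZMod p)⁻¹ := by
  have h2 := b5_two p hp
  unfold U
  have : ((((0 : Fin 4) : ℕ) + 1 : ℕ) : ZMod p) = 1 := by norm_num
  rw [this]
  simp only [Polynomial.eval_add, Polynomial.eval_one, Polynomial.eval_mul, Polynomial.eval_C,
    Polynomial.eval_X]
  field_simp
  ring

private lemma b5_evU1 (hp : 5 ≤ p) : (U p 1).eval (-(2 : ZMod p)⁻¹) = 0 := by
  have h2 := b5_two p hp
  rw [b5_U1]
  simp only [Polynomial.eval_add, Polynomial.eval_one, Polynomial.eval_mul, Polynomial.eval_C,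
    Polynomial.eval_X]
  field_simp
  ring

private lemma b5_evU2 (hp : 5 ≤ p) : (U p 2).eval (-(2 : ZMod p)⁻¹) = -(2 : ZMod p)⁻¹ := by
  have h2 := b5_two p hp
  unfold U
  have : ((((2 : Fin 4) : ℕ) + 1 : ℕ) : ZMod p) = 3 := by norm_num
  rw [this]
  simp only [Polynomial.eval_add, Polynomial.eval_one, Polynomial.eval_mul, Polynomial.eval_C,
    Polynomial.eval_X]
  field_simp
  ring

private lemma b5_evU3 (hp : 5 ≤ p) : (U p 3).eval (-(2 : ZMod p)⁻¹) = -1 := by
  have h2 := b5_two p hp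
  unfold U
  have : ((((3 : Fin 4) : ℕ) + 1 : ℕ) : ZMod p) = 4 := by norm_num
  rw [this]
  simp only [Polynomial.eval_add, Polynomial.eval_one, Polynomial.eval_mul, Polynomial.eval_C,
    Polynomial.eval_X]
  field_simp
  ring

/-- the cofactor -/
private noncomputable def b5_W : Polynomial (ZMod p) := U p 0 * U p 2 * U p 3

private lemma b5_PI : PI p = U p 1 * b5_W p := by
  unfold PI b5_W; ring

private lemma b5_evW (hp : 5 ≤ p) : (b5_W p).eval (-(2 : ZMod p)⁻¹) ≠ 0 := by
  have h2 := b5_two p hp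
  unfold b5_W
  rw [Polynomial.eval_mul, Polynomial.eval_mul, b5_evU0 p hp, b5_evU2 p hp, b5_evU3 p hp]
  simp [h2]

private lemma b5_evrho (hp : 5 ≤ p) (n : E) : (rho p n).eval (-(2 : ZMod p)⁻¹)
    = 2 * (n 1 : ZMod p) * (b5_W p).eval (-(2 : ZMod p)⁻¹) := by
  unfold rho
  rw [Polynomial.eval_finsetSum, Finset.sum_eq_single (1 : Fin 4)]
  · rw [Polynomial.eval_mul, Polynomial.eval_C]
    have h1 : (∏ i ∈ univ.erase (1 : Fin 4), U p i) = b5_W p := by
      have : (univ.erase (1 : Fin 4)) = {0, 2, 3} := by decide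
      rw [this]
      rw [Finset.prod_insert (by decide), Finset.prod_insert (by decide), Finset.prod_singleton]
      unfold b5_W; ring
    rw [h1]
    have : ((((1 : Fin 4) : ℕ) + 1 : ℕ) : ZMod p) = 2 := by norm_num
    rw [this]; ring
  · intro j _ hj
    rw [Polynomial.eval_mul, Polynomial.eval_prod]
    rw [Finset.prod_eq_zero (i := (1 : Fin 4)) (by simp [Ne.symm hj]) (b5_evU1 p hp), mul_zero]
  · simp

private lemma b5_evPI' (hp : 5 ≤ p) : (Polynomial.derivative (PI p)).eval (-(2 : ZMod p)⁻¹)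
    = 2 * (b5_W p).eval (-(2 : ZMod p)⁻¹) := by
  rw [b5_PI, Polynomial.derivative_mul, Polynomial.eval_add, Polynomial.eval_mul,
    Polynomial.eval_mul, b5_evU1 p hp, zero_mul, add_zero, b5_U1]
  simp

private lemma b5_PI_der (k : ℕ) : PI p * Polynomial.derivative (U p 1 ^ k)
    = U p 1 ^ k * (Polynomial.C (2 * (k : ZMod p)) * b5_W p) := by
  rw [b5_PI, Polynomial.derivative_pow]
  have h1 : Polynomial.derivative (U p 1) = Polynomial.C 2 := by
    rw [b5_U1]; simp
  rw [h1]
  rcases k with _ | k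
  · simp
  · simp only [Nat.add_sub_cancel, map_mul, map_natCast]
    ring

/-! ### B5 -/
theorem rr_ne_zero (hp : 5 ≤ p) (n : E) (ek : ℕ) (s s1 : Polynomial (ZMod p)) (hs : s = U p 1 ^ ek * s1)
    (hs1 : ¬ U p 1 ∣ s1) (h : ∀ i : ℕ, i < 4 → ((n 1 : ZMod p) + ek - i) ≠ 0) : rr p (rho p n) 4 s ≠ 0 := by
  have h2 := b5_two p hp
  set a : ZMod p := -(2 : ZMod p)⁻¹ with ha
  have hU1 : U p 1 = Polynomial.C 2 * (Polynomial.X - Polynomial.C a) := by
    rw [b5_U1, mul_sub, ← Polynomial.C_mul, ha, mul_neg, mul_inv_cancel₀ h2]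
    simp
    ring
  have hev : s1.eval a ≠ 0 := by
    intro h0
    apply hs1
    have h3 : (Polynomial.X - Polynomial.C a) ∣ s1 := Polynomial.dvd_iff_isRoot.mpr h0
    obtain ⟨r, hr⟩ := h3
    refine ⟨Polynomial.C (2 : ZMod p)⁻¹ * r, ?_⟩
    rw [hU1, hr]
    have h4 : (Polynomial.C (2 : ZMod p)) * Polynomial.C (2 : ZMod p)⁻¹ = 1 := by
      rw [← Polynomial.C_mul, mul_inv_cancel₀ h2, Polynomial.C_1]
    linear_combination (-((Polynomial.X - Polynomial.C a) * r)) * h4
  have key : ∀ i : ℕ, i ≤ 4 → ∃ w : Polynomial (ZMod p), rr p (rho p n) i s = U p 1 ^ ek * w ∧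
      w.eval a ≠ 0 := by
    intro i
    induction i with
    | zero =>
      intro _
      exact ⟨s1, hs, hev⟩
    | succ i ih =>
      intro hi
      obtain ⟨w, hw, hw0⟩ := ih (by omega)
      refine ⟨(rho p n - (i : Polynomial (ZMod p)) * Polynomial.derivative (PI p)) * w +
        Polynomial.C (2 * (ek : ZMod p)) * b5_W p * w + PI p * Polynomial.derivative w, ?_, ?_⟩
      · change (rho p n - (i : Polynomial (ZMod p)) * Polynomial.derivative (PI p)) *
          rr p (rho p n) i s + PI p * Polynomial.derivative (rr p (rho p n) i s) = _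
        rw [hw, Polynomial.derivative_mul]
        have h5 := b5_PI_der p ek
        linear_combination w * h5
      · have e1 : (PI p).eval a = 0 := by
          rw [b5_PI, Polynomial.eval_mul, b5_evU1 p hp, zero_mul]
        rw [Polynomial.eval_add, Polynomial.eval_add, Polynomial.eval_mul, Polynomial.eval_mul,
          Polynomial.eval_mul, Polynomial.eval_mul, Polynomial.eval_sub, Polynomial.eval_mul,
          b5_evrho p hp, b5_evPI' p hp, e1, Polynomial.eval_C, Polynomial.eval_natCast]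
        have h6 := h i (by omega)
        have h7 := b5_evW p hp
        have : (2 * (n 1 : ZMod p) * (b5_W p).eval (-(2 : ZMod p)⁻¹) -
            (i : ZMod p) * (2 * (b5_W p).eval (-(2 : ZMod p)⁻¹))) * w.eval a +
            2 * (ek : ZMod p) * (b5_W p).eval a * w.eval a + 0 * (Polynomial.derivative w).eval a
            = 2 * ((n 1 : ZMod p) + ek - i) * (b5_W p).eval a * w.eval a := by
          rw [← ha]; ring
        rw [this]
        exact mul_ne_zero (mul_ne_zero (mul_ne_zero h2 h6) h7) hw0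
  obtain ⟨w, hw, hw0⟩ := key 4 le_rfl
  rw [hw]
  refine mul_ne_zero (pow_ne_zero _ ?_) ?_
  · rw [hU1]
    exact mul_ne_zero (by simpa using h2) (Polynomial.X_sub_C_ne_zero a)
  · rintro rfl
    simp at hw0

end Pool.Agent.MB
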