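import Pool.Agent.MB.B4

/-! MB B7: `T n` close to `1`. -/

set_option autoImplicit false

namespace Pool.Agent.MB

open PowerSeries Finset

variable (p : ℕ) [hpf : Fact p.Prime]

theorem b7_dd_dvd (k : ℕ) (f : P p) (h : (X : P p) ^ (k + 1) ∣ f) : (X : P p) ^ k ∣ dd p f := by
  rw [PowerSeries.X_pow_dvd_iff] at h ⊢
  intro m hm
  have h1 : PowerSeries.coeff m (dd p f) = PowerSeries.coeff (m + 1) f * (m + 1) :=
    PowerSeries.coeff_derivative f m
  rw [h1, h (m + 1) (by omega), zero_mul]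

theorem dvd_of_T (hp : 5 ≤ p) (n : E) (h : (X : P p) ^ 5 ∣ T p n - 1) : Dvd p n := by
  rw [← rho_eq_zero_iff p hp]
  have h1 : (X : P p) ^ 4 ∣ dd p (T p n) := by
    have h2 := b7_dd_dvd p 4 _ h
    have h3 : dd p (T p n - 1) = dd p (T p n) := by
      have : dd p (T p n - 1) = dd p (T p n) - dd p 1 := map_sub _ _ _
      rw [this]
      have h4 : dd p (1 : P p) = 0 := Derivation.map_one_eq_zero _
      rw [h4, sub_zero]
    rwa [h3] at h2
  have h5 : (X : P p) ^ 4 ∣ ((rho p n : Polynomial (ZMod p)) : P p) * T p n := by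
    rw [← PI_mul_deriv_T]
    exact h1.mul_left _
  have h6 : (X : P p) ^ 4 ∣ ((rho p n : Polynomial (ZMod p)) : P p) :=
    (isUnit_T p n).dvd_mul_right.1 h5
  rw [PowerSeries.X_pow_dvd_iff] at h6
  ext m
  rcases lt_or_ge m 4 with hm | hm
  · have := h6 m hm
    rw [Polynomial.coeff_coe] at this
    rw [this, Polynomial.coeff_zero]
  · rw [Polynomial.coeff_zero]
    exact Polynomial.coeff_eq_zero_of_natDegree_lt (lt_of_le_of_lt (natDegree_rho p n) (by omega))

theorem b7_aux (a b : ℕ) (hb : p * a < b + p) : ∀ g : P p, (X : P p) ^ b ∣ g ^ p →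
    (X : P p) ^ a ∣ g := by
  have hp0 : 0 < p := hpf.out.pos
  intro g h
  by_cases hg : g = 0
  · rw [hg]; exact dvd_zero _
  have hfm := FiniteMultiplicity.of_prime_left PowerSeries.X_prime hg
  obtain ⟨u, hgu, hu⟩ := hfm.exists_eq_pow_mul_and_not_dvd
  generalize multiplicity (X : P p) g = k at hgu
  subst hgu
  by_cases hk : a ≤ k
  · exact (pow_dvd_pow _ hk).mul_right _
  · exfalso
    have h1 : p * k + 1 ≤ b := by
      have : p * (k + 1) ≤ p * a := Nat.mul_le_mul_left _ (by omega)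
      rw [mul_add, mul_one] at this
      omega
    have h2 : (X : P p) ^ (p * k + 1) ∣ (X ^ k * u) ^ p := (pow_dvd_pow _ h1).trans h
    rw [mul_pow, ← pow_mul, mul_comm k p, pow_succ] at h2
    have h3 : (X : P p) ∣ u ^ p :=
      (mul_dvd_mul_iff_left (pow_ne_zero _ PowerSeries.X_ne_zero)).1 h2
    exact hu (PowerSeries.X_prime.dvd_of_dvd_pow h3)

/-- stronger: only need more than `p (a-1)` -/
theorem X_pow_dvd_of_pow (a b : ℕ) (hb : p * a < b + p) (f : P p) (h : (X : P p) ^ b ∣ f ^ p - 1) :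
    (X : P p) ^ a ∣ f - 1 := by
  refine b7_aux p a b hb _ ?_
  rw [sub_pow_char, one_pow]
  exact h

theorem T_NN (hp : 5 ≤ p) (n : E) (h : (X : P p) ^ (NN p) ∣ T p n - 1) :
    ∃ n' : E, n = (p : ℤ) • ((p : ℤ) • n') ∧ (X : P p) ^ 5 ∣ T p ((p : ℤ) • n') - 1 := by
  have h5 : 5 ≤ NN p := by unfold NN; omega
  obtain ⟨n1, rfl⟩ := (dvd_iff p n).1 (dvd_of_T p hp n ((pow_dvd_pow _ h5).trans h))
  have h1 : (X : P p) ^ 5 ∣ T p n1 - 1 := by
    refine X_pow_dvd_of_pow p 5 (NN p) ?_ _ ?_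
    · unfold NN; omega
    · rwa [← T_psmul]
  obtain ⟨n', rfl⟩ := (dvd_iff p n1).1 (dvd_of_T p hp n1 h1)
  exact ⟨n', rfl, h1⟩

end Pool.Agent.MB
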