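import Pool.Agent.MB.B3
import Pool.Agent.MB.B4
import Pool.Agent.MB.B5
import Pool.Agent.MB.B7
import Pool.Agent.MB.B8

/-! # MB B9: windows with one small unit (case one of the main lemma) -/

set_option autoImplicit false

namespace Pool.Agent.MB

open PowerSeries Finset

variable (p : ℕ) [hpf : Fact p.Prime]

theorem b9_cast_ne (z : ℤ) (h1 : 0 < z) (h2 : z < p) : ((z : ℤ) : ZMod p) ≠ 0 := by
  intro h
  rw [ZMod.intCast_zmod_eq_zero_iff_dvd] at h
  exact absurd (Int.le_of_dvd h1 h) (by omega)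

theorem b9_natDegree_U1 (hp : 5 ≤ p) : (U p 1).natDegree = 1 := by
  have h2 : ((((1 : Fin 4) : ℕ) + 1 : ℕ) : ZMod p) ≠ 0 := by
    have := b9_cast_ne p 2 (by norm_num) (by omega)
    have e : ((((1 : Fin 4) : ℕ) + 1 : ℕ) : ZMod p) = ((2 : ℤ) : ZMod p) := by
      simp only [Fin.val_one]; norm_num
    rw [e]; exact this
  unfold U
  rw [add_comm, show (1 : Polynomial (ZMod p)) = Polynomial.C 1 by simp]
  exact Polynomial.natDegree_linear h2

theorem b9_U_ne_zero (j : Fin 4) : U p j ≠ 0 := by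
  intro h
  have := congrArg (Polynomial.eval 0) h
  simp [U] at this

theorem b9_split (hp : 5 ≤ p) (q : Polynomial (ZMod p)) (hq : q ≠ 0) :
    ∃ (ek : ℕ) (s1 : Polynomial (ZMod p)), q = U p 1 ^ ek * s1 ∧ ¬ U p 1 ∣ s1 ∧
      ek ≤ q.natDegree := by
  have hdeg := b9_natDegree_U1 p hp
  have hnu : ¬ IsUnit (U p 1) := by
    intro h
    have := Polynomial.natDegree_eq_zero_of_isUnit h
    omega
  have hfin : FiniteMultiplicity (U p 1) q := FiniteMultiplicity.of_not_isUnit hnu hq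
  obtain ⟨c, hc, hc2⟩ := hfin.exists_eq_pow_mul_and_not_dvd
  refine ⟨_, c, hc, hc2, ?_⟩
  have hdvd : U p 1 ^ (multiplicity (U p 1) q) ∣ q := ⟨c, hc⟩
  have h2 := Polynomial.natDegree_le_of_dvd hdvd hq
  rwa [Polynomial.natDegree_pow, hdeg, mul_one] at h2

theorem qt_ne_zero (hp : 1000 ≤ p) (l : ℕ) (h1 : 99 ≤ l) (h2 : l + 101 ≤ p)
    (q : Polynomial (ZMod p)) (hq : q ≠ 0) (hd : q.natDegree ≤ 3) : qt p l q ≠ 0 := by
  obtain ⟨ek, s1, hs, hs1, hek⟩ := b9_split p (by omega) q hq
  refine rr_ne_zero p (by omega) (th l) ek q s1 hs hs1 fun i hi => ?_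
  have hth : (th l) 1 = (l : ℤ) + 1 := by simp [th]
  have e : ((((th l) 1 : ℤ) : ZMod p) + (ek : ZMod p) - (i : ZMod p))
      = (((l : ℤ) + 1 + (ek : ℤ) - (i : ℤ) : ℤ) : ZMod p) := by
    rw [hth]; push_cast; ring
  rw [e]
  exact b9_cast_ne p _ (by omega) (by omega)

theorem natDegree_qt (l : ℕ) (q : Polynomial (ZMod p)) (hd : q.natDegree ≤ 3) :
    (qt p l q).natDegree ≤ 15 := by
  have := natDegree_rr p (rho p (th l)) (natDegree_rho p _) 4 q
  unfold qt
  omega

theorem natDegree_gt (l : ℕ) (ε : E) (q : Polynomial (ZMod p)) (hd : q.natDegree ≤ 3) :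
    (gt p l ε q).natDegree ≤ 15 := by
  have := natDegree_rr p (rho p (th l + ε)) (natDegree_rho p _) 4 q
  unfold gt
  omega

theorem b9_natDegree_U (j : Fin 4) : (U p j).natDegree ≤ 1 := by
  unfold U
  refine (Polynomial.natDegree_add_le _ _).trans (max_le (by simp) ?_)
  exact (Polynomial.natDegree_C_mul_le _ _).trans Polynomial.natDegree_X_le

theorem b9_natDegree_prod (n : Fin 4 → ℕ) : (∏ j, U p j ^ n j).natDegree ≤ ∑ j, n j := by
  refine (Polynomial.natDegree_prod_le _ _).trans (Finset.sum_le_sum fun j _ => ?_)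
  refine Polynomial.natDegree_pow_le.trans ?_
  have := b9_natDegree_U p j
  calc n j * (U p j).natDegree ≤ n j * 1 := Nat.mul_le_mul_left _ this
    _ = n j := by ring

theorem b9_iter_T (n : E) (r : Polynomial (ZMod p)) :
    ((PI p : Polynomial (ZMod p)) : P p) ^ 4 * (dd p)^[4] (T p n * (r : P p))
      = T p n * ((rr p (rho p n) 4 r : Polynomial (ZMod p)) : P p) :=
  iter_deriv p (T p n) (rho p n) (PI_mul_deriv_T p n) 4 r

theorem b9_dd_sub (f g : P p) : ∀ i, (dd p)^[i] (f - g) = (dd p)^[i] f - (dd p)^[i] g := by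
  intro i
  induction i with
  | zero => rfl
  | succ i ih =>
    rw [Function.iterate_succ_apply', Function.iterate_succ_apply', Function.iterate_succ_apply', ih]
    exact map_sub _ _ _

theorem b9_dd_C_mul (a : ZMod p) (f : P p) : ∀ i, (dd p)^[i] (PowerSeries.C a * f)
    = PowerSeries.C a * (dd p)^[i] f := by
  intro i
  induction i with
  | zero => rfl
  | succ i ih =>
    rw [Function.iterate_succ_apply', Function.iterate_succ_apply', ih]
    change PowerSeries.derivative (ZMod p) (PowerSeries.C a * _) = _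
    rw [← PowerSeries.smul_eq_C_mul, ← PowerSeries.smul_eq_C_mul, Derivation.map_smul]

theorem unit_one (hp : 1000 ≤ p) (l : ℕ) (h1 : 99 ≤ l) (h2 : l + 101 ≤ p)
    (q : Polynomial (ZMod p)) (hq : q ≠ 0)
    (hd : q.natDegree ≤ 3) (ε : E) (η ζ : Fin 4 → ℕ) (lam : ZMod p) (hlam : lam ≠ 0)
    (hη : ∑ j, η j ≤ 96) (hζ : ∑ j, ζ j ≤ 96)
    (hc : ∀ j, ((η j : ZMod p) - ζ j) = ε j)
    (h : qt p l q * ∏ j, U p j ^ ζ j = Polynomial.C lam * gt p l ε q * ∏ j, U p j ^ η j) :
    η = ζ ∧ lam = 1 := by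
  classical
  set Zp : Polynomial (ZMod p) := ∏ j, U p j ^ ζ j with hZp
  set Hp : Polynomial (ZMod p) := ∏ j, U p j ^ η j with hHp
  set s : Polynomial (ZMod p) := q * (Zp - Polynomial.C lam * Hp) with hs
  let zE : E := fun j => (ζ j : ℤ)
  let hE : E := fun j => (η j : ℤ)
  have hTZ : T p zE = (Zp : P p) := T_nonneg p ζ
  have hTH : T p hE = (Hp : P p) := T_nonneg p η
  -- the identity of series
  have hid : T p (th l - zE) * (s : P p)
      = T p (th l) * (q : P p) - PowerSeries.C lam * (T p (th l + (hE - zE)) * (q : P p)) := by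
    have e1 : T p (th l - zE) * (Zp : P p) = T p (th l) := by
      rw [← hTZ, ← T_add]; congr 1; abel
    have e2 : T p (th l - zE) * (Hp : P p) = T p (th l + (hE - zE)) := by
      rw [← hTH, ← T_add]; congr 1; abel
    rw [← e1, ← e2, hs]
    simp only [Polynomial.coe_mul, Polynomial.coe_sub, Polynomial.coe_C]
    ring
  have hrho : rho p (th l + (hE - zE)) = rho p (th l + ε) := by
    refine rho_congr p _ _ fun j => ?_
    simp only [Pi.add_apply, Pi.sub_apply, Int.cast_add, Int.cast_sub]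
    rw [← hc j]
    simp [hE, zE]
  have h0 : rr p (rho p (th l - zE)) 4 s = 0 := by
    have k1 := b9_iter_T p (th l - zE) s
    have k2 := b9_iter_T p (th l) q
    have k3 := b9_iter_T p (th l + (hE - zE)) q
    rw [hid, b9_dd_sub, b9_dd_C_mul] at k1
    rw [hrho] at k3
    have e1 : T p (th l) = T p (th l - zE) * (Zp : P p) := by
      rw [← hTZ, ← T_add]; congr 1; abel
    have e2 : T p (th l + (hE - zE)) = T p (th l - zE) * (Hp : P p) := by
      rw [← hTH, ← T_add]; congr 1; abel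
    have hcoe := congrArg (fun t : Polynomial (ZMod p) => (t : P p)) h
    simp only [Polynomial.coe_mul, Polynomial.coe_C] at hcoe
    have k4 : T p (th l - zE) * ((rr p (rho p (th l - zE)) 4 s : Polynomial (ZMod p)) : P p)
        = 0 := by
      rw [← k1]
      have k2' : ((PI p : Polynomial (ZMod p)) : P p) ^ 4 * (dd p)^[4] (T p (th l) * (q : P p))
          = T p (th l) * ((qt p l q : Polynomial (ZMod p)) : P p) := k2
      have k3' : ((PI p : Polynomial (ZMod p)) : P p) ^ 4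
          * (dd p)^[4] (T p (th l + (hE - zE)) * (q : P p))
          = T p (th l + (hE - zE)) * ((gt p l ε q : Polynomial (ZMod p)) : P p) := k3
      rw [e1] at k2'
      rw [e2] at k3'
      rw [e1, e2]
      linear_combination k2' - PowerSeries.C lam * k3' + T p (th l - zE) * hcoe
    have k5 := (mul_eq_zero.mp k4).resolve_left (T_ne_zero p _)
    exact_mod_cast k5
  have hs0 : s = 0 := by
    by_contra hsne
    obtain ⟨ek, s1, hs1, hs2, hek⟩ := b9_split p (by omega) s hsne
    have hdegs : s.natDegree ≤ 99 := by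
      have a1 := b9_natDegree_prod p ζ
      have a2 := b9_natDegree_prod p η
      rw [hs]
      refine Polynomial.natDegree_mul_le.trans ?_
      have : (Zp - Polynomial.C lam * Hp).natDegree ≤ 96 := by
        refine (Polynomial.natDegree_sub_le _ _).trans (max_le (a1.trans hζ) ?_)
        exact (Polynomial.natDegree_C_mul_le _ _).trans (a2.trans hη)
      omega
    have hζ1 : ζ 1 ≤ 96 := (Finset.single_le_sum (f := ζ) (fun _ _ => Nat.zero_le _)
      (Finset.mem_univ 1)).trans hζ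
    refine rr_ne_zero p (by omega) (th l - zE) ek s s1 hs1 hs2 (fun i hi => ?_) h0
    have hth : (th l - zE) 1 = (l : ℤ) + 1 - ζ 1 := by simp [th, zE]
    have e : ((((th l - zE) 1 : ℤ) : ZMod p) + (ek : ZMod p) - (i : ZMod p))
        = (((l : ℤ) + 1 - ζ 1 + (ek : ℤ) - (i : ℤ) : ℤ) : ZMod p) := by
      rw [hth]; push_cast; ring
    rw [e]
    exact b9_cast_ne p _ (by omega) (by omega)
  have hZH : Zp = Polynomial.C lam * Hp := by
    rw [hs] at hs0
    exact sub_eq_zero.mp ((mul_eq_zero.mp hs0).resolve_left hq)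
  have hev : ∀ n : Fin 4 → ℕ, (∏ j, U p j ^ n j : Polynomial (ZMod p)).eval 0 = 1 := by
    intro n
    rw [Polynomial.eval_prod]
    refine Finset.prod_eq_one fun j _ => ?_
    simp [U]
  have hlam1 : lam = 1 := by
    have := congrArg (Polynomial.eval 0) hZH
    rw [Polynomial.eval_mul, Polynomial.eval_C, hZp, hHp, hev, hev, mul_one] at this
    exact this.symm
  refine ⟨?_, hlam1⟩
  rw [hlam1, Polynomial.C_1, one_mul] at hZH
  have hT1 : T p (hE - zE) = 1 := by
    have : T p (hE - zE) * T p zE = 1 * T p zE := by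
      rw [← T_add, sub_add_cancel, hTH, hTZ, hZH, one_mul]
    exact mul_right_cancel₀ (T_ne_zero p _) this
  have hD : Dvd p (hE - zE) := dvd_of_T p (by omega) _ (by rw [hT1, sub_self]; exact dvd_zero _)
  funext j
  have hj := hD j
  have hj2 : (p : ℤ) ∣ (η j : ℤ) - (ζ j : ℤ) := by simpa [hE, zE] using hj
  have b1 : η j ≤ 96 := (Finset.single_le_sum (f := η) (fun _ _ => Nat.zero_le _)
    (Finset.mem_univ j)).trans hη
  have b2 : ζ j ≤ 96 := (Finset.single_le_sum (f := ζ) (fun _ _ => Nat.zero_le _)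
    (Finset.mem_univ j)).trans hζ
  have := Int.eq_zero_of_abs_lt_dvd hj2 (by rw [abs_lt]; constructor <;> omega)
  omega

theorem b9_coe_T_th (l : ℕ) (q : Polynomial (ZMod p)) :
    ((Q p : Polynomial (ZMod p)) : P p) * ((U p 1 ^ l * q : Polynomial (ZMod p)) : P p)
      = T p (th l) * (q : P p) := by
  rw [T_th]
  simp only [Polynomial.coe_mul]
  ring

theorem b9_isUnit_Q : IsUnit ((Q p : Polynomial (ZMod p)) : P p) := by
  rw [PowerSeries.isUnit_iff_constantCoeff]
  simp [Q, U]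

theorem b9_isUnit_U1pow (l : ℕ) : IsUnit ((U p 1 ^ l : Polynomial (ZMod p)) : P p) := by
  rw [PowerSeries.isUnit_iff_constantCoeff]
  simp [U]

/-- consequence of F3 -/
theorem key (hp : 5 ≤ p) (l l' : ℕ) (q q' : Polynomial (ZMod p)) (ε ε' : E)
    (h : JN p ((U p 1 ^ l * q : Polynomial (ZMod p)) - T p ε * (U p 1 ^ l * q : Polynomial (ZMod p))) =
      JN p ((U p 1 ^ l' * q' : Polynomial (ZMod p)) - T p ε' * (U p 1 ^ l' * q' : Polynomial (ZMod p)))) :
    (X : P p) ^ (p * NN p - 4) ∣ ((U p 1 ^ l : Polynomial (ZMod p)) : P p) * ((qt p l q : P p) - T p ε * (gt p l ε q : P p)) -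
      ((U p 1 ^ l' : Polynomial (ZMod p)) : P p) * ((qt p l' q' : P p) - T p ε' * (gt p l' ε' q' : P p)) := by
  have hF := F3 p hp _ _ h
  have hD : ∀ (l : ℕ) (q : Polynomial (ZMod p)) (ε : E),
      ((PI p : Polynomial (ZMod p)) : P p) ^ 4 * (dd p)^[4] (((Q p : Polynomial (ZMod p)) : P p) *
        (((U p 1 ^ l * q : Polynomial (ZMod p)) : P p) - T p ε * (U p 1 ^ l * q : Polynomial (ZMod p))))
      = ((Q p : Polynomial (ZMod p)) : P p) * (((U p 1 ^ l : Polynomial (ZMod p)) : P p) *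
        ((qt p l q : P p) - T p ε * (gt p l ε q : P p))) := by
    intro l q ε
    have e1 : ((Q p : Polynomial (ZMod p)) : P p) *
        (((U p 1 ^ l * q : Polynomial (ZMod p)) : P p) - T p ε * (U p 1 ^ l * q : Polynomial (ZMod p)))
        = T p (th l) * (q : P p) - T p (th l + ε) * (q : P p) := by
      have := b9_coe_T_th p l q
      rw [T_add]
      linear_combination (1 - T p ε) * this
    rw [e1, b9_dd_sub, mul_sub]
    have k2 : ((PI p : Polynomial (ZMod p)) : P p) ^ 4 * (dd p)^[4] (T p (th l) * (q : P p))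
        = T p (th l) * ((qt p l q : Polynomial (ZMod p)) : P p) := b9_iter_T p (th l) q
    have k3 : ((PI p : Polynomial (ZMod p)) : P p) ^ 4 * (dd p)^[4] (T p (th l + ε) * (q : P p))
        = T p (th l + ε) * ((gt p l ε q : Polynomial (ZMod p)) : P p) := b9_iter_T p (th l + ε) q
    rw [k2, k3, T_add, T_th]
    simp only [Polynomial.coe_mul]
    ring
  have h2 := Dvd.dvd.mul_left hF (((PI p : Polynomial (ZMod p)) : P p) ^ 4)
  rw [mul_sub, hD, hD, ← mul_sub] at h2
  exact ((b9_isUnit_Q p).dvd_mul_left).mp h2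

omit hpf in
theorem b9_NN (hp : 1000 ≤ p) : 400 + 4 ≤ p * NN p := by
  unfold NN
  nlinarith

/-- good windows: the letters are faithful -/
theorem good_window (hp : 1000 ≤ p) (l : ℕ) (h1 : 99 ≤ l) (h2 : l + 101 ≤ p)
    (q : Polynomial (ZMod p)) (hq : q ≠ 0) (hd : q.natDegree ≤ 3) :
    JN p ((U p 1 ^ l * q : Polynomial (ZMod p)) : P p) ≠ 0 := by
  intro h0
  have hF := F3 p (by omega) ((U p 1 ^ l * q : Polynomial (ZMod p)) : P p) 0
    (by rw [h0, map_zero])
  rw [b9_coe_T_th, mul_zero] at hF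
  have hz : (dd p)^[4] (0 : P p) = 0 := by
    simp only [Function.iterate_succ_apply', Function.iterate_zero, id_eq]
    simp
  rw [hz, sub_zero] at hF
  have h3 := Dvd.dvd.mul_left hF (((PI p : Polynomial (ZMod p)) : P p) ^ 4)
  rw [b9_iter_T] at h3
  have h4 := ((isUnit_T p (th l)).dvd_mul_left).mp h3
  have hNN := b9_NN p hp
  have h5 := poly_eq_zero_of_dvd p _ _
    (lt_of_le_of_lt (natDegree_qt p l q hd) (by omega : 15 < p * NN p - 4)) h4
  exact qt_ne_zero p hp l h1 h2 q hq hd h5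

/-- CASE 1 -/
theorem case_one (hp : 1000 ≤ p) (l : ℕ) (h1 : 99 ≤ l) (h2 : l + 101 ≤ p)
    (q : Polynomial (ZMod p)) (hq : q ≠ 0)
    (hd : q.natDegree ≤ 3) (ε : E)
    (h : JN p ((U p 1 ^ l * q : Polynomial (ZMod p)) : P p) = JN p (T p ε * (U p 1 ^ l * q : Polynomial (ZMod p)))) :
    ∃ η : E, ε = (p : ℤ) • η ∧ (X : P p) ^ NN p ∣ T p η - 1 := by
  have hNN := b9_NN p hp
  have hk := key p (by omega) l 0 q 0 ε 0 (by
    simp only [mul_zero, Polynomial.coe_zero, sub_zero, map_zero]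
    rw [map_sub, h, sub_self])
  have hq0 : qt p 0 (0 : Polynomial (ZMod p)) = 0 := rr_zero p _ _
  have hg0 : gt p 0 0 (0 : Polynomial (ZMod p)) = 0 := rr_zero p _ _
  rw [hq0, hg0] at hk
  simp only [Polynomial.coe_zero, mul_zero, sub_zero] at hk
  have hk2 := ((b9_isUnit_U1pow p l).dvd_mul_left).mp hk
  have hqt := qt_ne_zero p hp l h1 h2 q hq hd
  have hgt : gt p l ε q ≠ 0 := by
    intro h0
    rw [h0, Polynomial.coe_zero, mul_zero, sub_zero] at hk2
    exact hqt (poly_eq_zero_of_dvd p _ _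
      (lt_of_le_of_lt (natDegree_qt p l q hd) (by omega : 15 < p * NN p - 4)) hk2)
  obtain ⟨η, ζ, lam, hlam, hη, hζ, hc, hrel, hdvd⟩ := ratio_of_dvd p (by omega) 15 (p * NN p - 4)
    (by omega) (by omega) ε (gt p l ε q) (qt p l q) hgt (natDegree_gt p l ε q hd)
    (natDegree_qt p l q hd) (by
      have := (dvd_neg).mpr hk2
      rwa [neg_sub] at this)
  obtain ⟨hηζ, hlam1⟩ := unit_one p hp l h1 h2 q hq hd ε η ζ lam hlam (hη.trans (by norm_num))
    (hζ.trans (by norm_num)) hc hrel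
  subst hηζ
  subst hlam1
  have hDε : Dvd p ε := by
    rw [dvd_iff_cast]
    intro j
    rw [← hc j, sub_self]
  obtain ⟨η', hη'⟩ := hDε.exists_smul
  refine ⟨η', hη', ?_⟩
  have hz : (fun j => ((η j : ℤ) - (η j : ℤ))) = (0 : E) := by funext j; simp
  rw [hz, T_zero, map_one, mul_one, hη', T_psmul] at hdvd
  exact X_pow_dvd_of_pow p (NN p) _ (by omega) _ hdvd

end Pool.Agent.MB
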