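import Pool.Agent.MB.B2b
import Pool.Agent.MB.B6
import Pool.Agent.MB.B9
import Pool.Agent.MB.B10b

/-! MB B11: the main lemma. -/

set_option autoImplicit false

namespace Pool.Agent.MB

open PowerSeries Finset

variable (p : ℕ) [hpf : Fact p.Prime]

private theorem b11_deg_U (j : Fin 4) : (U p j).natDegree ≤ 1 := by
  unfold U
  refine (Polynomial.natDegree_add_le _ _).trans (max_le ?_ ?_)
  · simp
  · exact (Polynomial.natDegree_C_mul_le _ _).trans Polynomial.natDegree_X_le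

theorem cart_th (hp : 1000 ≤ p) (l : ℕ) (hl : l + 101 ≤ p) {g : P p} (hg : g ∈ L p) :
    cart p (T p (th l) * g) = PowerSeries.C (ev p l g) := by
  obtain ⟨q, hq, hqg⟩ := (th_mul_L p l g).1 hg
  have hdeg : (U p 1 ^ l * q).natDegree < p := by
    have h1 : (U p 1 ^ l).natDegree ≤ l := by
      refine Polynomial.natDegree_pow_le.trans ?_
      calc l * (U p 1).natDegree ≤ l * 1 := Nat.mul_le_mul_left l (b11_deg_U p 1)
        _ = l := Nat.mul_one l
    have h2 := Polynomial.natDegree_mul_le (p := U p 1 ^ l) (q := q)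
    omega
  have h3 := cart_small p _ hdeg
  have h4 : ev p l g = (U p 1 ^ l * q).eval (-1) := by
    show PowerSeries.coeff 0 (cart p (T p (th l) * g)) = _
    rw [hqg, h3]
    simp
  rw [hqg, h3, h4]

private theorem b11_bounds {l : ℕ} (hl : l ∈ FF) : 99 ≤ l ∧ l ≤ 748 := by
  simp only [FF, Finset.mem_insert, Finset.mem_singleton] at hl
  omega

private theorem b11_T_split (σ ε : E) (l : ℕ) (θ : E) (hθ : θ = th l + (p : ℤ) • σ + ε) (g : P p) :
    T p θ * g = T p σ ^ p * (T p ε * (T p (th l) * g)) := by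
  rw [hθ, T_add, T_add, T_psmul]
  ring

theorem main_lemma (hp : 1000 ≤ p) (σ : E) (v : VI p → ZMod p) (ϑ : ℕ → E) (hϑ : ∀ l ∈ FF, ¬ Dvd p (ϑ l))
    (h : ∀ l ∈ FF, ∀ g ∈ L p, cart p (T p (ϑ l) * g) = 0 →
      JN p (T p (th l + (p : ℤ) • σ) * g) + ev p l g • v = JN p (T p (ϑ l) * g)) :
    ∃ l ∈ FF, ∃ η : E, ϑ l = th l + (p : ℤ) • (σ + η) ∧ (X : P p) ^ NN p ∣ T p η - 1 := by
  classical
  have hε : ∀ l, ϑ l = th l + (p : ℤ) • σ + (ϑ l - th l - (p : ℤ) • σ) := by
    intro l; abel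
  have hsplit1 : ∀ (l : ℕ) (g : P p), T p (th l + (p : ℤ) • σ) * g =
      T p σ ^ p * (T p (th l) * g) := by
    intro l g
    rw [T_add, T_psmul]
    ring
  by_cases hA : ∃ l ∈ FF, ∃ g ∈ L p, g ≠ 0 ∧ cart p (T p (ϑ l) * g) = 0 ∧ ev p l g = 0
  · obtain ⟨l, hl, g, hg, hg0, hc, hev⟩ := hA
    have hb := b11_bounds hl
    obtain ⟨q, hq, hqg⟩ := (th_mul_L p l g).1 hg
    have hq0 : q ≠ 0 := by
      rintro rfl
      rw [mul_zero, Polynomial.coe_zero] at hqg
      exact hg0 ((isUnit_T p (th l)).mul_right_eq_zero.1 hqg)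
    have h1 := h l hl g hg hc
    rw [hev, zero_smul, add_zero, hsplit1, b11_T_split p σ _ l (ϑ l) (hε l) g,
      JN_cancel p _ _ _ (isUnit_T p σ), hqg] at h1
    obtain ⟨η, hη, hX⟩ := case_one p hp l hb.1 (by omega) q hq0 hq _ h1
    refine ⟨l, hl, η, ?_, hX⟩
    rw [smul_add, ← add_assoc, ← hη]
    exact hε l
  · exfalso
    have hB : ∀ l, ∃ (g : P p) (q : Polynomial (ZMod p)), l ∈ FF → (g ∈ L p ∧ q ≠ 0 ∧
        q.natDegree ≤ 3 ∧ T p (th l) * g = ((U p 1 ^ l * q : Polynomial (ZMod p)) : P p) ∧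
        cart p (T p (ϑ l) * g) = 0 ∧ ev p l g = 1) := by
      intro l
      by_cases hl : l ∈ FF
      · obtain ⟨g, hg, hg0, hc⟩ := exists_kernel p (by omega) (ϑ l) (hϑ l hl)
        have hev : ev p l g ≠ 0 := fun hev => hA ⟨l, hl, g, hg, hg0, hc, hev⟩
        set c : ZMod p := (ev p l g)⁻¹ with hcdef
        have hc0 : c ≠ 0 := inv_ne_zero hev
        have hg' : c • g ∈ L p := (L p).smul_mem c hg
        obtain ⟨q, hq, hqg⟩ := (th_mul_L p l (c • g)).1 hg'
        refine ⟨c • g, q, fun _ => ⟨hg', ?_, hq, hqg, ?_, ?_⟩⟩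
        · rintro rfl
          rw [mul_zero, Polynomial.coe_zero] at hqg
          have h1 := (isUnit_T p (th l)).mul_right_eq_zero.1 hqg
          rcases smul_eq_zero.1 h1 with h2 | h2
          · exact hc0 h2
          · exact hg0 h2
        · rw [mul_smul_comm, map_smul, hc, smul_zero]
        · rw [map_smul, smul_eq_mul, hcdef, inv_mul_cancel₀ hev]
      · exact ⟨0, 0, fun hl' => absurd hl' hl⟩
    choose g q hgq using hB
    obtain ⟨l, hl, hD⟩ := case_two p hp q (fun l => ϑ l - th l - (p : ℤ) • σ)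
      (fun l hl => (hgq l hl).2.1) (fun l hl => (hgq l hl).2.2.1) (by
        have hval : ∀ l ∈ FF, JN p (T p σ ^ p * ((U p 1 ^ l * q l : Polynomial (ZMod p)) -
            T p (ϑ l - th l - (p : ℤ) • σ) * (U p 1 ^ l * q l : Polynomial (ZMod p)))) = -v := by
          intro l hl
          obtain ⟨h1, -, -, h4, h5, h6⟩ := hgq l hl
          have h7 := h l hl (g l) h1 h5
          rw [h6, one_smul, hsplit1, b11_T_split p σ _ l (ϑ l) (hε l) (g l), h4] at h7
          rw [mul_sub, map_sub, ← h7]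
          abel
        intro l hl l' hl'
        rw [← JN_cancel p (T p σ) _ _ (isUnit_T p σ), hval l hl, hval l' hl'])
    obtain ⟨η, hη⟩ := (dvd_iff p _).1 hD
    obtain ⟨h1, -, -, h4, h5, h6⟩ := hgq l hl
    have hb := b11_bounds hl
    have h7 : ϑ l = th l + (p : ℤ) • (σ + η) := by
      rw [smul_add, ← add_assoc, ← hη]
      exact hε l
    rw [h7, T_add, mul_comm (T p (th l)), mul_assoc, cart_T_psmul_mul,
      cart_th p hp l (by omega) h1, h6, map_one, mul_one] at h5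
    exact T_ne_zero p _ h5

end Pool.Agent.MB
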