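import Pool.Agent.MB.B2a

/-! MB B12: the span of the units. -/

set_option autoImplicit false

namespace Pool.Agent.MB

open PowerSeries Finset

variable (p : ℕ) [hpf : Fact p.Prime]

/-! ### B12 `A` -/
theorem T_mem_A (n : E) : T p n ∈ A p := Submodule.subset_span ⟨n, rfl⟩

theorem T_mul_mem_A (n : E) {f : P p} (hf : f ∈ A p) : T p n * f ∈ A p := by
  unfold A at hf
  induction hf using Submodule.span_induction with
  | mem x hx =>
    obtain ⟨m, rfl⟩ := hx
    rw [← T_add]
    exact T_mem_A p _
  | zero => rw [mul_zero]; exact Submodule.zero_mem _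
  | add x y _ _ hx hy => rw [mul_add]; exact Submodule.add_mem _ hx hy
  | smul a x _ hx => rw [mul_smul_comm]; exact Submodule.smul_mem _ _ hx

theorem poly_mem_A (f : Polynomial (ZMod p)) : (f : P p) ∈ A p := by
  have hX : ∀ g : P p, g ∈ A p → X * g ∈ A p := by
    intro g hg
    have h1 : (X : P p) = T p (e 0) - 1 := by
      rw [T_e]
      simp [U]
    rw [h1, sub_mul, one_mul]
    exact Submodule.sub_mem _ (T_mul_mem_A p _ hg) hg
  have hXn : ∀ n : ℕ, (X : P p) ^ n ∈ A p := by
    intro n
    induction n with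
    | zero => rw [pow_zero, ← T_zero]; exact T_mem_A p _
    | succ n ih => rw [pow_succ']; exact hX _ ih
  induction f using Polynomial.induction_on' with
  | add g h hg hh => rw [Polynomial.coe_add]; exact Submodule.add_mem _ hg hh
  | monomial n a =>
    have : ((Polynomial.monomial n a : Polynomial (ZMod p)) : P p) = a • (X : P p) ^ n := by
      rw [← Polynomial.C_mul_X_pow_eq_monomial, Polynomial.coe_mul, Polynomial.coe_pow,
        Polynomial.coe_X, Polynomial.coe_C, PowerSeries.smul_eq_C_mul]
    rw [this]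
    exact Submodule.smul_mem _ _ (hXn n)

theorem pow_mem_A {f : P p} (hf : f ∈ A p) : f ^ p ∈ A p := by
  unfold A at hf
  induction hf using Submodule.span_induction with
  | mem x hx =>
    obtain ⟨m, rfl⟩ := hx
    rw [← T_psmul]
    exact T_mem_A p _
  | zero => rw [zero_pow hpf.out.ne_zero]; exact Submodule.zero_mem _
  | add x y _ _ hx hy => rw [add_pow_char]; exact Submodule.add_mem _ hx hy
  | smul a x _ hx => rw [smul_pow, ZMod.pow_card]; exact Submodule.smul_mem _ _ hx

private lemma b12_cart_poly (f : Polynomial (ZMod p)) : cart p (f : P p) ∈ A p := by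
  have h : cart p (f : P p) = ((PowerSeries.trunc (f.natDegree + 1) (cart p (f : P p)) :
      Polynomial (ZMod p)) : P p) := by
    ext n
    rw [Polynomial.coeff_coe, PowerSeries.coeff_trunc]
    split_ifs with hn
    · rfl
    · have hp1 : 1 ≤ p := hpf.out.one_lt.le
      unfold cart
      simp only [LinearMap.coe_sum, Finset.sum_apply, LinearMap.smul_apply, map_sum, comp,
        LinearMap.coe_mk, AddHom.coe_mk]
      refine Finset.sum_eq_zero fun i _ => ?_
      rw [PowerSeries.coeff_smul, PowerSeries.coeff_mk, Polynomial.coeff_coe,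
        Polynomial.coeff_eq_zero_of_natDegree_lt, smul_zero]
      nlinarith
  rw [h]
  exact poly_mem_A p _

theorem cart_mem_A {f : P p} (hf : f ∈ A p) : cart p f ∈ A p := by
  unfold A at hf
  induction hf using Submodule.span_induction with
  | mem x hx =>
    obtain ⟨n, rfl⟩ := hx
    have hp0 : (0 : ℤ) < p := by exact_mod_cast hpf.out.pos
    set m : E := fun j => n j / p with hm
    set r : Fin 4 → ℕ := fun j => (n j % p).toNat with hr
    have h1 : n = (p : ℤ) • m + fun j => ((r j : ℕ) : ℤ) := by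
      funext j
      simp only [Pi.add_apply, Pi.smul_apply, smul_eq_mul, hm, hr]
      rw [Int.toNat_of_nonneg (Int.emod_nonneg _ hp0.ne')]
      exact (Int.mul_ediv_add_emod (n j) p).symm
    rw [h1, T_add, cart_T_psmul_mul, T_nonneg]
    exact T_mul_mem_A p _ (b12_cart_poly p _)
  | zero => rw [map_zero]; exact Submodule.zero_mem _
  | add x y _ _ hx hy => rw [map_add]; exact Submodule.add_mem _ hx hy
  | smul a x _ hx => rw [map_smul]; exact Submodule.smul_mem _ _ hx

theorem L_le_A : L p ≤ A p := by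
  rintro g ⟨q, _, hq⟩
  have h1 : ((Q p : Polynomial (ZMod p)) : P p) = T p (th 0) := by
    rw [T_th, pow_zero, one_mul]
  rw [h1] at hq
  have h2 : g = T p (-(th 0)) * (q : P p) := by
    rw [← hq, ← mul_assoc, T_neg_mul, one_mul]
  rw [h2]
  exact T_mul_mem_A p _ (poly_mem_A p _)

private lemma b12_one_mem_L : (1 : P p) ∈ L p := by
  refine ⟨Q p, ?_, by rw [mul_one]⟩
  unfold Q U
  refine (Polynomial.natDegree_mul_le).trans ?_
  have h : ∀ c : ZMod p, (1 + Polynomial.C c * Polynomial.X : Polynomial (ZMod p)).natDegree ≤ 1 := by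
    intro c
    refine (Polynomial.natDegree_add_le _ _).trans ?_
    simp only [Polynomial.natDegree_one, zero_le, sup_of_le_right]
    exact (Polynomial.natDegree_C_mul_le _ _).trans (Polynomial.natDegree_X_le)
  have h1 := Polynomial.natDegree_mul_le (p := (1 + Polynomial.C ((((1 : Fin 4) : ℕ) + 1 : ℕ) : ZMod p) * Polynomial.X : Polynomial (ZMod p))) (q := 1 + Polynomial.C ((((2 : Fin 4) : ℕ) + 1 : ℕ) : ZMod p) * Polynomial.X)
  have h2 := h ((((1 : Fin 4) : ℕ) + 1 : ℕ) : ZMod p)
  have h3 := h ((((2 : Fin 4) : ℕ) + 1 : ℕ) : ZMod p)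
  have h4 := h ((((3 : Fin 4) : ℕ) + 1 : ℕ) : ZMod p)
  omega

theorem A_le_windows : A p ≤ Submodule.span (ZMod p) {f | ∃ ν : E, ∃ g ∈ L p, f = T p ν * g} := by
  unfold A
  refine Submodule.span_mono ?_
  rintro _ ⟨n, rfl⟩
  exact ⟨n, 1, b12_one_mem_L p, by rw [mul_one]⟩

end Pool.Agent.MB
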