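import Pool.Agent.MB.B2a

/-! MB B13a: the letters of the powers of `x`. -/

set_option autoImplicit false

namespace Pool.Agent.MB

open PowerSeries Finset

variable (p : ℕ) [hpf : Fact p.Prime]

/-- `Q(x - 1)` as a polynomial in `x`. -/
theorem b13_Q_comp : (Q p).comp (Polynomial.X - 1) =
    Polynomial.C (24 : ZMod p) * Polynomial.X ^ 3 + Polynomial.C (-46 : ZMod p) * Polynomial.X ^ 2 +
      Polynomial.C (29 : ZMod p) * Polynomial.X + Polynomial.C (-6 : ZMod p) := by
  simp only [Q, U, Polynomial.mul_comp, Polynomial.add_comp, Polynomial.one_comp,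
    Polynomial.C_comp, Polynomial.X_comp]
  have e1 : (Polynomial.C ((((1 : Fin 4) : ℕ) + 1 : ℕ) : ZMod p)) = 2 := by
    norm_num
    rfl
  have e2 : (Polynomial.C ((((2 : Fin 4) : ℕ) + 1 : ℕ) : ZMod p)) = 3 := by
    norm_num
    rfl
  have e3 : (Polynomial.C ((((3 : Fin 4) : ℕ) + 1 : ℕ) : ZMod p)) = 4 := by
    norm_num
    rfl
  have c1 : (Polynomial.C (24 : ZMod p)) = 24 := rfl
  have c2 : (Polynomial.C (-46 : ZMod p)) = -46 := by
    rw [Polynomial.C_neg]; rfl
  have c3 : (Polynomial.C (29 : ZMod p)) = 29 := rfl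
  have c4 : (Polynomial.C (-6 : ZMod p)) = -6 := by
    rw [Polynomial.C_neg]; rfl
  rw [e1, e2, e3, c1, c2, c3, c4]
  ring

theorem Qx_zero : Qx p 0 = -6 := by
  unfold Qx
  rw [b13_Q_comp]
  simp [Polynomial.coeff_X, Polynomial.coeff_C]

theorem Qx_three : Qx p 3 = 24 := by
  unfold Qx
  rw [b13_Q_comp]
  simp [Polynomial.coeff_X, Polynomial.coeff_C]

theorem Qx_big (r : ℕ) (hr : 3 < r) : Qx p r = 0 := by
  unfold Qx
  rw [b13_Q_comp]
  simp only [Polynomial.coeff_add, Polynomial.coeff_C_mul, Polynomial.coeff_X_pow,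
    Polynomial.coeff_X, Polynomial.coeff_C]
  rw [if_neg (by omega), if_neg (by omega), if_neg (by omega), if_neg (by omega)]
  ring

theorem b13_Q_eq : Q p = ∑ r ∈ range 4, Polynomial.C (Qx p r) * U p 0 ^ r := by
  have h : Q p = ((Q p).comp (Polynomial.X - 1)).comp (U p 0) := by
    rw [Polynomial.comp_assoc]
    have : (Polynomial.X - 1 : Polynomial (ZMod p)).comp (U p 0) = Polynomial.X := by
      simp [U]
    rw [this, Polynomial.comp_X]
  have hq : ∀ r, Qx p r = ((Q p).comp (Polynomial.X - 1)).coeff r := fun r => rfl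
  have hdeg : ((Q p).comp (Polynomial.X - 1)).natDegree < 4 := by
    rw [b13_Q_comp]
    refine lt_of_le_of_lt (b := 3) ?_ (by norm_num)
    compute_degree
  conv_lhs => rw [h]
  rw [Polynomial.comp, Polynomial.eval₂_eq_sum_range' _ hdeg]
  rfl

theorem b13_x_eq : ((U p 0 : Polynomial (ZMod p)) : P p) = 1 + X := by
  simp [U]

theorem b13_T_e0 : T p (e 0) = 1 + X := by
  rw [T_e, b13_x_eq]

theorem b13_cart_xpow (k : ℕ) (h1 : 1 ≤ k) (h2 : k < 2 * p) :
    cart p ((1 + X : P p) ^ k) = if k = p then 1 + X else 0 := by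
  have hsmall : ∀ m, 1 ≤ m → m < p → cart p ((1 + X : P p) ^ m) = 0 := by
    intro m hm hmp
    have h3 : ((1 + X : P p) ^ m) = ((U p 0 ^ m : Polynomial (ZMod p)) : P p) := by
      rw [Polynomial.coe_pow, b13_x_eq]
    have hd : (U p 0 ^ m).natDegree < p := by
      refine lt_of_le_of_lt ?_ hmp
      refine Polynomial.natDegree_pow_le.trans ?_
      have : (U p 0).natDegree ≤ 1 := by
        unfold U
        compute_degree
      nlinarith
    rw [h3, cart_small p _ hd]
    have : Polynomial.eval (-1) (U p 0 ^ m) = 0 := by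
      simp [U, show m ≠ 0 by omega]
    rw [this, map_zero]
  have hp0 : 0 < p := hpf.out.pos
  rcases lt_trichotomy k p with hk | hk | hk
  · rw [if_neg hk.ne, hsmall k h1 hk]
  · subst hk
    rw [if_pos rfl]
    have := cart_pow_mul k (1 + X : P k) 1
    rw [mul_one, cart_one, mul_one] at this
    exact this
  · rw [if_neg hk.ne']
    obtain ⟨m, rfl⟩ := Nat.exists_eq_add_of_lt hk
    rw [show p + m + 1 = p + (m + 1) by ring, pow_add, cart_pow_mul, hsmall (m + 1) (by omega) (by omega),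
      mul_zero]

theorem b13_J_T (i j : ℕ) : J p j (T p (i • e 0)) =
    ∑ r ∈ range 4, PowerSeries.C (Qx p r) * cart p ((1 + X : P p) ^ (i + j + r + 1)) := by
  have h1 : J p j (T p (i • e 0)) =
      cart p ((((U p 0) ^ (1 + j) * Q p : Polynomial (ZMod p)) : P p) * T p (i • e 0)) := rfl
  rw [h1, T_nsmul, b13_T_e0, Polynomial.coe_mul, Polynomial.coe_pow, b13_x_eq, b13_Q_eq]
  have h2 : (((∑ r ∈ range 4, Polynomial.C (Qx p r) * U p 0 ^ r : Polynomial (ZMod p))) : P p) =
      ∑ r ∈ range 4, PowerSeries.C (Qx p r) * (1 + X : P p) ^ r := by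
    rw [← Polynomial.coeToPowerSeries.ringHom_apply, map_sum]
    refine Finset.sum_congr rfl fun r _ => ?_
    rw [map_mul, map_pow, Polynomial.coeToPowerSeries.ringHom_apply,
      Polynomial.coeToPowerSeries.ringHom_apply, b13_x_eq, Polynomial.coe_C]
  rw [h2, Finset.mul_sum, Finset.sum_mul, map_sum]
  refine Finset.sum_congr rfl fun r _ => ?_
  have h3 : (1 + X : P p) ^ (1 + j) * (PowerSeries.C (Qx p r) * (1 + X : P p) ^ r) * (1 + X) ^ i =
      Qx p r • (1 + X : P p) ^ (i + j + r + 1) := by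
    rw [PowerSeries.smul_eq_C_mul]
    ring
  rw [h3, map_smul, PowerSeries.smul_eq_C_mul]

theorem J_x_pow (hp : 5 ≤ p) (i : ℕ) (h1 : 1 ≤ i) (h2 : i < p) (j : ℕ) (hj : j < p - 4) (r : ℕ)
    (hr : i + j + r + 1 = p) :
    J p j (T p (i • e 0)) = (1 + X) * PowerSeries.C (Qx p r) := by
  rw [b13_J_T]
  by_cases hr4 : r < 4
  · rw [Finset.sum_eq_single r]
    · rw [b13_cart_xpow p _ (by omega) (by omega), if_pos (by omega)]
      ring
    · intro r' hr' hne
      rw [Finset.mem_range] at hr'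
      rw [b13_cart_xpow p _ (by omega) (by omega), if_neg (by omega), mul_zero]
    · intro h
      exact absurd (Finset.mem_range.2 hr4) h
  · rw [Qx_big p r (by omega), map_zero, mul_zero]
    refine Finset.sum_eq_zero fun r' hr' => ?_
    rw [Finset.mem_range] at hr'
    rw [b13_cart_xpow p _ (by omega) (by omega), if_neg (by omega), mul_zero]

theorem J_x_pow' (hp : 5 ≤ p) (i : ℕ) (h1 : 1 ≤ i) (h2 : i < p) (j : ℕ) (hj : j < p - 4)
    (hr : p < i + j + 1) : J p j (T p (i • e 0)) = 0 := by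
  rw [b13_J_T]
  refine Finset.sum_eq_zero fun r' hr' => ?_
  rw [Finset.mem_range] at hr'
  rw [b13_cart_xpow p _ (by omega) (by omega), if_neg (by omega), mul_zero]

/-- A nonzero constant. -/
theorem b13_natCast_ne_zero (hp : 1000 ≤ p) (a : ℕ) (h0 : 0 < a) (h1 : a < 1000) :
    (a : ZMod p) ≠ 0 := by
  intro h
  rw [ZMod.natCast_eq_zero_iff] at h
  exact absurd (Nat.le_of_dvd h0 h) (by omega)

theorem b13_Qx_zero_ne (hp : 1000 ≤ p) : Qx p 0 ≠ 0 := by
  rw [Qx_zero, neg_ne_zero]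
  exact_mod_cast b13_natCast_ne_zero p hp 6 (by norm_num) (by norm_num)

theorem b13_Qx_three_ne (hp : 1000 ≤ p) : Qx p 3 ≠ 0 := by
  rw [Qx_three]
  exact_mod_cast b13_natCast_ne_zero p hp 24 (by norm_num) (by norm_num)

/-- the letter of `x` is nonzero, also after multiplication by a `p`-th power of a unit -/
theorem JN_x_ne_zero (hp : 1000 ≤ p) (s : E) : JN p (T p (e 0 + (p : ℤ) • s)) ≠ 0 := by
  intro h
  have h1 : J p (p - 5) (T p (e 0 + (p : ℤ) • s)) = T p s * ((1 + X) * PowerSeries.C (Qx p 3)) := by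
    rw [add_comm, T_add, T_psmul, J_pow_mul]
    congr 1
    have := J_x_pow p (by omega) 1 le_rfl (by omega) (p - 5) (by omega) 3 (by omega)
    rwa [one_smul] at this
  have h2 := congrFun h (⟨p - 5, by omega⟩, ⟨0, by unfold NN; omega⟩)
  have h3 : PowerSeries.coeff 0 (J p (p - 5) (T p (e 0 + (p : ℤ) • s))) = 0 := h2
  rw [h1, PowerSeries.coeff_zero_eq_constantCoeff_apply, map_mul, map_mul, constantCoeff_T] at h3
  simp at h3
  exact b13_Qx_three_ne p hp h3

theorem cart_x_pow (i : ℕ) (h1 : 1 ≤ i) (h2 : i < p) (s : E) :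
    cart p (T p (i • e 0 + (p : ℤ) • s)) = 0 := by
  rw [add_comm, T_add, cart_T_psmul_mul, T_nsmul, b13_T_e0, b13_cart_xpow p i h1 (by omega),
    if_neg h2.ne, mul_zero]

end Pool.Agent.MB
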