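import Pool.Agent.MB.B7
import Pool.Agent.MB.B12
import Pool.Agent.MB.B13a

/-! MB B13b: the mu step. -/

set_option autoImplicit false

namespace Pool.Agent.MB

open PowerSeries Finset

variable (p : ℕ) [hpf : Fact p.Prime]

/-- Induction on exponent vectors. -/
theorem b13_E_ind {motive : E → Prop} (h0 : motive 0) (h1 : ∀ g j, motive g ↔ motive (g + e j))
    (g : E) : motive g := by
  have h2 : ∀ (n : ℤ) (g : E) (j : Fin 4), motive g ↔ motive (g + n • e j) := by
    intro n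
    induction n with
    | zero => intro g j; simp
    | succ n ih =>
      intro g j
      rw [ih g j, h1 (g + (n : ℤ) • e j) j]
      rw [add_smul, one_smul, add_assoc]
    | pred n ih =>
      intro g j
      rw [ih g j, h1 (g + (-(n : ℤ) - 1) • e j) j]
      rw [sub_smul, one_smul, add_assoc, sub_add_cancel]
  have h3 : g = 0 + g 0 • e 0 + g 1 • e 1 + g 2 • e 2 + g 3 • e 3 := by
    funext j
    fin_cases j <;> simp [e]
  rw [h3, ← h2, ← h2, ← h2, ← h2]
  exact h0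

/-- Two linear maps which agree at the dead monomials agree on the dead part of `A`. -/
theorem b13_ext {W : Type*} [AddCommGroup W] [Module (ZMod p) W] (c1 c2 : P p →ₗ[ZMod p] W)
    (h : ∀ (i : ℕ) (g : E), 1 ≤ i → i < p →
      c1 (T p (i • e 0 + (p : ℤ) • g)) = c2 (T p (i • e 0 + (p : ℤ) • g)))
    (F : P p) (hF : F ∈ A p) (h0 : cart p F = 0) : c1 F = c2 F := by
  have key : ∀ i : ℕ, 1 ≤ i → i < p → ∀ f ∈ A p,
      c1 ((1 + X : P p) ^ i * f ^ p) = c2 ((1 + X : P p) ^ i * f ^ p) := by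
    intro i hi hip f hf
    have h1 : Set.EqOn (c1.comp ((LinearMap.mulLeft (ZMod p) ((1 + X : P p) ^ i)).comp (frob p)))
        (c2.comp ((LinearMap.mulLeft (ZMod p) ((1 + X : P p) ^ i)).comp (frob p)))
        (Submodule.span (ZMod p) (Set.range (T p))) := by
      refine LinearMap.eqOn_span ?_
      rintro _ ⟨g, rfl⟩
      have h2 : (1 + X : P p) ^ i * T p g ^ p = T p (i • e 0 + (p : ℤ) • g) := by
        rw [T_add, T_nsmul, b13_T_e0, T_psmul]
      show c1 ((1 + X : P p) ^ i * T p g ^ p) = c2 ((1 + X : P p) ^ i * T p g ^ p)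
      rw [h2]
      exact h i g hi hip
    exact h1 hf
  conv_lhs => rw [decomp p F]
  conv_rhs => rw [decomp p F]
  rw [map_sum, map_sum]
  refine Finset.sum_congr rfl fun i hi => ?_
  rw [Finset.mem_range] at hi
  rcases Nat.eq_zero_or_pos i with rfl | hpos
  · have h1 : cart p (T p (-((0 : ℕ) : ℤ) • e 0) * F) = 0 := by
      simp only [Nat.cast_zero, neg_zero, zero_smul, T_zero, one_mul]
      exact h0
    rw [h1, zero_pow hpf.out.pos.ne', mul_zero, map_zero, map_zero]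
  · exact key i hpos hi _ (cart_mem_A p (T_mul_mem_A p _ hF))

/-- orders of `p`-th powers are multiples of `p` -/
theorem b13_pow_order (y : P p) (h : (X : P p) ^ (NN p - 1) ∣ y ^ p) : (X : P p) ^ NN p ∣ y ^ p := by
  have hp1 : 2 ≤ p := hpf.out.two_le
  by_cases hy : y = 0
  · rw [hy, zero_pow (by omega)]
    exact dvd_zero _
  have hX : Prime (X : P p) := PowerSeries.X_prime
  obtain ⟨k, z, hz, hyz⟩ := WfDvdMonoid.max_power_factor hy hX.irreducible
  by_cases hk : 5 ≤ k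
  · have : (X : P p) ^ 5 ∣ y := by
      rw [hyz]
      exact Dvd.dvd.mul_right (pow_dvd_pow _ hk) _
    have h2 := pow_dvd_pow_of_dvd this p
    rwa [← pow_mul] at h2
  · exfalso
    rw [hyz, mul_pow, ← pow_mul] at h
    have hlt : k * p + 1 ≤ NN p - 1 := by
      unfold NN
      have : k ≤ 4 := by omega
      have : k * p ≤ 4 * p := Nat.mul_le_mul_right p this
      omega
    have h3 : (X : P p) ^ (k * p) * X ∣ X ^ (k * p) * z ^ p := by
      rw [← pow_succ]
      exact (pow_dvd_pow _ hlt).trans h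
    have h4 := (mul_dvd_mul_iff_left (pow_ne_zero _ hX.ne_zero)).1 h3
    exact hz (hX.dvd_of_dvd_pow h4)

/-- derivative of a multiple of `X ^ (n+1)` -/
theorem b13_dvd_deriv (n : ℕ) (f : P p) (h : (X : P p) ^ n ∣ f) : (X : P p) ^ (n - 1) ∣ dd p f := by
  rw [PowerSeries.X_pow_dvd_iff] at h ⊢
  intro m hm
  have : PowerSeries.coeff m (dd p f) = PowerSeries.coeff (m + 1) f * (m + 1) :=
    PowerSeries.coeff_derivative _ _
  rw [this, h (m + 1) (by omega), zero_mul]

theorem b13_deriv_pow (f : P p) : dd p (f ^ p) = 0 := by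
  have : dd p (f ^ p) = (p : P p) * (f ^ (p - 1) * dd p f) := by
    have h := Derivation.leibniz_pow (PowerSeries.derivative (ZMod p)) f p
    show PowerSeries.derivative (ZMod p) (f ^ p) = _
    rw [h]
    simp [nsmul_eq_mul]
  rw [this, CharP.cast_eq_zero, zero_mul]

/-- cancel a unit on the right -/
theorem b13_cancel (n : ℕ) (a u : P p) (hu : IsUnit u) (h : (X : P p) ^ n ∣ a * u) :
    (X : P p) ^ n ∣ a := (IsUnit.dvd_mul_right hu).1 h

theorem b13_unit_x (c : ZMod p) (hc : c ≠ 0) : IsUnit ((1 + X : P p) * PowerSeries.C c) := by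
  rw [PowerSeries.isUnit_iff_constantCoeff]
  simpa using hc

/-- the coordinate with invertible letter -/
theorem b13_coord (hp : 1000 ≤ p) (i : ℕ) (h1 : 1 ≤ i) (h2 : i < p) :
    ∃ j, j < p - 4 ∧ ∃ c : ZMod p, c ≠ 0 ∧ J p j (T p (i • e 0)) = (1 + X) * PowerSeries.C c := by
  by_cases hi : 4 ≤ i
  · exact ⟨p - 1 - i, by omega, Qx p 0, b13_Qx_zero_ne p hp,
      J_x_pow p (by omega) i h1 h2 _ (by omega) 0 (by omega)⟩
  · exact ⟨p - 4 - i, by omega, Qx p 3, b13_Qx_three_ne p hp,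
      J_x_pow p (by omega) i h1 h2 _ (by omega) 3 (by omega)⟩

/-- `T (g + e j)^p` in terms of `T (g + e 0)^p` and `T g ^ p`. -/
theorem b13_T_add_e (i : ℕ) (g : E) (j : Fin 4) :
    T p (i • e 0 + (p : ℤ) • (g + e j)) =
      (((j : ℕ) + 1 : ℕ) : ZMod p) • T p (i • e 0 + (p : ℤ) • (g + e 0)) -
        ((j : ℕ) : ZMod p) • T p (i • e 0 + (p : ℤ) • g) := by
  have hU : ((U p j : Polynomial (ZMod p)) : P p) =
      (((j : ℕ) + 1 : ℕ) : ZMod p) • (1 + X : P p) - ((j : ℕ) : ZMod p) • (1 : P p) := by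
    unfold U
    simp only [Polynomial.coe_add, Polynomial.coe_one, Polynomial.coe_mul, Polynomial.coe_C,
      Polynomial.coe_X, PowerSeries.smul_eq_C_mul]
    rw [Nat.cast_add, Nat.cast_one, map_add, map_one]
    ring
  have hpow : ((U p j : Polynomial (ZMod p)) : P p) ^ p =
      (((j : ℕ) + 1 : ℕ) : ZMod p) • (1 + X : P p) ^ p - ((j : ℕ) : ZMod p) • (1 : P p) := by
    rw [hU]
    have := (frob p).map_sub ((((j : ℕ) + 1 : ℕ) : ZMod p) • (1 + X : P p)) (((j : ℕ) : ZMod p) • (1 : P p))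
    rw [(frob p).map_smul, (frob p).map_smul] at this
    have h1 : frob p (1 : P p) = 1 := one_pow p
    rw [h1] at this
    exact this
  rw [T_add, T_add, T_add, T_psmul, T_psmul, T_psmul, T_add, T_add, T_e, mul_pow, hpow, b13_T_e0,
    mul_pow, mul_sub, mul_sub, mul_smul_comm, mul_smul_comm, mul_smul_comm, mul_smul_comm, mul_one]

theorem b13_J_T_mul (j : ℕ) (i : ℕ) (g m : E) : J p j (T p (i • e 0 + (p : ℤ) • g + (p : ℤ) • m)) =
    T p m * (T p g * J p j (T p (i • e 0))) := by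
  have : T p (i • e 0 + (p : ℤ) • g + (p : ℤ) • m) = T p m ^ p * (T p g ^ p * T p (i • e 0)) := by
    rw [T_add, T_add, T_psmul, T_psmul]
    ring
  rw [this, J_pow_mul, J_pow_mul]

/-- Step in the direction `e j`. -/
theorem b13_step (hp : 1000 ≤ p) (bt : P p →ₗ[ZMod p] (VI p → ZMod p)) (i : ℕ) (h1 : 1 ≤ i)
    (h2 : i < p) (g : E) (j : Fin 4) (hj : j ≠ 0) (n1 n2 n3 : E)
    (s1 : bt (T p (i • e 0 + (p : ℤ) • g)) =
      JN p (T p (i • e 0 + (p : ℤ) • g + (p : ℤ) • ((p : ℤ) • n1))))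
    (s2 : bt (T p (i • e 0 + (p : ℤ) • (g + e 0))) =
      JN p (T p (i • e 0 + (p : ℤ) • (g + e 0) + (p : ℤ) • ((p : ℤ) • n2))))
    (s3 : bt (T p (i • e 0 + (p : ℤ) • (g + e j))) =
      JN p (T p (i • e 0 + (p : ℤ) • (g + e j) + (p : ℤ) • ((p : ℤ) • n3)))) :
    (X : P p) ^ NN p ∣ T p ((p : ℤ) • n3) - T p ((p : ℤ) • n2) ∧
      (X : P p) ^ NN p ∣ T p ((p : ℤ) • n3) - T p ((p : ℤ) • n1) := by
  obtain ⟨jj, hjj, c, hc, hJ⟩ := b13_coord p hp i h1 h2
  have hj0 : ((j : ℕ) : ZMod p) ≠ 0 :=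
    b13_natCast_ne_zero p hp _ (Nat.pos_of_ne_zero fun h => hj (Fin.ext h)) (by omega)
  have hj1 : (((j : ℕ) + 1 : ℕ) : ZMod p) ≠ 0 :=
    b13_natCast_ne_zero p hp _ (by omega) (by omega)
  set a : ZMod p := (((j : ℕ) + 1 : ℕ) : ZMod p) with ha
  set b : ZMod p := ((j : ℕ) : ZMod p) with hb
  have hab : a = b + 1 := by rw [ha, hb]; push_cast; ring
  have e1 : JN p (T p (i • e 0 + (p : ℤ) • (g + e j) + (p : ℤ) • ((p : ℤ) • n3))) =
      JN p (a • T p (i • e 0 + (p : ℤ) • (g + e 0) + (p : ℤ) • ((p : ℤ) • n2)) -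
        b • T p (i • e 0 + (p : ℤ) • g + (p : ℤ) • ((p : ℤ) • n1))) := by
    rw [← s3, b13_T_add_e, map_sub, map_smul, map_smul, s2, s1, map_sub, map_smul, map_smul]
  have e2 := (JN_eq_iff p _ _).1 e1 jj hjj
  rw [map_sub, map_smul, map_smul, b13_J_T_mul, b13_J_T_mul, b13_J_T_mul, hJ] at e2
  have hU : T p (g + e j) = T p g * (a • (1 + X : P p) - b • (1 : P p)) := by
    rw [T_add, T_e]
    congr 1
    unfold U
    simp only [Polynomial.coe_add, Polynomial.coe_one, Polynomial.coe_mul, Polynomial.coe_C,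
      Polynomial.coe_X, PowerSeries.smul_eq_C_mul]
    rw [← ha, hab, map_add, map_one]
    ring
  have h0 : T p (g + e 0) = T p g * (1 + X) := by rw [T_add, b13_T_e0]
  rw [hU, h0] at e2
  set t1 := T p ((p : ℤ) • n1) with ht1
  set t2 := T p ((p : ℤ) • n2) with ht2
  set t3 := T p ((p : ℤ) • n3) with ht3
  have e3 : (X : P p) ^ NN p ∣
      (a • ((1 + X : P p) * (t3 - t2)) - b • (t3 - t1)) * (T p g * ((1 + X) * PowerSeries.C c)) := by
    convert e2 using 1
    simp only [PowerSeries.smul_eq_C_mul]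
    ring
  have e4 : (X : P p) ^ NN p ∣ a • ((1 + X : P p) * (t3 - t2)) - b • (t3 - t1) :=
    b13_cancel p _ _ _ ((isUnit_T p g).mul (b13_unit_x p c hc)) e3
  have hfrob : ∀ m n : E, T p ((p : ℤ) • m) - T p ((p : ℤ) • n) = (T p m - T p n) ^ p := by
    intro m n
    rw [T_psmul, T_psmul, sub_pow_char]
  have d3 : dd p (t3 - t2) = 0 := by rw [ht3, ht2, hfrob, b13_deriv_pow]
  have d1 : dd p (t3 - t1) = 0 := by rw [ht3, ht1, hfrob, b13_deriv_pow]
  have e5 := b13_dvd_deriv p _ _ e4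
  have e6 : dd p (a • ((1 + X : P p) * (t3 - t2)) - b • (t3 - t1)) = a • (t3 - t2) := by
    show PowerSeries.derivative (ZMod p) _ = _
    rw [map_sub, Derivation.map_smul, Derivation.map_smul, Derivation.leibniz]
    have d1' : PowerSeries.derivative (ZMod p) (t3 - t1) = 0 := d1
    have d3' : PowerSeries.derivative (ZMod p) (t3 - t2) = 0 := d3
    rw [d1', d3']
    simp
  rw [e6] at e5
  have e7 : (X : P p) ^ (NN p - 1) ∣ t3 - t2 := by
    rw [PowerSeries.smul_eq_C_mul, mul_comm] at e5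
    refine b13_cancel p _ _ _ ?_ e5
    rw [PowerSeries.isUnit_iff_constantCoeff]
    simpa using hj1
  have e8 : (X : P p) ^ NN p ∣ t3 - t2 := by
    rw [ht3, ht2, hfrob] at e7 ⊢
    exact b13_pow_order p _ e7
  refine ⟨e8, ?_⟩
  have e9 : (X : P p) ^ NN p ∣ b • (t3 - t1) := by
    have h3 : (X : P p) ^ NN p ∣ a • ((1 + X : P p) * (t3 - t2)) := by
      rw [PowerSeries.smul_eq_C_mul]
      exact Dvd.dvd.mul_left (Dvd.dvd.mul_left e8 _) _
    exact (dvd_sub_right h3).1 e4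
  rw [PowerSeries.smul_eq_C_mul, mul_comm] at e9
  refine b13_cancel p _ _ _ ?_ e9
  rw [PowerSeries.isUnit_iff_constantCoeff]
  simpa using hj0

/-- Step from `i` to `i + 1`. -/
theorem b13_next (hp : 1000 ≤ p) (bt : P p →ₗ[ZMod p] (VI p → ZMod p)) (i : ℕ) (h1 : 1 ≤ i)
    (h2 : i + 1 < p) (m1 m2 m : E)
    (s1 : bt (T p (i • e 0)) = JN p (T p (i • e 0 + (p : ℤ) • m1)))
    (s2 : bt (T p ((i + 1) • e 0)) = JN p (T p ((i + 1) • e 0 + (p : ℤ) • m2)))
    (s3 : bt (T p (i • e 0 + e 1)) = JN p (T p (i • e 0 + e 1 + (p : ℤ) • m))) :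
    (X : P p) ^ NN p ∣ T p m1 - T p m2 := by
  have hT : T p (i • e 0 + e 1) = (2 : ZMod p) • T p ((i + 1) • e 0) - T p (i • e 0) := by
    have hU : T p (e 1) = (2 : ZMod p) • (1 + X : P p) - 1 := by
      rw [T_e]
      unfold U
      simp only [Polynomial.coe_add, Polynomial.coe_one, Polynomial.coe_mul, Polynomial.coe_C,
        Polynomial.coe_X, PowerSeries.smul_eq_C_mul]
      have h2 : (PowerSeries.C (((((1 : Fin 4) : ℕ) + 1 : ℕ) : ZMod p))) = (2 : P p) := by
        norm_num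
        rfl
      have h3 : (PowerSeries.C (2 : ZMod p)) = (2 : P p) := rfl
      rw [h2, h3]
      ring
    rw [T_add, hU, T_nsmul, T_nsmul, b13_T_e0, PowerSeries.smul_eq_C_mul,
      PowerSeries.smul_eq_C_mul]
    ring
  have e1 : JN p (T p m ^ p * T p (i • e 0 + e 1)) =
      JN p ((2 : ZMod p) • (T p m2 ^ p * T p ((i + 1) • e 0)) - T p m1 ^ p * T p (i • e 0)) := by
    have r : ∀ a b : E, T p (a + (p : ℤ) • b) = T p b ^ p * T p a := by
      intro a b
      rw [T_add, T_psmul, mul_comm]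
    rw [← r, ← s3, hT, map_sub, map_smul, s1, s2, r, r, map_sub, map_smul]
  have e2 := (JN_eq_iff p _ _).1 e1
  have e3 : ∀ j < p - 4, (X : P p) ^ NN p ∣
      (2 : ZMod p) • ((T p m - T p m2) * J p j (T p ((i + 1) • e 0))) -
        (T p m - T p m1) * J p j (T p (i • e 0)) := by
    intro j hj
    have := e2 j hj
    rw [map_sub, map_smul, J_pow_mul, J_pow_mul, J_pow_mul, hT, map_sub, map_smul] at this
    convert this using 1
    simp only [PowerSeries.smul_eq_C_mul]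
    ring
  have h20 : (2 : ZMod p) ≠ 0 := by
    exact_mod_cast b13_natCast_ne_zero p hp 2 (by norm_num) (by norm_num)
  have unit2 : IsUnit (PowerSeries.C (2 : ZMod p)) := by
    rw [PowerSeries.isUnit_iff_constantCoeff]
    simpa using h20
  by_cases hi : 4 ≤ i
  · -- coordinate `r = 0` of `x ^ i`
    have a1 := e3 (p - 1 - i) (by omega)
    rw [J_x_pow' p (by omega) (i + 1) (by omega) h2 (p - 1 - i) (by omega) (by omega),
      J_x_pow p (by omega) i h1 (by omega) (p - 1 - i) (by omega) 0 (by omega), mul_zero, smul_zero,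
      zero_sub, dvd_neg] at a1
    have a2 := b13_cancel p _ _ _ (b13_unit_x p _ (b13_Qx_zero_ne p hp)) a1
    have a3 := e3 (p - 2 - i) (by omega)
    have a4 : (X : P p) ^ NN p ∣ (T p m - T p m1) * J p (p - 2 - i) (T p (i • e 0)) :=
      Dvd.dvd.mul_right a2 _
    have a5 := (dvd_sub_left a4).1 a3
    rw [J_x_pow p (by omega) (i + 1) (by omega) h2 (p - 2 - i) (by omega) 0 (by omega),
      PowerSeries.smul_eq_C_mul, mul_comm (PowerSeries.C (2 : ZMod p)), mul_assoc] at a5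
    have a6 := b13_cancel p _ _ _ ((b13_unit_x p _ (b13_Qx_zero_ne p hp)).mul unit2) a5
    have a7 := dvd_sub a6 a2
    rwa [show T p m - T p m2 - (T p m - T p m1) = T p m1 - T p m2 by ring] at a7
  · have a1 := e3 (p - 5 - i) (by omega)
    rw [J_x_pow p (by omega) (i + 1) (by omega) h2 (p - 5 - i) (by omega) 3 (by omega),
      J_x_pow p (by omega) i h1 (by omega) (p - 5 - i) (by omega) 4 (by omega),
      Qx_big p 4 (by norm_num), map_zero, mul_zero, mul_zero, sub_zero,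
      PowerSeries.smul_eq_C_mul, mul_comm (PowerSeries.C (2 : ZMod p)), mul_assoc] at a1
    have a2 := b13_cancel p _ _ _ ((b13_unit_x p _ (b13_Qx_three_ne p hp)).mul unit2) a1
    have a3 := e3 (p - 4 - i) (by omega)
    have a4 : (X : P p) ^ NN p ∣
        (2 : ZMod p) • ((T p m - T p m2) * J p (p - 4 - i) (T p ((i + 1) • e 0))) := by
      rw [PowerSeries.smul_eq_C_mul]
      exact Dvd.dvd.mul_left (Dvd.dvd.mul_right a2 _) _
    have a5 := (dvd_sub_right a4).1 a3
    rw [J_x_pow p (by omega) i h1 (by omega) (p - 4 - i) (by omega) 3 (by omega)] at a5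
    have a6 := b13_cancel p _ _ _ (b13_unit_x p _ (b13_Qx_three_ne p hp)) a5
    have a7 := dvd_sub a2 a6
    rwa [show T p m - T p m2 - (T p m - T p m1) = T p m1 - T p m2 by ring] at a7

theorem b13_smul_zero (i : ℕ) : i • e 0 + (p : ℤ) • (0 : E) = i • e 0 := by
  rw [smul_zero, add_zero]

theorem b13_cart_next (i : ℕ) (h1 : 1 ≤ i) (h2 : i + 1 < p) : cart p (T p (i • e 0 + e 1)) = 0 := by
  have hU : T p (e 1) = (2 : ZMod p) • (1 + X : P p) - 1 := by
    rw [T_e]
    unfold U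
    simp only [Polynomial.coe_add, Polynomial.coe_one, Polynomial.coe_mul, Polynomial.coe_C,
      Polynomial.coe_X, PowerSeries.smul_eq_C_mul]
    have h2 : (PowerSeries.C (((((1 : Fin 4) : ℕ) + 1 : ℕ) : ZMod p))) = (2 : P p) := by
      norm_num
      rfl
    have h3 : (PowerSeries.C (2 : ZMod p)) = (2 : P p) := rfl
    rw [h2, h3]
    ring
  have h3 : T p (i • e 0 + e 1) = (2 : ZMod p) • T p ((i + 1) • e 0) - T p (i • e 0) := by
    rw [T_add, hU, T_nsmul, T_nsmul, b13_T_e0, PowerSeries.smul_eq_C_mul,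
      PowerSeries.smul_eq_C_mul]
    ring
  have h4 := cart_x_pow p (i + 1) (by omega) h2 0
  have h5 := cart_x_pow p i h1 (by omega) 0
  rw [b13_smul_zero] at h4 h5
  rw [h3, map_sub, map_smul, h4, h5, smul_zero, sub_zero]

theorem mu_step (hp : 1000 ≤ p) (s : E) (b : P p →ₗ[ZMod p] (VI p → ZMod p)) (hb : Pure p s b) :
    ∃ s' : E, (X : P p) ^ 5 ∣ T p s' - 1 ∧
      ∀ f ∈ A p, cart p (T p s * f) = 0 → b f = JN p (T p (s + (p : ℤ) • s') * f) := by
  set bt : P p →ₗ[ZMod p] (VI p → ZMod p) := b.comp (LinearMap.mulLeft (ZMod p) (T p (-s))) with hbt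
  have hbt' : ∀ f, bt f = b (T p (-s) * f) := fun f => rfl
  have hdead : ∀ t : E, cart p (T p t) = 0 → ∃ n : E, (X : P p) ^ 5 ∣ T p ((p : ℤ) • n) - 1 ∧
      bt (T p t) = JN p (T p (t + (p : ℤ) • ((p : ℤ) • n))) := by
    intro t ht
    obtain ⟨κ, hκ, hbκ⟩ := hb t ht
    have h1 : T p κ - T p t = (T p (κ - t) - 1) * T p t := by
      rw [sub_mul, ← T_add, sub_add_cancel, one_mul]
    rw [h1] at hκ
    obtain ⟨n, hn, hn5⟩ := T_NN p (by omega) (κ - t) (b13_cancel p _ _ _ (isUnit_T p t) hκ)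
    refine ⟨n, hn5, ?_⟩
    have h2 : t + (p : ℤ) • ((p : ℤ) • n) = κ := by
      rw [← hn]
      abel
    rw [h2, ← hbκ, hbt', ← T_add]
    congr 2
    abel
  choose! nn hn5 hnn using hdead
  -- the relation
  set R : E → Prop := fun t => (X : P p) ^ NN p ∣ T p ((p : ℤ) • nn t) - T p ((p : ℤ) • nn (e 0)) with hR
  have hcart : ∀ (i : ℕ) (g : E), 1 ≤ i → i < p → cart p (T p (i • e 0 + (p : ℤ) • g)) = 0 :=
    fun i g h1 h2 => cart_x_pow p i h1 h2 g
  have hstep : ∀ (i : ℕ), 1 ≤ i → i < p → ∀ (g : E) (j : Fin 4),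
      (X : P p) ^ NN p ∣ T p ((p : ℤ) • nn (i • e 0 + (p : ℤ) • (g + e j))) -
        T p ((p : ℤ) • nn (i • e 0 + (p : ℤ) • g)) := by
    intro i h1 h2 g j
    have base : ∀ j : Fin 4, j ≠ 0 →
        (X : P p) ^ NN p ∣ T p ((p : ℤ) • nn (i • e 0 + (p : ℤ) • (g + e j))) -
          T p ((p : ℤ) • nn (i • e 0 + (p : ℤ) • (g + e 0))) ∧
        (X : P p) ^ NN p ∣ T p ((p : ℤ) • nn (i • e 0 + (p : ℤ) • (g + e j))) -
          T p ((p : ℤ) • nn (i • e 0 + (p : ℤ) • g)) := by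
      intro j hj
      exact b13_step p hp bt i h1 h2 g j hj _ _ _ (hnn _ (hcart _ _ h1 h2)) (hnn _ (hcart _ _ h1 h2))
        (hnn _ (hcart _ _ h1 h2))
    by_cases hj : j = 0
    · subst hj
      obtain ⟨a1, a2⟩ := base 1 (by decide)
      have := dvd_sub a2 a1
      rwa [sub_sub_sub_cancel_left] at this
    · exact (base j hj).2
  have hconst : ∀ (i : ℕ), 1 ≤ i → i < p → ∀ g : E,
      (X : P p) ^ NN p ∣ T p ((p : ℤ) • nn (i • e 0 + (p : ℤ) • g)) -
        T p ((p : ℤ) • nn (i • e 0 + (p : ℤ) • (0 : E))) := by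
    intro i h1 h2 g
    refine b13_E_ind (motive := fun g : E => (X : P p) ^ NN p ∣
      T p ((p : ℤ) • nn (i • e 0 + (p : ℤ) • g)) -
        T p ((p : ℤ) • nn (i • e 0 + (p : ℤ) • (0 : E)))) (by simp) (fun g j => ?_) g
    have := hstep i h1 h2 g j
    constructor
    · intro h
      have h3 := dvd_add this h
      rwa [sub_add_sub_cancel] at h3
    · intro h
      have h3 := dvd_sub h this
      rwa [sub_sub_sub_cancel_left] at h3
  have hnext : ∀ i : ℕ, 1 ≤ i → i < p → R (i • e 0) := by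
    intro i h1
    induction i, h1 using Nat.le_induction with
    | base => intro _; simp [hR]
    | succ i h1 ih =>
      intro h2
      have h3 := ih (by omega)
      have c1 := hcart i 0 h1 (by omega)
      have c2 := hcart (i + 1) 0 (by omega) h2
      rw [b13_smul_zero] at c1 c2
      have h4 := b13_next p hp bt i h1 h2 ((p : ℤ) • nn (i • e 0)) ((p : ℤ) • nn ((i + 1) • e 0))
        ((p : ℤ) • nn (i • e 0 + e 1)) (hnn _ c1) (hnn _ c2) (hnn _ (b13_cart_next p i h1 h2))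
      have h5 := dvd_sub h3 h4
      rwa [sub_sub_sub_cancel_left] at h5
  have hall : ∀ (i : ℕ) (g : E), 1 ≤ i → i < p → R (i • e 0 + (p : ℤ) • g) := by
    intro i g h1 h2
    have h3 := hconst i h1 h2 g
    have h4 := hnext i h1 h2
    rw [b13_smul_zero] at h3
    have h5 := dvd_add h3 h4
    rwa [sub_add_sub_cancel] at h5
  have c0 : cart p (T p (e 0)) = 0 := by
    have := hcart 1 0 le_rfl (by omega)
    rwa [b13_smul_zero, one_smul] at this
  refine ⟨(p : ℤ) • nn (e 0), hn5 _ c0, ?_⟩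
  intro f hf hcf
  have key := b13_ext p bt ((JN p).comp (LinearMap.mulLeft (ZMod p)
    (T p ((p : ℤ) • ((p : ℤ) • nn (e 0)))))) ?_ (T p s * f) (T_mul_mem_A p s hf) hcf
  · rw [hbt', ← mul_assoc, T_neg_mul, one_mul] at key
    rw [key]
    show JN p (T p ((p : ℤ) • ((p : ℤ) • nn (e 0))) * (T p s * f)) = _
    rw [← mul_assoc, ← T_add, add_comm s]
  · intro i g h1 h2
    rw [hnn _ (hcart i g h1 h2)]
    show _ = JN p (T p ((p : ℤ) • ((p : ℤ) • nn (e 0))) * T p (i • e 0 + (p : ℤ) • g))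
    rw [JN_eq_iff]
    intro j hj
    rw [T_add p _ ((p : ℤ) • ((p : ℤ) • nn (i • e 0 + (p : ℤ) • g))), mul_comm, T_psmul p ((p : ℤ) • nn _),
      T_psmul p ((p : ℤ) • nn _), J_pow_mul, J_pow_mul, ← sub_mul]
    exact Dvd.dvd.mul_right (hall i g h1 h2) _

end Pool.Agent.MB
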