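import Pool.Agent.MB.B2b
import Pool.Agent.MB.B13b

/-! MB B13c: the mu step for payloads and the recursion formula. -/

set_option autoImplicit false

namespace Pool.Agent.MB

open PowerSeries Finset

variable (p : ℕ) [hpf : Fact p.Prime]

/-- `v ↦ tens v d` as a linear map. -/
def b13_tensL {M : Type*} [AddCommGroup M] [Module (ZMod p) M] (d : M) :
    (VI p → ZMod p) →ₗ[ZMod p] (VI p → M) where
  toFun v := tens p v d
  map_add' v w := by
    funext a
    simp only [tens, Pi.add_apply, add_smul]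
  map_smul' r v := by
    funext a
    simp only [tens, Pi.smul_apply, smul_eq_mul, RingHom.id_apply, mul_smul]

theorem b13_JN_apply (f : P p) (j k : ℕ) (hj : j < p - 4) (hk : k < NN p) :
    JN p f (⟨j, hj⟩, ⟨k, hk⟩) = PowerSeries.coeff k (J p j f) := rfl

theorem b13_T_split (a b : E) : T p (a + (p : ℤ) • b) = T p b ^ p * T p a := by
  rw [T_add, T_psmul, mul_comm]

section

variable {M : Type*} [AddCommGroup M] [Module (ZMod p) M]

/-- Step in the direction `e j`, payload version. -/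
theorem b13_step_payload (hp : 1000 ≤ p) (ct : P p →ₗ[ZMod p] (VI p → M)) (s' : E) (i : ℕ)
    (h1 : 1 ≤ i) (h2 : i < p) (g : E) (j : Fin 4) (hj : j ≠ 0) (d1 d2 d3 : M)
    (s1 : ct (T p (i • e 0 + (p : ℤ) • g)) =
      tens p (JN p (T p (i • e 0 + (p : ℤ) • g + (p : ℤ) • s'))) d1)
    (s2 : ct (T p (i • e 0 + (p : ℤ) • (g + e 0))) =
      tens p (JN p (T p (i • e 0 + (p : ℤ) • (g + e 0) + (p : ℤ) • s'))) d2)
    (s3 : ct (T p (i • e 0 + (p : ℤ) • (g + e j))) =
      tens p (JN p (T p (i • e 0 + (p : ℤ) • (g + e j) + (p : ℤ) • s'))) d3) :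
    d3 = d2 ∧ d3 = d1 := by
  obtain ⟨jj, hjj, c, hc, hJ⟩ := b13_coord p hp i h1 h2
  have hj0 : ((j : ℕ) : ZMod p) ≠ 0 :=
    b13_natCast_ne_zero p hp _ (Nat.pos_of_ne_zero fun h => hj (Fin.ext h)) (by omega)
  have hj1 : (((j : ℕ) + 1 : ℕ) : ZMod p) ≠ 0 :=
    b13_natCast_ne_zero p hp _ (by omega) (by omega)
  set a : ZMod p := (((j : ℕ) + 1 : ℕ) : ZMod p) with ha
  set b : ZMod p := ((j : ℕ) : ZMod p) with hb
  have hab : a = b + 1 := by rw [ha, hb]; push_cast; ring
  have e1 : tens p (JN p (T p (i • e 0 + (p : ℤ) • (g + e j) + (p : ℤ) • s'))) d3 =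
      a • tens p (JN p (T p (i • e 0 + (p : ℤ) • (g + e 0) + (p : ℤ) • s'))) d2 -
        b • tens p (JN p (T p (i • e 0 + (p : ℤ) • g + (p : ℤ) • s'))) d1 := by
    rw [← s3, b13_T_add_e, map_sub, map_smul, map_smul, s2, s1]
  set v : P p := T p s' * (T p g * ((1 + X) * PowerSeries.C c)) with hv
  have hU : T p (g + e j) = T p g * (a • (1 + X : P p) - b • (1 : P p)) := by
    rw [T_add, T_e]
    congr 1
    unfold U
    simp only [Polynomial.coe_add, Polynomial.coe_one, Polynomial.coe_mul, Polynomial.coe_C,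
      Polynomial.coe_X, PowerSeries.smul_eq_C_mul]
    rw [← ha, hab, map_add, map_one]
    ring
  have h0 : T p (g + e 0) = T p g * (1 + X) := by rw [T_add, b13_T_e0]
  have J1 : J p jj (T p (i • e 0 + (p : ℤ) • g + (p : ℤ) • s')) = v := by
    rw [b13_J_T_mul, hJ]
  have J2 : J p jj (T p (i • e 0 + (p : ℤ) • (g + e 0) + (p : ℤ) • s')) = v + v * X := by
    rw [b13_J_T_mul, hJ, h0, hv]
    ring
  have J3 : J p jj (T p (i • e 0 + (p : ℤ) • (g + e j) + (p : ℤ) • s')) = v + a • (v * X) := by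
    rw [b13_J_T_mul, hJ, hU, hv, hab]
    simp only [PowerSeries.smul_eq_C_mul, map_add, map_one]
    ring
  have hv0 : PowerSeries.coeff 0 v = c := by
    rw [hv, PowerSeries.coeff_zero_eq_constantCoeff_apply, map_mul, map_mul, constantCoeff_T,
      constantCoeff_T]
    simp
  have hNN : 1 < NN p := by unfold NN; omega
  have k0 := congrFun e1 (⟨jj, hjj⟩, ⟨0, by omega⟩)
  have k1 := congrFun e1 (⟨jj, hjj⟩, ⟨1, hNN⟩)
  simp only [tens, Pi.sub_apply, Pi.smul_apply, b13_JN_apply] at k0 k1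
  rw [J1, J2, J3] at k0 k1
  have x0 : PowerSeries.coeff 0 (v * X) = 0 := by simp
  have x1 : PowerSeries.coeff 1 (v * X) = c := by
    have := PowerSeries.coeff_succ_mul_X 0 v
    rw [zero_add] at this
    rw [this, hv0]
  have l0 : PowerSeries.coeff 0 (a • (v * X)) = 0 := by
    rw [PowerSeries.coeff_smul, x0, smul_zero]
  have l1 : PowerSeries.coeff 1 (a • (v * X)) = a * c := by
    rw [PowerSeries.coeff_smul, x1, smul_eq_mul]
  rw [map_add, map_add, l0, x0, hv0] at k0
  rw [map_add, map_add, l1, x1] at k1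
  simp only [add_zero] at k0
  set w := PowerSeries.coeff 1 v with hw
  -- k0 : c • d3 = a • c • d2 - b • c • d1
  have k0' : d3 = a • d2 - b • d1 := by
    have : c • (d3 - (a • d2 - b • d1)) = 0 := by
      rw [smul_sub, smul_sub, smul_comm c a, smul_comm c b, ← k0, sub_self]
    rcases smul_eq_zero.1 this with h | h
    · exact absurd h hc
    · exact sub_eq_zero.1 h
  have k1' : (a * c) • (d3 - d2) = 0 := by
    have h3 : (w + a * c) • d3 - (a • (w + c) • d2 - b • w • d1) = 0 := by rw [k1, sub_self]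
    have h4 : (w + a * c) • d3 - (a • (w + c) • d2 - b • w • d1) =
        w • (d3 - (a • d2 - b • d1)) + (a * c) • (d3 - d2) := by
      module
    rw [h4, ← k0', sub_self, smul_zero, zero_add] at h3
    exact h3
  have hd : d3 = d2 := by
    rcases smul_eq_zero.1 k1' with h | h
    · exact absurd h (mul_ne_zero hj1 hc)
    · exact sub_eq_zero.1 h
  refine ⟨hd, ?_⟩
  have h5 : b • (d3 - d1) = 0 := by
    have : b • (d3 - d1) = (a • d3 - b • d1) - d3 := by rw [hab]; module
    rw [this]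
    nth_rewrite 1 [hd]
    rw [← k0', sub_self]
  rcases smul_eq_zero.1 h5 with h | h
  · exact absurd h hj0
  · exact sub_eq_zero.1 h

/-- Step from `i` to `i + 1`, payload version. -/
theorem b13_next_payload (hp : 1000 ≤ p) (ct : P p →ₗ[ZMod p] (VI p → M)) (s' : E) (i : ℕ)
    (h1 : 1 ≤ i) (h2 : i + 1 < p) (d1 d2 d : M)
    (s1 : ct (T p (i • e 0)) = tens p (JN p (T p (i • e 0 + (p : ℤ) • s'))) d1)
    (s2 : ct (T p ((i + 1) • e 0)) = tens p (JN p (T p ((i + 1) • e 0 + (p : ℤ) • s'))) d2)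
    (s3 : ct (T p (i • e 0 + e 1)) = tens p (JN p (T p (i • e 0 + e 1 + (p : ℤ) • s'))) d) :
    d1 = d2 := by
  have hT : T p (i • e 0 + e 1) = (2 : ZMod p) • T p ((i + 1) • e 0) - T p (i • e 0) := by
    have hU : T p (e 1) = (2 : ZMod p) • (1 + X : P p) - 1 := by
      rw [T_e]
      unfold U
      simp only [Polynomial.coe_add, Polynomial.coe_one, Polynomial.coe_mul, Polynomial.coe_C,
        Polynomial.coe_X, PowerSeries.smul_eq_C_mul]
      have h2 : (PowerSeries.C (((((1 : Fin 4) : ℕ) + 1 : ℕ) : ZMod p))) = (2 : P p) := by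
        norm_num
        rfl
      have h3 : (PowerSeries.C (2 : ZMod p)) = (2 : P p) := rfl
      rw [h2, h3]
      ring
    rw [T_add, hU, T_nsmul, T_nsmul, b13_T_e0, PowerSeries.smul_eq_C_mul,
      PowerSeries.smul_eq_C_mul]
    ring
  have e1 : tens p (JN p (T p (i • e 0 + e 1 + (p : ℤ) • s'))) d =
      (2 : ZMod p) • tens p (JN p (T p ((i + 1) • e 0 + (p : ℤ) • s'))) d2 -
        tens p (JN p (T p (i • e 0 + (p : ℤ) • s'))) d1 := by
    rw [← s3, hT, map_sub, map_smul, s1, s2]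
  have hNN : 0 < NN p := by unfold NN; omega
  have hc : ∀ (j : ℕ) (f : P p), PowerSeries.coeff 0 (J p j (T p s' ^ p * f)) =
      PowerSeries.coeff 0 (J p j f) := by
    intro j f
    rw [J_pow_mul, PowerSeries.coeff_zero_eq_constantCoeff_apply, map_mul, constantCoeff_T, one_mul,
      PowerSeries.coeff_zero_eq_constantCoeff_apply]
  have e2 : ∀ j < p - 4, ((2 : ZMod p) * PowerSeries.coeff 0 (J p j (T p ((i + 1) • e 0)))) • (d - d2) =
        PowerSeries.coeff 0 (J p j (T p (i • e 0))) • (d - d1) := by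
    intro j hj
    have k0 := congrFun e1 (⟨j, hj⟩, ⟨0, hNN⟩)
    simp only [tens, Pi.sub_apply, Pi.smul_apply, b13_JN_apply] at k0
    rw [b13_T_split, b13_T_split, b13_T_split, hc, hc, hc, hT, map_sub, map_smul, map_sub,
      PowerSeries.coeff_smul, smul_eq_mul] at k0
    set A1 := PowerSeries.coeff 0 (J p j (T p (i • e 0)))
    set A2 := PowerSeries.coeff 0 (J p j (T p ((i + 1) • e 0)))
    have h3 : (2 * A2) • (d - d2) - A1 • (d - d1) =
        (2 * A2 - A1) • d - ((2 : ZMod p) • A2 • d2 - A1 • d1) := by module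
    rw [k0, sub_self] at h3
    exact sub_eq_zero.1 h3
  have hx : ∀ c : ZMod p, PowerSeries.coeff 0 ((1 + X : P p) * PowerSeries.C c) = c := by
    intro c
    rw [PowerSeries.coeff_zero_eq_constantCoeff_apply, map_mul]
    simp
  have h20 : (2 : ZMod p) ≠ 0 := by
    exact_mod_cast b13_natCast_ne_zero p hp 2 (by norm_num) (by norm_num)
  have canc : ∀ (c : ZMod p) (m m' : M), c ≠ 0 → c • (m - m') = 0 → m = m' := by
    intro c m m' hc h
    rcases smul_eq_zero.1 h with h | h
    · exact absurd h hc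
    · exact sub_eq_zero.1 h
  by_cases hi : 4 ≤ i
  · have a1 := e2 (p - 1 - i) (by omega)
    rw [J_x_pow' p (by omega) (i + 1) (by omega) h2 (p - 1 - i) (by omega) (by omega),
      J_x_pow p (by omega) i h1 (by omega) (p - 1 - i) (by omega) 0 (by omega), map_zero, mul_zero,
      zero_smul, hx] at a1
    have a2 := canc _ _ _ (b13_Qx_zero_ne p hp) a1.symm
    have a3 := e2 (p - 2 - i) (by omega)
    rw [J_x_pow p (by omega) (i + 1) (by omega) h2 (p - 2 - i) (by omega) 0 (by omega), hx, ← a2,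
      sub_self, smul_zero] at a3
    have a4 := canc _ _ _ (mul_ne_zero h20 (b13_Qx_zero_ne p hp)) a3
    rw [← a2, ← a4]
  · have a1 := e2 (p - 5 - i) (by omega)
    rw [J_x_pow p (by omega) (i + 1) (by omega) h2 (p - 5 - i) (by omega) 3 (by omega),
      J_x_pow p (by omega) i h1 (by omega) (p - 5 - i) (by omega) 4 (by omega), hx, hx,
      Qx_big p 4 (by norm_num), zero_smul] at a1
    have a2 := canc _ _ _ (mul_ne_zero h20 (b13_Qx_three_ne p hp)) a1
    have a3 := e2 (p - 4 - i) (by omega)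
    rw [J_x_pow p (by omega) i h1 (by omega) (p - 4 - i) (by omega) 3 (by omega), hx, ← a2,
      sub_self, smul_zero] at a3
    have a4 := canc _ _ _ (b13_Qx_three_ne p hp) a3.symm
    rw [← a2, ← a4]

end

theorem mu_step_payload (hp : 1000 ≤ p) {M : Type*} [AddCommGroup M] [Module (ZMod p) M] (s s' : E)
    (c : P p →ₗ[ZMod p] (VI p → M))
    (hc : ∀ t : E, cart p (T p t) = 0 →
      ∃ d : M, c (T p (t - s)) = tens p (JN p (T p (t + (p : ℤ) • s'))) d) :
    ∃ d : M, ∀ f ∈ A p, cart p (T p s * f) = 0 →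
      c f = tens p (JN p (T p (s + (p : ℤ) • s') * f)) d := by
  set ct : P p →ₗ[ZMod p] (VI p → M) := c.comp (LinearMap.mulLeft (ZMod p) (T p (-s))) with hct
  have hct' : ∀ f, ct f = c (T p (-s) * f) := fun f => rfl
  have hdead : ∀ t : E, cart p (T p t) = 0 →
      ∃ d : M, ct (T p t) = tens p (JN p (T p (t + (p : ℤ) • s'))) d := by
    intro t ht
    obtain ⟨d, hd⟩ := hc t ht
    refine ⟨d, ?_⟩
    rw [hct', ← T_add, ← hd]
    congr 2
    abel
  choose! d hd using hdead
  have hcart : ∀ (i : ℕ) (g : E), 1 ≤ i → i < p → cart p (T p (i • e 0 + (p : ℤ) • g)) = 0 :=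
    fun i g h1 h2 => cart_x_pow p i h1 h2 g
  have hstep : ∀ (i : ℕ), 1 ≤ i → i < p → ∀ (g : E) (j : Fin 4),
      d (i • e 0 + (p : ℤ) • (g + e j)) = d (i • e 0 + (p : ℤ) • g) := by
    intro i h1 h2 g j
    have base : ∀ j : Fin 4, j ≠ 0 →
        d (i • e 0 + (p : ℤ) • (g + e j)) = d (i • e 0 + (p : ℤ) • (g + e 0)) ∧
        d (i • e 0 + (p : ℤ) • (g + e j)) = d (i • e 0 + (p : ℤ) • g) := by
      intro j hj
      exact b13_step_payload p hp ct s' i h1 h2 g j hj _ _ _ (hd _ (hcart _ _ h1 h2))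
        (hd _ (hcart _ _ h1 h2)) (hd _ (hcart _ _ h1 h2))
    by_cases hj : j = 0
    · subst hj
      obtain ⟨a1, a2⟩ := base 1 (by decide)
      rw [← a1, a2]
    · exact (base j hj).2
  have hconst : ∀ (i : ℕ), 1 ≤ i → i < p → ∀ g : E,
      d (i • e 0 + (p : ℤ) • g) = d (i • e 0 + (p : ℤ) • (0 : E)) := by
    intro i h1 h2 g
    refine b13_E_ind (motive := fun g : E => d (i • e 0 + (p : ℤ) • g) =
      d (i • e 0 + (p : ℤ) • (0 : E))) rfl (fun g j => ?_) g
    rw [hstep i h1 h2 g j]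
  have hnext : ∀ i : ℕ, 1 ≤ i → i < p → d (i • e 0) = d (e 0) := by
    intro i h1
    induction i, h1 using Nat.le_induction with
    | base => intro _; rw [one_smul]
    | succ i h1 ih =>
      intro h2
      have h3 := ih (by omega)
      have c1 := hcart i 0 h1 (by omega)
      have c2 := hcart (i + 1) 0 (by omega) h2
      rw [b13_smul_zero] at c1 c2
      rw [← h3]
      exact (b13_next_payload p hp ct s' i h1 h2 _ _ _ (hd _ c1) (hd _ c2)
        (hd _ (b13_cart_next p i h1 h2))).symm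
  refine ⟨d (e 0), ?_⟩
  intro f hf hcf
  have key := b13_ext p ct ((b13_tensL p (d (e 0))).comp ((JN p).comp (LinearMap.mulLeft (ZMod p)
    (T p ((p : ℤ) • s'))))) ?_ (T p s * f) (T_mul_mem_A p s hf) hcf
  · rw [hct', ← mul_assoc, T_neg_mul, one_mul] at key
    rw [key]
    show tens p (JN p (T p ((p : ℤ) • s') * (T p s * f))) _ = _
    rw [← mul_assoc, ← T_add, add_comm s]
  · intro i g h1 h2
    rw [hd _ (hcart i g h1 h2)]
    show _ = tens p (JN p (T p ((p : ℤ) • s') * T p (i • e 0 + (p : ℤ) • g))) (d (e 0))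
    rw [hconst i h1 h2 g, b13_smul_zero, hnext i h1 h2, ← T_add, add_comm]

/-- from the values on the kernel to the recursion formula -/
theorem recursion (hp : 1000 ≤ p) {M : Type*} [AddCommGroup M] [Module (ZMod p) M] (s s' : E)
    (c : P p →ₗ[ZMod p] (VI p → M)) (d : M)
    (hc : ∀ f ∈ A p, cart p (T p s * f) = 0 →
      c f = tens p (JN p (T p (s + (p : ℤ) • s') * f)) d) (f : P p) (hf : f ∈ A p) :
    c f = tens p (JN p (T p (s + (p : ℤ) • s') * f)) d + nxt p s c (cart p (T p s * f)) := by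
  set h := cart p (T p s * f) with hh
  have hhA : h ∈ A p := cart_mem_A p (T_mul_mem_A p s hf)
  have hg : T p (-s) * h ^ p ∈ A p := T_mul_mem_A p _ (pow_mem_A p hhA)
  have hnxt : nxt p s c h = c (T p (-s) * h ^ p) := rfl
  have h1 : f - T p (-s) * h ^ p ∈ A p := Submodule.sub_mem _ hf hg
  have h2 : T p s * (T p (-s) * h ^ p) = h ^ p * 1 := by
    rw [← mul_assoc, T_mul_neg, one_mul, mul_one]
  have h3 : cart p (T p s * (f - T p (-s) * h ^ p)) = 0 := by
    rw [mul_sub, map_sub, h2, cart_pow_mul, cart_one, mul_one, ← hh, sub_self]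
  have h4 := hc _ h1 h3
  have h5 : JN p (T p (s + (p : ℤ) • s') * (T p (-s) * h ^ p)) = 0 := by
    have : T p (s + (p : ℤ) • s') * (T p (-s) * h ^ p) = (T p s' * h) ^ p * 1 := by
      rw [b13_T_split, mul_assoc, ← mul_assoc (T p s), T_mul_neg, one_mul, mul_one, mul_pow]
    rw [this]
    exact JN_L p (by omega) (one_mem_L p) _
  rw [mul_sub, map_sub, map_sub, h5, sub_zero, sub_eq_iff_eq_add] at h4
  rw [h4, hnxt]

end Pool.Agent.MB
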