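import Pool.Agent.MB.B2b
import Pool.Agent.MB.B7
import Pool.Agent.MB.B11
import Pool.Agent.MB.B12
import Pool.Agent.MB.B13c

/-! MB B14, first part: `window_step`, `site_step`, `hierarchy`. -/

set_option autoImplicit false

namespace Pool.Agent.MB

open PowerSeries Finset

variable (p : ℕ) [hpf : Fact p.Prime]

private theorem b14_tens_zero {M : Type*} [AddCommGroup M] [Module (ZMod p) M] (d : M) :
    tens p (0 : VI p → ZMod p) d = 0 := by
  funext a
  simp [tens]

private theorem b14_tens_one (v : VI p → ZMod p) : tens p v (1 : ZMod p) = v := by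
  funext a
  simp [tens]

private theorem b14_FF (hp : 1000 ≤ p) (l : ℕ) (hl : l ∈ FF) : l + 101 ≤ p := by
  simp only [FF, Finset.mem_insert, Finset.mem_singleton] at hl
  omega

private theorem b14_mul_C (f : P p) (a : ZMod p) : f * PowerSeries.C a = a • f := by
  rw [mul_comm, PowerSeries.smul_eq_C_mul]

theorem window_step (hp : 1000 ≤ p) {M : Type*} [AddCommGroup M] [Module (ZMod p) M] (s s' : E)
    (c : P p →ₗ[ZMod p] (VI p → M)) (d : M)
    (hrec : ∀ f ∈ A p, c f = tens p (JN p (T p (s + (p : ℤ) • s') * f)) d + nxt p s c (cart p (T p s * f)))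
    (ν : E) {g : P p} (hg : g ∈ L p) : c (T p ((p : ℤ) • ν - s) * g) = nxt p s c (T p ν * g) := by
  have hp5 : 5 ≤ p := by omega
  rw [hrec _ (T_mul_mem_A p _ (L_le_A p hg)), ← mul_assoc, ← mul_assoc, ← T_add, ← T_add]
  have h1 : s + (p : ℤ) • s' + ((p : ℤ) • ν - s) = (p : ℤ) • (s' + ν) := by
    rw [smul_add]; abel
  have h2 : s + ((p : ℤ) • ν - s) = (p : ℤ) • ν := by abel
  rw [h1, h2, T_psmul, JN_L p hp5 hg, b14_tens_zero, zero_add, cart_T_psmul_mul, cart_L p hp5 hg]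

theorem site_step (hp : 1000 ≤ p) {M : Type*} [AddCommGroup M] [Module (ZMod p) M] (s s' : E)
    (c : P p →ₗ[ZMod p] (VI p → M)) (d : M)
    (hrec : ∀ f ∈ A p, c f = tens p (JN p (T p (s + (p : ℤ) • s') * f)) d + nxt p s c (cart p (T p s * f)))
    (l : ℕ) (hl : l ∈ FF) (t : E) {g : P p} (hg : g ∈ L p) :
    c (T p (th l + (p : ℤ) • t - s) * g) = tens p (JN p (T p (th l + (p : ℤ) • (s' + t)) * g)) d +
      ev p l g • nxt p s c (T p t) := by
  rw [hrec _ (T_mul_mem_A p _ (L_le_A p hg)), ← mul_assoc, ← mul_assoc, ← T_add, ← T_add]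
  have h1 : s + (p : ℤ) • s' + (th l + (p : ℤ) • t - s) = th l + (p : ℤ) • (s' + t) := by
    rw [smul_add]; abel
  have h2 : s + (th l + (p : ℤ) • t - s) = (p : ℤ) • t + th l := by abel
  rw [h1, h2, T_add p ((p : ℤ) • t), mul_assoc, cart_T_psmul_mul,
    cart_th p hp l (b14_FF p hp l hl) hg, b14_mul_C, map_smul]

/-- an element of `L` with nonzero value -/
private theorem b14_ev_ne (hp : 1000 ≤ p) (l : ℕ) (hl : l ∈ FF) :
    ∃ g ∈ L p, ev p l g ≠ 0 := by
  have hQ : T p (th 0) = ((Q p : Polynomial (ZMod p)) : P p) := by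
    rw [T_th]; simp
  have hgL : T p (-th 0) ∈ L p := by
    refine ⟨1, by simp, ?_⟩
    rw [← hQ, T_mul_neg]
    simp
  refine ⟨T p (-th 0), hgL, ?_⟩
  have h1 : T p (th l) * T p (-th 0) = ((U p 1 ^ l : Polynomial (ZMod p)) : P p) := by
    rw [T_th, Polynomial.coe_mul, ← hQ, mul_assoc, T_mul_neg, mul_one]
  have hdeg : (U p 1 ^ l : Polynomial (ZMod p)).natDegree < p := by
    have h2 : (U p 1 : Polynomial (ZMod p)).natDegree ≤ 1 := by
      unfold U
      refine (Polynomial.natDegree_add_le _ _).trans (max_le (by simp) ?_)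
      exact (Polynomial.natDegree_C_mul_le _ _).trans (by simp)
    have h3 := Polynomial.natDegree_pow_le_of_le l h2
    have := b14_FF p hp l hl
    omega
  have h2 := cart_th p hp l (b14_FF p hp l hl) hgL
  rw [h1, cart_small p _ hdeg] at h2
  have h3 := PowerSeries.C_injective h2
  rw [← h3, Polynomial.eval_pow]
  have h4 : (U p 1 : Polynomial (ZMod p)).eval (-1) = -1 := by
    simp [U]
    ring
  rw [h4]
  exact pow_ne_zero _ (neg_ne_zero.2 one_ne_zero)

/-- the purity step -/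
private theorem b14_pure_step (hp : 1000 ≤ p) (s s' : E) (b c : P p →ₗ[ZMod p] (VI p → ZMod p))
    (lift : E → E)
    (hrec : ∀ f ∈ A p, c f = JN p (T p (s + (p : ℤ) • s') * f) + nxt p s c (cart p (T p s * f)))
    (hlift : ∀ ν : E, ∀ g ∈ L p, c (T p ν * g) = b (T p (lift ν) * g))
    (hw : ∀ ν : E, ∃ ϑ : E, Interp p b ν ϑ) : Pure p s' (nxt p s c) := by
  intro t ht
  have hp5 : 5 ≤ p := by omega
  have hrec' : ∀ f ∈ A p, c f = tens p (JN p (T p (s + (p : ℤ) • s') * f)) (1 : ZMod p) +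
      nxt p s c (cart p (T p s * f)) := by
    intro f hf
    rw [b14_tens_one]
    exact hrec f hf
  set v := nxt p s c (T p (t - s')) with hv
  choose ϑ hϑ using fun l : ℕ => hw (lift (th l + (p : ℤ) • (t - s') - s))
  -- the value at the windows
  have hval : ∀ l ∈ FF, ∀ g ∈ L p, b (T p (lift (th l + (p : ℤ) • (t - s') - s)) * g) =
      JN p (T p (th l + (p : ℤ) • t) * g) + ev p l g • v := by
    intro l hl g hg
    rw [← hlift _ g hg, site_step p hp s s' c 1 hrec' l hl (t - s') hg, b14_tens_one]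
    have : s' + (t - s') = t := by abel
    rw [this]
  obtain ⟨l, hl, η, h1, h2⟩ := main_lemma p hp t v ϑ (fun l _ => (hϑ l).1) (by
    intro l hl g hg h0
    rw [← hval l hl g hg, (hϑ l).2 g hg (by rw [h0, map_zero]), h0, map_zero, add_zero])
  refine ⟨t + η, ?_, ?_⟩
  · have : T p (t + η) - T p t = T p t * (T p η - 1) := by rw [T_add]; ring
    rw [this]
    exact Dvd.dvd.mul_left h2 _
  · obtain ⟨n', hn', -⟩ := T_NN p hp5 η h2
    have hc1 : ∀ g ∈ L p, cart p (T p (ϑ l) * g) = ev p l g • T p (t + η) := by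
      intro g hg
      rw [h1, add_comm (th l), T_add p ((p : ℤ) • (t + η)), mul_assoc, cart_T_psmul_mul,
        cart_th p hp l (b14_FF p hp l hl) hg, b14_mul_C]
    have hc2 : cart p (T p (t + η)) = 0 := by
      rw [hn', add_comm, T_add, cart_T_psmul_mul, ht, mul_zero]
    have hJ : ∀ g ∈ L p, JN p (T p (ϑ l) * g) = JN p (T p (th l + (p : ℤ) • t) * g) := by
      intro g _
      have : T p (ϑ l) * g = T p η ^ p * (T p (th l + (p : ℤ) • t) * g) := by
        rw [h1, smul_add, ← add_assoc, T_add p (th l + (p : ℤ) • t), T_psmul]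
        ring
      rw [this, JN_congr p _ _ h2]
    obtain ⟨g, hg, hne⟩ := b14_ev_ne p hp l hl
    have h3 := (hϑ l).2 g hg (by rw [hc1 g hg, map_smul, hc2, smul_zero])
    rw [hval l hl g hg, hJ g hg, hc1 g hg, map_smul] at h3
    have h4 := add_left_cancel h3
    have h5 : v = JN p (T p (t + η)) := by
      have := congrArg (fun w => (ev p l g)⁻¹ • w) h4
      simpa [smul_smul, inv_mul_cancel₀ hne] using this
    exact h5

/-- The state of the hierarchy. -/
private structure B14St (b : P p →ₗ[ZMod p] (VI p → ZMod p)) where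
  s : E
  c : P p →ₗ[ZMod p] (VI p → ZMod p)
  lift : E → E
  pure : Pure p s c
  win : ∀ ν : E, ∀ g ∈ L p, c (T p ν * g) = b (T p (lift ν) * g)

private theorem b14_step (hp : 1000 ≤ p) (b : P p →ₗ[ZMod p] (VI p → ZMod p))
    (hw : ∀ ν : E, ∃ ϑ : E, Interp p b ν ϑ) (x : B14St p b) :
    ∃ y : B14St p b, (X : P p) ^ 5 ∣ T p y.s - 1 ∧
      (∀ f ∈ A p, x.c f = JN p (T p (x.s + (p : ℤ) • y.s) * f) + y.c (cart p (T p x.s * f))) ∧
      y.c = nxt p x.s x.c ∧ y.lift = fun ν => x.lift ((p : ℤ) • ν - x.s) := by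
  obtain ⟨s', h1, h2⟩ := mu_step p hp x.s x.c x.pure
  have hrec : ∀ f ∈ A p, x.c f = JN p (T p (x.s + (p : ℤ) • s') * f) +
      nxt p x.s x.c (cart p (T p x.s * f)) := by
    intro f hf
    have := recursion p hp x.s s' x.c (1 : ZMod p) (by
      intro f hf h0
      rw [b14_tens_one]
      exact h2 f hf h0) f hf
    rwa [b14_tens_one] at this
  refine ⟨⟨s', nxt p x.s x.c, fun ν => x.lift ((p : ℤ) • ν - x.s),
    b14_pure_step p hp x.s s' b x.c x.lift hrec x.win hw, ?_⟩, h1, hrec, rfl, rfl⟩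
  intro ν g hg
  have := window_step p hp x.s s' x.c (1 : ZMod p) (by
    intro f hf
    rw [b14_tens_one]
    exact hrec f hf) ν hg
  rw [← this]
  exact x.win _ g hg

/-- THEOREM 1: the hierarchy. -/
theorem hierarchy (hp : 1000 ≤ p) (s0 : E) (b : P p →ₗ[ZMod p] (VI p → ZMod p)) (h0 : Pure p s0 b)
    (hw : ∀ ν : E, ∃ ϑ : E, Interp p b ν ϑ) :
    ∃ (s : ℕ → E) (bb : ℕ → (P p →ₗ[ZMod p] (VI p → ZMod p))) (lift : ℕ → E → E),
      s 0 = s0 ∧ bb 0 = b ∧ (∀ n, bb (n + 1) = nxt p (s n) (bb n)) ∧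
      (∀ n, (X : P p) ^ 5 ∣ T p (s (n + 1)) - 1) ∧
      (∀ n, ∀ f ∈ A p, bb n f = JN p (T p (s n + (p : ℤ) • s (n + 1)) * f) + bb (n + 1) (cart p (T p (s n) * f))) ∧
      (lift 0 = id) ∧ (∀ n ν, lift (n + 1) ν = lift n ((p : ℤ) • ν - s n)) := by
  choose F hF using b14_step p hp b hw
  let x0 : B14St p b := ⟨s0, b, id, h0, fun ν g _ => rfl⟩
  let sq : ℕ → B14St p b := fun n => Nat.rec x0 (fun _ y => F y) n
  refine ⟨fun n => (sq n).s, fun n => (sq n).c, fun n => (sq n).lift, rfl, rfl,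
    fun n => (hF (sq n)).2.2.1, fun n => (hF (sq n)).1, fun n f hf => (hF (sq n)).2.1 f hf,
    rfl, fun n ν => ?_⟩
  exact congrFun (hF (sq n)).2.2.2 ν

end Pool.Agent.MB
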