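import Pool.Agent.MB.B14a
import Pool.Agent.MB.B11
import Pool.Agent.MB.B13c

/-! MB B14b: payloads. -/

set_option autoImplicit false

namespace Pool.Agent.MB

open PowerSeries Finset

variable (p : ℕ) [hpf : Fact p.Prime]

omit hpf in
private lemma b14b_FF (hp : 1000 ≤ p) {l : ℕ} (hl : l ∈ FF) : 99 ≤ l ∧ l + 101 ≤ p := by
  simp only [FF, Finset.mem_insert, Finset.mem_singleton] at hl
  omega

private lemma b14b_natDegree_U1_pow (l : ℕ) : (U p 1 ^ l : Polynomial (ZMod p)).natDegree ≤ l := by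
  refine (Polynomial.natDegree_pow_le).trans ?_
  have : (U p 1).natDegree ≤ 1 := by
    unfold U
    refine (Polynomial.natDegree_add_le _ _).trans ?_
    simp only [Polynomial.natDegree_one, zero_le, sup_of_le_right]
    exact (Polynomial.natDegree_C_mul_le _ _).trans (Polynomial.natDegree_X_le)
  calc l * (U p 1).natDegree ≤ l * 1 := Nat.mul_le_mul_left _ this
    _ = l := mul_one l

private lemma b14b_natDegree_U0 : (U p 0 : Polynomial (ZMod p)).natDegree ≤ 1 := by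
  unfold U
  refine (Polynomial.natDegree_add_le _ _).trans ?_
  simp only [Polynomial.natDegree_one, zero_le, sup_of_le_right]
  exact (Polynomial.natDegree_C_mul_le _ _).trans (Polynomial.natDegree_X_le)

/-- the element `g` of `L` with `T (th l) g = U1^l q` -/
private lemma b14b_exists_g (l : ℕ) (q : Polynomial (ZMod p)) (hq : q.natDegree ≤ 3) :
    ∃ g ∈ L p, T p (th l) * g = ((U p 1 ^ l * q : Polynomial (ZMod p)) : P p) := by
  refine ⟨T p (-(th l)) * ((U p 1 ^ l * q : Polynomial (ZMod p)) : P p), ?_, ?_⟩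
  · rw [th_mul_L p l]
    refine ⟨q, hq, ?_⟩
    rw [← mul_assoc, T_mul_neg, one_mul]
  · rw [← mul_assoc, T_mul_neg, one_mul]

private lemma b14b_ev (l : ℕ) (hl : l + 101 ≤ p) (q : Polynomial (ZMod p)) (hq : q.natDegree ≤ 3)
    {g : P p} (hg : T p (th l) * g = ((U p 1 ^ l * q : Polynomial (ZMod p)) : P p)) :
    ev p l g = (U p 1 ^ l * q).eval (-1) := by
  unfold ev
  simp only [LinearMap.coe_comp, Function.comp_apply, LinearMap.mulLeft_apply]
  rw [hg, cart_small]
  · simp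
  · refine lt_of_le_of_lt (Polynomial.natDegree_mul_le) ?_
    have := b14b_natDegree_U1_pow p l
    omega

private lemma b14b_ev_one (l : ℕ) (hl : l + 101 ≤ p) : ∃ g ∈ L p, ev p l g = 1 := by
  obtain ⟨g, hg, hg2⟩ := b14b_exists_g p l (Polynomial.C ((-1) ^ l)) (by simp)
  refine ⟨g, hg, ?_⟩
  rw [b14b_ev p l hl _ (by simp) hg2, Polynomial.eval_mul, Polynomial.eval_pow, Polynomial.eval_C]
  have : (U p 1).eval (-1) = -1 := by
    unfold U
    have : ((((1 : Fin 4) : ℕ) + 1 : ℕ) : ZMod p) = 2 := by norm_num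
    rw [this]
    simp
    ring
  rw [this, ← mul_pow]
  simp

private lemma b14b_ev_zero (hp : 1000 ≤ p) (l : ℕ) (h1 : 99 ≤ l) (hl : l + 101 ≤ p) (t : E) :
    ∃ g ∈ L p, ev p l g = 0 ∧ JN p (T p (th l + (p : ℤ) • t) * g) ≠ 0 := by
  have hd : (U p 0).natDegree ≤ 3 := (b14b_natDegree_U0 p).trans (by norm_num)
  obtain ⟨g, hg, hg2⟩ := b14b_exists_g p l (U p 0) hd
  refine ⟨g, hg, ?_, ?_⟩
  · rw [b14b_ev p l hl _ hd hg2, Polynomial.eval_mul]
    have : (U p 0).eval (-1) = 0 := by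
      unfold U
      have : ((((0 : Fin 4) : ℕ) + 1 : ℕ) : ZMod p) = 1 := by norm_num
      rw [this]
      simp
    rw [this, mul_zero]
  · have h2 : T p (th l + (p : ℤ) • t) * g = (T p t) ^ p *
        ((U p 1 ^ l * U p 0 : Polynomial (ZMod p)) : P p) := by
      rw [T_add, T_psmul, ← hg2]; ring
    rw [h2]
    intro h0
    have h3 : JN p ((T p t) ^ p * ((U p 1 ^ l * U p 0 : Polynomial (ZMod p)) : P p))
        = JN p ((T p t) ^ p * 0) := by rw [h0, mul_zero, map_zero]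
    rw [JN_cancel p _ _ _ (isUnit_T p t), map_zero] at h3
    refine good_window p hp l h1 hl (U p 0) ?_ hd h3
    intro h4
    have := congrArg (fun r => Polynomial.coeff r 0) h4
    simp [U] at this

private lemma b14b_tens_one (v : VI p → ZMod p) : tens p v (1 : ZMod p) = v := by
  funext a
  simp [tens]

section
variable {M : Type*} [AddCommGroup M] [Module (ZMod p) M] {I : Type*} {N : I → Type*}
  [∀ i, AddCommGroup (N i)] [∀ i, Module (ZMod p) (N i)]

private lemma b14b_tens_map (π : ∀ i, M →ₗ[ZMod p] N i) (i : I) (v : VI p → ZMod p) (d : M) :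
    (fun a => π i (tens p v d a)) = tens p v (π i d) := by
  funext a
  simp [tens]

/-- windows of `b` at the level `n` -/
private lemma b14b_window (hp : 1000 ≤ p) (b : P p →ₗ[ZMod p] (VI p → ZMod p)) (s : ℕ → E)
    (bb : ℕ → (P p →ₗ[ZMod p] (VI p → ZMod p))) (lift : ℕ → E → E)
    (hb0 : bb 0 = b) (hbn : ∀ n, bb (n + 1) = nxt p (s n) (bb n))
    (hrec : ∀ n, ∀ f ∈ A p, bb n f = JN p (T p (s n + (p : ℤ) • s (n + 1)) * f) +
      bb (n + 1) (cart p (T p (s n) * f)))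
    (hl0 : lift 0 = id) (hls : ∀ n ν, lift (n + 1) ν = lift n ((p : ℤ) • ν - s n)) (n : ℕ) :
    ∀ (μ : E) {g : P p}, g ∈ L p → bb n (T p μ * g) = b (T p (lift n μ) * g) := by
  induction n with
  | zero =>
    intro μ g _
    rw [hb0, hl0]; rfl
  | succ n ih =>
    intro μ g hg
    have hr : ∀ f ∈ A p, bb n f = tens p (JN p (T p (s n + (p : ℤ) • s (n + 1)) * f)) (1 : ZMod p) +
        nxt p (s n) (bb n) (cart p (T p (s n) * f)) := by
      intro f hf
      rw [b14b_tens_one, ← hbn]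
      exact hrec n f hf
    have h1 := window_step p hp (s n) (s (n + 1)) (bb n) 1 hr μ hg
    rw [hbn, ← h1, ih _ hg, hls]

/-- the step -/
private lemma b14b_step (hp : 1000 ≤ p) (b : P p →ₗ[ZMod p] (VI p → ZMod p)) (s : ℕ → E)
    (bb : ℕ → (P p →ₗ[ZMod p] (VI p → ZMod p))) (lift : ℕ → E → E)
    (hb0 : bb 0 = b) (hbn : ∀ n, bb (n + 1) = nxt p (s n) (bb n))
    (hrec : ∀ n, ∀ f ∈ A p, bb n f = JN p (T p (s n + (p : ℤ) • s (n + 1)) * f) +
      bb (n + 1) (cart p (T p (s n) * f)))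
    (hl0 : lift 0 = id) (hls : ∀ n ν, lift (n + 1) ν = lift n ((p : ℤ) • ν - s n))
    (π : ∀ i, M →ₗ[ZMod p] N i) (hπ : ∀ d : M, (∀ i, π i d = 0) → d = 0)
    (R : ∀ i, N i → N i → Prop) (c : P p →ₗ[ZMod p] (VI p → M))
    (hw : ∀ (ν : E) (i : I), ∃ ϑ : E, Interp p b ν ϑ ∧ ∃ δ δ' : N i, R i δ δ' ∧
      ∀ g ∈ L p, cart p (cart p (T p ϑ * g)) = 0 →
        (fun a => π i (c (T p ν * g) a)) = tens p (JN p (T p ϑ * g)) δ +
          tens p (JN p (cart p (T p ϑ * g))) δ')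
    (cc : ℕ → (P p →ₗ[ZMod p] (VI p → M))) (hcc : ∀ n, cc (n + 1) = nxt p (s n) (cc n))
    (n : ℕ) (hcn : ∀ (μ : E) (g : P p), g ∈ L p → cc n (T p μ * g) = c (T p (lift n μ) * g))
    (ρ : ∀ i, N i → Prop)
    (hinv : ∀ t : E, cart p (T p t) = 0 → ∀ i, ∃ δ : N i, ρ i δ ∧
      (fun a => π i (cc n (T p (t - s n)) a)) = tens p (JN p (T p (t + (p : ℤ) • s (n + 1)))) δ) :
    ∃ d : M, (∀ i, ρ i (π i d)) ∧
      (∀ f ∈ A p, cc n f = tens p (JN p (T p (s n + (p : ℤ) • s (n + 1)) * f)) d +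
        cc (n + 1) (cart p (T p (s n) * f))) ∧
      (∀ (μ : E) (g : P p), g ∈ L p → cc (n + 1) (T p μ * g) = c (T p (lift (n + 1) μ) * g)) ∧
      (∀ t : E, cart p (T p t) = 0 → ∀ i, ∃ δ : N i, R i (π i d) δ ∧
        (fun a => π i (cc (n + 1) (T p (t - s (n + 1))) a)) =
          tens p (JN p (T p (t + (p : ℤ) • s (n + 2)))) δ) := by
  have hp5 : 5 ≤ p := by omega
  -- a global payload for each dead site
  have hA : ∀ t : E, cart p (T p t) = 0 → ∃ d : M, cc n (T p (t - s n)) =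
      tens p (JN p (T p (t + (p : ℤ) • s (n + 1)))) d := by
    intro t ht
    choose δ hδ1 hδ2 using hinv t ht
    set κ := JN p (T p (t + (p : ℤ) • s (n + 1))) with hκdef
    by_cases hκ : κ = 0
    · refine ⟨0, ?_⟩
      funext a
      have h0 : cc n (T p (t - s n)) a = 0 := by
        apply hπ
        intro i
        have h1 := congrFun (hδ2 i) a
        rw [hκ] at h1
        simpa [tens] using h1
      rw [h0]
      simp [tens]
    · obtain ⟨a0, ha0⟩ := Function.ne_iff.mp hκ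
      have ha0' : κ a0 ≠ 0 := by simpa using ha0
      refine ⟨(κ a0)⁻¹ • cc n (T p (t - s n)) a0, ?_⟩
      funext a
      rw [← sub_eq_zero]
      apply hπ
      intro i
      have h1 : π i (cc n (T p (t - s n)) a) = κ a • δ i := congrFun (hδ2 i) a
      have h2 : π i (cc n (T p (t - s n)) a0) = κ a0 • δ i := congrFun (hδ2 i) a0
      simp only [tens]
      rw [map_sub, map_smul, map_smul, h1, h2, inv_smul_smul₀ ha0', sub_self]
  obtain ⟨d, hd⟩ := mu_step_payload p hp (s n) (s (n + 1)) (cc n) hA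
  have hrecd : ∀ f ∈ A p, cc n f = tens p (JN p (T p (s n + (p : ℤ) • s (n + 1)) * f)) d +
      nxt p (s n) (cc n) (cart p (T p (s n) * f)) := fun f hf =>
    recursion p hp (s n) (s (n + 1)) (cc n) d hd f hf
  have hr : ∀ m, ∀ f ∈ A p, bb m f = tens p (JN p (T p (s m + (p : ℤ) • s (m + 1)) * f)) (1 : ZMod p) +
      nxt p (s m) (bb m) (cart p (T p (s m) * f)) := by
    intro m f hf
    rw [b14b_tens_one, ← hbn]
    exact hrec m f hf
  refine ⟨d, ?_, ?_, ?_, ?_⟩
  · -- the payload satisfies `ρ`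
    intro i
    have dead : cart p (T p (e 0)) = 0 := by
      have := cart_x_pow p 1 le_rfl (by omega) 0
      simpa using this
    obtain ⟨δ, h1, h2⟩ := hinv (e 0) dead i
    have h3 := hd (T p (e 0 - s n)) (T_mem_A p _) (by
      rw [← T_add, show s n + (e 0 - s n) = e 0 by abel]; exact dead)
    rw [← T_add, show s n + (p : ℤ) • s (n + 1) + (e 0 - s n) = e 0 + (p : ℤ) • s (n + 1) by abel] at h3
    have hne := JN_x_ne_zero p hp (s (n + 1))
    obtain ⟨a0, ha0⟩ := Function.ne_iff.mp hne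
    have ha0' : JN p (T p (e 0 + (p : ℤ) • s (n + 1))) a0 ≠ 0 := by simpa using ha0
    have h4 := congrFun h2 a0
    rw [h3] at h4
    simp only [tens, map_smul] at h4
    have h5 : π i d = δ := smul_right_injective _ ha0' h4
    rw [h5]; exact h1
  · intro f hf
    rw [hcc]; exact hrecd f hf
  · intro μ g hg
    have h1 := window_step p hp (s n) (s (n + 1)) (cc n) d hrecd μ hg
    rw [hcc, ← h1, hcn _ _ hg, hls]
  · intro t ht i
    set σ := s (n + 1) with hσ
    have hbw := b14b_window p hp b s bb lift hb0 hbn hrec hl0 hls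
    choose ϑ hϑ1 δ δ' hR hϑ2 using fun l : ℕ => hw (lift n (th l + (p : ℤ) • (t - σ) - s n)) i
    set v := bb (n + 1) (T p (t - σ)) with hv
    -- the value of `b` at the windows
    have hbval : ∀ l ∈ FF, ∀ g ∈ L p, b (T p (lift n (th l + (p : ℤ) • (t - σ) - s n)) * g) =
        JN p (T p (th l + (p : ℤ) • t) * g) + ev p l g • v := by
      intro l hl g hg
      rw [← hbw n _ hg, site_step p hp (s n) σ (bb n) 1 (hr n) l hl (t - σ) hg, b14b_tens_one,
        ← hbn, show σ + (t - σ) = t by abel]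
    have hcval : ∀ l ∈ FF, ∀ g ∈ L p, c (T p (lift n (th l + (p : ℤ) • (t - σ) - s n)) * g) =
        tens p (JN p (T p (th l + (p : ℤ) • t) * g)) d + ev p l g • cc (n + 1) (T p (t - σ)) := by
      intro l hl g hg
      rw [← hcn _ _ hg, site_step p hp (s n) σ (cc n) d hrecd l hl (t - σ) hg,
        ← hcc, show σ + (t - σ) = t by abel]
    obtain ⟨l, hl, η, hη1, hη2⟩ := main_lemma p hp t v ϑ (fun l _ => (hϑ1 l).1) (by
      intro l hl g hg h0
      have h1 := (hϑ1 l).2 g hg (by rw [h0, map_zero])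
      rw [hbval l hl g hg, h0, map_zero, add_zero] at h1
      exact h1)
    obtain ⟨hl1, hl2⟩ := b14b_FF p hp hl
    -- the Cartier images
    have hcart : ∀ g ∈ L p, cart p (T p (ϑ l) * g) = ev p l g • T p (t + η) := by
      intro g hg
      have h1 : T p (ϑ l) * g = T p ((p : ℤ) • (t + η)) * (T p (th l) * g) := by
        rw [hη1, T_add]; ring
      rw [h1, cart_T_psmul_mul, cart_th p hp l hl2 hg, PowerSeries.smul_eq_C_mul, mul_comm]
    obtain ⟨η', hη', _⟩ := T_NN p hp5 η hη2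
    have hcart2 : ∀ g ∈ L p, cart p (cart p (T p (ϑ l) * g)) = 0 := by
      intro g hg
      rw [hcart g hg, map_smul]
      have h1 : T p (t + η) = T p ((p : ℤ) • ((p : ℤ) • η')) * T p t := by
        rw [← T_add, ← hη', add_comm]
      rw [h1, cart_T_psmul_mul, ht, mul_zero, smul_zero]
    have hJN : ∀ g : P p, JN p (T p (ϑ l) * g) = JN p (T p (th l + (p : ℤ) • t) * g) := by
      intro g
      have h1 : T p (ϑ l) * g = (T p η) ^ p * (T p (th l + (p : ℤ) • t) * g) := by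
        rw [hη1, ← T_psmul, ← mul_assoc, ← T_add]
        congr 2
        rw [smul_add]; abel
      rw [h1, JN_congr p _ _ hη2]
    obtain ⟨g1, hg1, hev1⟩ := b14b_ev_one p l hl2
    obtain ⟨g0, hg0, hev0, hne0⟩ := b14b_ev_zero p hp l hl1 hl2 t
    -- the value of `v`
    have hv1 : v = JN p (T p (t + η)) := by
      have h1 := (hϑ1 l).2 g1 hg1 (hcart2 g1 hg1)
      rw [hbval l hl g1 hg1, hcart g1 hg1, hJN, hev1, one_smul, one_smul] at h1
      exact add_left_cancel h1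
    have hv2 : v = JN p (T p (t + (p : ℤ) • s (n + 2))) := by
      have h1 := hrec (n + 1) (T p (t - σ)) (T_mem_A p _)
      rw [← T_add, ← T_add, show s (n + 1) + (t - σ) = t by rw [hσ]; abel, ht, map_zero, add_zero,
        show s (n + 1) + (p : ℤ) • s (n + 1 + 1) + (t - σ) = t + (p : ℤ) • s (n + 2) by
          rw [hσ]; abel] at h1
      exact h1
    -- the payloads
    have hpay : ∀ g ∈ L p, tens p (JN p (T p (th l + (p : ℤ) • t) * g)) (π i d) +
        ev p l g • (fun a => π i (cc (n + 1) (T p (t - σ)) a)) =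
        tens p (JN p (T p (th l + (p : ℤ) • t) * g)) (δ l) +
        ev p l g • tens p (JN p (T p (t + η))) (δ' l) := by
      intro g hg
      have h1 := hϑ2 l g hg (hcart2 g hg)
      rw [hcval l hl g hg, hcart g hg, hJN] at h1
      funext a
      have h2 := congrFun h1 a
      simp only [tens, Pi.add_apply, Pi.smul_apply, map_add, map_smul, smul_eq_mul, mul_smul] at h2 ⊢
      exact h2
    have hδ : π i d = δ l := by
      have h1 := hpay g0 hg0
      rw [hev0, zero_smul, zero_smul, add_zero, add_zero] at h1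
      obtain ⟨a0, ha0⟩ := Function.ne_iff.mp hne0
      have ha0' : JN p (T p (th l + (p : ℤ) • t) * g0) a0 ≠ 0 := by simpa using ha0
      have h2 := congrFun h1 a0
      simp only [tens] at h2
      exact smul_right_injective _ ha0' h2
    refine ⟨δ' l, ?_, ?_⟩
    · rw [hδ]; exact hR l
    · have h1 := hpay g1 hg1
      rw [hev1, one_smul, one_smul, hδ, ← hv1, hv2] at h1
      exact add_left_cancel h1

/-- the invariant -/
private def b14b_Inv (s : ℕ → E) (lift : ℕ → E → E) (π : ∀ i, M →ₗ[ZMod p] N i)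
    (c : P p →ₗ[ZMod p] (VI p → M)) (cc : ℕ → (P p →ₗ[ZMod p] (VI p → M))) (n : ℕ)
    (ρ : ∀ i, N i → Prop) : Prop :=
  (∀ (μ : E) (g : P p), g ∈ L p → cc n (T p μ * g) = c (T p (lift n μ) * g)) ∧
  (∀ t : E, cart p (T p t) = 0 → ∀ i, ∃ δ : N i, ρ i δ ∧
      (fun a => π i (cc n (T p (t - s n)) a)) = tens p (JN p (T p (t + (p : ℤ) • s (n + 1)))) δ)

end

/-- THEOREM 1': payloads.  `R i` is the local rule for the observation `π i`. -/
theorem payload (hp : 1000 ≤ p) (b : P p →ₗ[ZMod p] (VI p → ZMod p)) (s : ℕ → E)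
    (bb : ℕ → (P p →ₗ[ZMod p] (VI p → ZMod p))) (lift : ℕ → E → E)
    (hb0 : bb 0 = b) (hbn : ∀ n, bb (n + 1) = nxt p (s n) (bb n))
    (hs : ∀ n, (X : P p) ^ 5 ∣ T p (s (n + 1)) - 1)
    (hrec : ∀ n, ∀ f ∈ A p, bb n f = JN p (T p (s n + (p : ℤ) • s (n + 1)) * f) + bb (n + 1) (cart p (T p (s n) * f)))
    (hl0 : lift 0 = id) (hls : ∀ n ν, lift (n + 1) ν = lift n ((p : ℤ) • ν - s n))
    {M : Type*} [AddCommGroup M] [Module (ZMod p) M] {I : Type*} {N : I → Type*} [∀ i, AddCommGroup (N i)]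
    [∀ i, Module (ZMod p) (N i)] (π : ∀ i, M →ₗ[ZMod p] N i) (hπ : ∀ d : M, (∀ i, π i d = 0) → d = 0)
    (R0 : ∀ i, N i → Prop) (R : ∀ i, N i → N i → Prop) (c : P p →ₗ[ZMod p] (VI p → M))
    (hg : ∀ t : E, cart p (T p t) = 0 → ∀ i, ∃ δ : N i, R0 i δ ∧
      (fun a => π i (c (T p (t - s 0)) a)) = tens p (JN p (T p (t + (p : ℤ) • s 1))) δ)
    (hw : ∀ (ν : E) (i : I), ∃ ϑ : E, Interp p b ν ϑ ∧ ∃ δ δ' : N i, R i δ δ' ∧
      ∀ g ∈ L p, cart p (cart p (T p ϑ * g)) = 0 →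
        (fun a => π i (c (T p ν * g) a)) = tens p (JN p (T p ϑ * g)) δ + tens p (JN p (cart p (T p ϑ * g))) δ') :
    ∃ (d : ℕ → M) (cc : ℕ → (P p →ₗ[ZMod p] (VI p → M))), cc 0 = c ∧ (∀ n, cc (n + 1) = nxt p (s n) (cc n)) ∧
      (∀ n, ∀ f ∈ A p, cc n f = tens p (JN p (T p (s n + (p : ℤ) • s (n + 1)) * f)) (d n) + cc (n + 1) (cart p (T p (s n) * f))) ∧
      (∀ i, R0 i (π i (d 0))) ∧ ∀ n i, R i (π i (d n)) (π i (d (n + 1))) := by
  have _ := hs
  set cc : ℕ → (P p →ₗ[ZMod p] (VI p → M)) := fun n => Nat.rec c (fun n c' => nxt p (s n) c') n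
    with hccdef
  have hcc0 : cc 0 = c := rfl
  have hcc : ∀ n, cc (n + 1) = nxt p (s n) (cc n) := fun n => rfl
  have step := fun (n : ℕ) (ρ : ∀ i, N i → Prop) (h : b14b_Inv p s lift π c cc n ρ) =>
    b14b_step p hp b s bb lift hb0 hbn hrec hl0 hls π hπ R c hw cc hcc n h.1 ρ h.2
  choose dd hdd1 hdd2 hdd3 hdd4 using step
  let st : (n : ℕ) → {ρ : ∀ i, N i → Prop // b14b_Inv p s lift π c cc n ρ} := fun n =>
    Nat.rec ⟨R0, ⟨fun μ g _ => by change c _ = c (T p (lift 0 μ) * g); rw [hl0]; rfl, hg⟩⟩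
      (fun n x => ⟨fun i => R i (π i (dd n x.1 x.2)), ⟨hdd3 n x.1 x.2, hdd4 n x.1 x.2⟩⟩) n
  refine ⟨fun n => dd n (st n).1 (st n).2, cc, hcc0, hcc, fun n => hdd2 n _ _, ?_, ?_⟩
  · exact fun i => hdd1 0 (st 0).1 (st 0).2 i
  · exact fun n i => hdd1 (n + 1) (st (n + 1)).1 (st (n + 1)).2 i

end Pool.Agent.MB
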