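import Pool.Agent.MB.Defs2

/-! MB: third file of definitions (two variables, tiles). -/

set_option autoImplicit false

namespace Pool.Agent.MB

open PowerSeries Finset

variable (p : ℕ) [hpf : Fact p.Prime]

/-- Exponents of the basis `1, 1/u_1, 1/u_2, 1/u_3` of `L`. -/
def gL (j : Fin 4) : E := if j = 0 then 0 else - e j

/-- The element of `L` with coordinates `a`. -/
noncomputable def gA (a : Fin 4 → ZMod p) : P p := ∑ j, a j • T p (gL j)

/-- The linear relations satisfied by `n ↦ f (T n)`. -/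
def Rel {V : Type*} [AddCommGroup V] [Module (ZMod p) V] (w : E → V) : Prop :=
  ∀ (n : E) (j : Fin 4), w (n + e j) = (((j : ℕ) + 1 : ℕ) : ZMod p) • w (n + e 0) - ((j : ℕ) : ZMod p) • w n

/-- Reduction mod `X^N`. -/
noncomputable def tr (f : P p) : Fin (NN p) → ZMod p := fun i => PowerSeries.coeff (i : ℕ) f

/-- `v` is the value of a dead site. -/
def Dead (v : Fin (NN p) → ZMod p) : Prop := ∃ κ : E, v = tr p (T p κ) ∧ cart p (T p κ) = 0

/-- `ϑ` is an interpretation of the window with values `β j` at `ν + gL j`. -/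
def WI (β : Fin 4 → (VI p → ZMod p)) (ϑ : E) : Prop :=
  ¬ Dvd p ϑ ∧ ∀ a : Fin 4 → ZMod p, cart p (cart p (T p ϑ * gA p a)) = 0 →
    ∑ j, a j • β j = JN p (T p ϑ * gA p a) + JN p (cart p (T p ϑ * gA p a))

/-- Payload version. -/
def WP {M : Type*} [AddCommGroup M] [Module (ZMod p) M] (γ : Fin 4 → (VI p → M)) (ϑ : E) (δ δ' : M) : Prop :=
  ∀ a : Fin 4 → ZMod p, cart p (cart p (T p ϑ * gA p a)) = 0 →
    ∑ j, a j • γ j = tens p (JN p (T p ϑ * gA p a)) δ + tens p (JN p (cart p (T p ϑ * gA p a))) δ'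

/-- The exponent of the hole letter. -/
def one4 : E := fun _ => 1

/-- The conclusions of `hierarchy`, bundled. -/
structure Hier (b : P p →ₗ[ZMod p] (VI p → ZMod p)) (s : ℕ → E)
    (bb : ℕ → (P p →ₗ[ZMod p] (VI p → ZMod p))) (lift : ℕ → E → E) : Prop where
  b0 : bb 0 = b
  bn : ∀ n, bb (n + 1) = nxt p (s n) (bb n)
  hs : ∀ n, (X : P p) ^ 5 ∣ T p (s (n + 1)) - 1
  hrec : ∀ n, ∀ f ∈ A p, bb n f = JN p (T p (s n + (p : ℤ) • s (n + 1)) * f) + bb (n + 1) (cart p (T p (s n) * f))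
  l0 : lift 0 = id
  ls : ∀ n ν, lift (n + 1) ν = lift n ((p : ℤ) • ν - s n)
/-- The conclusions of `payload` on the recursion, bundled. -/
structure Pay (s : ℕ → E) {M : Type*} [AddCommGroup M] [Module (ZMod p) M] (c : P p →ₗ[ZMod p] (VI p → M)) (d : ℕ → M)
    (cc : ℕ → (P p →ₗ[ZMod p] (VI p → M))) : Prop where
  c0 : cc 0 = c
  cn : ∀ n, cc (n + 1) = nxt p (s n) (cc n)
  crec : ∀ n, ∀ f ∈ A p, cc n f = tens p (JN p (T p (s n + (p : ℤ) • s (n + 1)) * f)) (d n) + cc (n + 1) (cart p (T p (s n) * f))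

section tiles

variable {Tl : Type} [DecidableEq Tl]

/-- Unit vector of a tile. -/
def et (a : Tl) : Tl → ZMod p := Pi.single a 1

variable (Tl)

/-- A configuration: the tracks `M_x, M_y, b_x, b_y, c`. -/
structure Cfg where
  mx : E → E → (Fin (NN p) → ZMod p)
  my : E → E → (Fin (NN p) → ZMod p)
  bx : E → E → (VI p → ZMod p)
  by' : E → E → (VI p → ZMod p)
  c : E → E → (VI p → (VI p → (Tl → ZMod p)))

variable {Tl}

/-- Linearity of a track in both variables. -/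
def Rel2 {V : Type*} [AddCommGroup V] [Module (ZMod p) V] (w : E → E → V) : Prop :=
  (∀ m, Rel p (fun n => w n m)) ∧ ∀ n, Rel p (w n)

/-- All tracks are linear. -/
def Cfg.Lin (w : Cfg p Tl) : Prop :=
  Rel2 p w.mx ∧ Rel2 p w.my ∧ Rel2 p w.bx ∧ Rel2 p w.by' ∧ Rel2 p w.c

/-- The rule for `M_x, b_x` at `(n, m)`. -/
def RX (w : Cfg p Tl) (n m : E) : Prop :=
  (∃ κ : E, w.mx n m = tr p (T p κ) ∧ ∀ j, w.mx (n + e j) m = tr p (T p (κ + e j))) ∧
  (∀ j, w.mx n (m + e j) = w.mx n m) ∧ (∀ j, w.bx n (m + e j) = w.bx n m) ∧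
  (Dead p (w.mx n m) → ∃ κ : E, w.mx n m = tr p (T p κ) ∧ w.bx n m = JN p (T p κ))

/-- The rule for `M_y, b_y` at `(n, m)`. -/
def RY (w : Cfg p Tl) (n m : E) : Prop :=
  (∃ κ : E, w.my n m = tr p (T p κ) ∧ ∀ j, w.my n (m + e j) = tr p (T p (κ + e j))) ∧
  (∀ j, w.my (n + e j) m = w.my n m) ∧ (∀ j, w.by' (n + e j) m = w.by' n m) ∧
  (Dead p (w.my n m) → ∃ κ : E, w.my n m = tr p (T p κ) ∧ w.by' n m = JN p (T p κ))

/-- The tile rule at the pair of windows `(n, m)`. -/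
def TR (H V : Tl → Tl → Prop) (w : Cfg p Tl) (n m : E) : Prop :=
  ∃ ϑ ϑ' : E, WI p (fun j => w.bx (n + gL j) m) ϑ ∧ WI p (fun k => w.by' n (m + gL k)) ϑ' ∧
    ∃ a a2 b b2 : Tl, H a a2 ∧ H b b2 ∧ V a b ∧ V a2 b2 ∧
      ∃ δ δ' : Fin 4 → (VI p → (Tl → ZMod p)),
        (∀ k, WP p (fun j => w.c (n + gL j) (m + gL k)) ϑ (δ k) (δ' k)) ∧
        WP p δ ϑ' (et p a) (et p b) ∧ WP p δ' ϑ' (et p a2) (et p b2)

/-- Ground-dead site in `x`, window in `y`. -/
def GX (V : Tl → Tl → Prop) (w : Cfg p Tl) (n m : E) : Prop :=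
  Dead p (w.mx n m) → ∃ ϑ' : E, WI p (fun k => w.by' n (m + gL k)) ϑ' ∧
    ∃ b b' : Tl, V b b' ∧ ∃ δ : Fin 4 → (VI p → (Tl → ZMod p)),
      (∀ k, w.c n (m + gL k) = tens p (w.bx n m) (δ k)) ∧ WP p δ ϑ' (et p b) (et p b')

/-- Window in `x`, ground-dead site in `y`. -/
def GY (H : Tl → Tl → Prop) (w : Cfg p Tl) (n m : E) : Prop :=
  Dead p (w.my n m) → ∃ ϑ : E, WI p (fun j => w.bx (n + gL j) m) ϑ ∧
    ∃ a a2 : Tl, H a a2 ∧
      WP p (fun j => w.c (n + gL j) m) ϑ (tens p (w.by' n m) (et p a)) (tens p (w.by' n m) (et p a2))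

/-- Two ground-dead sites: the seed. -/
def SG (s : Tl) (w : Cfg p Tl) (n m : E) : Prop :=
  Dead p (w.mx n m) → Dead p (w.my n m) →
    w.c n m = tens p (w.bx n m) (tens p (w.by' n m) (et p s))

/-- All local rules at `(n, m)`. -/
def LR (H V : Tl → Tl → Prop) (s : Tl) (w : Cfg p Tl) (n m : E) : Prop :=
  RX p w n m ∧ RY p w n m ∧ TR p H V w n m ∧ GX p V w n m ∧ GY p H w n m ∧ SG p s w n m

/-- The rule that depends on `k` (`= n + 1`). -/
def ER (mk : Tl) (k : ℕ) (w : Cfg p Tl) (n m : E) : Prop :=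
  w.mx n m = tr p 1 → w.my n m = tr p 1 →
  (∀ i ≤ k, w.bx (n + ((p : ℤ) ^ i) • e 0) m = JN p (T p (e 0))) →
  w.by' n (m + e 0) = JN p (T p (e 0)) →
  w.c (n + ((p : ℤ) ^ k) • e 0) (m + e 0) =
    tens p (JN p (T p (e 0))) (tens p (JN p (T p (e 0))) (et p mk))

end tiles

end Pool.Agent.MB
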