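import Pool.Agent.MB.B12
import Pool.Agent.MB.Defs3

/-! MB B15: extension of linear relations. -/

set_option autoImplicit false

namespace Pool.Agent.MB

open PowerSeries Finset

variable (p : ℕ) [hpf : Fact p.Prime]

theorem T_add_e (n : E) (j : Fin 4) :
    T p (n + e j) = (((j : ℕ) + 1 : ℕ) : ZMod p) • T p (n + e 0) - ((j : ℕ) : ZMod p) • T p n := by
  have hU : ∀ i : Fin 4, ((U p i : Polynomial (ZMod p)) : P p) =
      1 + (((i : ℕ) + 1 : ℕ) : ZMod p) • (X : P p) := by
    intro i
    rw [U, Polynomial.coe_add, Polynomial.coe_mul, Polynomial.coe_C, Polynomial.coe_X,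
      Polynomial.coe_one, PowerSeries.smul_eq_C_mul]
  rw [T_add, T_add, T_e, T_e, hU, hU]
  simp only [Fin.val_zero, Nat.zero_add, Nat.cast_one, one_smul, Nat.cast_add, add_smul]
  simp only [mul_add, mul_one, mul_smul_comm, smul_add]
  abel

theorem Rel_T {V : Type*} [AddCommGroup V] [Module (ZMod p) V] (f : P p →ₗ[ZMod p] V) :
    Rel p (fun n => f (T p n)) := by
  intro n j
  show f (T p (n + e j)) = _
  rw [T_add_e, map_sub, map_smul, map_smul]

/-- the linear polynomial `(j+1) Z - j` -/
private noncomputable def b15_L (j : Fin 4) : Polynomial (ZMod p) :=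
  Polynomial.C (((j : ℕ) + 1 : ℕ) : ZMod p) * Polynomial.X - Polynomial.C ((j : ℕ) : ZMod p)

section

variable {V : Type*} [AddCommGroup V] [Module (ZMod p) V]

/-- evaluation `Z^i ↦ w (m + i e_0)` -/
private noncomputable def b15_ev (w : E → V) (m : E) : Polynomial (ZMod p) →ₗ[ZMod p] V where
  toFun q := q.sum fun i a => a • w (m + (i : ℤ) • e 0)
  map_add' q r := by
    refine Polynomial.sum_add_index q r _ (fun i => zero_smul _ _) (fun i a b => add_smul _ _ _)
  map_smul' a q := by
    rw [RingHom.id_apply, Polynomial.sum_smul_index q a (fun i a => a • w (m + (i : ℤ) • e 0))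
      (fun i => zero_smul _ _), Polynomial.sum, Polynomial.sum, Finset.smul_sum]
    exact Finset.sum_congr rfl fun i _ => mul_smul _ _ _

private theorem b15_ev_monomial (w : E → V) (m : E) (i : ℕ) :
    b15_ev p w m (Polynomial.monomial i 1) = w (m + (i : ℤ) • e 0) := by
  show (Polynomial.monomial i (1 : ZMod p)).sum (fun i a => a • w (m + (i : ℤ) • e 0)) = _
  rw [Polynomial.sum_monomial_index (S := V) (1 : ZMod p)
    (fun i a => a • w (m + (i : ℤ) • e 0)) (zero_smul _ _), one_smul]

private theorem b15_ev_mul_monomial (w : E → V) (hw : Rel p w) (m : E) (j : Fin 4) (i : ℕ) :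
    b15_ev p w m (b15_L p j * Polynomial.monomial i 1) =
      b15_ev p w (m + e j) (Polynomial.monomial i 1) := by
  have h1 : b15_L p j * Polynomial.monomial i 1 =
      (((j : ℕ) + 1 : ℕ) : ZMod p) • Polynomial.monomial (i + 1) (1 : ZMod p) -
        ((j : ℕ) : ZMod p) • Polynomial.monomial i (1 : ZMod p) := by
    rw [b15_L, sub_mul, mul_assoc, Polynomial.X_mul_monomial, Polynomial.smul_eq_C_mul,
      Polynomial.smul_eq_C_mul]
  have h2 := hw (m + (i : ℤ) • e 0) j
  have e1 : m + e j + (i : ℤ) • e 0 = m + (i : ℤ) • e 0 + e j := by abel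
  have e2 : m + ((i + 1 : ℕ) : ℤ) • e 0 = m + (i : ℤ) • e 0 + e 0 := by
    push_cast
    rw [add_smul, one_smul, add_assoc]
  rw [h1, LinearMap.map_sub, LinearMap.map_smul, LinearMap.map_smul, b15_ev_monomial,
    b15_ev_monomial, b15_ev_monomial, e1, e2]
  exact h2.symm

private theorem b15_ev_mul (w : E → V) (hw : Rel p w) (m : E) (j : Fin 4)
    (q : Polynomial (ZMod p)) : b15_ev p w m (b15_L p j * q) = b15_ev p w (m + e j) q := by
  induction q using Polynomial.induction_on' with
  | add f g hf hg => rw [mul_add, LinearMap.map_add, LinearMap.map_add, hf, hg]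
  | monomial i a =>
    have h1 : Polynomial.monomial i a = a • Polynomial.monomial i (1 : ZMod p) := by
      rw [Polynomial.smul_monomial, smul_eq_mul, mul_one]
    rw [h1, mul_smul_comm, LinearMap.map_smul, LinearMap.map_smul,
      b15_ev_mul_monomial p w hw m j i]

private theorem b15_ev_pow (w : E → V) (hw : Rel p w) (j : Fin 4) (k : ℕ) (m : E)
    (q : Polynomial (ZMod p)) :
    b15_ev p w m (b15_L p j ^ k * q) = b15_ev p w (m + (k : ℤ) • e j) q := by
  induction k generalizing m with
  | zero => rw [pow_zero, one_mul, Nat.cast_zero, zero_smul, add_zero]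
  | succ k ih =>
    have h1 : m + e j + (k : ℤ) • e j = m + ((k + 1 : ℕ) : ℤ) • e j := by
      push_cast
      rw [add_smul, one_smul]
      abel
    rw [pow_succ', mul_assoc, b15_ev_mul p w hw, ih, h1]

private theorem b15_ev_prod (w : E → V) (hw : Rel p w) (m : E) (k : Fin 4 → ℕ) :
    b15_ev p w m (∏ j, b15_L p j ^ k j) = w (m + fun j => (k j : ℤ)) := by
  have h1 : ∏ j, b15_L p j ^ k j = b15_L p 0 ^ k 0 * (b15_L p 1 ^ k 1 * (b15_L p 2 ^ k 2 *
      (b15_L p 3 ^ k 3 * Polynomial.monomial 0 1))) := by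
    rw [Fin.prod_univ_four, Polynomial.monomial_zero_one]
    ring
  rw [h1, b15_ev_pow p w hw, b15_ev_pow p w hw, b15_ev_pow p w hw, b15_ev_pow p w hw,
    b15_ev_monomial]
  congr 1
  funext j
  simp only [e, Pi.add_apply, Pi.smul_apply]
  fin_cases j <;> simp

/-- substitution `Z ↦ 1 + X` -/
private noncomputable def b15_phi : Polynomial (ZMod p) →ₐ[ZMod p] P p :=
  Polynomial.aeval (1 + X : P p)

private theorem b15_phi_L (j : Fin 4) : b15_phi p (b15_L p j) = ((U p j : Polynomial (ZMod p)) : P p) := by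
  unfold b15_phi b15_L U
  rw [map_sub, map_mul, Polynomial.aeval_C, Polynomial.aeval_C, Polynomial.aeval_X,
    Polynomial.coe_add, Polynomial.coe_mul, Polynomial.coe_C, Polynomial.coe_X,
    Polynomial.coe_one, PowerSeries.algebraMap_apply, PowerSeries.algebraMap_apply]
  simp only [Algebra.algebraMap_self, RingHom.id_apply, Nat.cast_add, Nat.cast_one, map_add,
    map_one]
  ring

private theorem b15_phi_taylor (q : Polynomial (ZMod p)) :
    b15_phi p q = ((Polynomial.taylor 1 q : Polynomial (ZMod p)) : P p) := by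
  induction q using Polynomial.induction_on' with
  | add f g hf hg => rw [map_add, map_add, Polynomial.coe_add, hf, hg]
  | monomial n a =>
    unfold b15_phi
    rw [Polynomial.taylor_monomial, Polynomial.aeval_monomial, Polynomial.coe_mul,
      Polynomial.coe_pow, Polynomial.coe_add, Polynomial.coe_X, Polynomial.coe_C,
      Polynomial.coe_C, map_one, add_comm (X : P p)]
    rfl

private theorem b15_phi_inj (q : Polynomial (ZMod p)) (h : b15_phi p q = 0) : q = 0 := by
  rw [b15_phi_taylor] at h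
  have h2 : (Polynomial.taylor 1 q : Polynomial (ZMod p)) = 0 := by
    apply Polynomial.coe_injective (ZMod p)
    rw [h, Polynomial.coe_zero]
  exact (Polynomial.taylor_injective 1) (by rw [h2, map_zero])

private theorem b15_ker (w : E → V) (hw : Rel p w) (a : E →₀ ZMod p)
    (ha : a.sum (fun n c => c • T p n) = 0) : a.sum (fun n c => c • w n) = 0 := by
  classical
  -- a common shift
  obtain ⟨N, hN⟩ : ∃ N : ℕ, ∀ n ∈ a.support, ∀ j, 0 ≤ n j + (N : ℤ) := by
    refine ⟨∑ n ∈ a.support, ∑ j, (n j).natAbs, fun n hn j => ?_⟩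
    have h1 : (n j).natAbs ≤ ∑ j, (n j).natAbs :=
      Finset.single_le_sum (f := fun j => (n j).natAbs) (fun _ _ => Nat.zero_le _)
        (Finset.mem_univ j)
    have h2 : ∑ j, (n j).natAbs ≤ ∑ n ∈ a.support, ∑ j, (n j).natAbs :=
      Finset.single_le_sum (f := fun n : E => ∑ j, (n j).natAbs) (fun _ _ => Nat.zero_le _) hn
    omega
  set M : E := fun _ => (N : ℤ) with hM
  set k : E → Fin 4 → ℕ := fun n j => (n j + (N : ℤ)).toNat with hk
  have hkM : ∀ n ∈ a.support, (fun j => ((k n j : ℕ) : ℤ)) = n + M := by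
    intro n hn
    funext j
    simp only [hk, hM, Pi.add_apply]
    exact Int.toNat_of_nonneg (hN n hn j)
  set Pol : Polynomial (ZMod p) := a.sum (fun n c => c • ∏ j, b15_L p j ^ k n j) with hPol
  have hphi : b15_phi p Pol = 0 := by
    have h1 : b15_phi p Pol = T p M * a.sum (fun n c => c • T p n) := by
      rw [hPol, Finsupp.sum, Finsupp.sum, map_sum, Finset.mul_sum]
      refine Finset.sum_congr rfl fun n hn => ?_
      rw [map_smul, map_prod]
      have h2 : ∏ j, b15_phi p (b15_L p j ^ k n j) = T p (n + M) := by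
        rw [← hkM n hn, T_nonneg, ← Polynomial.coeToPowerSeries.ringHom_apply, map_prod]
        refine Finset.prod_congr rfl fun j _ => ?_
        rw [map_pow, b15_phi_L, map_pow, Polynomial.coeToPowerSeries.ringHom_apply]
      rw [h2, T_add, mul_smul_comm, mul_comm (T p n)]
    rw [h1, ha, mul_zero]
  have hz := b15_phi_inj p Pol hphi
  have h3 : b15_ev p w (-M) Pol = a.sum (fun n c => c • w n) := by
    rw [hPol, Finsupp.sum, Finsupp.sum, map_sum]
    refine Finset.sum_congr rfl fun n hn => ?_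
    rw [map_smul, b15_ev_prod p w hw, hkM n hn]
    congr 2
    abel
  rw [← h3, hz, map_zero]

/-- extension to the span of the units -/
theorem ext1 {V : Type*} [AddCommGroup V] [Module (ZMod p) V] (w : E → V) (hw : Rel p w) :
    ∃ f : P p →ₗ[ZMod p] V, ∀ n, f (T p n) = w n := by
  classical
  set Φ : (E →₀ ZMod p) →ₗ[ZMod p] P p := Finsupp.linearCombination (ZMod p) (T p) with hΦ
  set Ψ : (E →₀ ZMod p) →ₗ[ZMod p] V := Finsupp.linearCombination (ZMod p) w with hΨ
  have hker : ∀ a, Φ a = 0 → Ψ a = 0 := fun a ha => b15_ker p w hw a ha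
  obtain ⟨g, hg⟩ := Φ.rangeRestrict.exists_rightInverse_of_surjective
    (LinearMap.range_rangeRestrict Φ)
  obtain ⟨f, hf⟩ := LinearMap.exists_extend (Ψ.comp g)
  refine ⟨f, fun n => ?_⟩
  have h1 : Φ (Finsupp.single n 1) = T p n := by
    rw [hΦ, Finsupp.linearCombination_single, one_smul]
  have h2 : Ψ (Finsupp.single n 1) = w n := by
    rw [hΨ, Finsupp.linearCombination_single, one_smul]
  set y : LinearMap.range Φ := Φ.rangeRestrict (Finsupp.single n 1) with hy
  have hy1 : (y : P p) = T p n := h1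
  have h3 : f (y : P p) = Ψ (g y) := congrArg (fun F => F y) hf
  have h4 : Φ (g y) = y := congrArg Subtype.val (congrArg (fun F => F y) hg)
  have h5 : Φ (g y - Finsupp.single n 1) = 0 := by
    rw [map_sub, h4, h1, hy1, sub_self]
  have h6 := hker _ h5
  rw [map_sub, sub_eq_zero] at h6
  rw [← hy1, h3, h6, h2]

theorem ext2 {V : Type*} [AddCommGroup V] [Module (ZMod p) V] (w : E → E → V) (hw : Rel2 p w) :
    ∃ F : P p →ₗ[ZMod p] (A p →ₗ[ZMod p] V), ∀ n m, F (T p n) ⟨T p m, T_mem_A p m⟩ = w n m := by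
  have h1 : ∀ n, ∃ g : P p →ₗ[ZMod p] V, ∀ m, g (T p m) = w n m := fun n => ext1 p (w n) (hw.2 n)
  choose g hg using h1
  have hrel : Rel p (fun n => (g n).domRestrict (A p)) := by
    intro n j
    apply LinearMap.ext
    rintro ⟨x, hx⟩
    show g (n + e j) x = ((((j : ℕ) + 1 : ℕ) : ZMod p) • g (n + e 0) - ((j : ℕ) : ZMod p) • g n) x
    refine LinearMap.eqOn_span (s := Set.range (T p)) ?_ hx
    rintro _ ⟨m, rfl⟩
    rw [LinearMap.sub_apply, LinearMap.smul_apply, LinearMap.smul_apply, hg, hg, hg]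
    exact hw.1 m n j
  obtain ⟨F, hF⟩ := ext1 p _ hrel
  refine ⟨F, fun n m => ?_⟩
  rw [hF]
  exact hg n m

end

end Pool.Agent.MB
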