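import Pool.Agent.MB.B2a

/-! MB B16a: iterating the Cartier operator on the span of the units ends in `L`. -/

set_option autoImplicit false

namespace Pool.Agent.MB

open PowerSeries Finset

variable (p : ℕ) [hpf : Fact p.Prime]

private lemma b16a_U_natDegree (j : Fin 4) : (U p j).natDegree ≤ 1 := by
  unfold U
  refine (Polynomial.natDegree_add_le _ _).trans ?_
  simp only [Polynomial.natDegree_one, zero_le, sup_of_le_right]
  exact (Polynomial.natDegree_C_mul_le _ _).trans (Polynomial.natDegree_X_le)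

private lemma b16a_Q_natDegree : (Q p).natDegree ≤ 3 := by
  unfold Q
  have h1 := Polynomial.natDegree_mul_le (p := U p 1 * U p 2) (q := U p 3)
  have h2 := Polynomial.natDegree_mul_le (p := U p 1) (q := U p 2)
  have h3 := b16a_U_natDegree p 1
  have h4 := b16a_U_natDegree p 2
  have h5 := b16a_U_natDegree p 3
  omega

private lemma b16a_U0 : U p 0 = Polynomial.X + Polynomial.C 1 := by
  unfold U
  simp [add_comm]

private lemma b16a_PI : PI p = U p 0 * Q p := by
  unfold PI Q
  ring

private lemma b16a_isUnit_PI : IsUnit ((PI p : Polynomial (ZMod p)) : P p) := by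
  unfold PI
  rw [Polynomial.coe_mul, Polynomial.coe_mul, Polynomial.coe_mul]
  exact (((isUnit_U p 0).mul (isUnit_U p 1)).mul (isUnit_U p 2)).mul (isUnit_U p 3)

/-- every element of `A` has a power of `PI` as denominator -/
private lemma b16a_denom {f : P p} (hf : f ∈ A p) :
    ∃ (c : ℕ) (q : Polynomial (ZMod p)), ((PI p : Polynomial (ZMod p)) : P p) ^ c * f = q := by
  unfold A at hf
  induction hf using Submodule.span_induction with
  | mem x hx =>
    obtain ⟨n, rfl⟩ := hx
    set c : ℕ := ∑ j, (n j).natAbs with hc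
    have hPI : ((PI p : Polynomial (ZMod p)) : P p) = T p (fun _ => ((1 : ℕ) : ℤ)) := by
      rw [T_nonneg, Fin.prod_univ_four]
      unfold PI
      simp
    have hle : ∀ j, 0 ≤ (c : ℤ) + n j := by
      intro j
      have h1 : (n j).natAbs ≤ c := Finset.single_le_sum (f := fun j => (n j).natAbs) (fun _ _ => Nat.zero_le _) (Finset.mem_univ j)
      omega
    refine ⟨c, ∏ j, U p j ^ ((c : ℤ) + n j).toNat, ?_⟩
    rw [hPI, ← T_nsmul, ← T_add, ← T_nonneg]
    congr 1
    funext j
    rw [Int.toNat_of_nonneg (hle j)]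
    simp
  | zero => exact ⟨0, 0, by simp⟩
  | add x y _ _ hx hy =>
    obtain ⟨c, q, hq⟩ := hx
    obtain ⟨c', q', hq'⟩ := hy
    refine ⟨c + c', PI p ^ c' * q + PI p ^ c * q', ?_⟩
    rw [Polynomial.coe_add, Polynomial.coe_mul, Polynomial.coe_mul, Polynomial.coe_pow,
      Polynomial.coe_pow, ← hq, ← hq']
    ring
  | smul a x _ hx =>
    obtain ⟨c, q, hq⟩ := hx
    exact ⟨c, a • q, by rw [mul_smul_comm, hq, Polynomial.coe_smul]⟩

/-- the exponent of the denominator goes down to one -/
private lemma b16a_one (hp : 5 ≤ p) (c : ℕ) : ∀ (f : P p) (q : Polynomial (ZMod p)),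
    ((PI p : Polynomial (ZMod p)) : P p) ^ c * f = q →
    ∃ (r : ℕ) (q' : Polynomial (ZMod p)), ((PI p : Polynomial (ZMod p)) : P p) * (cart p)^[r] f = q' := by
  induction c using Nat.strong_induction_on with
  | _ c ih =>
    intro f q hq
    by_cases hc : c ≤ 1
    · refine ⟨0, PI p ^ (1 - c) * q, ?_⟩
      rw [Polynomial.coe_mul, Polynomial.coe_pow, ← hq, ← mul_assoc, ← pow_add,
        Nat.sub_add_cancel hc, pow_one]
      rfl
    · push Not at hc
      set c' : ℕ := (c + p - 1) / p with hc'
      have h1 : c ≤ p * c' := by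
        have h3 := Nat.div_add_mod (c + p - 1) p
        have h4 := Nat.mod_lt (c + p - 1) (show 0 < p by omega)
        rw [← hc'] at h3
        omega
      have h2 : c' < c := by
        rw [hc', Nat.div_lt_iff_lt_mul (by omega)]
        have h6 : c + p < c * p + 1 := by nlinarith
        omega
      obtain ⟨g, hg, -, -⟩ := cart_poly p (by omega) (PI p ^ (p * c' - c) * q)
      have h5 : ((PI p : Polynomial (ZMod p)) : P p) ^ c' * cart p f = g := by
        rw [← hg, Polynomial.coe_mul, Polynomial.coe_pow, ← hq, ← cart_pow_mul, ← mul_assoc,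
          ← pow_add, Nat.sub_add_cancel h1, ← pow_mul, mul_comm c' p]
      obtain ⟨r, q', hr⟩ := ih c' h2 (cart p f) g h5
      exact ⟨r + 1, q', by rw [Function.iterate_succ_apply]; exact hr⟩

/-- the pole at the root of `u_0` disappears -/
private lemma b16a_Q (hp : 5 ≤ p) (f : P p) (q : Polynomial (ZMod p))
    (h : ((PI p : Polynomial (ZMod p)) : P p) * f = q) :
    ∃ q' : Polynomial (ZMod p), ((Q p : Polynomial (ZMod p)) : P p) * cart p f = q' := by
  obtain ⟨g, hg, -, h1⟩ := cart_poly p (by omega) (PI p ^ (p - 1) * q)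
  have h2 : ((PI p : Polynomial (ZMod p)) : P p) * cart p f = g := by
    rw [← hg, Polynomial.coe_mul, Polynomial.coe_pow, ← h, ← cart_pow_mul, ← mul_assoc,
      ← pow_succ, Nat.sub_add_cancel (by omega)]
  have h3 : (PI p).eval (-1) = 0 := by
    rw [b16a_PI, b16a_U0]
    simp
  have h4 : g.eval (-1) = 0 := by
    rw [h1, Polynomial.eval_mul, Polynomial.eval_pow, h3, zero_pow (by omega), zero_mul]
  obtain ⟨g', hg'⟩ := (Polynomial.dvd_iff_isRoot.mpr h4 : (Polynomial.X - Polynomial.C (-1)) ∣ g)
  refine ⟨g', ?_⟩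
  have h5 : (Polynomial.X - Polynomial.C (-1) : Polynomial (ZMod p)) = U p 0 := by
    rw [b16a_U0, Polynomial.C_neg, sub_neg_eq_add]
  rw [h5] at hg'
  refine (isUnit_U p 0).mul_left_cancel ?_
  rw [← mul_assoc, ← Polynomial.coe_mul, ← b16a_PI, h2, hg', Polynomial.coe_mul]

/-- the degree goes down to three -/
private lemma b16a_deg (hp : 5 ≤ p) (n : ℕ) : ∀ (f : P p) (q : Polynomial (ZMod p)),
    q.natDegree ≤ n → ((Q p : Polynomial (ZMod p)) : P p) * f = q → ∃ r, (cart p)^[r] f ∈ L p := by
  induction n using Nat.strong_induction_on with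
  | _ n ih =>
    intro f q hn hq
    by_cases h3 : n ≤ 3
    · exact ⟨0, q, hn.trans h3, hq⟩
    · push Not at h3
      obtain ⟨g, hg, hd, -⟩ := cart_poly p (by omega) (Q p ^ (p - 1) * q)
      have h5 : ((Q p : Polynomial (ZMod p)) : P p) * cart p f = g := by
        rw [← hg, Polynomial.coe_mul, Polynomial.coe_pow, ← hq, ← cart_pow_mul, ← mul_assoc,
          ← pow_succ, Nat.sub_add_cancel (by omega)]
      have h6 : (Q p ^ (p - 1) * q).natDegree ≤ (p - 1) * 3 + n := by
        refine Polynomial.natDegree_mul_le.trans ?_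
        refine Nat.add_le_add (Polynomial.natDegree_pow_le.trans ?_) hn
        exact Nat.mul_le_mul_left _ (b16a_Q_natDegree p)
      have h7 : g.natDegree ≤ n - 1 := by
        refine hd.trans ?_
        rw [Nat.div_le_iff_le_mul_add_pred (by omega)]
        refine h6.trans ?_
        obtain ⟨m, rfl⟩ : ∃ m, n = m + 4 := ⟨n - 4, by omega⟩
        have h8 : m + 4 - 1 = m + 3 := by omega
        rw [h8]
        obtain ⟨k, rfl⟩ : ∃ k, p = k + 5 := ⟨p - 5, by omega⟩
        have h9 : k + 5 - 1 = k + 4 := by omega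
        rw [h9]
        nlinarith
      obtain ⟨r, hr⟩ := ih (n - 1) (by omega) (cart p f) g h7 h5
      exact ⟨r + 1, by rw [Function.iterate_succ_apply]; exact hr⟩

/-- every element of `A` ends in `L` under the Cartier operator -/
theorem exists_stab (hp : 5 ≤ p) {f : P p} (hf : f ∈ A p) : ∃ r, (cart p)^[r] f ∈ L p := by
  obtain ⟨c, q, hq⟩ := b16a_denom p hf
  obtain ⟨r, q1, h1⟩ := b16a_one p hp c f q hq
  obtain ⟨q2, h2⟩ := b16a_Q p hp _ q1 h1
  obtain ⟨s, hs⟩ := b16a_deg p hp q2.natDegree _ q2 le_rfl h2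
  refine ⟨s + (r + 1), ?_⟩
  rw [Function.iterate_add_apply, Function.iterate_succ_apply']
  exact hs

end Pool.Agent.MB
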