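import Pool.Agent.MB.B2a

/-! MB B2b: the space `L`. -/

set_option autoImplicit false

namespace Pool.Agent.MB

open PowerSeries Finset

variable (p : ℕ) [hpf : Fact p.Prime]

private theorem b2_U_eq (j : Fin 4) : U p j = Polynomial.C (((j : ℕ) + 1 : ℕ) : ZMod p) * Polynomial.X
    + Polynomial.C 1 := by
  unfold U; rw [add_comm]; simp

private theorem b2_natDegree_U (j : Fin 4) : (U p j).natDegree ≤ 1 := by
  rw [b2_U_eq]; exact Polynomial.natDegree_linear_le

private theorem b2_natDegree_Q : (Q p).natDegree ≤ 3 := by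
  unfold Q
  refine Polynomial.natDegree_mul_le.trans ?_
  have h1 := Polynomial.natDegree_mul_le (p := U p 1) (q := U p 2)
  have := b2_natDegree_U p 1
  have := b2_natDegree_U p 2
  have := b2_natDegree_U p 3
  omega

private theorem b2_coe_ne_zero {f : Polynomial (ZMod p)} (h : f.coeff 0 = 1) : ((f : Polynomial (ZMod p)) : P p) ≠ 0 := by
  intro h0
  have := congrArg (PowerSeries.coeff 0) h0
  rw [Polynomial.coeff_coe, h] at this
  simp at this

private theorem b2_U_coeff_zero (j : Fin 4) : (U p j).coeff 0 = 1 := by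
  simp [U]

private theorem b2_Q_ne_zero : ((Q p : Polynomial (ZMod p)) : P p) ≠ 0 := by
  apply b2_coe_ne_zero
  rw [Polynomial.coeff_zero_eq_eval_zero]
  simp [Q, U]

private theorem b2_U_ne_zero (j : Fin 4) : ((U p j : Polynomial (ZMod p)) : P p) ≠ 0 :=
  b2_coe_ne_zero p (b2_U_coeff_zero p j)

private theorem b2_U_mul (j : Fin 4) : ((U p j : Polynomial (ZMod p)) : P p) * T p (-e j) = 1 := by
  rw [← T_e, T_mul_neg]

theorem one_mem_L : (1 : P p) ∈ L p :=
  ⟨Q p, b2_natDegree_Q p, by rw [mul_one]⟩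

private theorem b2_natDegree_UU (i j : Fin 4) : (U p i * U p j).natDegree ≤ 3 := by
  have h1 := Polynomial.natDegree_mul_le (p := U p i) (q := U p j)
  have := b2_natDegree_U p i
  have := b2_natDegree_U p j
  omega

private theorem b2_Q_mul_one : ((Q p : Polynomial (ZMod p)) : P p) * T p (-e 1) =
    ((U p 2 * U p 3 : Polynomial (ZMod p)) : P p) := by
  unfold Q
  simp only [Polynomial.coe_mul]
  linear_combination ((U p 2 : Polynomial (ZMod p)) : P p) * ((U p 3 : Polynomial (ZMod p)) : P p) * b2_U_mul p 1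

private theorem b2_Q_mul_two : ((Q p : Polynomial (ZMod p)) : P p) * T p (-e 2) =
    ((U p 1 * U p 3 : Polynomial (ZMod p)) : P p) := by
  unfold Q
  simp only [Polynomial.coe_mul]
  linear_combination ((U p 1 : Polynomial (ZMod p)) : P p) * ((U p 3 : Polynomial (ZMod p)) : P p) * b2_U_mul p 2

private theorem b2_Q_mul_three : ((Q p : Polynomial (ZMod p)) : P p) * T p (-e 3) =
    ((U p 1 * U p 2 : Polynomial (ZMod p)) : P p) := by
  unfold Q
  simp only [Polynomial.coe_mul]
  linear_combination ((U p 1 : Polynomial (ZMod p)) : P p) * ((U p 2 : Polynomial (ZMod p)) : P p) * b2_U_mul p 3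

private theorem b2_cast_ne_zero {n : ℕ} (hn : 0 < n) (h : n < p) : (n : ZMod p) ≠ 0 := by
  intro h0
  rw [ZMod.natCast_eq_zero_iff] at h0
  exact absurd (Nat.le_of_dvd hn h0) (by omega)

/-- Partial fractions. -/
private theorem b2_partial (hp : 5 ≤ p) (q : Polynomial (ZMod p)) (hq : q.natDegree ≤ 3) :
    ∃ a b c d : ZMod p, q = Polynomial.C a * Q p + Polynomial.C b * (U p 2 * U p 3) +
      Polynomial.C c * (U p 1 * U p 3) + Polynomial.C d * (U p 1 * U p 2) := by
  have h2 : (2 : ZMod p) ≠ 0 := by exact_mod_cast b2_cast_ne_zero p (n := 2) (by norm_num) (by omega)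
  have h3 : (3 : ZMod p) ≠ 0 := by exact_mod_cast b2_cast_ne_zero p (n := 3) (by norm_num) (by omega)
  have h24 : (24 : ZMod p) ≠ 0 := by
    have : (24 : ZMod p) = 2 * 2 * 2 * 3 := by norm_num
    rw [this]
    exact mul_ne_zero (mul_ne_zero (mul_ne_zero h2 h2) h2) h3
  obtain ⟨q0, q1, q2, q3, rfl⟩ : ∃ q0 q1 q2 q3 : ZMod p, q = Polynomial.C q0 + Polynomial.C q1 * Polynomial.X +
      Polynomial.C q2 * Polynomial.X ^ 2 + Polynomial.C q3 * Polynomial.X ^ 3 := by
    refine ⟨q.coeff 0, q.coeff 1, q.coeff 2, q.coeff 3, ?_⟩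
    conv_lhs => rw [q.as_sum_range' 4 (by omega)]
    simp only [Finset.sum_range_succ, Finset.sum_range_zero, ← Polynomial.C_mul_X_pow_eq_monomial]
    simp
  obtain ⟨a, ha⟩ : ∃ a : ZMod p, 24 * a = q3 := ⟨q3 / 24, by field_simp⟩
  obtain ⟨i, hi⟩ : ∃ i : ZMod p, 2 * i = 1 := ⟨1 / 2, by field_simp⟩
  have hiC : (2 : Polynomial (ZMod p)) * Polynomial.C i = 1 := by
    have := congrArg (Polynomial.C) hi
    rw [map_mul, map_one, map_ofNat] at this
    exact this
  have haC : (24 : Polynomial (ZMod p)) * Polynomial.C a = Polynomial.C q3 := by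
    have := congrArg (Polynomial.C) ha
    rw [map_mul, map_ofNat] at this
    exact this
  -- r0 = q0 - a, r1 = q1 - 9 a, r2 = q2 - 26 a
  refine ⟨a, ((q2 - 26 * a) - 2 * (q1 - 9 * a) + 4 * (q0 - a)) * i,
    3 * (q1 - 9 * a) - 9 * (q0 - a) - (q2 - 26 * a),
    8 * (q0 - a) - 2 * (q1 - 9 * a) + (q2 - 26 * a) * i, ?_⟩
  unfold Q U
  have e3 : ((3 : Fin 4) : ℕ) = 3 := rfl
  have e2 : ((2 : Fin 4) : ℕ) = 2 := rfl
  have e1 : ((1 : Fin 4) : ℕ) = 1 := rfl
  rw [e3, e2, e1]
  push_cast
  simp only [map_add, map_sub, map_mul, map_ofNat]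
  generalize Polynomial.C i = I at *
  generalize Polynomial.C a = A at *
  generalize Polynomial.C q0 = Q0 at *
  generalize Polynomial.C q1 = Q1 at *
  generalize Polynomial.C q2 = Q2 at *
  generalize Polynomial.C q3 = Q3 at *
  generalize (Polynomial.X : Polynomial (ZMod p)) = Y at *
  subst haC
  linear_combination (-((Q2 - 26 * A) * (1 + 6 * Y + 9 * Y ^ 2) +
    (2 * (Q0 - A) - (Q1 - 9 * A)) * (1 + 7 * Y + 12 * Y ^ 2))) * hiC

theorem mem_L_iff (hp : 5 ≤ p) (g : P p) : g ∈ L p ↔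
    g ∈ Submodule.span (ZMod p) ({1, T p (-e 1), T p (-e 2), T p (-e 3)} : Set (P p)) := by
  constructor
  · rintro ⟨q, hq, h⟩
    obtain ⟨a, b, c, d, rfl⟩ := b2_partial p hp q hq
    have hg : g = a • (1 : P p) + b • T p (-e 1) + c • T p (-e 2) + d • T p (-e 3) := by
      apply mul_left_cancel₀ (b2_Q_ne_zero p)
      rw [h]
      simp only [mul_add, mul_smul_comm, b2_Q_mul_one, b2_Q_mul_two, b2_Q_mul_three, mul_one]
      simp only [Polynomial.coe_add, Polynomial.coe_mul, Polynomial.coe_C,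
        PowerSeries.smul_eq_C_mul]
    rw [hg]
    refine Submodule.add_mem _ (Submodule.add_mem _ (Submodule.add_mem _ ?_ ?_) ?_) ?_ <;>
    · refine Submodule.smul_mem _ _ (Submodule.subset_span ?_)
      simp
  · intro h
    refine (Submodule.span_le.2 ?_ : Submodule.span (ZMod p) _ ≤ L p) h
    intro x hx
    simp only [Set.mem_insert_iff, Set.mem_singleton_iff] at hx
    rcases hx with rfl | rfl | rfl | rfl
    · exact one_mem_L p
    · exact ⟨_, b2_natDegree_UU p 2 3, b2_Q_mul_one p⟩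
    · exact ⟨_, b2_natDegree_UU p 1 3, b2_Q_mul_two p⟩
    · exact ⟨_, b2_natDegree_UU p 1 2, b2_Q_mul_three p⟩

private theorem b2_cart_T_neg (hp : 5 ≤ p) (j : Fin 4) (hj : (j : ℕ) ≠ 0) : cart p (T p (-e j)) = T p (-e j) := by
  have h1 : T p (-e j) = T p ((p : ℤ) • (-e j)) * T p ((p - 1 : ℕ) • e j) := by
    rw [← T_add]
    congr 1
    funext i
    rw [← natCast_zsmul (e j) (p - 1), Nat.cast_sub (by omega)]
    simp only [Pi.neg_apply, Pi.add_apply, Pi.smul_apply, smul_eq_mul]
    push_cast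
    ring
  rw [h1, cart_T_psmul_mul, T_nsmul, T_e]
  have h2 : (((U p j : Polynomial (ZMod p)) : P p)) ^ (p - 1) = ((U p j ^ (p - 1) : Polynomial (ZMod p)) : P p) := by
    simp
  rw [h2, cart_small]
  · have h3 : (U p j ^ (p - 1)).eval (-1) = 1 := by
      rw [Polynomial.eval_pow]
      apply ZMod.pow_card_sub_one_eq_one
      have : (U p j).eval (-1) = -((j : ℕ) : ZMod p) := by
        simp [U]
      rw [this, neg_ne_zero]
      exact b2_cast_ne_zero p (by omega) (by have := j.2; omega)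
    rw [h3]
    simp only [map_one, mul_one]
    rw [← h2, ← T_e, ← T_nsmul, ← h1]
  · refine (Polynomial.natDegree_pow_le).trans_lt ?_
    have := b2_natDegree_U p j
    have : (p - 1) * (U p j).natDegree ≤ (p - 1) * 1 := Nat.mul_le_mul_left _ this
    omega

theorem cart_L (hp : 5 ≤ p) {g : P p} (hg : g ∈ L p) : cart p g = g := by
  rw [mem_L_iff p hp] at hg
  refine Submodule.span_induction (p := fun g _ => cart p g = g) ?_ (map_zero _) ?_ ?_ hg
  · intro x hx
    simp only [Set.mem_insert_iff, Set.mem_singleton_iff] at hx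
    rcases hx with rfl | rfl | rfl | rfl
    · exact cart_one p
    · exact b2_cart_T_neg p hp 1 (by decide)
    · exact b2_cart_T_neg p hp 2 (by decide)
    · exact b2_cart_T_neg p hp 3 (by decide)
  · intro x y _ _ hx hy
    rw [map_add, hx, hy]
  · intro a x _ hx
    rw [map_smul, hx]

private theorem b2_cart_UQ (k : ℕ) (hk : 1 ≤ k) (hk2 : k + 3 < p) {g : P p} (hg : g ∈ L p) :
    cart p (((U p 0 ^ k * Q p : Polynomial (ZMod p)) : P p) * g) = 0 := by
  obtain ⟨q, hq, h⟩ := hg
  have h1 : ((U p 0 ^ k * Q p : Polynomial (ZMod p)) : P p) * g = ((U p 0 ^ k * q : Polynomial (ZMod p)) : P p) := by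
    rw [Polynomial.coe_mul, mul_assoc, h, Polynomial.coe_mul]
  rw [h1, cart_small]
  · have : (U p 0 ^ k * q).eval (-1) = 0 := by
      rw [Polynomial.eval_mul, Polynomial.eval_pow]
      have : (U p 0).eval (-1) = 0 := by simp [U]
      rw [this, zero_pow (by omega), zero_mul]
    rw [this, map_zero]
  · refine Polynomial.natDegree_mul_le.trans_lt ?_
    have h2 := Polynomial.natDegree_pow_le (p := U p 0) (n := k)
    have h3 : k * (U p 0).natDegree ≤ k * 1 := Nat.mul_le_mul_left _ (b2_natDegree_U p 0)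
    omega

theorem J_L (hp : 5 ≤ p) {g : P p} (hg : g ∈ L p) (j : ℕ) (hj : j < p - 4) : J p j g = 0 := by
  have := b2_cart_UQ p (1 + j) (by omega) (by omega) hg
  simpa [J, mul_assoc] using this

theorem JN_L (hp : 5 ≤ p) {g : P p} (hg : g ∈ L p) (h : P p) : JN p (h ^ p * g) = 0 := by
  funext a
  show PowerSeries.coeff (a.2 : ℕ) (J p a.1 (h ^ p * g)) = 0
  rw [J_pow_mul, J_L p hp hg _ a.1.2, mul_zero, map_zero]

theorem cart_xQ_L (hp : 5 ≤ p) {g : P p} (hg : g ∈ L p) :
    cart p (((U p 0 * Q p : Polynomial (ZMod p)) : P p) * g) = 0 := by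
  have := b2_cart_UQ p 1 le_rfl (by omega) hg
  rwa [pow_one] at this

theorem L_finrank : Module.finrank (ZMod p) (L p) = 4 := by
  obtain ⟨u, hu⟩ : ∃ u : P p, ((Q p : Polynomial (ZMod p)) : P p) * u = 1 := by
    refine ⟨T p (-e 1) * T p (-e 2) * T p (-e 3), ?_⟩
    unfold Q
    simp only [Polynomial.coe_mul]
    linear_combination (((U p 2 : Polynomial (ZMod p)) : P p) * T p (-e 2)) *
      (((U p 3 : Polynomial (ZMod p)) : P p) * T p (-e 3)) * b2_U_mul p 1 +
      (((U p 3 : Polynomial (ZMod p)) : P p) * T p (-e 3)) * b2_U_mul p 2 + b2_U_mul p 3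
  let F : Polynomial (ZMod p) →ₗ[ZMod p] P p :=
      { toFun := fun q => u * (q : P p)
        map_add' := fun a b => by rw [Polynomial.coe_add, mul_add]
        map_smul' := fun a b => by
          rw [RingHom.id_apply, Polynomial.coe_smul, mul_smul_comm] }
  have hF : ∀ q, F q = u * (q : P p) := fun q => rfl
  have hFi : Function.Injective F := by
    intro a b hab
    rw [hF, hF] at hab
    have := congrArg (fun z => ((Q p : Polynomial (ZMod p)) : P p) * z) hab
    simp only [← mul_assoc, hu, one_mul] at this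
    exact Polynomial.coe_injective _ this
  have hL : L p = (Polynomial.degreeLT (ZMod p) 4).map F := by
    ext g
    rw [Submodule.mem_map]
    constructor
    · rintro ⟨q, hq, h⟩
      refine ⟨q, ?_, ?_⟩
      · rw [Polynomial.mem_degreeLT]
        exact (Polynomial.degree_le_natDegree).trans_lt (by exact_mod_cast (by omega : q.natDegree < 4))
      · rw [hF, ← h, ← mul_assoc, mul_comm u, hu, one_mul]
    · rintro ⟨q, hq, rfl⟩
      refine ⟨q, ?_, ?_⟩
      · rw [Polynomial.mem_degreeLT] at hq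
        by_cases h0 : q = 0
        · subst h0; simp
        · have := (Polynomial.natDegree_lt_iff_degree_lt h0).2 (by exact_mod_cast hq : q.degree < (4 : ℕ))
          omega
      · rw [hF, ← mul_assoc, hu, one_mul]
  rw [hL, ← (Submodule.equivMapOfInjective F hFi (Polynomial.degreeLT (ZMod p) 4)).finrank_eq,
    (Polynomial.degreeLTEquiv (ZMod p) 4).finrank_eq]
  simp

theorem th_mul_L (l : ℕ) (g : P p) : g ∈ L p ↔ ∃ q : Polynomial (ZMod p), q.natDegree ≤ 3 ∧
    T p (th l) * g = ((U p 1 ^ l * q : Polynomial (ZMod p)) : P p) := by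
  rw [T_th]
  have hU : ((U p 1 ^ l : Polynomial (ZMod p)) : P p) ≠ 0 := by
    rw [Polynomial.coe_pow]
    exact pow_ne_zero _ (b2_U_ne_zero p 1)
  constructor
  · rintro ⟨q, hq, h⟩
    exact ⟨q, hq, by rw [Polynomial.coe_mul, mul_assoc, h, Polynomial.coe_mul]⟩
  · rintro ⟨q, hq, h⟩
    refine ⟨q, hq, ?_⟩
    rw [Polynomial.coe_mul, mul_assoc, Polynomial.coe_mul] at h
    exact mul_left_cancel₀ hU h

end Pool.Agent.MB
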