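import Pool.Agent.MB.B12
import Pool.Agent.MB.B2b
import Pool.Agent.MB.B16a
import Pool.Agent.MB.Defs3

/-! MB B16b: the canonical functionals. -/

set_option autoImplicit false

namespace Pool.Agent.MB

open PowerSeries Finset

variable (p : ℕ) [hpf : Fact p.Prime]

/-- The functional with `r` letters. -/
private noncomputable def b16psi {M : Type} [AddCommGroup M] [Module (ZMod p) M] (r : ℕ) (d : ℕ → M)
    (d' : M) (f : P p) : VI p → M :=
  ∑ k ∈ range r, tens p (JN p ((cart p)^[k] f)) (d k) + tens p (JN p (T p one4 * (cart p)^[r] f)) d'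

private theorem b16_tens_add {M : Type} [AddCommGroup M] [Module (ZMod p) M]
    (v w : VI p → ZMod p) (d : M) : tens p (v + w) d = tens p v d + tens p w d := by
  funext a
  simp only [tens, Pi.add_apply, add_smul]

private theorem b16_tens_smul {M : Type} [AddCommGroup M] [Module (ZMod p) M]
    (c : ZMod p) (v : VI p → ZMod p) (d : M) : tens p (c • v) d = c • tens p v d := by
  funext a
  simp only [tens, Pi.smul_apply, smul_assoc]

private theorem b16_tens_zero {M : Type} [AddCommGroup M] [Module (ZMod p) M] (d : M) :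
    tens p (0 : VI p → ZMod p) d = 0 := by
  funext a
  simp only [tens, Pi.zero_apply, zero_smul]

private theorem b16_iter_add (k : ℕ) (f g : P p) :
    (cart p)^[k] (f + g) = (cart p)^[k] f + (cart p)^[k] g := by
  induction k with
  | zero => rfl
  | succ k ih => rw [Function.iterate_succ_apply', Function.iterate_succ_apply',
      Function.iterate_succ_apply', ih, map_add]

private theorem b16_iter_smul (k : ℕ) (c : ZMod p) (f : P p) :
    (cart p)^[k] (c • f) = c • (cart p)^[k] f := by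
  induction k with
  | zero => rfl
  | succ k ih => rw [Function.iterate_succ_apply', Function.iterate_succ_apply', ih, map_smul]

private theorem b16psi_add {M : Type} [AddCommGroup M] [Module (ZMod p) M] (r : ℕ) (d : ℕ → M)
    (d' : M) (f g : P p) : b16psi p r d d' (f + g) = b16psi p r d d' f + b16psi p r d d' g := by
  unfold b16psi
  simp only [b16_iter_add, map_add, b16_tens_add, mul_add, Finset.sum_add_distrib]
  abel

private theorem b16psi_smul {M : Type} [AddCommGroup M] [Module (ZMod p) M] (r : ℕ) (d : ℕ → M)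
    (d' : M) (c : ZMod p) (f : P p) : b16psi p r d d' (c • f) = c • b16psi p r d d' f := by
  unfold b16psi
  simp only [b16_iter_smul, map_smul, b16_tens_smul, mul_smul_comm, smul_add, Finset.smul_sum]

private theorem b16_iter_L (hp : 5 ≤ p) {g : P p} (hg : g ∈ L p) (k : ℕ) : (cart p)^[k] g = g := by
  induction k with
  | zero => rfl
  | succ k ih => rw [Function.iterate_succ_apply', ih, cart_L p hp hg]

private theorem b16psi_eq (hp : 5 ≤ p) {M : Type} [AddCommGroup M] [Module (ZMod p) M] (r : ℕ)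
    (d : ℕ → M) (d' : M) (f : P p) (hf : (cart p)^[r] f ∈ L p) (k : ℕ) :
    b16psi p (r + k) d d' f = b16psi p r d d' f := by
  have h1 : ∀ m, (cart p)^[r + m] f = (cart p)^[r] f := by
    intro m
    rw [add_comm, Function.iterate_add_apply, b16_iter_L p hp hf]
  have h2 : ∀ g ∈ L p, JN p g = 0 := by
    intro g hg
    have := JN_L p hp hg 1
    rwa [one_pow, one_mul] at this
  unfold b16psi
  rw [h1, Finset.sum_range_add]
  have h3 : ∑ x ∈ range k, tens p (JN p ((cart p)^[r + x] f)) (d (r + x)) = 0 := by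
    refine Finset.sum_eq_zero fun x _ => ?_
    rw [h1, h2 _ hf, b16_tens_zero]
  rw [h3, add_zero]

private theorem b16_mono (hp : 5 ≤ p) {f : P p} {r : ℕ} (hf : (cart p)^[r] f ∈ L p) {R : ℕ}
    (h : r ≤ R) : (cart p)^[R] f ∈ L p := by
  obtain ⟨k, rfl⟩ := Nat.exists_eq_add_of_le h
  rw [add_comm, Function.iterate_add_apply, b16_iter_L p hp hf]
  exact hf

private theorem b16psi_eq' (hp : 5 ≤ p) {M : Type} [AddCommGroup M] [Module (ZMod p) M] {r R : ℕ}
    (d : ℕ → M) (d' : M) (f : P p) (hf : (cart p)^[r] f ∈ L p) (hf' : (cart p)^[R] f ∈ L p) :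
    b16psi p R d d' f = b16psi p r d d' f := by
  rcases le_total r R with h | h
  · obtain ⟨k, rfl⟩ := Nat.exists_eq_add_of_le h
    exact b16psi_eq p hp r d d' f hf k
  · obtain ⟨k, rfl⟩ := Nat.exists_eq_add_of_le h
    exact (b16psi_eq p hp R d d' f hf' k).symm

/-- `Φ(d, d∞)(f) = Σ_{k<r} JN(cart^k f) ⊗ d_k + JN(T(1,1,1,1) cart^r f) ⊗ d∞` with `cart^r f ∈ L`. -/
theorem exists_Phi (hp : 5 ≤ p) (M : Type) [AddCommGroup M] [Module (ZMod p) M] :
    ∃ Φ : (ℕ → M) → M → (A p →ₗ[ZMod p] (VI p → M)),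
      (∀ (d : ℕ → M) (d' : M) (g : P p) (hg : g ∈ L p),
        Φ d d' ⟨g, L_le_A p hg⟩ = tens p (JN p (T p one4 * g)) d') ∧
      ∀ (d : ℕ → M) (d' : M) (f : A p),
        Φ d d' f = tens p (JN p (f : P p)) (d 0) + Φ (fun k => d (k + 1)) d' ⟨cart p f, cart_mem_A p f.2⟩ := by
  have hst : ∀ f : A p, ∃ r, (cart p)^[r] (f : P p) ∈ L p := fun f => exists_stab p hp f.2
  choose r hr using hst
  have key : ∀ (d : ℕ → M) (d' : M) (f : A p) (R : ℕ), (cart p)^[R] (f : P p) ∈ L p →
      b16psi p (r f) d d' (f : P p) = b16psi p R d d' (f : P p) :=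
    fun d d' f R hR => b16psi_eq' p hp d d' _ hR (hr f)
  refine ⟨fun d d' => { toFun := fun f => b16psi p (r f) d d' (f : P p), map_add' := ?_, map_smul' := ?_ }, ?_, ?_⟩
  · intro f g
    set R := max (r f) (r g) with hR
    have h1 : (cart p)^[R] (f : P p) ∈ L p := b16_mono p hp (hr f) (le_max_left _ _)
    have h2 : (cart p)^[R] (g : P p) ∈ L p := b16_mono p hp (hr g) (le_max_right _ _)
    have h3 : (cart p)^[R] ((f + g : A p) : P p) ∈ L p := by
      rw [Submodule.coe_add, b16_iter_add]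
      exact Submodule.add_mem _ h1 h2
    rw [key d d' _ R h1, key d d' _ R h2, key d d' _ R h3, Submodule.coe_add, b16psi_add]
  · intro c f
    have h3 : (cart p)^[r f] ((c • f : A p) : P p) ∈ L p := by
      rw [Submodule.coe_smul, b16_iter_smul]
      exact Submodule.smul_mem _ _ (hr f)
    rw [key d d' _ (r f) h3, Submodule.coe_smul, b16psi_smul, RingHom.id_apply]
  · intro d d' g hg
    have h := key d d' ⟨g, L_le_A p hg⟩ 0 hg
    show b16psi p (r ⟨g, L_le_A p hg⟩) d d' g = _
    rw [h]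
    simp [b16psi]
  · intro d d' f
    have h1 := hr ⟨cart p f, cart_mem_A p f.2⟩
    have h2 : (cart p)^[r ⟨cart p f, cart_mem_A p f.2⟩ + 1] (f : P p) ∈ L p := by
      rw [Function.iterate_succ_apply]
      exact h1
    show b16psi p (r f) d d' (f : P p) = tens p (JN p (f : P p)) (d 0) +
      b16psi p (r ⟨cart p f, cart_mem_A p f.2⟩) (fun k => d (k + 1)) d' (cart p (f : P p))
    rw [key d d' f _ h2]
    unfold b16psi
    rw [Finset.sum_range_succ', Function.iterate_zero_apply]
    simp only [Function.iterate_succ_apply]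
    abel

/-- The canonical functional. -/
noncomputable def Phi (hp : 5 ≤ p) {M : Type} [AddCommGroup M] [Module (ZMod p) M] (d : ℕ → M) (d' : M) :
    A p →ₗ[ZMod p] (VI p → M) := (exists_Phi p hp M).choose d d'

theorem Phi_L (hp : 5 ≤ p) {M : Type} [AddCommGroup M] [Module (ZMod p) M] (d : ℕ → M) (d' : M) (g : P p) (hg : g ∈ L p) :
    Phi p hp d d' ⟨g, L_le_A p hg⟩ = tens p (JN p (T p one4 * g)) d' :=
  (exists_Phi p hp M).choose_spec.1 d d' g hg

theorem Phi_step (hp : 5 ≤ p) {M : Type} [AddCommGroup M] [Module (ZMod p) M] (d : ℕ → M) (d' : M) (f : A p) :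
    Phi p hp d d' f = tens p (JN p (f : P p)) (d 0) + Phi p hp (fun k => d (k + 1)) d' ⟨cart p f, cart_mem_A p f.2⟩ :=
  (exists_Phi p hp M).choose_spec.2 d d' f

/-- values at dead sites -/
theorem Phi_dead (hp : 5 ≤ p) {M : Type} [AddCommGroup M] [Module (ZMod p) M] (d : ℕ → M) (d' : M) (f : A p)
    (hf : cart p (f : P p) = 0) : Phi p hp d d' f = tens p (JN p (f : P p)) (d 0) := by
  rw [Phi_step p hp d d' f]
  have h1 : (⟨cart p f, cart_mem_A p f.2⟩ : A p) = 0 := Subtype.ext hf
  rw [h1, map_zero, add_zero]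

/-- values at `p`-th powers times `L` -/
theorem Phi_psmul (hp : 5 ≤ p) {M : Type} [AddCommGroup M] [Module (ZMod p) M] (d : ℕ → M) (d' : M) (ν : E) (g : P p) (hg : g ∈ L p) :
    Phi p hp d d' ⟨T p ((p : ℤ) • ν) * g, T_mul_mem_A p _ (L_le_A p hg)⟩ =
      Phi p hp (fun k => d (k + 1)) d' ⟨T p ν * g, T_mul_mem_A p _ (L_le_A p hg)⟩ := by
  rw [Phi_step p hp d d' _]
  have h1 : JN p (T p ((p : ℤ) • ν) * g) = 0 := by
    rw [T_psmul]
    exact JN_L p hp hg _
  have h2 : (⟨cart p (T p ((p : ℤ) • ν) * g), cart_mem_A p (T_mul_mem_A p _ (L_le_A p hg))⟩ : A p) =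
      ⟨T p ν * g, T_mul_mem_A p _ (L_le_A p hg)⟩ := by
    apply Subtype.ext
    show cart p (T p ((p : ℤ) • ν) * g) = T p ν * g
    rw [cart_T_psmul_mul, cart_L p hp hg]
  rw [h2]
  show tens p (JN p (T p ((p : ℤ) • ν) * g)) (d 0) + _ = _
  rw [h1, b16_tens_zero, zero_add]

end Pool.Agent.MB
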