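import Pool.Agent.MB.B16b
import Pool.Agent.MB.B7
import Pool.Agent.MB.B13a

/-! MB B16, third part: `exists_CW`, `Phi_deep`. -/

set_option autoImplicit false

namespace Pool.Agent.MB

open PowerSeries Finset

variable (p : ℕ) [hpf : Fact p.Prime]

private theorem b16c_tr_iff (f g : P p) : tr p f = tr p g ↔ (X : P p) ^ NN p ∣ f - g := by
  rw [PowerSeries.X_pow_dvd_iff]
  constructor
  · intro h m hm
    have := congrFun h ⟨m, hm⟩
    simp only [tr] at this
    rw [map_sub, this, sub_self]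
  · intro h
    funext i
    have := h i i.2
    rw [map_sub, sub_eq_zero] at this
    exact this

private theorem b16c_tens_zero {M : Type*} [AddCommGroup M] [Module (ZMod p) M] (d : M) :
    tens p (0 : VI p → ZMod p) d = 0 := by
  funext a
  simp [tens]

private theorem b16c_tens_one (v : VI p → ZMod p) : tens p v (1 : ZMod p) = v := by
  funext a
  simp [tens]

/-- every nonzero exponent vector is a power of `p` times a vector which is not divisible by `p` -/
private theorem b16c_decomp (hp : 2 ≤ p) (N : ℕ) : ∀ ν : E, ν ≠ 0 → ∑ j, (ν j).natAbs = N →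
    ∃ (m : ℕ) (θ : E), ν = ((p : ℤ) ^ m) • θ ∧ ¬ Dvd p θ := by
  induction N using Nat.strong_induction_on with
  | _ N ih =>
    intro ν hν hN
    by_cases h : Dvd p ν
    · obtain ⟨ν', rfl⟩ := Dvd.exists_smul p h
      have hν' : ν' ≠ 0 := by
        rintro rfl
        exact hν (smul_zero _)
      have hpos : 0 < ∑ j, (ν' j).natAbs := by
        rw [Nat.pos_iff_ne_zero]
        intro h0
        rw [Finset.sum_eq_zero_iff] at h0
        apply hν'
        funext j
        simpa using h0 j (Finset.mem_univ j)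
      have hlt : ∑ j, (ν' j).natAbs < N := by
        rw [← hN]
        have : ∑ j, (((p : ℤ) • ν') j).natAbs = p * ∑ j, (ν' j).natAbs := by
          rw [Finset.mul_sum]
          refine Finset.sum_congr rfl fun j _ => ?_
          simp [Int.natAbs_mul]
        rw [this]
        nlinarith
      obtain ⟨m, θ, h1, h2⟩ := ih _ hlt ν' hν' rfl
      refine ⟨m + 1, θ, ?_, h2⟩
      rw [h1, smul_smul, pow_succ']
    · exact ⟨0, ν, by simp, h⟩

private theorem b16c_one4 : T p one4 = ((U p 0 * Q p : Polynomial (ZMod p)) : P p) := by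
  have : one4 = fun j => (((fun _ => 1 : Fin 4 → ℕ) j : ℕ) : ℤ) := by
    funext j
    simp [one4]
  rw [this, T_nonneg]
  congr 1
  simp only [Fin.prod_univ_four, Q]
  ring

private theorem b16c_psmul (hp : 5 ≤ p) {M : Type} [AddCommGroup M] [Module (ZMod p) M] (d' : M)
    (m : ℕ) : ∀ (d : ℕ → M) (θ : E) (g : P p) (hg : g ∈ L p),
    Phi p hp d d' ⟨T p (((p : ℤ) ^ m) • θ) * g, T_mul_mem_A p _ (L_le_A p hg)⟩ =
      Phi p hp (fun k => d (k + m)) d' ⟨T p θ * g, T_mul_mem_A p _ (L_le_A p hg)⟩ := by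
  induction m with
  | zero =>
    intro d θ g hg
    simp
  | succ m ih =>
    intro d θ g hg
    have h1 : ((p : ℤ) ^ (m + 1)) • θ = (p : ℤ) • (((p : ℤ) ^ m) • θ) := by
      rw [smul_smul, pow_succ']
    have h2 : (⟨T p (((p : ℤ) ^ (m + 1)) • θ) * g, T_mul_mem_A p _ (L_le_A p hg)⟩ : A p) =
        ⟨T p ((p : ℤ) • (((p : ℤ) ^ m) • θ)) * g, T_mul_mem_A p _ (L_le_A p hg)⟩ := by
      apply Subtype.ext
      simp only [h1]
    rw [h2, Phi_psmul p hp d d' _ g hg, ih _ θ g hg]
    have h3 : (fun k => d (k + m + 1)) = fun k => d (k + (m + 1)) := by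
      funext k
      congr 1
    rw [h3]

/-- every critical window has an interpretation -/
theorem exists_CW (hp : 5 ≤ p) : ∃ (th : E → E) (mm : E → ℕ), (∀ ν, ¬ Dvd p (th ν)) ∧
    ∀ (M : Type) [AddCommGroup M] [Module (ZMod p) M] (d : ℕ → M) (ν : E) (g : P p) (hg : g ∈ L p),
      cart p (cart p (T p (th ν) * g)) = 0 →
      Phi p hp d (d 0) ⟨T p ν * g, T_mul_mem_A p _ (L_le_A p hg)⟩ =
        tens p (JN p (T p (th ν) * g)) (d (mm ν)) + tens p (JN p (cart p (T p (th ν) * g))) (d (mm ν + 1)) := by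
  have key : ∀ ν : E, ∃ (θ : E) (m : ℕ), ¬ Dvd p θ ∧
      ∀ (M : Type) [AddCommGroup M] [Module (ZMod p) M] (d : ℕ → M) (g : P p) (hg : g ∈ L p),
      cart p (cart p (T p θ * g)) = 0 →
      Phi p hp d (d 0) ⟨T p ν * g, T_mul_mem_A p _ (L_le_A p hg)⟩ =
        tens p (JN p (T p θ * g)) (d m) + tens p (JN p (cart p (T p θ * g))) (d (m + 1)) := by
    intro ν
    by_cases hν : ν = 0
    · refine ⟨one4, 0, ?_, ?_⟩
      · intro h
        have := h 0
        simp only [one4] at this
        have h1 := Int.le_of_dvd one_pos this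
        omega
      · intro M _ _ d g hg _
        have h1 : (⟨T p ν * g, T_mul_mem_A p _ (L_le_A p hg)⟩ : A p) = ⟨g, L_le_A p hg⟩ := by
          apply Subtype.ext
          simp only [hν, T_zero, one_mul]
        have h2 : cart p (T p one4 * g) = 0 := by
          rw [b16c_one4]
          exact cart_xQ_L p hp hg
        rw [h1, Phi_L p hp _ _ g hg, h2, map_zero, b16c_tens_zero, add_zero]
    · obtain ⟨m, θ, h1, h2⟩ := b16c_decomp p (by omega) _ ν hν rfl
      refine ⟨θ, m, h2, ?_⟩
      intro M _ _ d g hg h0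
      have h3 : (⟨T p ν * g, T_mul_mem_A p _ (L_le_A p hg)⟩ : A p) =
          ⟨T p (((p : ℤ) ^ m) • θ) * g, T_mul_mem_A p _ (L_le_A p hg)⟩ := by
        apply Subtype.ext
        simp only [h1]
      rw [h3, b16c_psmul p hp (d 0) m d θ g hg, Phi_step, Phi_step]
      have h4 : (⟨cart p ((⟨cart p ((⟨T p θ * g, T_mul_mem_A p _ (L_le_A p hg)⟩ : A p) : P p),
          cart_mem_A p (T_mul_mem_A p _ (L_le_A p hg))⟩ : A p) : P p),
          cart_mem_A p (cart_mem_A p (T_mul_mem_A p _ (L_le_A p hg)))⟩ : A p) = 0 := by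
        apply Subtype.ext
        exact h0
      rw [h4, map_zero, add_zero]
      simp only [zero_add]
      congr 3
      omega
  choose th mm h1 h2 using key
  exact ⟨th, mm, h1, fun M _ _ d ν g hg h0 => h2 ν M d g hg h0⟩

/-- deep sites are recognised (converse part, canonical point) -/
theorem Phi_deep (hp : 1000 ≤ p) (k : ℕ) (ν : E) (h0 : tr p (T p ν) = tr p 1)
    (h : ∀ i ≤ k, Phi p (by omega : 5 ≤ p) (fun _ => (1 : ZMod p)) 1 ⟨T p (ν + ((p : ℤ) ^ i) • e 0), T_mem_A p _⟩ = JN p (T p (e 0)))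
    {M : Type} [AddCommGroup M] [Module (ZMod p) M] (d : ℕ → M) (d' : M) :
    Phi p (by omega : 5 ≤ p) d d' ⟨T p (ν + ((p : ℤ) ^ k) • e 0), T_mem_A p _⟩ = tens p (JN p (T p (e 0))) (d k) := by
  have hp5 : 5 ≤ p := by omega
  have h1L : (1 : P p) ∈ L p := one_mem_L p
  induction k generalizing ν d with
  | zero =>
    obtain ⟨n', hn', -⟩ := T_NN p hp5 ν ((b16c_tr_iff p _ _).1 h0)
    have hc : cart p (T p (ν + ((p : ℤ) ^ 0) • e 0)) = 0 := by
      have := cart_x_pow p 1 le_rfl (by omega) ((p : ℤ) • n')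
      rw [hn', pow_zero, one_smul, add_comm]
      simpa using this
    have h1 := h 0 le_rfl
    rw [Phi_dead p hp5 _ _ _ hc, b16c_tens_one] at h1
    rw [Phi_dead p hp5 _ _ _ hc]
    rw [h1]
  | succ k ih =>
    obtain ⟨n', hn', -⟩ := T_NN p hp5 ν ((b16c_tr_iff p _ _).1 h0)
    set ν1 : E := (p : ℤ) • n' with hν1
    have hshift : ∀ i : ℕ, ν + ((p : ℤ) ^ (i + 1)) • e 0 = (p : ℤ) • (ν1 + ((p : ℤ) ^ i) • e 0) := by
      intro i
      rw [hn', smul_add, pow_succ', ← smul_smul (p : ℤ) ((p : ℤ) ^ i) (e 0)]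
    have hstep : ∀ {M : Type} [AddCommGroup M] [Module (ZMod p) M] (d : ℕ → M) (d' : M) (i : ℕ),
        Phi p hp5 d d' ⟨T p (ν + ((p : ℤ) ^ (i + 1)) • e 0), T_mem_A p _⟩ =
          Phi p hp5 (fun k => d (k + 1)) d' ⟨T p (ν1 + ((p : ℤ) ^ i) • e 0), T_mem_A p _⟩ := by
      intro M _ _ d d' i
      have := Phi_psmul p hp5 d d' (ν1 + ((p : ℤ) ^ i) • e 0) 1 h1L
      simp only [mul_one] at this
      rw [← this]
      congr 1
      apply Subtype.ext
      simp only [hshift i]
    -- the value at `ν + e 0`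
    have htr : tr p (T p ν1) = tr p 1 := by
      rw [b16c_tr_iff]
      have h1 := h 0 (Nat.zero_le _)
      have hc : cart p (T p (ν + ((p : ℤ) ^ 0) • e 0)) = 0 := by
        have := cart_x_pow p 1 le_rfl (by omega) ν1
        rw [hn', pow_zero, one_smul, add_comm]
        simpa using this
      rw [Phi_dead p hp5 _ _ _ hc, b16c_tens_one] at h1
      simp only [pow_zero, one_smul] at h1
      rw [hn', T_add, T_psmul, JN_eq_iff] at h1
      have h2 := h1 (p - 5) (by omega)
      rw [J_pow_mul] at h2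
      have h3 := J_x_pow p hp5 1 le_rfl (by omega) (p - 5) (by omega) 3 (by omega)
      rw [one_smul, Qx_three] at h3
      have h4 : T p ν1 * J p (p - 5) (T p (e 0)) - J p (p - 5) (T p (e 0)) =
          (T p ν1 - 1) * J p (p - 5) (T p (e 0)) := by ring
      rw [h4, h3] at h2
      have h24 : (24 : ZMod p) ≠ 0 := by
        have : ((24 : ℕ) : ZMod p) ≠ 0 := by
          rw [Ne, ZMod.natCast_eq_zero_iff]
          intro hd
          have := Nat.le_of_dvd (by norm_num) hd
          omega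
        simpa using this
      have hu : IsUnit ((1 + X : P p) * PowerSeries.C (24 : ZMod p)) := by
        rw [PowerSeries.isUnit_iff_constantCoeff]
        simp [h24]
      exact (hu.dvd_mul_right).1 h2
    rw [hstep]
    refine ih ν1 htr (fun i hi => ?_) (fun k => d (k + 1))
    have := hstep (fun _ => (1 : ZMod p)) 1 i
    rw [← this]
    exact h (i + 1) (by omega)

end Pool.Agent.MB
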