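import Pool.Agent.MB.Defs2

/-! MB B2a: the Cartier operator (first half of B2). -/

set_option autoImplicit false

namespace Pool.Agent.MB

open PowerSeries Finset

variable (p : ℕ) [hpf : Fact p.Prime]

theorem b2a_pow_eq_expand (f : P p) : f ^ p = PowerSeries.expand p hpf.out.ne_zero f := by
  have h := MvPowerSeries.map_frobenius_expand (σ := Unit) (R := ZMod p) p hpf.out.ne_zero (f := f)
  rw [ZMod.frobenius_zmod] at h
  rw [← h]
  simp [PowerSeries.expand]

theorem b2a_coeff_pow (f : P p) (n : ℕ) :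
    PowerSeries.coeff n (f ^ p) = if p ∣ n then PowerSeries.coeff (n / p) f else 0 := by
  rw [b2a_pow_eq_expand, PowerSeries.coeff_expand]

theorem comp_pow_mul (i : ℕ) (hi : i < p) (h f : P p) : comp p i (h ^ p * f) = h * comp p i f := by
  have hp0 : 0 < p := hpf.out.pos
  ext n
  simp only [comp, LinearMap.coe_mk, AddHom.coe_mk, PowerSeries.coeff_mk]
  rw [PowerSeries.coeff_mul, PowerSeries.coeff_mul]
  simp only [PowerSeries.coeff_mk]
  rw [Finset.Nat.sum_antidiagonal_eq_sum_range_succ_mk, Finset.Nat.sum_antidiagonal_eq_sum_range_succ_mk]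
  simp only [b2a_coeff_pow]
  -- sum over k ≤ p n + i of [p ∣ k] h_{k/p} f_{pn+i-k}
  symm
  refine Finset.sum_bij_ne_zero (fun k _ _ => p * k) ?_ ?_ ?_ ?_
  · intro k hk _
    simp only [Finset.mem_range] at hk ⊢
    have : p * k ≤ p * n := Nat.mul_le_mul_left _ (by omega)
    omega
  · intro a _ _ b _ _ hab
    exact Nat.eq_of_mul_eq_mul_left hp0 hab
  · intro k hk hne
    simp only [Finset.mem_range] at hk
    by_cases hd : p ∣ k
    · obtain ⟨m, rfl⟩ := hd
      have hm : m < n + 1 := by
        by_contra hcon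
        have : p * (n + 1) ≤ p * m := Nat.mul_le_mul_left _ (by omega)
        rw [mul_add, mul_one] at this
        omega
      have hsub : p * n + i - p * m = p * (n - m) + i := by
        have h1 : p * m ≤ p * n := Nat.mul_le_mul_left _ (by omega)
        rw [Nat.mul_sub]
        omega
      refine ⟨m, by simpa using hm, ?_, rfl⟩
      rw [if_pos (dvd_mul_right _ _), Nat.mul_div_cancel_left _ hp0, hsub] at hne
      exact hne
    · rw [if_neg hd, zero_mul] at hne
      exact absurd rfl hne
  · intro m hm _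
    simp only [Finset.mem_range] at hm
    have hsub : p * n + i - p * m = p * (n - m) + i := by
      have h1 : p * m ≤ p * n := Nat.mul_le_mul_left _ (by omega)
      rw [Nat.mul_sub]
      omega
    rw [if_pos (dvd_mul_right _ _), Nat.mul_div_cancel_left _ hp0, hsub]

theorem cart_pow_mul (h f : P p) : cart p (h ^ p * f) = h * cart p f := by
  simp only [cart, LinearMap.sum_apply, LinearMap.smul_apply, Finset.mul_sum]
  refine Finset.sum_congr rfl fun i hi => ?_
  rw [comp_pow_mul p i (Finset.mem_range.1 hi), mul_smul_comm]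

theorem cart_small (f : Polynomial (ZMod p)) (hf : f.natDegree < p) :
    cart p (f : P p) = PowerSeries.C (f.eval (-1)) := by
  have hp0 : 0 < p := hpf.out.pos
  ext n
  simp only [cart, LinearMap.sum_apply, LinearMap.smul_apply, map_sum, comp, LinearMap.coe_mk,
    AddHom.coe_mk, PowerSeries.coeff_smul, PowerSeries.coeff_mk, Polynomial.coeff_coe,
    PowerSeries.coeff_C]
  rcases Nat.eq_zero_or_pos n with rfl | hn
  · rw [if_pos rfl, Polynomial.eval_eq_sum_range' hf]
    refine Finset.sum_congr rfl fun i _ => ?_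
    simp [mul_comm]
  · rw [if_neg hn.ne']
    refine Finset.sum_eq_zero fun i _ => ?_
    rw [Polynomial.coeff_eq_zero_of_natDegree_lt, smul_zero]
    have : p * 1 ≤ p * n := Nat.mul_le_mul_left _ hn
    omega

theorem cart_one : cart p (1 : P p) = 1 := by
  have := cart_small p 1 (by simpa using hpf.out.pos)
  simpa using this

theorem cart_T_psmul_mul (n : E) (f : P p) : cart p (T p ((p : ℤ) • n) * f) = T p n * cart p f := by
  rw [T_psmul, cart_pow_mul]

theorem b2a_T_e0 : T p (e 0) = 1 + X := by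
  rw [T_e]
  simp [U]

theorem b2a_T_smul (k : ℕ) : T p ((k : ℤ) • e 0) = (1 + X : P p) ^ k := by
  rw [natCast_zsmul, T_nsmul, b2a_T_e0]

theorem b2a_cart_x_pow (m : ℕ) (hm : m < p) :
    cart p ((1 + X : P p) ^ m) = if m = 0 then 1 else 0 := by
  have h1 : ((1 + X : P p) ^ m) = (((1 + Polynomial.X : Polynomial (ZMod p)) ^ m : Polynomial (ZMod p)) : P p) := by
    simp
  rw [h1, cart_small]
  · split_ifs with h
    · simp [h]
    · simp [h]
  · have h2 : (1 + Polynomial.X : Polynomial (ZMod p)).natDegree ≤ 1 := by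
      refine (Polynomial.natDegree_add_le _ _).trans ?_
      simp
    have h3 := Polynomial.natDegree_pow_le_of_le m h2
    omega

/-- The right hand side of the decomposition as a linear map. -/
noncomputable def b2a_R : P p →ₗ[ZMod p] P p := ∑ i ∈ range p,
  (LinearMap.mulLeft (ZMod p) ((1 + X : P p) ^ i)).comp ((frob p).comp
    ((cart p).comp (LinearMap.mulLeft (ZMod p) (T p (-(i : ℤ) • e 0)))))

theorem b2a_R_apply (f : P p) : b2a_R p f = ∑ i ∈ range p, ((1 + X : P p) ^ i) *
    (cart p (T p (-(i : ℤ) • e 0) * f)) ^ p := by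
  simp [b2a_R, frob]

theorem b2a_R_pow_mul (h f : P p) : b2a_R p (h ^ p * f) = h ^ p * b2a_R p f := by
  rw [b2a_R_apply, b2a_R_apply, Finset.mul_sum]
  refine Finset.sum_congr rfl fun i _ => ?_
  rw [mul_left_comm, cart_pow_mul, mul_pow]
  ring

theorem b2a_R_x (k : ℕ) (hk : k < p) : b2a_R p ((1 + X : P p) ^ k) = (1 + X) ^ k := by
  rw [b2a_R_apply, Finset.sum_eq_single k]
  · rw [← b2a_T_smul, ← T_add, neg_smul, neg_add_cancel, T_zero, cart_one]
    simp
  · intro i hi hik
    have hi' := Finset.mem_range.1 hi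
    have hp0 : p ≠ 0 := hpf.out.ne_zero
    suffices h : cart p (T p (-(i : ℤ) • e 0) * (1 + X) ^ k) = 0 by
      rw [h, zero_pow hp0, mul_zero]
    rw [← b2a_T_smul, ← T_add, ← add_smul]
    rcases lt_or_gt_of_ne hik with h | h
    · have : -(i : ℤ) + k = ((k - i : ℕ) : ℤ) := by omega
      rw [this, b2a_T_smul, b2a_cart_x_pow p _ (by omega), if_neg (by omega)]
    · have : (-(i : ℤ) + k) • e 0 = (p : ℤ) • (-e 0) + ((p + k - i : ℕ) : ℤ) • e 0 := by
        rw [smul_neg, ← neg_smul, ← add_smul]
        congr 1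
        omega
      rw [this, T_add, cart_T_psmul_mul, b2a_T_smul, b2a_cart_x_pow p _ (by omega),
        if_neg (by omega), mul_zero]
  · intro h
    exact absurd (Finset.mem_range.2 hk) h

theorem b2a_R_X (j : ℕ) (hj : j < p) : b2a_R p (X ^ j) = X ^ j := by
  have h1 : (X : P p) ^ j = ∑ m ∈ range (j + 1), ((-1 : ZMod p) ^ (j - m) * (j.choose m : ZMod p)) •
      (1 + X : P p) ^ m := by
    have h0 : (X : P p) = (1 + X) + (-1) := by ring
    conv_lhs => rw [h0, add_pow]
    refine Finset.sum_congr rfl fun m _ => ?_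
    rw [PowerSeries.smul_eq_C_mul, map_mul, map_pow, map_neg, map_one, map_natCast]
    ring
  rw [h1, map_sum]
  refine Finset.sum_congr rfl fun m hm => ?_
  rw [map_smul, b2a_R_x p m]
  have := Finset.mem_range.1 hm
  omega

theorem b2a_comp_decomp (f : P p) : f = ∑ j ∈ range p, (comp p j f) ^ p * X ^ j := by
  have hp0 : 0 < p := hpf.out.pos
  ext n
  rw [map_sum, Finset.sum_eq_single (n % p)]
  · rw [PowerSeries.coeff_mul_X_pow', if_pos (Nat.mod_le _ _), b2a_coeff_pow, if_pos]
    · simp only [comp, LinearMap.coe_mk, AddHom.coe_mk, PowerSeries.coeff_mk]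
      rw [Nat.mul_div_cancel' (Nat.dvd_sub_mod n), Nat.sub_add_cancel (Nat.mod_le _ _)]
    · exact Nat.dvd_sub_mod n
  · intro j hj hjn
    rw [PowerSeries.coeff_mul_X_pow']
    split_ifs with h
    · rw [b2a_coeff_pow, if_neg]
      rintro ⟨c, hc⟩
      apply hjn
      have : n = j + p * c := by omega
      rw [this, Nat.add_mul_mod_self_left, Nat.mod_eq_of_lt (Finset.mem_range.1 hj)]
    · rfl
  · intro h
    exact absurd (Finset.mem_range.2 (Nat.mod_lt _ hp0)) h

theorem decomp (f : P p) : f = ∑ i ∈ range p, ((1 + X : P p) ^ i) *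
    (cart p (T p (-(i : ℤ) • e 0) * f)) ^ p := by
  rw [← b2a_R_apply]
  conv_lhs => rw [b2a_comp_decomp p f]
  conv_rhs => rw [b2a_comp_decomp p f]
  rw [map_sum]
  refine Finset.sum_congr rfl fun j hj => ?_
  rw [b2a_R_pow_mul, b2a_R_X p j (Finset.mem_range.1 hj)]

theorem cart_poly (hp : p ≠ 2) (f : Polynomial (ZMod p)) : ∃ g : Polynomial (ZMod p), cart p (f : P p) = g ∧
    g.natDegree ≤ f.natDegree / p ∧ g.eval (-1) = f.eval (-1) := by
  have hp0 : 0 < p := hpf.out.pos
  set D := f.natDegree / p with hD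
  have hlt : f.natDegree < p * (D + 1) := by
    rw [hD]
    have := Nat.lt_mul_div_succ f.natDegree hp0
    simpa using this
  refine ⟨∑ n ∈ range (D + 1), Polynomial.monomial n
    (∑ i ∈ range p, (-1 : ZMod p) ^ i * f.coeff (p * n + i)), ?_, ?_, ?_⟩
  · ext n
    rw [Polynomial.coeff_coe, Polynomial.finsetSum_coeff]
    simp only [Polynomial.coeff_monomial]
    rw [Finset.sum_ite_eq' (range (D + 1)) n]
    simp only [cart, LinearMap.sum_apply, LinearMap.smul_apply, map_sum, comp, LinearMap.coe_mk,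
      AddHom.coe_mk, PowerSeries.coeff_smul, PowerSeries.coeff_mk, Polynomial.coeff_coe,
      smul_eq_mul]
    split_ifs with h
    · rfl
    · refine Finset.sum_eq_zero fun i _ => ?_
      rw [Polynomial.coeff_eq_zero_of_natDegree_lt, mul_zero]
      simp only [Finset.mem_range, not_lt] at h
      have : p * (D + 1) ≤ p * n := Nat.mul_le_mul_left _ h
      omega
  · refine Polynomial.natDegree_sum_le_of_forall_le _ _ fun n hn => ?_
    refine (Polynomial.natDegree_monomial_le _).trans ?_
    have := Finset.mem_range.1 hn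
    omega
  · have hodd : Odd p := hpf.out.odd_of_ne_two hp
    rw [Polynomial.eval_finsetSum, Polynomial.eval_eq_sum_range' hlt]
    have hprod : ∑ k ∈ range (p * (D + 1)), f.coeff k * (-1 : ZMod p) ^ k =
        ∑ n ∈ range (D + 1), ∑ i ∈ range p, f.coeff (p * n + i) * (-1 : ZMod p) ^ (p * n + i) := by
      rw [mul_comm p (D + 1)]
      induction (D + 1) with
      | zero => simp
      | succ d ih =>
        rw [Finset.sum_range_succ, ← ih, add_mul, one_mul, Finset.sum_range_add]
        simp [mul_comm d p]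
    rw [hprod]
    refine Finset.sum_congr rfl fun n _ => ?_
    rw [Polynomial.eval_monomial, Finset.sum_mul]
    refine Finset.sum_congr rfl fun i _ => ?_
    rw [pow_add, pow_mul, hodd.neg_one_pow]
    ring

theorem J_pow_mul (j : ℕ) (h f : P p) : J p j (h ^ p * f) = h * J p j f := by
  simp only [J, LinearMap.comp_apply, LinearMap.mulLeft_apply]
  rw [← cart_pow_mul, mul_left_comm]

theorem JN_eq_iff (f g : P p) : JN p f = JN p g ↔ ∀ j < p - 4, (X : P p) ^ (NN p) ∣ J p j f - J p j g := by
  simp only [PowerSeries.X_pow_dvd_iff, map_sub, sub_eq_zero]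
  constructor
  · intro h j hj m hm
    have := congrFun h (⟨j, hj⟩, ⟨m, hm⟩)
    simpa [JN] using this
  · intro h
    funext a
    have := h a.1 a.1.2 a.2 a.2.2
    simpa [JN] using this

theorem JN_cancel (h f g : P p) (hh : IsUnit h) : JN p (h ^ p * f) = JN p (h ^ p * g) ↔ JN p f = JN p g := by
  rw [JN_eq_iff, JN_eq_iff]
  refine forall_congr' fun j => forall_congr' fun _ => ?_
  rw [J_pow_mul, J_pow_mul, ← mul_sub, hh.dvd_mul_left]

theorem JN_congr (h f : P p) (hh : (X : P p) ^ (NN p) ∣ h - 1) : JN p (h ^ p * f) = JN p f := by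
  rw [JN_eq_iff]
  intro j _
  rw [J_pow_mul]
  have : h * J p j f - J p j f = (h - 1) * J p j f := by ring
  rw [this]
  exact hh.mul_right _

end Pool.Agent.MB
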