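import Pool.Agent.MB.Defs3
import Pool.Agent.MB.B2a
import Pool.Agent.MB.B2b
import Pool.Agent.MB.B7

/-! MB B17a: small lemmas on windows, `tr`, `Dead`. -/

set_option autoImplicit false

namespace Pool.Agent.MB

open PowerSeries Finset

variable (p : ℕ) [hpf : Fact p.Prime]

private theorem b17_natDegree_U (j : Fin 4) : (U p j).natDegree ≤ 1 := by
  have : U p j = Polynomial.C (((j : ℕ) + 1 : ℕ) : ZMod p) * Polynomial.X + Polynomial.C 1 := by
    unfold U; rw [add_comm]; simp
  rw [this]
  exact Polynomial.natDegree_linear_le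

private theorem b17_natDegree_UU (i j : Fin 4) : (U p i * U p j).natDegree ≤ 3 := by
  have h1 := Polynomial.natDegree_mul_le (p := U p i) (q := U p j)
  have := b17_natDegree_U p i
  have := b17_natDegree_U p j
  omega

private theorem b17_U_mul (j : Fin 4) : ((U p j : Polynomial (ZMod p)) : P p) * T p (-e j) = 1 := by
  rw [← T_e, T_mul_neg]

private theorem b17_T_gL_mem (j : Fin 4) : T p (gL j) ∈ L p := by
  fin_cases j
  · have : gL 0 = 0 := by simp [gL]
    show T p (gL 0) ∈ L p
    rw [this, T_zero]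
    exact one_mem_L p
  · have : gL 1 = - e 1 := by simp [gL]
    show T p (gL 1) ∈ L p
    rw [this]
    refine ⟨U p 2 * U p 3, b17_natDegree_UU p 2 3, ?_⟩
    unfold Q
    simp only [Polynomial.coe_mul]
    linear_combination ((U p 2 : Polynomial (ZMod p)) : P p) * ((U p 3 : Polynomial (ZMod p)) : P p) * b17_U_mul p 1
  · have : gL 2 = - e 2 := by simp [gL]
    show T p (gL 2) ∈ L p
    rw [this]
    refine ⟨U p 1 * U p 3, b17_natDegree_UU p 1 3, ?_⟩
    unfold Q
    simp only [Polynomial.coe_mul]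
    linear_combination ((U p 1 : Polynomial (ZMod p)) : P p) * ((U p 3 : Polynomial (ZMod p)) : P p) * b17_U_mul p 2
  · have : gL 3 = - e 3 := by simp [gL]
    show T p (gL 3) ∈ L p
    rw [this]
    refine ⟨U p 1 * U p 2, b17_natDegree_UU p 1 2, ?_⟩
    unfold Q
    simp only [Polynomial.coe_mul]
    linear_combination ((U p 1 : Polynomial (ZMod p)) : P p) * ((U p 2 : Polynomial (ZMod p)) : P p) * b17_U_mul p 3

theorem gA_mem_L (a : Fin 4 → ZMod p) : gA p a ∈ L p :=
  Submodule.sum_mem _ fun j _ => Submodule.smul_mem _ _ (b17_T_gL_mem p j)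

theorem exists_gA (hp : 5 ≤ p) {g : P p} (hg : g ∈ L p) : ∃ a, g = gA p a := by
  rw [mem_L_iff p hp, Submodule.mem_span_insert] at hg
  obtain ⟨a, z, hz, rfl⟩ := hg
  rw [Submodule.mem_span_insert] at hz
  obtain ⟨b, y, hy, rfl⟩ := hz
  rw [Submodule.mem_span_insert] at hy
  obtain ⟨c, x, hx, rfl⟩ := hy
  rw [Submodule.mem_span_singleton] at hx
  obtain ⟨d, rfl⟩ := hx
  refine ⟨![a, b, c, d], ?_⟩
  have h0 : T p (gL 0) = 1 := by
    have : gL 0 = 0 := by simp [gL]
    rw [this, T_zero]
  have h1 : gL 1 = - e 1 := by simp [gL]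
  have h2 : gL 2 = - e 2 := by simp [gL]
  have h3 : gL 3 = - e 3 := by simp [gL]
  unfold gA
  rw [Fin.sum_univ_four, h0, h1, h2, h3]
  simp only [Matrix.cons_val_zero, Matrix.cons_val_one, Matrix.cons_val]
  simp only [add_assoc]

theorem lin_gA {M : Type*} [AddCommGroup M] [Module (ZMod p) M] (b : P p →ₗ[ZMod p] M) (ν : E) (a : Fin 4 → ZMod p) :
    b (T p ν * gA p a) = ∑ j, a j • b (T p (ν + gL j)) := by
  unfold gA
  rw [Finset.mul_sum, map_sum]
  refine Finset.sum_congr rfl fun j _ => ?_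
  rw [mul_smul_comm, map_smul, T_add]

theorem tr_eq_iff (f g : P p) : tr p f = tr p g ↔ (X : P p) ^ NN p ∣ f - g := by
  rw [PowerSeries.X_pow_dvd_iff]
  constructor
  · intro h m hm
    have := congrFun h ⟨m, hm⟩
    rw [map_sub, sub_eq_zero]
    exact this
  · intro h
    funext i
    have := h i i.2
    rw [map_sub, sub_eq_zero] at this
    exact this

theorem tr_T_add (κ κ' μ : E) : tr p (T p (κ + μ)) = tr p (T p (κ' + μ)) ↔ tr p (T p κ) = tr p (T p κ') := by
  rw [tr_eq_iff, tr_eq_iff, T_add, T_add, ← sub_mul]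
  exact (isUnit_T p μ).dvd_mul_right

theorem dead_iff (hp : 5 ≤ p) (t : E) : Dead p (tr p (T p t)) ↔ cart p (T p t) = 0 := by
  constructor
  · rintro ⟨κ, h1, h2⟩
    have h3 : tr p (T p (t - κ)) = tr p (T p 0) := by
      rw [← tr_T_add p (t - κ) 0 κ, sub_add_cancel, zero_add]
      exact h1
    rw [tr_eq_iff, T_zero] at h3
    obtain ⟨n', h4, -⟩ := T_NN p hp _ h3
    have h5 : t = (p : ℤ) • ((p : ℤ) • n') + κ := by
      rw [← h4, sub_add_cancel]
    rw [h5, T_add, cart_T_psmul_mul, h2, mul_zero]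
  · intro h
    exact ⟨t, rfl, h⟩

theorem tens_add {M : Type*} [AddCommGroup M] [Module (ZMod p) M] (v v' : VI p → ZMod p) (d : M) :
    tens p (v + v') d = tens p v d + tens p v' d := by
  funext a
  exact add_smul _ _ _

theorem tens_add' {M : Type*} [AddCommGroup M] [Module (ZMod p) M] (v : VI p → ZMod p) (d d' : M) :
    tens p v (d + d') = tens p v d + tens p v d' := by
  funext a
  exact smul_add _ _ _

theorem tens_zero {M : Type*} [AddCommGroup M] [Module (ZMod p) M] (d : M) : tens p (0 : VI p → ZMod p) d = 0 := by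
  funext a
  exact zero_smul _ _

theorem tens_one (v : VI p → ZMod p) : tens p v (1 : ZMod p) = v := by
  funext a
  exact mul_one _

theorem tens_inj {M : Type*} [AddCommGroup M] [Module (ZMod p) M] (v : VI p → ZMod p) (hv : v ≠ 0) (d d' : M)
    (h : tens p v d = tens p v d') : d = d' := by
  obtain ⟨a, ha⟩ := Function.ne_iff.1 hv
  have h1 : v a • d = v a • d' := congrFun h a
  exact smul_right_injective M (r := v a) (by simpa using ha) h1

theorem map_tens {M M' : Type*} [AddCommGroup M] [Module (ZMod p) M] [AddCommGroup M'] [Module (ZMod p) M']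
    (φ : M →ₗ[ZMod p] M') (v : VI p → ZMod p) (d : M) : (fun a => φ (tens p v d a)) = tens p v (φ d) := by
  funext a
  exact map_smul _ _ _

theorem et_inj (hp : 5 ≤ p) {Tl : Type} [DecidableEq Tl] (a b : Tl) (h : et p a = et p b) : a = b := by
  by_contra hne
  have h1 := congrFun h a
  unfold et at h1
  rw [Pi.single_eq_same, Pi.single_eq_of_ne hne] at h1
  exact one_ne_zero h1

end Pool.Agent.MB
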