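import Pool.Agent.MB.B15
import Pool.Agent.MB.B17a

/-! MB B17b: one-dimensional data out of the rule `RX`/`RY`. -/

set_option autoImplicit false

namespace Pool.Agent.MB

open PowerSeries Finset

variable (p : ℕ) [hpf : Fact p.Prime]

theorem b17b_all (m : E → (Fin (NN p) → ZMod p))
    (hm : ∀ n, ∃ κ : E, m n = tr p (T p κ) ∧ ∀ j, m (n + e j) = tr p (T p (κ + e j))) (s0 : E)
    (h0 : m 0 = tr p (T p s0)) : ∀ n, m n = tr p (T p (s0 + n)) := by
  have hup : ∀ n j, m n = tr p (T p (s0 + n)) → m (n + e j) = tr p (T p (s0 + (n + e j))) := by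
    intro n j h
    obtain ⟨κ, h1, h2⟩ := hm n
    rw [h2 j, ← add_assoc, tr_T_add, ← h1, h]
  have hdown : ∀ n j, m (n + e j) = tr p (T p (s0 + (n + e j))) → m n = tr p (T p (s0 + n)) := by
    intro n j h
    obtain ⟨κ, h1, h2⟩ := hm n
    rw [h2 j, ← add_assoc, tr_T_add] at h
    rw [h1, h]
  have hz : ∀ (j : Fin 4) (k : ℤ) (n : E), m n = tr p (T p (s0 + n)) →
      m (n + k • e j) = tr p (T p (s0 + (n + k • e j))) := by
    intro j k
    induction k using Int.induction_on with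
    | zero => intro n h; rw [zero_smul, add_zero]; exact h
    | succ k ih =>
        intro n h
        have := hup _ j (ih n h)
        rw [add_smul, one_smul, ← add_assoc n]
        exact this
    | pred k ih =>
        intro n h
        have h1 := ih n h
        apply hdown _ j
        have e1 : n + (-(k : ℤ) - 1) • e j + e j = n + (-(k : ℤ)) • e j := by
          rw [sub_smul, one_smul]; abel
        rw [e1]
        exact h1
  intro n
  have h0' : m 0 = tr p (T p (s0 + 0)) := by rw [add_zero]; exact h0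
  have h4 := hz 3 (n 3) _ (hz 2 (n 2) _ (hz 1 (n 1) _ (hz 0 (n 0) 0 h0')))
  have hn : (0 : E) + n 0 • e 0 + n 1 • e 1 + n 2 • e 2 + n 3 • e 3 = n := by
    funext j
    fin_cases j <;> simp [e, Pi.single_apply]
  rw [hn] at h4
  exact h4

/-- one-dimensional data out of the rule `RX`/`RY` -/
theorem one_d (hp : 5 ≤ p) (m : E → (Fin (NN p) → ZMod p)) (β : E → (VI p → ZMod p)) (hβ : Rel p β)
    (hm : ∀ n, ∃ κ : E, m n = tr p (T p κ) ∧ ∀ j, m (n + e j) = tr p (T p (κ + e j)))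
    (hR1 : ∀ n, Dead p (m n) → ∃ κ : E, m n = tr p (T p κ) ∧ β n = JN p (T p κ)) :
    ∃ (s0 : E) (b : P p →ₗ[ZMod p] (VI p → ZMod p)), (∀ n, m n = tr p (T p (s0 + n))) ∧
      (∀ n, b (T p n) = β n) ∧ Pure p s0 b ∧
      ∀ ν ϑ : E, WI p (fun j => β (ν + gL j)) ϑ → Interp p b ν ϑ := by
  obtain ⟨s0, hs0, -⟩ := hm 0
  have hall := b17b_all p m hm s0 hs0
  obtain ⟨b, hb⟩ := ext1 p β hβ
  refine ⟨s0, b, hall, hb, ?_, ?_⟩
  · intro t ht
    have h1 : m (t - s0) = tr p (T p t) := by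
      rw [hall]
      congr 2
      abel
    obtain ⟨κ, hκ, hβκ⟩ := hR1 (t - s0) ⟨t, h1, ht⟩
    refine ⟨κ, ?_, ?_⟩
    · rw [← tr_eq_iff, ← hκ, h1]
    · rw [hb, hβκ]
  · rintro ν ϑ ⟨hD, hW⟩
    refine ⟨hD, ?_⟩
    intro g hg hcart
    obtain ⟨a, rfl⟩ := exists_gA p hp hg
    rw [lin_gA, ← hW a hcart]
    simp only [hb]

end Pool.Agent.MB
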