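import Pool.Agent.MB.B2b
import Pool.Agent.MB.B12
import Pool.Agent.MB.B13a
import Pool.Agent.MB.Defs3

/-! MB B18a: deep sites exist in every legal point. -/

set_option autoImplicit false

namespace Pool.Agent.MB

open PowerSeries Finset

variable (p : ℕ) [hpf : Fact p.Prime]

/-- the sites `ν_l` (with `j` levels below `l`) -/
def b18aNu (s : ℕ → E) : ℕ → ℕ → E
  | 0, l => - s l
  | j + 1, l => (p : ℤ) • b18aNu s j (l + 1) - s l

omit hpf in
theorem b18a_nu_succ (s : ℕ → E) (j l : ℕ) :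
    b18aNu p s (j + 1) l + s l = (p : ℤ) • b18aNu p s j (l + 1) := by
  simp [b18aNu]

theorem b18a_mul {k : ℕ} {a b : P p} (ha : (X : P p) ^ k ∣ a - 1) (hb : (X : P p) ^ k ∣ b - 1) :
    (X : P p) ^ k ∣ a * b - 1 := by
  have : a * b - 1 = (a - 1) * b + (b - 1) := by ring
  rw [this]
  exact dvd_add (dvd_mul_of_dvd_left ha b) hb

theorem b18a_pow {k : ℕ} {a : P p} (ha : (X : P p) ^ k ∣ a - 1) (m : ℕ) :
    (X : P p) ^ k ∣ a ^ m - 1 := by
  induction m with
  | zero => simp
  | succ m ih => rw [pow_succ]; exact b18a_mul p ih ha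

theorem b18a_neg {k : ℕ} {n : E} (h : (X : P p) ^ k ∣ T p n - 1) : (X : P p) ^ k ∣ T p (-n) - 1 := by
  have : T p (-n) - 1 = -(T p (-n)) * (T p n - 1) := by
    have := T_neg_mul p n
    linear_combination this
  rw [this]
  exact dvd_mul_of_dvd_right h _

theorem b18a_frob {n : E} (h : (X : P p) ^ 5 ∣ T p n - 1) : (X : P p) ^ NN p ∣ T p n ^ p - 1 := by
  have : T p n ^ p - 1 = (T p n - 1) ^ p := by rw [sub_pow_char, one_pow]
  rw [this, NN, pow_mul]
  exact pow_dvd_pow_of_dvd h p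

theorem b18a_nu_one (s : ℕ → E) (hs : ∀ n, (X : P p) ^ 5 ∣ T p (s (n + 1)) - 1) (j : ℕ) :
    ∀ l, (X : P p) ^ 5 ∣ T p (b18aNu p s j (l + 1)) - 1 := by
  induction j with
  | zero => intro l; exact b18a_neg p (hs l)
  | succ j ih =>
      intro l
      have e1 : b18aNu p s (j + 1) (l + 1) = (p : ℤ) • b18aNu p s j (l + 1 + 1) + (- s (l + 1)) := by
        rw [b18aNu, sub_eq_add_neg]
      rw [e1, T_add, T_psmul]
      exact b18a_mul p (b18a_pow p (ih (l + 1)) p) (b18a_neg p (hs l))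

theorem b18a_main (hp : 1000 ≤ p) (s : ℕ → E) (hs : ∀ n, (X : P p) ^ 5 ∣ T p (s (n + 1)) - 1)
    {M : Type} [AddCommGroup M] [Module (ZMod p) M] (d : ℕ → M)
    (cc : ℕ → (P p →ₗ[ZMod p] (VI p → M)))
    (hrec : ∀ n, ∀ f ∈ A p, cc n f = tens p (JN p (T p (s n + (p : ℤ) • s (n + 1)) * f)) (d n) +
      cc (n + 1) (cart p (T p (s n) * f))) (i : ℕ) :
    ∀ j l, i ≤ j → cc l (T p (b18aNu p s (j + 1) l + ((p : ℤ) ^ i) • e 0)) =
      tens p (JN p (T p (e 0))) (d (l + i)) := by
  have hp5 : 5 ≤ p := by omega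
  induction i with
  | zero =>
      intro j l _
      have h1 := hrec l _ (T_mem_A p (b18aNu p s (j + 1) l + ((p : ℤ) ^ 0) • e 0))
      rw [h1, ← T_add, ← T_add]
      have e1 : s l + (p : ℤ) • s (l + 1) + (b18aNu p s (j + 1) l + ((p : ℤ) ^ 0) • e 0) =
          (p : ℤ) • (b18aNu p s j (l + 1) + s (l + 1)) + e 0 := by
        have := b18a_nu_succ p s j l
        rw [pow_zero, one_smul, smul_add, ← this]
        abel
      have e2 : s l + (b18aNu p s (j + 1) l + ((p : ℤ) ^ 0) • e 0) =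
          1 • e 0 + (p : ℤ) • b18aNu p s j (l + 1) := by
        have := b18a_nu_succ p s j l
        rw [pow_zero, one_smul, one_smul, ← this]
        abel
      rw [e1, e2, cart_x_pow p 1 le_rfl (by omega), map_zero, add_zero, add_zero]
      congr 1
      cases j with
      | zero =>
          have : b18aNu p s 0 (l + 1) + s (l + 1) = 0 := by simp [b18aNu]
          rw [this, smul_zero, zero_add]
      | succ j =>
          rw [b18a_nu_succ, T_add, T_psmul, T_psmul]
          exact JN_congr p _ _ (b18a_frob p (b18a_nu_one p s hs j (l + 1)))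
  | succ i ih =>
      intro j l hij
      obtain ⟨j, rfl⟩ : ∃ j', j = j' + 1 := ⟨j - 1, by omega⟩
      have h1 := hrec l _ (T_mem_A p (b18aNu p s (j + 1 + 1) l + ((p : ℤ) ^ (i + 1)) • e 0))
      rw [h1, ← T_add, ← T_add]
      have e1 : s l + (p : ℤ) • s (l + 1) + (b18aNu p s (j + 1 + 1) l + ((p : ℤ) ^ (i + 1)) • e 0) =
          (p : ℤ) • (s (l + 1) + (b18aNu p s (j + 1) (l + 1) + ((p : ℤ) ^ i) • e 0)) := by
        have := b18a_nu_succ p s (j + 1) l
        rw [smul_add, smul_add, ← this, smul_smul, ← pow_succ']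
        abel
      have e2 : s l + (b18aNu p s (j + 1 + 1) l + ((p : ℤ) ^ (i + 1)) • e 0) =
          (p : ℤ) • (b18aNu p s (j + 1) (l + 1) + ((p : ℤ) ^ i) • e 0) := by
        have := b18a_nu_succ p s (j + 1) l
        rw [smul_add, ← this, smul_smul, ← pow_succ']
        abel
      have h2 : JN p (T p ((p : ℤ) • (s (l + 1) + (b18aNu p s (j + 1) (l + 1) + ((p : ℤ) ^ i) • e 0)))) = 0 := by
        rw [T_psmul, ← mul_one (T p _ ^ p)]
        exact JN_L p hp5 (one_mem_L p) _
      have h3 : ∀ n : E, cart p (T p ((p : ℤ) • n)) = T p n := by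
        intro n
        rw [← mul_one (T p ((p : ℤ) • n)), cart_T_psmul_mul, cart_one, mul_one]
      rw [e1, e2, h2, h3, ih j (l + 1) (by omega)]
      have h4 : tens p (0 : VI p → ZMod p) (d l) = 0 := by
        funext a; simp [tens]
      rw [h4, zero_add]
      congr 2
      omega

/-- deep sites exist in every legal point -/
theorem exists_deep (hp : 1000 ≤ p) (b : P p →ₗ[ZMod p] (VI p → ZMod p)) (s : ℕ → E)
    (bb : ℕ → (P p →ₗ[ZMod p] (VI p → ZMod p))) (lift : ℕ → E → E) (hH : Hier p b s bb lift) (k : ℕ) :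
    ∃ ν : E, tr p (T p (s 0 + ν)) = tr p 1 ∧ (∀ i ≤ k, b (T p (ν + ((p : ℤ) ^ i) • e 0)) = JN p (T p (e 0))) ∧
      ∀ {M : Type} [AddCommGroup M] [Module (ZMod p) M] (c : P p →ₗ[ZMod p] (VI p → M)) (d : ℕ → M)
        (cc : ℕ → (P p →ₗ[ZMod p] (VI p → M))), Pay p s c d cc →
        c (T p (ν + ((p : ℤ) ^ k) • e 0)) = tens p (JN p (T p (e 0))) (d k) := by
  have htens : ∀ v : VI p → ZMod p, tens p v (1 : ZMod p) = v := by
    intro v; funext a; simp [tens]
  refine ⟨b18aNu p s (k + 1) 0, ?_, ?_, ?_⟩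
  · rw [add_comm, b18a_nu_succ, T_psmul]
    have h := b18a_frob p (b18a_nu_one p s hH.hs k 0)
    funext i
    have h2 := (PowerSeries.X_pow_dvd_iff.mp h) i i.2
    rw [map_sub, sub_eq_zero] at h2
    exact h2
  · intro i hi
    have h := b18a_main p hp s hH.hs (fun _ => (1 : ZMod p)) bb (by
      intro n f hf
      rw [htens]
      exact hH.hrec n f hf) i k 0 hi
    rw [htens, hH.b0] at h
    exact h
  · intro M _ _ c d cc hP
    have h := b18a_main p hp s hH.hs d cc hP.crec k k 0 le_rfl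
    rw [hP.c0, zero_add] at h
    exact h

end Pool.Agent.MB
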