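import Pool.Agent.MB.Defs4
import Pool.Agent.MB.B14b
import Pool.Agent.MB.B17a

/-! MB B18b: soundness in the x-direction. -/

set_option autoImplicit false

namespace Pool.Agent.MB

open PowerSeries Finset

variable (p : ℕ) [hpf : Fact p.Prime]

section tiles

variable {Tl : Type} [DecidableEq Tl]

private theorem b18b_gL0 : gL (0 : Fin 4) = 0 := by simp [gL]

private theorem b18b_joint (s0 : E) (d : A p →ₗ[ZMod p] (VI p → (Tl → ZMod p)))
    (h : ∀ i, obs p s0 i d = 0) : d = 0 := by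
  have key : ∀ (f : P p) (hf : f ∈ A p), d ⟨f, hf⟩ = 0 := by
    intro f hf
    have hf' : f ∈ Submodule.span (ZMod p) (Set.range (T p)) := hf
    induction hf' using Submodule.span_induction with
    | mem x hx =>
      obtain ⟨n, rfl⟩ := hx
      have h1 : d ⟨T p (n + gL 0), T_mem_A p _⟩ = 0 := congrFun (h (Sum.inl n)) 0
      have h2 : (⟨T p n, hf⟩ : A p) = ⟨T p (n + gL 0), T_mem_A p _⟩ :=
        Subtype.ext (by rw [b18b_gL0, add_zero])
      rw [h2]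
      exact h1
    | zero =>
      have h2 : (⟨0, hf⟩ : A p) = 0 := rfl
      rw [h2, map_zero]
    | add x y hx hy hx' hy' =>
      have h2 : (⟨x + y, hf⟩ : A p) = (⟨x, hx⟩ : A p) + ⟨y, hy⟩ := rfl
      rw [h2, map_add, hx' hx, hy' hy, add_zero]
    | smul r x hx hx' =>
      have h2 : (⟨r • x, hf⟩ : A p) = r • (⟨x, hx⟩ : A p) := rfl
      rw [h2, map_smul, hx' hx, smul_zero]
  ext f
  rw [key f.1 f.2]
  rfl

/-- the letters at a dead site -/
private theorem b18b_dead (b : P p →ₗ[ZMod p] (VI p → ZMod p)) (s : ℕ → E)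
    (bb : ℕ → (P p →ₗ[ZMod p] (VI p → ZMod p))) (lift : ℕ → E → E) (hH : Hier p b s bb lift)
    (t : E) (ht : cart p (T p t) = 0) :
    b (T p (t - s 0)) = JN p (T p (t + (p : ℤ) • s 1)) := by
  have h := hH.hrec 0 (T p (t - s 0)) (T_mem_A p _)
  rw [hH.b0, ← T_add, ← T_add] at h
  have e1 : s 0 + (t - s 0) = t := by abel
  have e2 : s 0 + (p : ℤ) • s (0 + 1) + (t - s 0) = t + (p : ℤ) • s 1 := by
    rw [zero_add]; abel
  rw [e1, e2, ht, map_zero, add_zero] at h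
  exact h

/-- x-direction: from the local rules to rows. -/
theorem sound_x (hp : 1000 ≤ p) (H V : Tl → Tl → Prop) (sd : Tl) (w : Cfg p Tl)
    (hr : ∀ n m, LR p H V sd w n m)
    (sx : ℕ → E) (bX : P p →ₗ[ZMod p] (VI p → ZMod p)) (bbX : ℕ → (P p →ₗ[ZMod p] (VI p → ZMod p))) (liftX : ℕ → E → E)
    (hX : Hier p bX sx bbX liftX) (hbX : ∀ n m, w.bx n m = bX (T p n)) (hmX : ∀ n m, w.mx n m = tr p (T p (sx 0 + n)))
    (hIX : ∀ ν m ϑ, WI p (fun j => w.bx (ν + gL j) m) ϑ → Interp p bX ν ϑ)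
    (sy0 : E) (bY : P p →ₗ[ZMod p] (VI p → ZMod p))
    (hbY : ∀ n m, w.by' n m = bY (T p m)) (hmY : ∀ n m, w.my n m = tr p (T p (sy0 + m)))
    (hIY : ∀ n ν ϑ, WI p (fun k => w.by' n (ν + gL k)) ϑ → Interp p bY ν ϑ)
    (c : P p →ₗ[ZMod p] (VI p → (A p →ₗ[ZMod p] (VI p → (Tl → ZMod p)))))
    (hc : ∀ n m a, c (T p n) a ⟨T p m, T_mem_A p m⟩ = w.c n m a) :
    ∃ (d : ℕ → (A p →ₗ[ZMod p] (VI p → (Tl → ZMod p)))) (cc : ℕ → (P p →ₗ[ZMod p] (VI p → (A p →ₗ[ZMod p] (VI p → (Tl → ZMod p)))))),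
      Pay p sx c d cc ∧ (∀ i, rowR0 p V sd sy0 bY i (obs p sy0 i (d 0))) ∧
      ∀ n i, rowR p H V sy0 bY i (obs p sy0 i (d n)) (obs p sy0 i (d (n + 1))) := by
  have hp5 : 5 ≤ p := by omega
  -- the values of the window functionals
  have hval : ∀ (ν m : E) (α : Fin 4 → ZMod p) (a : VI p),
      (c (T p ν * gA p α) a) ⟨T p m, T_mem_A p m⟩ =
        (∑ j, α j • w.c (ν + gL j) m) a := by
    intro ν m α a
    rw [lin_gA, Finset.sum_apply, LinearMap.sum_apply, Finset.sum_apply]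
    refine Finset.sum_congr rfl fun j _ => ?_
    rw [Pi.smul_apply, LinearMap.smul_apply, hc, Pi.smul_apply]
  have hdx : ∀ (t : E), cart p (T p t) = 0 → ∀ m, Dead p (w.mx (t - sx 0) m) := by
    intro t ht m
    rw [hmX, add_sub_cancel, dead_iff p hp5]
    exact ht
  have hdy : ∀ (t : E), cart p (T p t) = 0 → ∀ n, Dead p (w.my n (t - sy0)) := by
    intro t ht n
    rw [hmY, add_sub_cancel, dead_iff p hp5]
    exact ht
  obtain ⟨d, cc, k1, k2, k3, k4, k5⟩ := payload p hp bX sx bbX liftX hX.b0 hX.bn hX.hs hX.hrec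
    hX.l0 hX.ls (fun i => obs p sy0 i) (fun d hd => b18b_joint p sy0 d hd)
    (fun i => rowR0 p V sd sy0 bY i) (fun i => rowR p H V sy0 bY i) c (by
      intro t ht i
      have hb := b18b_dead p bX sx bbX liftX hX t ht
      rcases i with ν | ⟨t', ht'⟩
      · obtain ⟨ϑ', hϑ', x, y, hxy, δ, hδ1, hδ2⟩ := (hr (t - sx 0) ν).2.2.2.1 (hdx t ht ν)
        refine ⟨δ, ⟨ϑ', hIY _ _ _ hϑ', x, y, hxy, hδ2⟩, ?_⟩
        funext a k
        have h1 : obs p sy0 (Sum.inl ν) (c (T p (t - sx 0)) a) k = w.c (t - sx 0) (ν + gL k) a :=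
          hc _ _ _
        rw [h1, hδ1 k, hbX, hb]
        rfl
      · have hsg := (hr (t - sx 0) (t' - sy0)).2.2.2.2.2 (hdx t ht _) (hdy t' ht' _)
        refine ⟨fun _ => tens p (bY (T p (t' - sy0))) (et p sd), fun _ => rfl, ?_⟩
        funext a k
        have h1 : obs p sy0 (Sum.inr ⟨t', ht'⟩) (c (T p (t - sx 0)) a) k =
            w.c (t - sx 0) (t' - sy0) a := hc _ _ _
        rw [h1, hsg, hbX, hb, hbY]
        rfl) (by
      intro ν i
      rcases i with μ | ⟨t', ht'⟩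
      · obtain ⟨ϑ, ϑ', hϑ, hϑ', a, a2, b, b2, hH1, hH2, hV1, hV2, δ, δ', hδ, hδ1, hδ2⟩ :=
          (hr ν μ).2.2.1
        refine ⟨ϑ, hIX _ _ _ hϑ, δ, δ', ⟨ϑ', hIY _ _ _ hϑ', a, a2, b, b2, hH1, hH2, hV1, hV2,
          hδ1, hδ2⟩, ?_⟩
        intro g hg hcc
        obtain ⟨α, rfl⟩ := exists_gA p hp5 hg
        funext a k
        have h1 : obs p sy0 (Sum.inl μ) (c (T p ν * gA p α) a) k =
            (∑ j, α j • w.c (ν + gL j) (μ + gL k)) a := hval _ _ _ _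
        rw [h1, hδ k α hcc]
        rfl
      · obtain ⟨ϑ, hϑ, a, a2, hH1, hδ⟩ := (hr ν (t' - sy0)).2.2.2.2.1 (hdy t' ht' _)
        refine ⟨ϑ, hIX _ _ _ hϑ, fun _ => tens p (bY (T p (t' - sy0))) (et p a),
          fun _ => tens p (bY (T p (t' - sy0))) (et p a2),
          ⟨a, a2, hH1, fun _ => rfl, fun _ => rfl⟩, ?_⟩
        intro g hg hcc
        obtain ⟨α, rfl⟩ := exists_gA p hp5 hg
        funext a k
        have h1 : obs p sy0 (Sum.inr ⟨t', ht'⟩) (c (T p ν * gA p α) a) k =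
            (∑ j, α j • w.c (ν + gL j) (t' - sy0)) a := hval _ _ _ _
        rw [h1, hδ α hcc, hbY]
        rfl)
  exact ⟨d, cc, ⟨k1, k2, k3⟩, k4, k5⟩

end tiles

end Pool.Agent.MB
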