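import Pool.Agent.MB.Defs4
import Pool.Agent.MB.B14b
import Pool.Agent.MB.B17a
import Pool.Agent.MB.B13a

/-! MB B18c: soundness in the y-direction, from rows to tiles. -/

set_option autoImplicit false

namespace Pool.Agent.MB

open PowerSeries Finset

variable (p : ℕ) [hpf : Fact p.Prime]

section tiles

variable {Tl : Type} [DecidableEq Tl]

/-- the pair of adjacent entries -/
private def b18c_pi (n : ℕ) : (ℕ → (Tl → ZMod p)) →ₗ[ZMod p] ((Tl → ZMod p) × (Tl → ZMod p)) where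
  toFun d := (d n, d (n + 1))
  map_add' d d' := rfl
  map_smul' r d := rfl

/-- y-direction: from rows to tiles. -/
theorem sound_y (hp : 1000 ≤ p) (H V : Tl → Tl → Prop) (sd : Tl)
    (sy : ℕ → E) (bY : P p →ₗ[ZMod p] (VI p → ZMod p)) (bbY : ℕ → (P p →ₗ[ZMod p] (VI p → ZMod p))) (liftY : ℕ → E → E)
    (hY : Hier p bY sy bbY liftY)
    (d : ℕ → (A p →ₗ[ZMod p] (VI p → (Tl → ZMod p))))
    (h0 : ∀ i, rowR0 p V sd (sy 0) bY i (obs p (sy 0) i (d 0)))
    (h1 : ∀ n i, rowR p H V (sy 0) bY i (obs p (sy 0) i (d n)) (obs p (sy 0) i (d (n + 1)))) :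
    ∃ D : ℕ → ℕ → Tl, D 0 0 = sd ∧ (∀ i j, H (D i j) (D (i + 1) j)) ∧ (∀ i j, V (D i j) (D i (j + 1))) ∧
      ∃ (c : P p →ₗ[ZMod p] (VI p → (ℕ → (Tl → ZMod p)))) (dd : ℕ → (ℕ → (Tl → ZMod p))) (cc : ℕ → (P p →ₗ[ZMod p] (VI p → (ℕ → (Tl → ZMod p))))),
        Pay p sy c dd cc ∧ (∀ (f : A p) a n, c f a n = d n f a) ∧ ∀ i j, dd j i = et p (D i j) := by
  have hp5 : 5 ≤ p := by omega
  -- the functional
  let c' : A p →ₗ[ZMod p] (VI p → (ℕ → (Tl → ZMod p))) :=
    { toFun := fun f a n => d n f a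
      map_add' := fun f g => by
        funext a n
        simp
      map_smul' := fun r f => by
        funext a n
        simp }
  obtain ⟨c, hc'⟩ := LinearMap.exists_extend c'
  have hc : ∀ (f : A p) a n, c f a n = d n f a := by
    intro f a n
    have := congrFun (congrFun (LinearMap.congr_fun hc' f) a) n
    exact this
  -- the letters of the ground-dead sites
  have hlet : ∀ t : E, cart p (T p t) = 0 → bY (T p (t - sy 0)) = JN p (T p (t + (p : ℤ) • sy 1)) := by
    intro t ht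
    have h2 := hY.hrec 0 (T p (t - sy 0)) (T_mem_A p _)
    rw [hY.b0, ← T_add, ← T_add] at h2
    have e1 : sy 0 + (t - sy 0) = t := by abel
    have e2 : sy 0 + (p : ℤ) • sy (0 + 1) + (t - sy 0) = t + (p : ℤ) • sy 1 := by
      rw [zero_add]; abel
    rw [e1, e2, ht, map_zero, add_zero] at h2
    exact h2
  -- the seed pair
  have hseed : ∃ a2 : Tl, H sd a2 := by
    have ht : cart p (T p (e 0)) = 0 := by
      have := cart_x_pow p 1 le_rfl (by omega) 0
      simpa using this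
    obtain ⟨a, a2, hH, h3, -⟩ := h1 0 (Sum.inr ⟨e 0, ht⟩)
    have h4 := h0 (Sum.inr ⟨e 0, ht⟩) 0
    have h5 := h3 0
    rw [h4] at h5
    have hne : bY (T p (e 0 - sy 0)) ≠ 0 := by
      rw [hlet _ ht]
      exact JN_x_ne_zero p hp (sy 1)
    have h6 := et_inj p hp5 _ _ (tens_inj p _ hne _ _ h5)
    exact ⟨a2, h6 ▸ hH⟩
  obtain ⟨dd, cc, hcc0, hccn, hccr, hR0, hR⟩ := payload p hp bY sy bbY liftY hY.b0 hY.bn hY.hs hY.hrec
    hY.l0 hY.ls (M := ℕ → (Tl → ZMod p)) (I := ℕ) (N := fun _ => (Tl → ZMod p) × (Tl → ZMod p))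
    (b18c_pi p)
    (by
      intro u hu
      funext n
      exact congrArg Prod.fst (hu n))
    (fun n δ => ∃ x x2 : Tl, δ = (et p x, et p x2) ∧ H x x2 ∧ (n = 0 → x = sd))
    (fun _ δ δ' => ∃ a a2 b b2 : Tl, H a a2 ∧ H b b2 ∧ V a b ∧ V a2 b2 ∧ δ = (et p a, et p a2) ∧
      δ' = (et p b, et p b2)) c
    (by
      intro t ht n
      obtain ⟨a, a2, hH, h3, h4⟩ := h1 n (Sum.inr ⟨t, ht⟩)
      have h3' : d n ⟨T p (t - sy 0), T_mem_A p _⟩ = tens p (bY (T p (t - sy 0))) (et p a) := h3 0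
      have h4' : d (n + 1) ⟨T p (t - sy 0), T_mem_A p _⟩ = tens p (bY (T p (t - sy 0))) (et p a2) := h4 0
      have key : ∀ x x2 : Tl, tens p (bY (T p (t - sy 0))) (et p a) = tens p (bY (T p (t - sy 0))) (et p x) →
          tens p (bY (T p (t - sy 0))) (et p a2) = tens p (bY (T p (t - sy 0))) (et p x2) →
          (fun b => b18c_pi p n (c (T p (t - sy 0)) b)) =
            tens p (JN p (T p (t + (p : ℤ) • sy 1))) (et p x, et p x2) := by
        intro x x2 hx hx2
        rw [← hlet t ht]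
        funext b
        have e1 := hc ⟨T p (t - sy 0), T_mem_A p _⟩ b n
        have e2 := hc ⟨T p (t - sy 0), T_mem_A p _⟩ b (n + 1)
        rw [h3', hx] at e1
        rw [h4', hx2] at e2
        exact Prod.ext e1 e2
      by_cases hv : bY (T p (t - sy 0)) = 0
      · obtain ⟨s2, hs2⟩ := hseed
        refine ⟨(et p sd, et p s2), ⟨sd, s2, rfl, hs2, fun _ => rfl⟩, key sd s2 ?_ ?_⟩
        · rw [hv, tens_zero, tens_zero]
        · rw [hv, tens_zero, tens_zero]
      · refine ⟨(et p a, et p a2), ⟨a, a2, rfl, hH, ?_⟩, key a a2 rfl rfl⟩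
        intro hn
        subst hn
        have h5 : d 0 ⟨T p (t - sy 0), T_mem_A p _⟩ = tens p (bY (T p (t - sy 0))) (et p sd) :=
          h0 (Sum.inr ⟨t, ht⟩) 0
        rw [h3'] at h5
        exact et_inj p hp5 _ _ (tens_inj p _ hv _ _ h5))
    (by
      intro ν n
      obtain ⟨ϑ, hI, a, a2, x, x2, hH, hH2, hV, hV2, hW, hW2⟩ := h1 n (Sum.inl ν)
      refine ⟨ϑ, hI, (et p a, et p a2), (et p x, et p x2), ⟨a, a2, x, x2, hH, hH2, hV, hV2, rfl, rfl⟩, ?_⟩
      intro g hg hcc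
      obtain ⟨α, rfl⟩ := exists_gA p hp5 hg
      have e1 := hW α hcc
      have e2 := hW2 α hcc
      have h3 := lin_gA p c ν α
      have h4 : ∀ (m : ℕ) (b : VI p), c (T p ν * gA p α) b m =
          (∑ j, α j • obs p (sy 0) (Sum.inl ν) (d m) j) b := by
        intro m b
        rw [h3, Finset.sum_apply, Finset.sum_apply, Finset.sum_apply]
        refine Finset.sum_congr rfl fun j _ => ?_
        simp only [Pi.smul_apply]
        congr 1
        exact hc ⟨T p (ν + gL j), T_mem_A p _⟩ b m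
      funext b
      refine Prod.ext ?_ ?_
      · show c (T p ν * gA p α) b n = _
        rw [h4 n b, e1]
        rfl
      · show c (T p ν * gA p α) b (n + 1) = _
        rw [h4 (n + 1) b, e2]
        rfl)
  -- the tiles
  have hex : ∀ i j, ∃ a : Tl, dd j i = et p a := by
    intro i j
    obtain ⟨a, a2, b, b2, -, -, -, -, h5, -⟩ := hR j i
    exact ⟨a, congrArg Prod.fst h5⟩
  choose D hD using hex
  refine ⟨D, ?_, ?_, ?_, c, dd, cc, ⟨hcc0, hccn, hccr⟩, hc, hD⟩
  · obtain ⟨x, x2, h5, -, h6⟩ := hR0 0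
    have h7 : dd 0 0 = et p x := congrArg Prod.fst h5
    rw [hD] at h7
    rw [et_inj p hp5 _ _ h7, h6 rfl]
  · intro i j
    obtain ⟨a, a2, b, b2, h1, h2, h3, h4, h5, h6⟩ := hR j i
    have e1 : dd j i = et p a := congrArg Prod.fst h5
    have e2 : dd j (i + 1) = et p a2 := congrArg Prod.snd h5
    rw [hD] at e1 e2
    rw [et_inj p hp5 _ _ e1, et_inj p hp5 _ _ e2]
    exact h1
  · intro i j
    obtain ⟨a, a2, b, b2, h1, h2, h3, h4, h5, h6⟩ := hR j i
    have e1 : dd j i = et p a := congrArg Prod.fst h5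
    have e2 : dd (j + 1) i = et p b := congrArg Prod.fst h6
    rw [hD] at e1 e2
    rw [et_inj p hp5 _ _ e1, et_inj p hp5 _ _ e2]
    exact h3

end tiles

end Pool.Agent.MB
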