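import Pool.Agent.MB.B13a
import Pool.Agent.MB.B14a
import Pool.Agent.MB.B15
import Pool.Agent.MB.B17a
import Pool.Agent.MB.B17b
import Pool.Agent.MB.B18a
import Pool.Agent.MB.B18b
import Pool.Agent.MB.B18c

/-! MB B18d: soundness (both directions together). -/

set_option autoImplicit false

namespace Pool.Agent.MB

open PowerSeries Finset

variable (p : ℕ) [hpf : Fact p.Prime]

/-- a function on `E` invariant under the unit vectors is constant -/
theorem b18d_const {Y : Type*} (f : E → Y) (h : ∀ m j, f (m + e j) = f m) (m : E) : f m = f 0 := by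
  have h1 : ∀ (j : Fin 4) (z : ℤ) (m : E), f (m + z • e j) = f m := by
    intro j z
    induction z using Int.induction_on with
    | zero => intro m; simp
    | succ i ih => intro m; rw [add_smul, one_smul, ← add_assoc, h, ih]
    | pred i ih =>
      intro m
      rw [← h (m + (-(i : ℤ) - 1) • e j) j, add_assoc]
      have : (-(i : ℤ) - 1) • e j + e j = (-(i : ℤ)) • e j := by
        rw [sub_smul, one_smul]; abel
      rw [this, ih]
  have h2 : ∀ S : Finset (Fin 4), f (∑ j ∈ S, m j • e j) = f 0 := by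
    intro S
    induction S using Finset.induction_on with
    | empty => simp
    | insert a S ha ih => rw [Finset.sum_insert ha, add_comm, h1, ih]
  have h3 : m = ∑ j, m j • e j := by
    funext i
    rw [Finset.sum_apply, Finset.sum_eq_single i]
    · simp [e]
    · intro b _ hb
      simp [e, Pi.single_eq_of_ne hb.symm]
    · simp
  rw [h3]
  exact h2 _

section tiles

variable {Tl : Type} [DecidableEq Tl]

/-- SOUNDNESS. -/
theorem soundness (hp : 1000 ≤ p) (H V : Tl → Tl → Prop) (sd : Tl) (w : Cfg p Tl) (hl : w.Lin)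
    (hr : ∀ n m, LR p H V sd w n m) :
    ∃ D : ℕ → ℕ → Tl, D 0 0 = sd ∧ (∀ i j, H (D i j) (D (i + 1) j)) ∧ (∀ i j, V (D i j) (D i (j + 1))) ∧
      ∀ (mk : Tl) (k : ℕ), (∀ n m, ER p mk k w n m) → D k 0 = mk := by
  have hp5 : 5 ≤ p := by omega
  obtain ⟨hl1, hl2, hl3, hl4, hl5⟩ := hl
  -- independence of the other variable
  have cmx : ∀ n m, w.mx n m = w.mx n 0 := fun n m =>
    b18d_const (fun m => w.mx n m) (fun m j => (hr n m).1.2.1 j) m
  have cbx : ∀ n m, w.bx n m = w.bx n 0 := fun n m =>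
    b18d_const (fun m => w.bx n m) (fun m j => (hr n m).1.2.2.1 j) m
  have cmy : ∀ n m, w.my n m = w.my 0 m := fun n m =>
    b18d_const (fun n => w.my n m) (fun n j => (hr n m).2.1.2.1 j) n
  have cby : ∀ n m, w.by' n m = w.by' 0 m := fun n m =>
    b18d_const (fun n => w.by' n m) (fun n j => (hr n m).2.1.2.2.1 j) n
  -- one-dimensional data
  obtain ⟨sx0, bX, hmX, hbX, hPX, hIX⟩ := one_d p hp5 (fun n => w.mx n 0) (fun n => w.bx n 0)
    (hl3.1 0) (fun n => (hr n 0).1.1) (fun n => (hr n 0).1.2.2.2)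
  obtain ⟨sy0, bY, hmY, hbY, hPY, hIY⟩ := one_d p hp5 (fun m => w.my 0 m) (fun m => w.by' 0 m)
    (hl4.2 0) (fun m => (hr 0 m).2.1.1) (fun m => (hr 0 m).2.1.2.2.2)
  -- hierarchies
  obtain ⟨sx, bbX, liftX, hsx, hx0, hx1, hx2, hx3, hx4, hx5⟩ := hierarchy p hp sx0 bX hPX (by
    intro ν
    obtain ⟨ϑ, ϑ', h1, h2, -⟩ := (hr ν 0).2.2.1
    exact ⟨ϑ, hIX ν ϑ h1⟩)
  obtain ⟨sy, bbY, liftY, hsy, hy0, hy1, hy2, hy3, hy4, hy5⟩ := hierarchy p hp sy0 bY hPY (by
    intro ν
    obtain ⟨ϑ, ϑ', h1, h2, -⟩ := (hr 0 ν).2.2.1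
    exact ⟨ϑ', hIY ν ϑ' h2⟩)
  subst hsx
  subst hsy
  have HX : Hier p bX sx bbX liftX := ⟨hx0, hx1, hx2, hx3, hx4, hx5⟩
  have HY : Hier p bY sy bbY liftY := ⟨hy0, hy1, hy2, hy3, hy4, hy5⟩
  -- the two variable functional
  obtain ⟨F, hF⟩ := ext2 p w.c hl5
  let c : P p →ₗ[ZMod p] (VI p → (A p →ₗ[ZMod p] (VI p → (Tl → ZMod p)))) :=
    { toFun := fun f a => (LinearMap.proj a).comp (F f)
      map_add' := by
        intro f g
        funext a
        ext x
        simp
      map_smul' := by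
        intro r f
        funext a
        ext x
        simp }
  have hc : ∀ n m a, c (T p n) a ⟨T p m, T_mem_A p m⟩ = w.c n m a := by
    intro n m a
    show (F (T p n) ⟨T p m, T_mem_A p m⟩) a = w.c n m a
    rw [hF]
  obtain ⟨d, cc, hPay, h0, h1⟩ := sound_x p hp H V sd w hr sx bX bbX liftX HX
    (fun n m => by rw [cbx, hbX]) (fun n m => by rw [cmx]; exact hmX n)
    (fun ν m ϑ hW => hIX ν ϑ (by
      have : (fun j => w.bx (ν + gL j) m) = fun j => w.bx (ν + gL j) 0 := by
        funext j; rw [cbx]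
      rwa [this] at hW))
    (sy 0) bY (fun n m => by rw [cby, hbY]) (fun n m => by rw [cmy]; exact hmY m)
    (fun n ν ϑ hW => hIY ν ϑ (by
      have : (fun k => w.by' n (ν + gL k)) = fun k => w.by' 0 (ν + gL k) := by
        funext j; rw [cby]
      rwa [this] at hW))
    c hc
  obtain ⟨D, hD0, hDH, hDV, cY, dd', ccY, hPayY, hcY, hdd⟩ := sound_y p hp H V sd sy bY bbY liftY HY d h0 h1
  refine ⟨D, hD0, hDH, hDV, ?_⟩
  intro mk k hER
  obtain ⟨ν, hν1, hν2, hν3⟩ := exists_deep p hp bX sx bbX liftX HX k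
  obtain ⟨ν', hν1', hν2', hν3'⟩ := exists_deep p hp bY sy bbY liftY HY 0
  have hx : JN p (T p (e 0)) ≠ 0 := by
    have := JN_x_ne_zero p hp 0
    simpa using this
  have e1 := hν3 c d cc hPay
  have e2 := hν3' cY dd' ccY hPayY
  have hb' := hν2' 0 le_rfl
  simp only [pow_zero, one_smul] at e2 hb'
  have hbX' : ∀ n m, w.bx n m = bX (T p n) := fun n m => by rw [cbx, hbX]
  have hbY' : ∀ n m, w.by' n m = bY (T p m) := fun n m => by rw [cby, hbY]
  have key := hER ν ν' (by rw [cmx]; exact (hmX ν).trans hν1) (by rw [cmy]; exact (hmY ν').trans hν1')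
    (fun i hi => by rw [hbX']; exact hν2 i hi) (by rw [hbY']; exact hb')
  -- the row
  have e3 : tens p (JN p (T p (e 0))) (d k ⟨T p (ν' + e 0), T_mem_A p _⟩) =
      tens p (JN p (T p (e 0))) (tens p (JN p (T p (e 0))) (et p mk)) := by
    rw [← key]
    funext a
    rw [← hc, e1]
    rfl
  have e4 := tens_inj p _ hx _ _ e3
  have e5 : d k ⟨T p (ν' + e 0), T_mem_A p _⟩ = tens p (JN p (T p (e 0))) (et p (D k 0)) := by
    funext a
    have := hcY ⟨T p (ν' + e 0), T_mem_A p _⟩ a k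
    rw [← this]
    show cY (T p (ν' + e 0)) a k = _
    rw [e2]
    show (JN p (T p (e 0)) a • dd' 0) k = _
    rw [Pi.smul_apply, hdd]
    rfl
  rw [e5] at e4
  exact et_inj p hp5 _ _ (tens_inj p _ hx _ _ e4)

end tiles

end Pool.Agent.MB
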