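import Pool.Agent.MB.B12
import Pool.Agent.MB.B15
import Pool.Agent.MB.B16c
import Pool.Agent.MB.B17b

/-! MB B19: completeness. -/

set_option autoImplicit false

namespace Pool.Agent.MB

open PowerSeries Finset

variable (p : ℕ) [hpf : Fact p.Prime]

/-! ### B19 completeness -/

private theorem b19_relA {V : Type*} [AddCommGroup V] [Module (ZMod p) V] (f : A p →ₗ[ZMod p] V) :
    Rel p (fun n => f ⟨T p n, T_mem_A p n⟩) := by
  intro n j
  have h : (⟨T p (n + e j), T_mem_A p _⟩ : A p) =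
      (((j : ℕ) + 1 : ℕ) : ZMod p) • ⟨T p (n + e 0), T_mem_A p _⟩ -
        ((j : ℕ) : ZMod p) • ⟨T p n, T_mem_A p n⟩ := Subtype.ext (T_add_e p n j)
  show f ⟨T p (n + e j), T_mem_A p _⟩ = _
  rw [h, map_sub, map_smul, map_smul]

private theorem b19_relconst {V : Type*} [AddCommGroup V] [Module (ZMod p) V] (v : V) :
    Rel p (fun _ => v) := by
  intro n j
  show v = (((j : ℕ) + 1 : ℕ) : ZMod p) • v - ((j : ℕ) : ZMod p) • v
  rw [← sub_smul]
  push_cast
  rw [add_sub_cancel_left, one_smul]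

private theorem b19_linA {V : Type*} [AddCommGroup V] [Module (ZMod p) V] (f : A p →ₗ[ZMod p] V)
    (ν : E) (a : Fin 4 → ZMod p) :
    ∑ j, a j • f ⟨T p (ν + gL j), T_mem_A p _⟩ =
      f ⟨T p ν * gA p a, T_mul_mem_A p _ (L_le_A p (gA_mem_L p a))⟩ := by
  have h : (⟨T p ν * gA p a, T_mul_mem_A p _ (L_le_A p (gA_mem_L p a))⟩ : A p) =
      ∑ j, a j • ⟨T p (ν + gL j), T_mem_A p _⟩ := by
    apply Subtype.ext
    rw [AddSubmonoidClass.coe_finsetSum]
    show T p ν * gA p a = _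
    unfold gA
    rw [Finset.mul_sum]
    refine Finset.sum_congr rfl fun j _ => ?_
    rw [SetLike.val_smul]
    show T p ν * a j • T p (gL j) = a j • T p (ν + gL j)
    rw [mul_smul_comm, T_add]
  rw [h, map_sum]
  exact Finset.sum_congr rfl fun j _ => (map_smul _ _ _).symm

section tiles

variable {Tl : Type} [DecidableEq Tl]

theorem completeness (hp : 1000 ≤ p) (H V : Tl → Tl → Prop) (sd : Tl) (D : ℕ → ℕ → Tl)
    (h0 : D 0 0 = sd) (hH : ∀ i j, H (D i j) (D (i + 1) j)) (hV : ∀ i j, V (D i j) (D i (j + 1))) :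
    ∃ w : Cfg p Tl, w.Lin ∧ (∀ n m, LR p H V sd w n m) ∧
      ∀ (k : ℕ) (n m : E), ER p (D k 0) k w n m := by
  have hp5 : 5 ≤ p := by omega
  -- the base functional, the rows, the body
  let F : A p →ₗ[ZMod p] (VI p → ZMod p) := Phi p hp5 (fun _ => (1 : ZMod p)) 1
  let row : ℕ → (A p →ₗ[ZMod p] (VI p → (Tl → ZMod p))) :=
    fun i => Phi p hp5 (fun j => et p (D i j)) (et p (D i 0))
  let B : A p →ₗ[ZMod p] (VI p → (A p →ₗ[ZMod p] (VI p → (Tl → ZMod p)))) :=
    Phi p hp5 row (row 0)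
  obtain ⟨th, mm, hth, hCW⟩ := exists_CW p hp5
  -- windows
  have hWI : ∀ ν, WI p (fun j => F ⟨T p (ν + gL j), T_mem_A p _⟩) (th ν) := by
    intro ν
    refine ⟨hth ν, fun a ha => ?_⟩
    show ∑ j, a j • F ⟨T p (ν + gL j), T_mem_A p _⟩ = _
    rw [b19_linA]
    have h1 := hCW (ZMod p) (fun _ => (1 : ZMod p)) ν (gA p a) (gA_mem_L p a) ha
    rw [tens_one, tens_one] at h1
    exact h1
  have hrow : ∀ (i : ℕ) (ν : E), WP p (fun j => row i ⟨T p (ν + gL j), T_mem_A p _⟩) (th ν)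
      (et p (D i (mm ν))) (et p (D i (mm ν + 1))) := by
    intro i ν a ha
    show ∑ j, a j • row i ⟨T p (ν + gL j), T_mem_A p _⟩ = _
    rw [b19_linA]
    exact hCW (Tl → ZMod p) (fun j => et p (D i j)) ν (gA p a) (gA_mem_L p a) ha
  have hbody : ∀ (ν : E) (a : Fin 4 → ZMod p), cart p (cart p (T p (th ν) * gA p a)) = 0 →
      ∑ j, a j • B ⟨T p (ν + gL j), T_mem_A p _⟩ =
        tens p (JN p (T p (th ν) * gA p a)) (row (mm ν)) +
          tens p (JN p (cart p (T p (th ν) * gA p a))) (row (mm ν + 1)) := by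
    intro ν a ha
    rw [b19_linA]
    exact hCW (A p →ₗ[ZMod p] (VI p → (Tl → ZMod p))) row ν (gA p a) (gA_mem_L p a) ha
  -- dead sites
  have hFd : ∀ n, cart p (T p n) = 0 → F ⟨T p n, T_mem_A p n⟩ = JN p (T p n) := by
    intro n hn
    have h1 := Phi_dead p hp5 (fun _ => (1 : ZMod p)) 1 ⟨T p n, T_mem_A p n⟩ hn
    rw [tens_one] at h1
    exact h1
  have hrowd : ∀ i n, cart p (T p n) = 0 →
      row i ⟨T p n, T_mem_A p n⟩ = tens p (JN p (T p n)) (et p (D i 0)) := by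
    intro i n hn
    exact Phi_dead p hp5 (fun j => et p (D i j)) (et p (D i 0)) ⟨T p n, T_mem_A p n⟩ hn
  have hBd : ∀ n, cart p (T p n) = 0 →
      B ⟨T p n, T_mem_A p n⟩ = tens p (JN p (T p n)) (row 0) := by
    intro n hn
    exact Phi_dead p hp5 row (row 0) ⟨T p n, T_mem_A p n⟩ hn
  -- the configuration
  refine ⟨⟨fun n _ => tr p (T p n), fun _ m => tr p (T p m), fun n _ => F ⟨T p n, T_mem_A p n⟩,
    fun _ m => F ⟨T p m, T_mem_A p m⟩,
    fun n m a => B ⟨T p n, T_mem_A p n⟩ a ⟨T p m, T_mem_A p m⟩⟩, ?_, ?_, ?_⟩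
  · -- linearity
    have htr : Rel p (fun n => tr p (T p n)) := by
      intro n j
      funext i
      have h1 := congrArg (PowerSeries.coeff (i : ℕ)) (T_add_e p n j)
      rw [map_sub, map_smul, map_smul] at h1
      exact h1
    refine ⟨⟨fun _ => htr, fun _ => b19_relconst p _⟩, ⟨fun _ => b19_relconst p _, fun _ => htr⟩,
      ⟨fun _ => b19_relA p F, fun _ => b19_relconst p _⟩,
      ⟨fun _ => b19_relconst p _, fun _ => b19_relA p F⟩, ?_, ?_⟩
    · intro m n j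
      funext a
      have h1 := congrFun (b19_relA p B n j) a
      have h2 := congrArg (fun f : A p →ₗ[ZMod p] (VI p → (Tl → ZMod p)) => f ⟨T p m, T_mem_A p m⟩) h1
      exact h2
    · intro n m j
      funext a
      exact b19_relA p (B ⟨T p n, T_mem_A p n⟩ a) m j
  · intro n m
    refine ⟨⟨⟨n, rfl, fun _ => rfl⟩, fun _ => rfl, fun _ => rfl, fun hd => ⟨n, rfl, ?_⟩⟩,
      ⟨⟨m, rfl, fun _ => rfl⟩, fun _ => rfl, fun _ => rfl, fun hd => ⟨m, rfl, ?_⟩⟩, ?_, ?_, ?_, ?_⟩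
    · exact hFd n ((dead_iff p hp5 n).1 hd)
    · exact hFd m ((dead_iff p hp5 m).1 hd)
    · -- tile rule
      refine ⟨th n, th m, hWI n, hWI m, D (mm n) (mm m), D (mm n + 1) (mm m), D (mm n) (mm m + 1),
        D (mm n + 1) (mm m + 1), hH _ _, hH _ _, hV _ _, hV _ _,
        fun k => row (mm n) ⟨T p (m + gL k), T_mem_A p _⟩,
        fun k => row (mm n + 1) ⟨T p (m + gL k), T_mem_A p _⟩, ?_, hrow _ _, hrow _ _⟩
      intro k a ha
      have h1 := hbody n a ha
      funext x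
      have h2 := congrArg (fun f : A p →ₗ[ZMod p] (VI p → (Tl → ZMod p)) =>
        f ⟨T p (m + gL k), T_mem_A p _⟩) (congrFun h1 x)
      have h3 : (∑ j, a j • B ⟨T p (n + gL j), T_mem_A p _⟩) x ⟨T p (m + gL k), T_mem_A p _⟩ =
          (∑ j, a j • fun x => B ⟨T p (n + gL j), T_mem_A p _⟩ x ⟨T p (m + gL k), T_mem_A p _⟩) x := by
        rw [Finset.sum_apply, LinearMap.sum_apply, Finset.sum_apply]
        rfl
      rw [← h3]
      exact h2
    · intro hd
      have hn := (dead_iff p hp5 n).1 hd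
      refine ⟨th m, hWI m, D 0 (mm m), D 0 (mm m + 1), hV _ _,
        fun k => row 0 ⟨T p (m + gL k), T_mem_A p _⟩, ?_, hrow _ _⟩
      intro k
      funext x
      show B ⟨T p n, T_mem_A p n⟩ x ⟨T p (m + gL k), T_mem_A p _⟩ =
        tens p (F ⟨T p n, T_mem_A p n⟩) (row 0 ⟨T p (m + gL k), T_mem_A p _⟩) x
      rw [hBd n hn, hFd n hn]
      rfl
    · intro hd
      have hm := (dead_iff p hp5 m).1 hd
      refine ⟨th n, hWI n, D (mm n) 0, D (mm n + 1) 0, hH _ _, ?_⟩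
      intro a ha
      have h1 := hbody n a ha
      funext x
      have h2 := congrArg (fun f : A p →ₗ[ZMod p] (VI p → (Tl → ZMod p)) =>
        f ⟨T p m, T_mem_A p _⟩) (congrFun h1 x)
      have h3 : (∑ j, a j • B ⟨T p (n + gL j), T_mem_A p _⟩) x ⟨T p m, T_mem_A p _⟩ =
          (∑ j, a j • fun x => B ⟨T p (n + gL j), T_mem_A p _⟩ x ⟨T p m, T_mem_A p _⟩) x := by
        rw [Finset.sum_apply, LinearMap.sum_apply, Finset.sum_apply]
        rfl
      rw [← h3]
      have h4 : tens p (F ⟨T p m, T_mem_A p m⟩) (et p (D (mm n) 0)) =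
          row (mm n) ⟨T p m, T_mem_A p m⟩ := by
        rw [hrowd _ _ hm, hFd m hm]
      have h5 : tens p (F ⟨T p m, T_mem_A p m⟩) (et p (D (mm n + 1) 0)) =
          row (mm n + 1) ⟨T p m, T_mem_A p m⟩ := by
        rw [hrowd _ _ hm, hFd m hm]
      show _ = (tens p _ (tens p (F ⟨T p m, T_mem_A p m⟩) (et p (D (mm n) 0))) +
        tens p _ (tens p (F ⟨T p m, T_mem_A p m⟩) (et p (D (mm n + 1) 0)))) x
      rw [h4, h5]
      exact h2
    · intro hd hd'
      have hn := (dead_iff p hp5 n).1 hd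
      have hm := (dead_iff p hp5 m).1 hd'
      funext x
      show B ⟨T p n, T_mem_A p n⟩ x ⟨T p m, T_mem_A p m⟩ =
        tens p (F ⟨T p n, T_mem_A p n⟩) (tens p (F ⟨T p m, T_mem_A p m⟩) (et p sd)) x
      rw [hBd n hn, hFd n hn, hFd m hm, ← h0, ← hrowd 0 m hm]
      rfl
  · intro k n m h1 h2 h3 h4
    funext x
    show B ⟨T p (n + ((p : ℤ) ^ k) • e 0), T_mem_A p _⟩ x ⟨T p (m + e 0), T_mem_A p _⟩ = _
    have h5 : B ⟨T p (n + ((p : ℤ) ^ k) • e 0), T_mem_A p _⟩ =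
        tens p (JN p (T p (e 0))) (row k) := Phi_deep p hp k n h1 h3 row (row 0)
    rw [h5]
    have h6 : row k ⟨T p (m + e 0), T_mem_A p _⟩ = tens p (JN p (T p (e 0))) (et p (D k 0)) := by
      have h7 : ∀ i ≤ 0, Phi p (by omega : 5 ≤ p) (fun _ => (1 : ZMod p)) 1
          ⟨T p (m + ((p : ℤ) ^ i) • e 0), T_mem_A p _⟩ = JN p (T p (e 0)) := by
        intro i hi
        have hi0 : i = 0 := by omega
        subst hi0
        have h8 : m + ((p : ℤ) ^ 0) • e 0 = m + e 0 := by rw [pow_zero, one_smul]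
        have h9 : (⟨T p (m + ((p : ℤ) ^ 0) • e 0), T_mem_A p _⟩ : A p) =
          ⟨T p (m + e 0), T_mem_A p _⟩ := Subtype.ext (by rw [h8])
        rw [h9]
        exact h4
      have h10 := Phi_deep p hp 0 m h2 h7 (fun j => et p (D k j)) (et p (D k 0))
      have h8 : m + ((p : ℤ) ^ 0) • e 0 = m + e 0 := by rw [pow_zero, one_smul]
      have h9 : (⟨T p (m + ((p : ℤ) ^ 0) • e 0), T_mem_A p _⟩ : A p) =
        ⟨T p (m + e 0), T_mem_A p _⟩ := Subtype.ext (by rw [h8])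
      rw [h9] at h10
      exact h10
    rw [← h6]
    rfl

end tiles

end Pool.Agent.MB
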