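import Pool.Agent.MB.Defs3

/-! MB: the interface between the symbolic side and the group side. -/

set_option autoImplicit false

namespace Pool.Agent.MB

open PowerSeries Finset

variable (p : ℕ) [hpf : Fact p.Prime]

/-- A window rule: a finite set `W` of cells of `E × E` (`E = Fin 4 → ℤ`) and the set `G` of the allowed patterns;
`B` gives the four cell conditions of the additional rule. -/
structure Win (d : ℕ) where
  W : Finset (E × E)
  G : Set (W → (Fin d → ZMod p))
  B : Fin 4 → Set (Fin d → ZMod p)

variable {p}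

/-- Legal configurations: linear in both variables, all windows allowed. -/
def Win.Legal {d : ℕ} (S : Win p d) (w : E → E → (Fin d → ZMod p)) : Prop :=
  Rel2 p w ∧ ∀ n m : E, (fun a : S.W => w (n + (a : E × E).1) (m + (a : E × E).2)) ∈ S.G

/-- The additional rule with parameter `k`: a forbidden conjunction. -/
def Win.Extra {d : ℕ} (S : Win p d) (k : ℕ) (w : E → E → (Fin d → ZMod p)) : Prop :=
  ∀ n m : E, ¬ (w n m ∈ S.B 0 ∧ (∀ i ≤ k, w (n + ((p : ℤ) ^ i) • e 0) m ∈ S.B 1) ∧
    w n (m + e 0) ∈ S.B 2 ∧ w (n + ((p : ℤ) ^ k) • e 0) (m + e 0) ∈ S.B 3)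

end Pool.Agent.MB
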