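import Pool.Agent.MB.B18d
import Pool.Agent.MB.B19
import Pool.Agent.MB.Iface

/-! MB B20: the final theorem of the symbolic side. -/

set_option autoImplicit false

namespace Pool.Agent.MB

open PowerSeries Finset

variable (p : ℕ) [hpf : Fact p.Prime]

/-- The value space of all tracks. -/
abbrev VV (Tl : Type) :=
  (Fin (NN p) → ZMod p) × (Fin (NN p) → ZMod p) × (VI p → ZMod p) × (VI p → ZMod p) × (VI p → (VI p → (Tl → ZMod p)))

/-- The configuration with values in `VV`. -/
def Cfg.toW {Tl : Type} (w : Cfg p Tl) : E → E → VV p Tl := fun n m =>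
  (w.mx n m, w.my n m, w.bx n m, w.by' n m, w.c n m)

/-- The configuration of a function with values in `VV`. -/
def ofW {Tl : Type} (w : E → E → VV p Tl) : Cfg p Tl where
  mx n m := (w n m).1
  my n m := (w n m).2.1
  bx n m := (w n m).2.2.1
  by' n m := (w n m).2.2.2.1
  c n m := (w n m).2.2.2.2

theorem ofW_toW {Tl : Type} (w : Cfg p Tl) : ofW p (w.toW p) = w := rfl

theorem Rel2_map {V V' : Type*} [AddCommGroup V] [Module (ZMod p) V] [AddCommGroup V'] [Module (ZMod p) V']
    (φ : V →ₗ[ZMod p] V') {w : E → E → V} (h : Rel2 p w) : Rel2 p (fun n m => φ (w n m)) := by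
  refine ⟨fun m n j => ?_, fun n m j => ?_⟩
  · have := h.1 m n j
    simp only at this ⊢
    rw [this, map_sub, map_smul, map_smul]
  · have := h.2 n m j
    simp only at this ⊢
    rw [this, map_sub, map_smul, map_smul]

theorem Lin_ofW {Tl : Type} {w : E → E → VV p Tl} (h : Rel2 p w) : (ofW p w).Lin := by
  refine ⟨⟨fun m n j => congrArg (fun v => v.1) (h.1 m n j), fun n m j => congrArg (fun v => v.1) (h.2 n m j)⟩,
    ⟨fun m n j => congrArg (fun v => v.2.1) (h.1 m n j), fun n m j => congrArg (fun v => v.2.1) (h.2 n m j)⟩,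
    ⟨fun m n j => congrArg (fun v => v.2.2.1) (h.1 m n j), fun n m j => congrArg (fun v => v.2.2.1) (h.2 n m j)⟩,
    ⟨fun m n j => congrArg (fun v => v.2.2.2.1) (h.1 m n j), fun n m j => congrArg (fun v => v.2.2.2.1) (h.2 n m j)⟩,
    ⟨fun m n j => congrArg (fun v => v.2.2.2.2) (h.1 m n j), fun n m j => congrArg (fun v => v.2.2.2.2) (h.2 n m j)⟩⟩

theorem Rel2_toW {Tl : Type} {w : Cfg p Tl} (h : w.Lin) : Rel2 p (w.toW p) := by
  obtain ⟨h1, h2, h3, h4, h5⟩ := h
  refine ⟨fun m n j => ?_, fun n m j => ?_⟩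
  · refine Prod.ext (h1.1 m n j) (Prod.ext (h2.1 m n j) (Prod.ext (h3.1 m n j) (Prod.ext (h4.1 m n j) (h5.1 m n j))))
  · refine Prod.ext (h1.2 n m j) (Prod.ext (h2.2 n m j) (Prod.ext (h3.2 n m j) (Prod.ext (h4.2 n m j) (h5.2 n m j))))

/-- Cells used by the local rules, in one variable. -/
def cells : Finset E := (Finset.univ.image fun j : Fin 4 => e j) ∪ (Finset.univ.image fun j : Fin 4 => gL j)

theorem e_mem_cells (j : Fin 4) : e j ∈ cells := by simp [cells]

theorem gL_mem_cells (j : Fin 4) : gL j ∈ cells := by simp [cells]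

theorem zero_mem_cells : (0 : E) ∈ cells := by
  have := gL_mem_cells 0
  simpa [gL] using this

/-- Translate of a configuration. -/
def shift {V : Type*} (n m : E) (w : E → E → V) : E → E → V := fun a b => w (n + a) (m + b)

variable {Tl : Type} [Fintype Tl] [DecidableEq Tl]

theorem LR_shift (H V : Tl → Tl → Prop) (sd : Tl) (w : E → E → VV p Tl) (n m : E) :
    LR p H V sd (ofW p w) n m ↔ LR p H V sd (ofW p (shift n m w)) 0 0 := by
  simp only [LR, RX, RY, TR, GX, GY, SG, ofW, shift, zero_add, add_zero]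

/-- The local rules at `(0, 0)` only depend on the values on `cells × cells`. -/
theorem LR_congr (H V : Tl → Tl → Prop) (sd : Tl) (w w' : E → E → VV p Tl)
    (h : ∀ a ∈ cells, ∀ b ∈ cells, w a b = w' a b) (hw : LR p H V sd (ofW p w) 0 0) :
    LR p H V sd (ofW p w') 0 0 := by
  have h00 := h 0 zero_mem_cells 0 zero_mem_cells
  have he0 := fun j => h (e j) (e_mem_cells j) 0 zero_mem_cells
  have h0e := fun j => h 0 zero_mem_cells (e j) (e_mem_cells j)
  have hgg := fun j k => h (gL j) (gL_mem_cells j) (gL k) (gL_mem_cells k)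
  have hg0 := fun j => h (gL j) (gL_mem_cells j) 0 zero_mem_cells
  have h0g := fun j => h 0 zero_mem_cells (gL j) (gL_mem_cells j)
  simp only [LR, RX, RY, TR, GX, GY, SG, ofW, zero_add, h00, he0, h0e, hgg, hg0, h0g] at hw ⊢
  exact hw

/-- The main theorem of the symbolic side. -/
theorem symbolic_main (hp : 1000 ≤ p) (H V : Tl → Tl → Prop) (sd mk : Tl) :
    ∃ (d : ℕ) (S : Win p d),
      (∀ n : ℕ, (∃ w, S.Legal w ∧ S.Extra (n + 1) w) ↔
        ∃ D : ℕ → ℕ → Tl, D 0 0 = sd ∧ D (n + 1) 0 = mk ∧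
          (∀ i j, H (D i j) (D (i + 1) j)) ∧ ∀ i j, V (D i j) (D i (j + 1))) ∧
      ∀ w, S.Legal w → ∀ n m, w (n + e 0) m ≠ w n m := by
  classical
  have hfin : Module.Finite (ZMod p) (VV p Tl) := inferInstance
  let φ : VV p Tl ≃ₗ[ZMod p] (Fin (Module.finrank (ZMod p) (VV p Tl)) → ZMod p) :=
    (Module.finBasis (ZMod p) (VV p Tl)).equivFun
  let x1 : VI p → ZMod p := JN p (T p (e 0))
  let S : Win p (Module.finrank (ZMod p) (VV p Tl)) :=
    { W := cells ×ˢ cells
      G := {g | ∃ u : E → E → VV p Tl, (∀ a : (cells ×ˢ cells : Finset (E × E)), φ (u (a : E × E).1 (a : E × E).2) = g a) ∧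
        LR p H V sd (ofW p u) 0 0}
      B := fun i => if i = 0 then {v | (φ.symm v).1 = tr p 1 ∧ (φ.symm v).2.1 = tr p 1}
        else if i = 1 then {v | (φ.symm v).2.2.1 = x1}
        else if i = 2 then {v | (φ.symm v).2.2.2.1 = x1}
        else {v | (φ.symm v).2.2.2.2 ≠ tens p x1 (tens p x1 (et p mk))} }
  -- legal points and configurations
  have hleg : ∀ w : E → E → (Fin (Module.finrank (ZMod p) (VV p Tl)) → ZMod p),
      S.Legal w ↔ (ofW p (fun n m => φ.symm (w n m))).Lin ∧
        ∀ n m, LR p H V sd (ofW p (fun n m => φ.symm (w n m))) n m := by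
    intro w
    constructor
    · rintro ⟨h1, h2⟩
      refine ⟨Lin_ofW p (Rel2_map p φ.symm.toLinearMap h1), fun n m => ?_⟩
      obtain ⟨u, hu, hr⟩ := h2 n m
      rw [LR_shift]
      refine LR_congr p H V sd u _ (fun a ha b hb => ?_) hr
      have := hu ⟨(a, b), Finset.mem_product.2 ⟨ha, hb⟩⟩
      simp only at this
      simp only [shift]
      rw [← this, LinearEquiv.symm_apply_apply]
    · rintro ⟨h1, h2⟩
      refine ⟨?_, fun n m => ?_⟩
      · have := Rel2_map p φ.toLinearMap (Rel2_toW p h1)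
        have h3 : (fun n m => φ.toLinearMap ((ofW p (fun n m => φ.symm (w n m))).toW p n m)) = w := by
          funext n m
          show φ (φ.symm (w n m)) = w n m
          rw [LinearEquiv.apply_symm_apply]
        rwa [h3] at this
      · refine ⟨shift n m (fun n m => φ.symm (w n m)), fun a => ?_, ?_⟩
        · simp only [shift, LinearEquiv.apply_symm_apply]
        · rw [← LR_shift]
          exact h2 n m
  have hext : ∀ (k : ℕ) (w : E → E → (Fin (Module.finrank (ZMod p) (VV p Tl)) → ZMod p)),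
      S.Extra k w ↔ ∀ n m, ER p mk k (ofW p (fun n m => φ.symm (w n m))) n m := by
    intro k w
    refine forall_congr' fun n => forall_congr' fun m => ?_
    have b0 : S.B 0 = {v | (φ.symm v).1 = tr p 1 ∧ (φ.symm v).2.1 = tr p 1} := rfl
    have b1 : S.B 1 = {v | (φ.symm v).2.2.1 = x1} := rfl
    have b2 : S.B 2 = {v | (φ.symm v).2.2.2.1 = x1} := rfl
    have b3 : S.B 3 = {v | (φ.symm v).2.2.2.2 ≠ tens p x1 (tens p x1 (et p mk))} := rfl
    rw [b0, b1, b2, b3]
    simp only [Set.mem_ofPred_eq, ER, ofW]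
    constructor
    · intro h h1 h2 h3 h4
      by_contra h5
      exact h ⟨⟨h1, h2⟩, h3, h4, h5⟩
    · rintro h ⟨⟨h1, h2⟩, h3, h4, h5⟩
      exact h5 (h h1 h2 h3 h4)
  refine ⟨_, S, fun n => ⟨?_, ?_⟩, ?_⟩
  · rintro ⟨w, h1, h2⟩
    rw [hleg] at h1
    rw [hext] at h2
    obtain ⟨D, hD0, hH, hV, hD⟩ := soundness p hp H V sd _ h1.1 h1.2
    exact ⟨D, hD0, hD mk (n + 1) h2, hH, hV⟩
  · rintro ⟨D, hD0, hD1, hH, hV⟩
    obtain ⟨w, hl, hr, he⟩ := completeness p hp H V sd D hD0 hH hV
    have hw : ofW p (fun n m => φ.symm (φ (w.toW p n m))) = w := by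
      simp only [LinearEquiv.symm_apply_apply]
      rfl
    refine ⟨fun n m => φ (w.toW p n m), ?_, ?_⟩
    · rw [hleg, hw]
      exact ⟨hl, hr⟩
    · rw [hext, hw]
      intro a b
      have := he (n + 1) a b
      rwa [hD1] at this
  · intro w h n m heq
    rw [hleg] at h
    obtain ⟨⟨κ, h1, h2⟩, -⟩ := (h.2 n m).1
    have h3 := h2 0
    simp only [ofW] at h1 h3
    rw [heq, h1, tr_eq_iff] at h3
    have h4 : T p κ - T p (κ + e 0) = - T p κ * X := by
      rw [T_add, T_e]
      simp only [U, Polynomial.coe_add, Polynomial.coe_one, Polynomial.coe_mul, Polynomial.coe_C, Polynomial.coe_X]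
      simp
      ring
    rw [h4] at h3
    have h5 : (X : P p) ^ NN p ∣ X := by
      have := (isUnit_T p κ).neg
      obtain ⟨v, hv⟩ := this
      rw [← hv] at h3
      exact (Units.dvd_mul_left.1 h3)
    have h6 : (X : P p) ^ 2 ∣ X := (pow_dvd_pow _ (by unfold NN; omega)).trans h5
    rw [PowerSeries.X_pow_dvd_iff] at h6
    have := h6 1 (by norm_num)
    simp at this

end Pool.Agent.MB
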