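import Pool.Agent.MB.B2a

/-! MB B3: fact F3. -/

set_option autoImplicit false

namespace Pool.Agent.MB

open PowerSeries Finset

variable (p : ℕ) [hpf : Fact p.Prime]

private theorem b3_dd_pow_mul (h f : P p) : dd p (h ^ p * f) = h ^ p * dd p f := by
  have h1 : dd p (h ^ p) = 0 := by
    unfold dd
    rw [Derivation.leibniz_pow]
    have : (p : P p) = 0 := CharP.cast_eq_zero (P p) p
    rw [nsmul_eq_mul, this, zero_mul]
  unfold dd at h1 ⊢
  rw [Derivation.leibniz, h1, smul_zero, add_zero, smul_eq_mul]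

private theorem b3_iter_pow_mul (n : ℕ) (h f : P p) :
    (dd p)^[n] (h ^ p * f) = h ^ p * (dd p)^[n] f := by
  induction n with
  | zero => rfl
  | succ n ih => rw [Function.iterate_succ_apply', Function.iterate_succ_apply', ih,
      b3_dd_pow_mul]

private theorem b3_iter_coe (n : ℕ) (f : Polynomial (ZMod p)) :
    (dd p)^[n] (f : P p) = ((Polynomial.derivative^[n] f : Polynomial (ZMod p)) : P p) := by
  induction n with
  | zero => rfl
  | succ n ih =>
    rw [Function.iterate_succ_apply', Function.iterate_succ_apply', ih]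
    exact PowerSeries.derivative_coe _

private theorem b3_iter_add (n : ℕ) (f g : P p) :
    (dd p)^[n] (f + g) = (dd p)^[n] f + (dd p)^[n] g := by
  induction n with
  | zero => rfl
  | succ n ih =>
    rw [Function.iterate_succ_apply', Function.iterate_succ_apply', Function.iterate_succ_apply',
      ih]
    exact map_add _ _ _

private theorem b3_iter_neg (n : ℕ) (f : P p) :
    (dd p)^[n] (-f) = -(dd p)^[n] f := by
  induction n with
  | zero => rfl
  | succ n ih =>
    rw [Function.iterate_succ_apply', Function.iterate_succ_apply', ih]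
    exact map_neg _ _

private theorem b3_iter_sum {ι : Type*} (n : ℕ) (s : Finset ι) (F : ι → P p) :
    (dd p)^[n] (∑ i ∈ s, F i) = ∑ i ∈ s, (dd p)^[n] (F i) := by
  induction n with
  | zero => rfl
  | succ n ih =>
    rw [Function.iterate_succ_apply', ih]
    simp only [Function.iterate_succ_apply']
    exact map_sum _ _ _

private theorem b3_dvd_dd (k : ℕ) (f : P p) (h : (X : P p) ^ (k + 1) ∣ f) :
    (X : P p) ^ k ∣ dd p f := by
  rw [PowerSeries.X_pow_dvd_iff] at h ⊢
  intro m hm
  unfold dd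
  rw [PowerSeries.coeff_derivative, h (m + 1) (by omega), zero_mul]

private theorem b3_dvd_iter (n k : ℕ) (f : P p) (h : (X : P p) ^ (k + n) ∣ f) :
    (X : P p) ^ k ∣ (dd p)^[n] f := by
  induction n generalizing k with
  | zero => simpa using h
  | succ n ih =>
    rw [Function.iterate_succ_apply']
    apply b3_dvd_dd
    apply ih
    have : k + 1 + n = k + (n + 1) := by ring
    rw [this]; exact h

private theorem b3_x : (1 + X : P p) = T p (e 0) := by
  rw [T_e]
  simp [U]

theorem F3 (hp : 5 ≤ p) (f g : P p) (h : JN p f = JN p g) :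
    (X : P p) ^ (p * NN p - 4) ∣ (dd p)^[4] (((Q p : Polynomial (ZMod p)) : P p) * f) -
      (dd p)^[4] (((Q p : Polynomial (ZMod p)) : P p) * g) := by
  set φ : P p := f - g with hφ
  set q : P p := ((Q p : Polynomial (ZMod p)) : P p) with hq
  have hJ : ∀ j < p - 4, (X : P p) ^ (NN p) ∣ J p j φ := by
    intro j hj
    rw [hφ, map_sub]
    exact (JN_eq_iff p f g).1 h j hj
  -- the components of `x Q φ`
  set ψ : P p := T p (e 0) * (q * φ) with hψ
  set F : ℕ → P p := fun i => cart p (T p (-(i : ℤ) • e 0) * ψ) with hF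
  have hdec : ψ = ∑ i ∈ range p, ((1 + X : P p) ^ i) * F i ^ p := decomp p ψ
  have hJform : ∀ j, J p j φ = cart p (T p (e 0) ^ (1 + j) * (q * φ)) := by
    intro j
    unfold J
    simp only [LinearMap.comp_apply, LinearMap.mulLeft_apply]
    rw [Polynomial.coe_mul, Polynomial.coe_pow, T_e, mul_assoc]
  have hF0 : (X : P p) ^ (NN p) ∣ F 0 := by
    have h1 := hJ 0 (by omega)
    rw [hJform] at h1
    have h2 : F 0 = cart p (T p (e 0) ^ (1 + 0) * (q * φ)) := by
      simp only [hF, hψ]
      norm_num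
      rw [T_zero, one_mul]
    rw [h2]; exact h1
  have hFi : ∀ i, 5 ≤ i → i < p → (X : P p) ^ (NN p) ∣ F i := by
    intro i hi hip
    have h1 := hJ (p - i) (by omega)
    rw [hJform] at h1
    have h2 : T p (e 0) ^ (1 + (p - i)) * (q * φ) =
        T p (e 0) ^ p * (T p (-(i : ℤ) • e 0) * ψ) := by
      rw [hψ, ← mul_assoc (T p (-(i : ℤ) • e 0)), ← mul_assoc (T p (e 0) ^ p)]
      congr 1
      rw [← T_nsmul, ← T_nsmul, ← T_add, ← T_add]
      congr 1
      funext j
      simp only [Pi.smul_apply, Pi.add_apply, nsmul_eq_mul, smul_eq_mul]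
      have : ((1 + (p - i) : ℕ) : ℤ) = 1 + (p - i) := by
        push_cast [Nat.cast_sub hip.le]; ring
      simp only [Pi.mul_apply, Pi.natCast_apply]
      rw [this]
      ring
    rw [h2, cart_pow_mul] at h1
    exact ((isUnit_T p (e 0)).dvd_mul_left).1 h1
  -- split off the components `1, 2, 3, 4`
  set S : Finset ℕ := {1, 2, 3, 4} with hS
  have hsub : S ⊆ range p := by
    intro i hi
    rw [hS] at hi
    simp only [mem_insert, mem_singleton] at hi
    rw [mem_range]; omega
  set R : P p := ∑ i ∈ range p \ S, ((1 + X : P p) ^ i) * F i ^ p with hR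
  have hRd : (X : P p) ^ (p * NN p) ∣ R := by
    apply Finset.dvd_sum
    intro i hi
    rw [mem_sdiff, mem_range, hS] at hi
    simp only [mem_insert, mem_singleton] at hi
    have h1 : (X : P p) ^ (NN p) ∣ F i := by
      by_cases h0 : i = 0
      · rw [h0]; exact hF0
      · exact hFi i (by omega) hi.1
    have h2 : ((X : P p) ^ (NN p)) ^ p ∣ F i ^ p := pow_dvd_pow_of_dvd h1 p
    rw [← pow_mul, mul_comm (NN p) p] at h2
    exact h2.mul_left _
  have hsplit : ψ = R + ∑ i ∈ S, ((1 + X : P p) ^ i) * F i ^ p := by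
    rw [hR, Finset.sum_sdiff hsub]; exact hdec
  have hQφ : q * φ = T p (-e 0) * R + ∑ k ∈ range 4, F (k + 1) ^ p * (1 + X : P p) ^ k := by
    have h1 : q * φ = T p (-e 0) * ψ := by
      rw [hψ, ← mul_assoc, T_neg_mul, one_mul]
    rw [h1, hsplit, mul_add]
    congr 1
    have h2 : ∑ i ∈ S, ((1 + X : P p) ^ i) * F i ^ p =
        ∑ k ∈ range 4, ((1 + X : P p) ^ (k + 1)) * F (k + 1) ^ p := by
      rw [hS]
      simp [Finset.sum_range_succ]
      ring
    rw [h2, Finset.mul_sum]
    refine Finset.sum_congr rfl fun k _ => ?_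
    have h3 : T p (-e 0) * (1 + X : P p) = 1 := by rw [b3_x, T_neg_mul]
    calc T p (-e 0) * ((1 + X : P p) ^ (k + 1) * F (k + 1) ^ p)
        = (T p (-e 0) * (1 + X : P p)) * ((1 + X : P p) ^ k * F (k + 1) ^ p) := by
          rw [pow_succ]; ring
      _ = F (k + 1) ^ p * (1 + X : P p) ^ k := by rw [h3]; ring
  have hD0 : ∀ k ∈ range 4, (dd p)^[4] (F (k + 1) ^ p * (1 + X : P p) ^ k) = 0 := by
    intro k hk
    rw [mem_range] at hk
    rw [b3_iter_pow_mul]
    have h1 : (1 + X : P p) ^ k = (((1 + Polynomial.X) ^ k : Polynomial (ZMod p)) : P p) := by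
      simp
    rw [h1, b3_iter_coe, Polynomial.iterate_derivative_eq_zero]
    · simp
    · refine lt_of_le_of_lt (Polynomial.natDegree_pow_le) ?_
      have : (1 + Polynomial.X : Polynomial (ZMod p)).natDegree ≤ 1 := by
        refine (Polynomial.natDegree_add_le _ _).trans ?_
        simp
      calc k * (1 + Polynomial.X : Polynomial (ZMod p)).natDegree ≤ k * 1 := by gcongr
        _ < 4 := by omega
  have hfin : (dd p)^[4] (q * f) - (dd p)^[4] (q * g) = (dd p)^[4] (T p (-e 0) * R) := by
    have h1 : (dd p)^[4] (q * f) - (dd p)^[4] (q * g) = (dd p)^[4] (q * φ) := by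
      rw [sub_eq_add_neg, ← b3_iter_neg, ← b3_iter_add, hφ]
      congr 1
      ring
    rw [h1, hQφ, b3_iter_add, b3_iter_sum, Finset.sum_eq_zero hD0, add_zero]
  rw [hfin]
  apply b3_dvd_iter
  have h4 : 4 ≤ p * NN p := by
    unfold NN
    nlinarith
  rw [Nat.sub_add_cancel h4]
  exact hRd.mul_left _

end Pool.Agent.MB
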