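import Mathlib

/-!
# MB (MP_faf39d_al, symbolic side): definitions

Everything lives in the ring `P p` of power series in `X` over `ZMod p`.  The units are
`T n = ∏ j, (1 + (j+1) X) ^ n j`, `n : E = Fin 4 → ℤ`; put `x = 1 + X`.
`cart f` is the `x^0`-component of `f` in `P = ⊕_{i<p} x^i P^p`.
-/

set_option autoImplicit false

namespace Pool.Agent.MB

open PowerSeries Finset

variable (p : ℕ) [hpf : Fact p.Prime]

/-- The ambient ring. -/
abbrev P := PowerSeries (ZMod p)

/-- Exponent vectors. -/
abbrev E := Fin 4 → ℤ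

/-- The polynomial `1 + (j+1) X`. -/
noncomputable def U (j : Fin 4) : Polynomial (ZMod p) :=
  1 + Polynomial.C (((j : ℕ) + 1 : ℕ) : ZMod p) * Polynomial.X

/-- `Π = u_0 u_1 u_2 u_3`. -/
noncomputable def PI : Polynomial (ZMod p) := U p 0 * U p 1 * U p 2 * U p 3

/-- `Q = u_1 u_2 u_3`. -/
noncomputable def Q : Polynomial (ZMod p) := U p 1 * U p 2 * U p 3

theorem isUnit_U (j : Fin 4) : IsUnit ((U p j : Polynomial (ZMod p)) : P p) := by
  rw [PowerSeries.isUnit_iff_constantCoeff]
  simp [U]

/-- The unit `1 + (j+1) X` of the ring of power series. -/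
noncomputable def uu (j : Fin 4) : (P p)ˣ := (isUnit_U p j).unit

/-- The units `T n`. -/
noncomputable def TU (n : E) : (P p)ˣ := ∏ j, uu p j ^ n j

/-- The units `T n` as power series. -/
noncomputable def T (n : E) : P p := (TU p n : P p)

/-- The standard basis vectors of `E`. -/
def e (j : Fin 4) : E := Pi.single j 1

/-- `n` is divisible by `p`. -/
def Dvd (n : E) : Prop := ∀ j, (p : ℤ) ∣ n j

/-- The series with coefficients `coeff (p n + i) f`. -/
noncomputable def comp (i : ℕ) : P p →ₗ[ZMod p] P p where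
  toFun f := PowerSeries.mk fun n => PowerSeries.coeff (p * n + i) f
  map_add' f g := by ext n; simp
  map_smul' a f := by ext n; simp

/-- The Cartier operator: the `x^0`-component with respect to the basis `x^i = (1+X)^i`, `i < p`,
of `P` over `P^p`. -/
noncomputable def cart : P p →ₗ[ZMod p] P p := ∑ i ∈ range p, ((-1 : ZMod p) ^ i) • comp p i

/-- The letters: `J f j = cart (x^(1+j) Q f)`, used for `j < p - 4`. -/
noncomputable def J (j : ℕ) : P p →ₗ[ZMod p] P p :=
  (cart p).comp (LinearMap.mulLeft (ZMod p) ((((U p 0) ^ (1 + j) * Q p : Polynomial (ZMod p))) : P p))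

/-- The precision. -/
def NN : ℕ := 5 * p

/-- Index set of the letter space. -/
abbrev VI := Fin (p - 4) × Fin (NN p)

/-- The letters mod `X^N`. -/
noncomputable def JN : P p →ₗ[ZMod p] (VI p → ZMod p) where
  toFun f a := PowerSeries.coeff (a.2 : ℕ) (J p a.1 f)
  map_add' f g := by ext a; simp
  map_smul' r f := by ext a; simp

/-- The critical window space: `g` with `Q g` a polynomial of degree at most `3`. -/
noncomputable def L : Submodule (ZMod p) (P p) where
  carrier := {g | ∃ q : Polynomial (ZMod p), q.natDegree ≤ 3 ∧ ((Q p : Polynomial (ZMod p)) : P p) * g = q}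
  add_mem' := by
    rintro a b ⟨q, hq, h⟩ ⟨q', hq', h'⟩
    exact ⟨q + q', (Polynomial.natDegree_add_le _ _).trans (max_le hq hq'), by
      rw [mul_add, h, h', Polynomial.coe_add]⟩
  zero_mem' := ⟨0, by simp, by simp⟩
  smul_mem' := by
    rintro c a ⟨q, hq, h⟩
    exact ⟨c • q, (Polynomial.natDegree_smul_le _ _).trans hq, by
      rw [mul_smul_comm, h, Polynomial.coe_smul]⟩

/-- The span of the units. -/
noncomputable def A : Submodule (ZMod p) (P p) := Submodule.span (ZMod p) (Set.range (T p))

/-- The log derivative polynomial of `T n`: `PI * (T n)' = rho n * T n`. -/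
noncomputable def rho (n : E) : Polynomial (ZMod p) :=
  ∑ j, Polynomial.C ((n j : ZMod p) * (((j : ℕ) + 1 : ℕ) : ZMod p)) * ∏ i ∈ univ.erase j, U p i

/-- The iteration with `PI^i D^i (u r) = u * rr ρ i r` when `PI * u' = ρ * u`. -/
noncomputable def rr (ρ : Polynomial (ZMod p)) : ℕ → Polynomial (ZMod p) → Polynomial (ZMod p)
  | 0, r => r
  | i + 1, r => (ρ - (i : Polynomial (ZMod p)) * Polynomial.derivative (PI p)) * rr ρ i r +
      PI p * Polynomial.derivative (rr ρ i r)

/-- The exponent vector of `u_1 ^ l * Q`. -/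
def th (l : ℕ) : E := fun j => if j = 0 then 0 else if j = 1 then (l : ℤ) + 1 else 1

end Pool.Agent.MB
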