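import Pool.Agent.MB.B1

/-! MB: second file of definitions. -/

set_option autoImplicit false

namespace Pool.Agent.MB

open PowerSeries Finset

variable (p : ℕ) [hpf : Fact p.Prime]

/-- Formal derivative on `P`. -/
noncomputable abbrev dd (f : P p) : P p := PowerSeries.derivative (ZMod p) f

instance charP_P : CharP (P p) p :=
  charP_of_injective_ringHom (f := (PowerSeries.C (R := ZMod p))) PowerSeries.C_injective p

/-- `f ↦ f ^ p` as a linear map. -/
noncomputable def frob : P p →ₗ[ZMod p] P p where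
  toFun f := f ^ p
  map_add' f g := add_pow_char f g p
  map_smul' a f := by
    simp only [RingHom.id_apply]
    rw [smul_pow, ZMod.pow_card]

/-- `qt l q`: `PI^4 D^4 (T (th l) q) = T (th l) * qt l q`. -/
noncomputable def qt (l : ℕ) (q : Polynomial (ZMod p)) : Polynomial (ZMod p) := rr p (rho p (th l)) 4 q

/-- `gt l ε q`: `PI^4 D^4 (T (th l + ε) q) = T (th l + ε) * gt l ε q`. -/
noncomputable def gt (l : ℕ) (ε : E) (q : Polynomial (ZMod p)) : Polynomial (ZMod p) :=
  rr p (rho p (th l + ε)) 4 q

/-- numerator of `dlog (T n * g)`: `PI * D (T n * g) = T n * GG n g`. -/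
noncomputable def GG (n : E) (g : Polynomial (ZMod p)) : Polynomial (ZMod p) :=
  rho p n * g + PI p * Polynomial.derivative g

/-- Value at the site on the site window: `cart (T (th l) g)` is the constant `ev l g` for `g ∈ L`. -/
noncomputable def ev (l : ℕ) : P p →ₗ[ZMod p] ZMod p :=
  ((PowerSeries.coeff 0).comp (cart p)).comp (LinearMap.mulLeft (ZMod p) (T p (th l)))

/-- The values of `l` used in the main lemma. -/
def FF : Finset ℕ := {100, 116, 132, 148, 700, 716, 732, 748}

/-- `ϑ` is an interpretation of `b` at the window `ν`. -/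
def Interp (b : P p →ₗ[ZMod p] (VI p → ZMod p)) (ν ϑ : E) : Prop :=
  ¬ Dvd p ϑ ∧ ∀ g ∈ L p, cart p (cart p (T p ϑ * g)) = 0 →
    b (T p ν * g) = JN p (T p ϑ * g) + JN p (cart p (T p ϑ * g))

/-- The body at the next level. -/
noncomputable def nxt {M : Type*} [AddCommGroup M] [Module (ZMod p) M] (s : E)
    (c : P p →ₗ[ZMod p] M) : P p →ₗ[ZMod p] M :=
  c.comp ((LinearMap.mulLeft (ZMod p) (T p (-s))).comp (frob p))

/-- Tensor of a letter with a payload. -/
def tens {M : Type*} [AddCommGroup M] [Module (ZMod p) M] (v : VI p → ZMod p) (d : M) : VI p → M :=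
  fun a => v a • d

/-- `b` at the dead sites relative to `s` is pure. -/
def Pure (s : E) (b : P p →ₗ[ZMod p] (VI p → ZMod p)) : Prop :=
  ∀ t : E, cart p (T p t) = 0 → ∃ κ : E, (X : P p) ^ NN p ∣ T p κ - T p t ∧ b (T p (t - s)) = JN p (T p κ)

/-- `Q` as a polynomial in `x`: coefficients of `Q(x - 1)`; `Qx 0 = -6`, `Qx 3 = 24`, `Qx r = 0` for `r > 3`. -/
noncomputable def Qx (r : ℕ) : ZMod p := ((Q p).comp (Polynomial.X - 1)).coeff r

end Pool.Agent.MB
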