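import Pool.Agent.MB.Defs3
import Pool.Agent.MB.B12

/-! MB: fourth file of definitions (observations of rows). -/

set_option autoImplicit false

namespace Pool.Agent.MB

open PowerSeries Finset

variable (p : ℕ) [hpf : Fact p.Prime]

section tiles

variable {Tl : Type} [DecidableEq Tl]

/-- the observation of a row -/
noncomputable def obs (s0 : E) (i : E ⊕ {t : E // cart p (T p t) = 0}) :
    (A p →ₗ[ZMod p] (VI p → (Tl → ZMod p))) →ₗ[ZMod p] (Fin 4 → (VI p → (Tl → ZMod p))) where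
  toFun d k := match i with
    | Sum.inl ν => d ⟨T p (ν + gL k), T_mem_A p _⟩
    | Sum.inr t => d ⟨T p (t.1 - s0), T_mem_A p _⟩
  map_add' d d' := by cases i <;> rfl
  map_smul' r d := by cases i <;> rfl

/-- the rule for row `0` seen through the observation `i` -/
def rowR0 (V : Tl → Tl → Prop) (sd : Tl) (s0 : E) (b : P p →ₗ[ZMod p] (VI p → ZMod p))
    (i : E ⊕ {t : E // cart p (T p t) = 0}) (δ : Fin 4 → (VI p → (Tl → ZMod p))) : Prop :=
  match i with
  | Sum.inl ν => ∃ ϑ, Interp p b ν ϑ ∧ ∃ x y : Tl, V x y ∧ WP p δ ϑ (et p x) (et p y)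
  | Sum.inr t => ∀ k, δ k = tens p (b (T p (t.1 - s0))) (et p sd)

/-- the rule for two adjacent rows seen through the observation `i` -/
def rowR (H V : Tl → Tl → Prop) (s0 : E) (b : P p →ₗ[ZMod p] (VI p → ZMod p))
    (i : E ⊕ {t : E // cart p (T p t) = 0}) (δ δ' : Fin 4 → (VI p → (Tl → ZMod p))) : Prop :=
  match i with
  | Sum.inl ν => ∃ ϑ, Interp p b ν ϑ ∧ ∃ a a2 x x2 : Tl, H a a2 ∧ H x x2 ∧ V a x ∧ V a2 x2 ∧
      WP p δ ϑ (et p a) (et p x) ∧ WP p δ' ϑ (et p a2) (et p x2)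
  | Sum.inr t => ∃ a a2 : Tl, H a a2 ∧ (∀ k, δ k = tens p (b (T p (t.1 - s0))) (et p a)) ∧
      ∀ k, δ' k = tens p (b (T p (t.1 - s0))) (et p a2)

end tiles

end Pool.Agent.MB
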